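import Pool.Agent.Lib.MP_b2e5b9_co_D.Defs

/-!
# Counting components by adjacency

Plan. `ncomp_le_of_adj`: exactly the covering argument in the proof of `CubeSys.ncomp_step`
(file `Fat/Rec.lean`; copy it): for `x ∈ W j` the components of `Y` near `x` are all the same
component `ψ x` (by the cell `Q`); `ψ` is locally constant on `W j`, so constant on the components
of `W j`; by `hexit` every component of `Y` is `ψ x` for some `j` and `x ∈ W j`. Use
`encard_image_le_of_factor` and `encard_biUnion_le_sum`.

`ncomp_biUnion_le`: every component of the union contains a point of some `Y j`; the component of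
this point in `Y j` is contained in it (`IsPreconnected.subset_connectedComponentIn`), so the map
from the components of the `Y j` to the components of the union is well defined and surjective.
-/

set_option autoImplicit false

open Set Filter
open scoped Topology

namespace HyperplaneTransversals

theorem ncomp_le_of_adj {X : Type} [TopologicalSpace X] (Y : Set X) {ι : Type} (J : Finset ι)
    (W : ι → Set X)
    (hcell : ∀ j ∈ J, ∀ x ∈ W j, x ∈ closure Y ∧
      ∃ Q ⊆ Y, IsPreconnected Q ∧ ∀ᶠ h in 𝓝 x, h ∈ Y → h ∈ Q)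
    (hexit : ∀ h ∈ Y, ∃ j ∈ J, ∃ x ∈ W j, x ∈ closure (connectedComponentIn Y h)) :
    ncomp Y ≤ ∑ j ∈ J, ncomp (W j) := by
  classical
  set cc : X → Set X := fun x => connectedComponentIn Y x with hcc
  set P : X → Set X → Prop := fun x K => ∀ᶠ h in 𝓝 x, h ∈ Y → cc h = K with hP
  set ψ : X → Set X := fun x => if hx : ∃ K, P x K then hx.choose else ∅ with hψ
  have hPuniq : ∀ x ∈ closure Y, ∀ K L, P x K → P x L → K = L := by
    intro x hx K L hK hL
    have hfr : ∃ᶠ h in 𝓝 x, h ∈ Y := mem_closure_iff_frequently.1 hx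
    obtain ⟨h, hh, hKL⟩ := (hfr.and_eventually (hK.and hL)).exists
    rw [← hKL.1 hh, ← hKL.2 hh]
  have hψP : ∀ x ∈ closure Y, ∀ K, P x K → ψ x = K := by
    intro x hx K hK
    have hex : ∃ K, P x K := ⟨K, hK⟩
    have h1 : ψ x = hex.choose := by simp only [hψ, hex, dif_pos]
    rw [h1]
    exact hPuniq x hx _ _ hex.choose_spec hK
  have hcell' : ∀ j ∈ J, ∀ x ∈ W j, x ∈ closure Y ∧ ∃ K, P x K := by
    intro j hj x hx
    obtain ⟨h1, Q, hQ, hQc, hev⟩ := hcell j hj x hx
    refine ⟨h1, ?_⟩
    obtain ⟨y, hyU, hy⟩ := (mem_closure_iff_frequently.1 h1).and_eventually hev |>.exists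
    refine ⟨cc y, ?_⟩
    filter_upwards [hev] with h hh hhs
    have hyQ := hy hyU
    have hhQ := hh hhs
    exact (connectedComponentIn_eq
      (hQc.subset_connectedComponentIn hyQ hQ hhQ)).symm
  have hconst : ∀ j ∈ J, ∀ x ∈ W j, ∀ y ∈ W j,
      connectedComponentIn (W j) x = connectedComponentIn (W j) y → ψ x = ψ y := by
    intro j hj x hx y hy hxy
    let _ : TopologicalSpace (Set X) := ⊥
    have _ : DiscreteTopology (Set X) := ⟨rfl⟩
    have hpre : IsPreconnected (connectedComponentIn (W j) x) :=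
      isPreconnected_connectedComponentIn
    have hsub := connectedComponentIn_subset (W j) x
    have hc : ContinuousOn ψ (connectedComponentIn (W j) x) := by
      intro z hz
      obtain ⟨hz1, K, hK⟩ := hcell' j hj z (hsub hz)
      have h1 : ∀ᶠ w in 𝓝[connectedComponentIn (W j) x] z, ψ w = ψ z := by
        rw [eventually_nhdsWithin_iff]
        filter_upwards [eventually_eventually_nhds.2 hK] with w hw hwF
        have hw1 := (hcell' j hj w (hsub hwF)).1
        rw [hψP w hw1 K hw, hψP z hz1 K hK]
      exact (continuousWithinAt_const (b := ψ z)).congr_of_eventuallyEq h1 rfl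
    apply hpre.constant hc (mem_connectedComponentIn hx)
    rw [hxy]
    exact mem_connectedComponentIn hy
  have hcover : cc '' Y ⊆ ⋃ j ∈ J, ψ '' (W j) := by
    rintro _ ⟨h, hh, rfl⟩
    obtain ⟨j, hj, x, hx, hcl⟩ := hexit h hh
    obtain ⟨hx1, K, hK⟩ := hcell' j hj x hx
    have hKeq : K = cc h := by
      obtain ⟨y, hyF, hy⟩ := ((mem_closure_iff_frequently.1 hcl).and_eventually hK).exists
      rw [← hy (connectedComponentIn_subset _ _ hyF)]
      exact (connectedComponentIn_eq hyF).symm
    have hval : ψ x = cc h := by rw [hψP x hx1 K hK, hKeq]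
    rw [Set.mem_iUnion₂]
    exact ⟨j, hj, x, hx, hval⟩
  calc ncomp Y = (cc '' Y).encard := rfl
    _ ≤ _ := Set.encard_le_encard hcover
    _ ≤ _ := encard_biUnion_le_sum _ _
    _ ≤ _ := Finset.sum_le_sum fun j hj => encard_image_le_of_factor _ _ _ (hconst j hj)

theorem adj_image_le {X : Type} [TopologicalSpace X] {Y U : Set X} (h : Y ⊆ U) :
    ((fun x => connectedComponentIn U x) '' Y).encard ≤ ncomp Y := by
  refine encard_image_le_of_factor _ _ _ fun x hx y hy hxy => ?_
  have h1 : connectedComponentIn Y x ⊆ connectedComponentIn U x :=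
    isPreconnected_connectedComponentIn.subset_connectedComponentIn
      (mem_connectedComponentIn hx) ((connectedComponentIn_subset Y x).trans h)
  have h2 : y ∈ connectedComponentIn U x := by
    apply h1
    rw [hxy]
    exact mem_connectedComponentIn hy
  exact connectedComponentIn_eq h2

/-- The components of a union. -/
theorem ncomp_biUnion_le {X : Type} [TopologicalSpace X] {ι : Type} (J : Finset ι)
    (Y : ι → Set X) : ncomp (⋃ j ∈ J, Y j) ≤ ∑ j ∈ J, ncomp (Y j) := by
  have h1 : (fun x => connectedComponentIn (⋃ j ∈ J, Y j) x) '' (⋃ j ∈ J, Y j) ⊆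
      ⋃ j ∈ J, (fun x => connectedComponentIn (⋃ j ∈ J, Y j) x) '' (Y j) := by
    rintro _ ⟨x, hx, rfl⟩
    rw [Set.mem_iUnion₂] at hx ⊢
    obtain ⟨j, hj, hxj⟩ := hx
    exact ⟨j, hj, x, hxj, rfl⟩
  calc ncomp (⋃ j ∈ J, Y j)
      = ((fun x => connectedComponentIn (⋃ j ∈ J, Y j) x) '' (⋃ j ∈ J, Y j)).encard := rfl
    _ ≤ _ := Set.encard_le_encard h1
    _ ≤ _ := encard_biUnion_le_sum _ _
    _ ≤ _ := Finset.sum_le_sum fun j hj =>
        adj_image_le (Set.subset_biUnion_of_mem (u := fun j => Y j) hj)

theorem ncomp_union_le {X : Type} [TopologicalSpace X] (Y Z : Set X) :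
    ncomp (Y ∪ Z) ≤ ncomp Y + ncomp Z := by
  have h1 : (fun x => connectedComponentIn (Y ∪ Z) x) '' (Y ∪ Z) =
      (fun x => connectedComponentIn (Y ∪ Z) x) '' Y ∪
        (fun x => connectedComponentIn (Y ∪ Z) x) '' Z := Set.image_union _ _ _
  calc ncomp (Y ∪ Z) = ((fun x => connectedComponentIn (Y ∪ Z) x) '' (Y ∪ Z)).encard := rfl
    _ ≤ _ := by rw [h1]; exact Set.encard_union_le _ _
    _ ≤ _ := add_le_add (adj_image_le Set.subset_union_left)
        (adj_image_le Set.subset_union_right)

theorem ncomp_empty {X : Type} [TopologicalSpace X] : ncomp (∅ : Set X) = 0 := by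
  simp [ncomp]

end HyperplaneTransversals
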