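import Pool.Agent.Lib.MP_b2e5b9_co_D.Adj

/-!
# Counting components on a curve with breakpoints

Plan. Every component `L` of `Y s ∩ c '' Icc a b` contains a point `c θ`, `θ ∈ Icc a b`. Code: `θ`
itself if `θ ∈ Bk`, otherwise the number of breakpoints below `θ`, an element of
`{0, …, Bk.card}`. For fixed `s`, if `θ ≤ θ'` are not in `Bk` and have the same number of
breakpoints below them then there is no breakpoint in `[θ, θ']`, so `c '' [θ, θ'] ⊆ Y s`
(apply `hB` to `θ` and the points between) is connected and `c θ`, `c θ'` are in the same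
component. So for fixed `s` every code is used by at most one component. For a fixed code the set
of the `s ∈ S` which use it has at most `μ` elements: for a breakpoint `x` they all satisfy
`c x ∈ Y s`, and for a number `k` all `θ` with code `k` belong to the same sets `Y s` by `hB`. Use
`encard_le_of_rel` (file `Fat/Core1.lean`) with the target
`S`-tagged codes, or count the pairs (component, code) by double counting; the set of pairs
`(s, L)` has cardinality `∑ s ∈ S, ncomp _`.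
-/

set_option autoImplicit false

open Set Filter
open scoped Topology

namespace HyperplaneTransversals

open Classical in
/-- the code of a parameter -/
private noncomputable def penc_code (Bk : Finset ℝ) (θ : ℝ) : ℝ ⊕ ℕ :=
  if θ ∈ Bk then Sum.inl θ else Sum.inr (Bk.filter (fun x => x < θ)).card

private theorem penc_mem (Bk : Finset ℝ) (θ : ℝ) :
    penc_code Bk θ ∈ Bk.disjSum (Finset.range (Bk.card + 1)) := by
  classical
  unfold penc_code
  split_ifs with h
  · exact Finset.inl_mem_disjSum.2 h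
  · refine Finset.inr_mem_disjSum.2 (Finset.mem_range.2 (Nat.lt_succ_of_le ?_))
    convert Finset.card_filter_le Bk (fun x => x < θ)

private theorem penc_sep {Bk : Finset ℝ} {θ θ' : ℝ} (h : penc_code Bk θ = penc_code Bk θ')
    (hle : θ ≤ θ') : θ = θ' ∨ ∀ x ∈ Bk, x ∉ Icc θ θ' := by
  classical
  unfold penc_code at h
  split_ifs at h with h1 h2 h2
  · exact Or.inl (Sum.inl.inj h)
  · right
    intro x hx hxI
    have h3 := Sum.inr.inj h
    have h4 : θ < x := lt_of_le_of_ne hxI.1 fun e => h1 (e ▸ hx)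
    have h5 : x < θ' := lt_of_le_of_ne hxI.2 fun e => h2 (e ▸ hx)
    have h6 : Bk.filter (fun x => x < θ) ⊂ Bk.filter (fun x => x < θ') := by
      rw [Finset.ssubset_iff_of_subset]
      · exact ⟨x, Finset.mem_filter.2 ⟨hx, h5⟩, fun h => absurd (Finset.mem_filter.1 h).2 h4.not_gt⟩
      · intro y hy
        obtain ⟨k1, k2⟩ := Finset.mem_filter.1 hy
        exact Finset.mem_filter.2 ⟨k1, lt_of_lt_of_le k2 hle⟩
    have h7 := Finset.card_lt_card h6
    have h8 : (Bk.filter (fun x => x < θ)).card = (Bk.filter (fun x => x < θ')).card := by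
      convert h3
    omega

open Classical in
theorem count_labels {X : Type} [TopologicalSpace X] {Λ : Type} (S : Finset Λ) (Y : Λ → Set X)
    (μ : ℕ) (hμ : ∀ x, (S.filter (fun s => x ∈ Y s)).card ≤ μ) {a b : ℝ} (c : ℝ → X)
    (hc : ContinuousOn c (Icc a b)) (Bk : Finset ℝ)
    (hB : ∀ θ ∈ Icc a b, ∀ θ' ∈ Icc a b, θ ≤ θ' → (∀ x ∈ Bk, x ∉ Icc θ θ') →
      ∀ s ∈ S, (c θ ∈ Y s ↔ c θ' ∈ Y s)) :
    ∑ s ∈ S, ncomp (Y s ∩ c '' Icc a b) ≤ ((μ * (2 * Bk.card + 1) : ℕ) : ℕ∞) := by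
  have hiff : ∀ s ∈ S, ∀ θ ∈ Icc a b, ∀ θ' ∈ Icc a b, penc_code Bk θ = penc_code Bk θ' →
      (c θ ∈ Y s ↔ c θ' ∈ Y s) := by
    intro s hs θ hθ θ' hθ' he
    rcases le_total θ θ' with hle | hle
    · rcases penc_sep he hle with h | h
      · rw [h]
      · exact hB θ hθ θ' hθ' hle h s hs
    · rcases penc_sep he.symm hle with h | h
      · rw [h]
      · exact (hB θ' hθ' θ hθ hle h s hs).symm
  have hle1 : ∀ s ∈ S, ∀ θ ∈ Icc a b, ∀ θ' ∈ Icc a b, penc_code Bk θ = penc_code Bk θ' →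
      θ ≤ θ' → c θ ∈ Y s → connectedComponentIn (Y s ∩ c '' Icc a b) (c θ) =
        connectedComponentIn (Y s ∩ c '' Icc a b) (c θ') := by
    intro s hs θ hθ θ' hθ' he hle hY
    rcases penc_sep he hle with h | h
    · rw [h]
    · have hsub : Icc θ θ' ⊆ Icc a b := Icc_subset_Icc hθ.1 hθ'.2
      have h1 : c '' Icc θ θ' ⊆ Y s ∩ c '' Icc a b := by
        rintro _ ⟨x, hx, rfl⟩
        refine ⟨(hB θ hθ x (hsub hx) hx.1 (fun y hy hyI => h y hy ⟨hyI.1, hyI.2.trans hx.2⟩)
          s hs).1 hY, x, hsub hx, rfl⟩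
      have h2 : IsPreconnected (c '' Icc θ θ') :=
        isPreconnected_Icc.image c (hc.mono hsub)
      exact connectedComponentIn_eq (h2.subset_connectedComponentIn
        ⟨θ, left_mem_Icc.2 hle, rfl⟩ h1 ⟨θ', right_mem_Icc.2 hle, rfl⟩)
  have hsame : ∀ s ∈ S, ∀ θ ∈ Icc a b, ∀ θ' ∈ Icc a b, penc_code Bk θ = penc_code Bk θ' →
      c θ ∈ Y s → connectedComponentIn (Y s ∩ c '' Icc a b) (c θ) =
        connectedComponentIn (Y s ∩ c '' Icc a b) (c θ') := by
    intro s hs θ hθ θ' hθ' he hY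
    rcases le_total θ θ' with hle | hle
    · exact hle1 s hs θ hθ θ' hθ' he hle hY
    · exact (hle1 s hs θ' hθ' θ hθ he.symm hle ((hiff s hs θ hθ θ' hθ' he).1 hY)).symm
  set T : Finset (ℝ ⊕ ℕ) := Bk.disjSum (Finset.range (Bk.card + 1)) with hT
  have hTc : T.card = 2 * Bk.card + 1 := by
    rw [hT, Finset.card_disjSum, Finset.card_range]
    ring
  set used : Λ → (ℝ ⊕ ℕ) → Prop := fun s t =>
    ∃ θ, θ ∈ Icc a b ∧ penc_code Bk θ = t ∧ c θ ∈ Y s with hused
  have hA : ∀ s ∈ S, ncomp (Y s ∩ c '' Icc a b) ≤ ((T.filter (used s)).card : ℕ∞) := by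
    intro s hs
    have h0 : ∀ t, used s t → ∃ θ, θ ∈ Icc a b ∧ penc_code Bk θ = t ∧ c θ ∈ Y s := fun t h => h
    choose! g hg using h0
    have hsub : (fun x => connectedComponentIn (Y s ∩ c '' Icc a b) x) '' (Y s ∩ c '' Icc a b) ⊆
        (fun t => connectedComponentIn (Y s ∩ c '' Icc a b) (c (g t))) ''
          ((T.filter (used s) : Finset (ℝ ⊕ ℕ)) : Set (ℝ ⊕ ℕ)) := by
      rintro _ ⟨x, ⟨hxY, θ, hθ, rfl⟩, rfl⟩
      have hu : used s (penc_code Bk θ) := ⟨θ, hθ, rfl, hxY⟩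
      obtain ⟨h1, h2, h3⟩ := hg _ hu
      exact ⟨penc_code Bk θ, Finset.mem_coe.2 (Finset.mem_filter.2 ⟨penc_mem Bk θ, hu⟩),
        hsame s hs _ h1 θ hθ h2 h3⟩
    calc ncomp (Y s ∩ c '' Icc a b) ≤ _ := Set.encard_le_encard hsub
      _ ≤ ((T.filter (used s) : Finset (ℝ ⊕ ℕ)) : Set (ℝ ⊕ ℕ)).encard :=
        Set.encard_image_le _ _
      _ = ((T.filter (used s)).card : ℕ∞) := Set.encard_coe_eq_coe_finsetCard _
  have hBd : ∀ t ∈ T, (S.filter (fun s => used s t)).card ≤ μ := by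
    intro t _
    rcases (S.filter (fun s => used s t)).eq_empty_or_nonempty with he | ⟨s₀, hs₀⟩
    · rw [he, Finset.card_empty]
      exact Nat.zero_le _
    · obtain ⟨hs, θ, hθ, hcode, -⟩ := Finset.mem_filter.1 hs₀
      refine (Finset.card_le_card fun s hs' => ?_).trans (hμ (c θ))
      obtain ⟨k1, θ', hθ', hcode', hY'⟩ := Finset.mem_filter.1 hs'
      exact Finset.mem_filter.2 ⟨k1, (hiff s k1 θ' hθ' θ hθ (hcode'.trans hcode.symm)).1 hY'⟩
  have hcnt : ∑ s ∈ S, (T.filter (used s)).card = ∑ t ∈ T, (S.filter (fun s => used s t)).card :=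
    Finset.sum_card_bipartiteAbove_eq_sum_card_bipartiteBelow used
  calc ∑ s ∈ S, ncomp (Y s ∩ c '' Icc a b) ≤ ∑ s ∈ S, ((T.filter (used s)).card : ℕ∞) :=
        Finset.sum_le_sum hA
    _ = ((∑ s ∈ S, (T.filter (used s)).card : ℕ) : ℕ∞) := by push_cast; rfl
    _ ≤ ((μ * (2 * Bk.card + 1) : ℕ) : ℕ∞) := by
        refine Nat.cast_le.2 ?_
        rw [hcnt, ← hTc, mul_comm, ← smul_eq_mul]
        exact Finset.sum_le_card_nsmul _ _ _ hBd

end HyperplaneTransversals
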