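import Pool.Agent.Lib.MP_b2e5b9_co_D.Defs

/-!
# Common tangents with prescribed functions: existence, uniqueness, continuity

`B` is a separated family of convex bodies; the functions `F j` generalise support functions of
subsets of the members `B (I j)` (`TanSys`, file `Fat/Tangent.lean`). The orientation `orient B I`
distinguishes the two solutions.

Plan. `exists_touch`: by `TanSys.mv` with `v = 0` and `TanSys.apply_zero` there is `a j ∈ B (I j)`
with `⟪a j, u⟫ = F j u = t`. Then `orient_mul_vol_pos` (file `Fat/Geom.lean`) gives the sign.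
`sol_unique`: `TanSys.unique` with `ε = orient B I h`. `sol_exists`: `TanSys.exists_sol`, the
orientation by `eq_of_sign` and `orient_mul_vol_pos` as in `Fam.exists_solution`.
`sol_continuousOn`: as `thePt_continuousOn` (file `Fat/Geom.lean`): all values `g p`, `p ∈ s`, lie
in the compact set of the `h` with `|pos (B (I j)) h| ≤ 1` for all `j` (see how compactness is
obtained there; it is enough that `h` meets `B (I 0)`: the unit sphere times a bounded interval);
a cluster point `h` of `g` along `𝓝[s] p₀` satisfies `F p₀ j h.1 = h.2` (joint continuity, limits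
are unique) and `orient B I h = ε` (`isClosed_ori`), so it is `g p₀` by `sol_unique`; conclude with
`IsCompact.tendsto_nhds_of_unique_mapClusterPt` (the lemma used in `thePt_continuousOn`).
-/

set_option autoImplicit false

open scoped RealInnerProductSpace Topology

namespace HyperplaneTransversals

variable {m n : ℕ} {B : Fin n → Set (E (m + 2))} {I : Fin (m + 2) → Fin n}

/-- A position of a hyperplane that meets `K`. -/
theorem exists_lev {d : ℕ} {K : Set (E d)} {u : E d} {t : ℝ} (h1 : lo K u ≤ t) (h2 : t ≤ hi K u) :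
    ∃ q : ℝ, |q| ≤ 1 ∧ lev K q u = t := by
  by_cases h : lo K u = hi K u
  · refine ⟨0, by simp, ?_⟩
    unfold lev
    linarith
  · have hlt : 0 < hi K u - lo K u := sub_pos.2 (lt_of_le_of_ne (h1.trans h2) h)
    refine ⟨(2 * t - hi K u - lo K u) / (hi K u - lo K u), ?_, ?_⟩
    · rw [abs_le, le_div_iff₀ hlt, div_le_iff₀ hlt]
      constructor <;> linarith
    · unfold lev
      field_simp
      ring

/-- The position is unique if the hyperplane does not contain `K`, and it is in the open interval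
for a strict crossing. -/
theorem lev_inj {d : ℕ} {K : Set (E d)} {u : E d} (h : lo K u < hi K u) {q q' : ℝ}
    (hq : lev K q u = lev K q' u) : q = q' := by
  unfold lev at hq
  have h1 : (q - q') * (hi K u - lo K u) = 0 := by linarith
  rcases mul_eq_zero.1 h1 with h2 | h2
  · linarith
  · linarith

theorem abs_lt_one_of_lev {d : ℕ} {K : Set (E d)} {u : E d} {q : ℝ} (h1 : lo K u < lev K q u)
    (h2 : lev K q u < hi K u) : |q| < 1 := by
  unfold lev at h1 h2
  have h3 : 0 < hi K u - lo K u := by linarith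
  have h4 : 0 < (1 + q) * (hi K u - lo K u) := by linarith
  have h5 : 0 < (1 - q) * (hi K u - lo K u) := by linarith
  have h6 := (pos_iff_pos_of_mul_pos h4).2 h3
  have h7 := (pos_iff_pos_of_mul_pos h5).2 h3
  rw [abs_lt]
  constructor <;> linarith

theorem lev_mem_Icc {d : ℕ} {K : Set (E d)} {u : E d} (h : lo K u ≤ hi K u) {q : ℝ}
    (hq : |q| ≤ 1) : lo K u ≤ lev K q u ∧ lev K q u ≤ hi K u := by
  have h1 := abs_le.1 hq
  unfold lev
  have h2 : 0 ≤ (1 + q) * (hi K u - lo K u) := mul_nonneg (by linarith) (by linarith)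
  have h3 : 0 ≤ (1 - q) * (hi K u - lo K u) := mul_nonneg (by linarith) (by linarith)
  constructor <;> linarith

/-- A hyperplane contains `K` if and only if its offset equals both support values. -/
theorem mem_Cont_iff {d : ℕ} {K : Set (E d)} (hK : IsCompact K) (hne : K.Nonempty) (h : OH d) :
    h ∈ Cont K ↔ h.2 = hi K h.1 ∧ h.2 = lo K h.1 := by
  constructor
  · intro hh
    obtain ⟨x, hx, hx'⟩ := exists_hi hK hne (h.1 : E d)
    obtain ⟨y, hy, hy'⟩ := exists_lo hK hne (h.1 : E d)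
    exact ⟨by rw [← hx', hh x hx], by rw [← hy', hh y hy]⟩
  · rintro ⟨h1, h2⟩ x hx
    have h3 := le_hi hK (h.1 : E d) hx
    have h4 := lo_le hK (h.1 : E d) hx
    linarith

/-- Level functions of compact convex subsets of the members form a `TanSys`. -/
theorem tanSys_lev (hB : Fam B) (hI : Function.Injective I) {K : Fin (m + 2) → Set (E (m + 2))}
    (hK : ∀ j, IsCompact (K j) ∧ Convex ℝ (K j) ∧ (K j).Nonempty ∧ K j ⊆ B (I j))
    {q : Fin (m + 2) → ℝ} (hq : ∀ j, |q j| ≤ 1) :
    TanSys (fun j => B (I j)) (fun j => lev (K j) (q j)) := by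
  refine ⟨fun j => hB.compact (I j), fun j => hB.convex (I j), fun j => hB.nonempty (I j),
    fun a ha => hB.indep hI a ha, fun j c hc u => lev_smul (hK j).1 (hK j).2.2.1 _ c hc u,
    fun j u v => ?_⟩
  obtain ⟨C, _, hC⟩ := exists_bound (hK j).1
  obtain ⟨a, ha, ha', _⟩ := exists_mv_hi (hK j).1 (hK j).2.1 (hK j).2.2.1 hC u v
  obtain ⟨b, hb, hb', _⟩ := exists_mv_lo (hK j).1 (hK j).2.1 (hK j).2.2.1 hC u v
  exact ⟨_, (hK j).2.2.2 (combo_mem (hK j).2.1 (hq j) ha hb), (lev_mv ha' hb').symm⟩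

variable {F : Fin (m + 2) → E (m + 2) → ℝ}

theorem exists_touch (hT : TanSys (fun j => B (I j)) F) {h : OH (m + 2)}
    (hF : ∀ j, F j h.1 = h.2) :
    ∃ a : Fin (m + 2) → E (m + 2), ∀ j, a j ∈ B (I j) ∧ ⟪(h.1 : E (m + 2)), a j⟫ = h.2 := by
  have h1 : ∀ j, ∃ a ∈ B (I j), ⟪(h.1 : E (m + 2)), a⟫ = h.2 := by
    intro j
    obtain ⟨a, ha, hau⟩ := hT.mv j (h.1 : E (m + 2)) 0
    refine ⟨a, ha, ?_⟩
    rw [hT.apply_zero, sub_zero, sub_zero, hF j] at hau
    rw [real_inner_comm]
    exact hau.symm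
  choose a ha ha' using h1
  exact ⟨a, fun j => ⟨ha j, ha' j⟩⟩

theorem sol_unique (hB : Fam B) (hI : Function.Injective I)
    (hT : TanSys (fun j => B (I j)) F) {h h' : OH (m + 2)} (hF : ∀ j, F j h.1 = h.2)
    (hF' : ∀ j, F j h'.1 = h'.2) (ho : orient B I h = orient B I h') : h = h' := by
  obtain ⟨a, ha⟩ := exists_touch hT hF
  obtain ⟨a', ha'⟩ := exists_touch hT hF'
  have hn : ∀ u : Metric.sphere (0 : E (m + 2)) 1, ‖(u : E (m + 2))‖ = 1 := fun u => by simp
  have := hT.unique (orient_mem B I h) (hn h.1) (hn h'.1) hF hF'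
    ⟨a, fun j => ⟨(ha j).1, by
      rw [real_inner_comm]
      exact (ha j).2⟩, orient_mul_vol_pos hB hI (fun j => (ha j).1) (fun j => (ha j).2)⟩
    ⟨a', fun j => ⟨(ha' j).1, by
      rw [real_inner_comm]
      exact (ha' j).2⟩, ho ▸ orient_mul_vol_pos hB hI (fun j => (ha' j).1) (fun j => (ha' j).2)⟩
  exact Prod.ext (Subtype.ext this.1) this.2

theorem sol_exists (hB : Fam B) (hI : Function.Injective I)
    (hT : TanSys (fun j => B (I j)) F) {ε : ℝ} (hε : ε = 1 ∨ ε = -1) :
    ∃ h : OH (m + 2), (∀ j, F j h.1 = h.2) ∧ orient B I h = ε := by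
  obtain ⟨u, hu, t, hF, a, ha, hpos⟩ := hT.exists_sol hε
  refine ⟨(⟨u, by simpa using hu⟩, t), hF, ?_⟩
  refine eq_of_sign (orient_mem _ _ _) hε (v := vol a u) ?_ hpos
  refine orient_mul_vol_pos hB hI (h := (⟨u, by simpa using hu⟩, t)) (fun j => (ha j).1)
    fun j => ?_
  rw [real_inner_comm]
  exact (ha j).2

theorem sol_continuousOn (hB : Fam B) (hI : Function.Injective I) {P : Type}
    [TopologicalSpace P] {s : Set P} {F : P → Fin (m + 2) → E (m + 2) → ℝ}
    (hT : ∀ p ∈ s, TanSys (fun j => B (I j)) (F p))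
    (hc : ∀ j, ContinuousOn (fun z : P × E (m + 2) => F z.1 j z.2) (s ×ˢ Set.univ)) {ε : ℝ}
    {g : P → OH (m + 2)}
    (hg : ∀ p ∈ s, (∀ j, F p j (g p).1 = (g p).2) ∧ orient B I (g p) = ε) :
    ContinuousOn g s := by
  intro p₀ hp₀
  refine (isCompact_ori hB hI ε).tendsto_nhds_of_unique_mapClusterPt ?_ ?_
  · filter_upwards [self_mem_nhdsWithin] with p hp
    obtain ⟨a, ha⟩ := exists_touch (hT p hp) (hg p hp).1
    exact ⟨fun j => (meets_iff hB (I j) (g p)).1 ⟨a j, (ha j).1, (ha j).2⟩, (hg p hp).2⟩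
  · rintro h ⟨-, ho⟩ hcl
    rw [mapClusterPt_iff_ultrafilter] at hcl
    obtain ⟨U, hU, hUg⟩ := hcl
    have hF : ∀ j, F p₀ j h.1 = h.2 := by
      intro j
      have hUid : Filter.Tendsto (fun p : P => p) U (𝓝 p₀) :=
        Filter.tendsto_id.mono_left (hU.trans nhdsWithin_le_nhds)
      have hU1 : Filter.Tendsto (fun p => ((g p).1 : E (m + 2))) U (𝓝 (h.1 : E (m + 2))) :=
        ((continuous_subtype_val.comp continuous_fst).tendsto h).comp hUg
      have hU2 : Filter.Tendsto (fun p => (g p).2) U (𝓝 h.2) :=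
        (continuous_snd.tendsto h).comp hUg
      have hUs : ∀ᶠ p in (U : Filter P), p ∈ s := hU self_mem_nhdsWithin
      have h1 : Filter.Tendsto (fun p => (p, ((g p).1 : E (m + 2)))) U
          (𝓝[s ×ˢ Set.univ] (p₀, (h.1 : E (m + 2)))) := by
        refine tendsto_nhdsWithin_iff.2 ⟨hUid.prodMk_nhds hU1, ?_⟩
        filter_upwards [hUs] with p hp
        exact ⟨hp, Set.mem_univ _⟩
      have h2 := (hc j (p₀, (h.1 : E (m + 2))) ⟨hp₀, Set.mem_univ _⟩).tendsto.comp h1
      have h3 : Filter.Tendsto (fun p => (g p).2) U (𝓝 (F p₀ j h.1)) := by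
        refine h2.congr' ?_
        filter_upwards [hUs] with p hp
        exact (hg p hp).1 j
      exact tendsto_nhds_unique h3 hU2
    exact sol_unique hB hI (hT p₀ hp₀) hF (hg p₀ hp₀).1 (ho.trans (hg p₀ hp₀).2.symm)

/-- The orientation is locally constant among the hyperplanes that meet the members `B (I j)`. -/
theorem orient_eventually (hB : Fam B) (hI : Function.Injective I) {h₀ : OH (m + 2)}
    (h : ∀ j, |pos (B (I j)) h₀| ≤ 1) :
    ∀ᶠ h in 𝓝 h₀, (∀ j, |pos (B (I j)) h| ≤ 1) → orient B I h = orient B I h₀ := by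
  have hcl := isClosed_ori hB hI (-orient B I h₀)
  have hne : h₀ ∈ {h : OH (m + 2) | (∀ j, |pos (B (I j)) h| ≤ 1) ∧
      orient B I h = -orient B I h₀}ᶜ := by
    rintro ⟨-, h1⟩
    rcases orient_mem B I h₀ with h2 | h2 <;> rw [h2] at h1 <;> norm_num at h1
  filter_upwards [hcl.isOpen_compl.mem_nhds hne] with h hh hp
  have h1 : orient B I h ≠ -orient B I h₀ := fun h2 => hh ⟨hp, h2⟩
  rcases orient_mem B I h₀ with h2 | h2 <;> rcases orient_mem B I h with h3 | h3
  · rw [h2, h3]
  · rw [h2, h3] at h1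
    exact absurd rfl h1
  · rw [h2, h3, neg_neg] at h1
    exact absurd rfl h1
  · rw [h2, h3]

/-- The orientation is constant on a connected set of hyperplanes that meet the members. -/
theorem orient_const (hB : Fam B) (hI : Function.Injective I) {Z : Set (OH (m + 2))}
    (hZ : IsPreconnected Z) (h : ∀ h ∈ Z, ∀ j, |pos (B (I j)) h| ≤ 1) {h h' : OH (m + 2)}
    (hh : h ∈ Z) (hh' : h' ∈ Z) : orient B I h = orient B I h' := by
  rename_i hp
  have hpre := hZ
  rw [isPreconnected_closed_iff] at hpre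
  have hcov : Z ⊆ {h : OH (m + 2) | (∀ j, |pos (B (I j)) h| ≤ 1) ∧ orient B I h = 1} ∪
      {h : OH (m + 2) | (∀ j, |pos (B (I j)) h| ≤ 1) ∧ orient B I h = -1} := by
    intro x hx
    rcases orient_mem B I x with h1 | h1
    · exact Or.inl ⟨hp x hx, h1⟩
    · exact Or.inr ⟨hp x hx, h1⟩
  have key : ∀ x ∈ Z, ∀ y ∈ Z, orient B I x = 1 → orient B I y = -1 → False := by
    intro x hx y hy h1 h2
    obtain ⟨w, -, ⟨-, hw1⟩, ⟨-, hw2⟩⟩ := hpre _ _ (isClosed_ori hB hI 1)
      (isClosed_ori hB hI (-1)) hcov ⟨x, hx, hp x hx, h1⟩ ⟨y, hy, hp y hy, h2⟩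
    rw [hw1] at hw2
    norm_num at hw2
  rcases orient_mem B I h with h2 | h2 <;> rcases orient_mem B I h' with h3 | h3
  · rw [h2, h3]
  · exact (key _ hh _ hh' h2 h3).elim
  · exact (key _ hh' _ hh h3 h2).elim
  · rw [h2, h3]

end HyperplaneTransversals
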