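import Pool.Agent.Lib.MP_b2e5b9_co_D.PenB
import Pool.Agent.Lib.MP_b2e5b9_co_D.PenC
import Pool.Agent.Lib.MP_b2e5b9_co_D.Sol1

/-!
# Components in a pencil

Plan. `pencil_sum`: cover `[0, 2π]` by the three intervals `[0, 2π/3]`, `[2π/3, 4π/3]`,
`[4π/3, 2π]` of length less than `π`; `Y s ∩ D.h '' [0, 2π]` is the union of the three sets
`Y s ∩ D.h '' J`; `ncomp_union_le` twice, and `count_labels` with the breakpoints of
`exists_breaks` (at most `8 n`) for each of them: `3 * (μ * (2 * (8 * n) + 1)) = μ * (48 n + 3)`.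

`pencil_locconst`: `T` is the union of the three sets of breakpoints and `{0, 2π/3, 4π/3, 2π}`; a
point `θ` outside of `T` is in the interior of one of the intervals, and a small neighbourhood
of it contains no breakpoint.

`cont_sum`: `Cont (A b)` is determined by the label: `h ∈ Cont (A b)` if and only if
`h.2 = hi (A b) h.1` and `h.2 = lo (A b) h.1` (`mem_Cont_iff`). Apply `pencil_sum` to the sets
`Y s ∩ Cont (A b)`, which are contained in the pencil of `Cont_subset_pencil`.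
-/

set_option autoImplicit false

open Set Filter
open scoped RealInnerProductSpace Topology

namespace HyperplaneTransversals

open Classical in
theorem pend_one {d n : ℕ} (D : Pencil d) (A : Fin n → Set (E d))
    (hA : ∀ i, IsCompact (A i) ∧ (A i).Nonempty) {Λ : Type} (S : Finset Λ)
    (Y : Λ → Set (OH d))
    (hY : ∀ s ∈ S, ∀ h h', lab A h = lab A h' → (h ∈ Y s ↔ h' ∈ Y s)) (μ : ℕ)
    (hμ : ∀ h, (S.filter (fun s => h ∈ Y s)).card ≤ μ) {a b : ℝ} (hab : b - a < Real.pi) :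
    ∑ s ∈ S, ncomp (Y s ∩ D.h '' Icc a b) ≤ ((μ * (2 * (8 * n) + 1) : ℕ) : ℕ∞) := by
  obtain ⟨Bk, hcard, hBk⟩ := exists_breaks D A hA hab
  refine (count_labels S Y μ hμ D.h D.continuous_h.continuousOn Bk
    (fun θ hθ θ' hθ' hle hx s hs => hY s hs _ _ (hBk θ hθ θ' hθ' hle hx))).trans ?_
  rw [Nat.cast_le]
  exact Nat.mul_le_mul_left _ (by omega)

theorem pend_loc {d n : ℕ} (D : Pencil d) (A : Fin n → Set (E d))
    (hA : ∀ i, IsCompact (A i) ∧ (A i).Nonempty) {a b : ℝ} (hab : b - a < Real.pi) :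
    ∃ T : Set ℝ, T.Finite ∧ ∀ θ ∈ Ioo a b, θ ∉ T →
      ∀ᶠ θ' in 𝓝 θ, lab A (D.h θ') = lab A (D.h θ) := by
  obtain ⟨Bk, -, hBk⟩ := exists_breaks D A hA hab
  refine ⟨(Bk : Set ℝ), Bk.finite_toSet, fun θ hθ hθT => ?_⟩
  have hopen : IsOpen (Ioo a b ∩ (Bk : Set ℝ)ᶜ) :=
    isOpen_Ioo.inter Bk.finite_toSet.isClosed.isOpen_compl
  obtain ⟨ε, hε, hball⟩ := Metric.isOpen_iff.1 hopen θ ⟨hθ, hθT⟩
  filter_upwards [Metric.ball_mem_nhds θ hε] with θ' hθ'
  have hcv : ∀ x ∈ uIcc θ θ', x ∈ Metric.ball θ ε := by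
    intro x hx
    have h1 := (convex_ball θ ε).segment_subset (Metric.mem_ball_self hε) hθ'
    rw [segment_eq_uIcc] at h1
    exact h1 hx
  have hI : ∀ x ∈ Metric.ball θ ε, x ∈ Icc a b := fun x hx =>
    Ioo_subset_Icc_self (hball hx).1
  rcases le_total θ θ' with h | h
  · refine (hBk θ (hI _ (Metric.mem_ball_self hε)) θ' (hI _ hθ') h fun x hx hx' => ?_).symm
    rw [uIcc_of_le h] at hcv
    exact (hball (hcv x hx')).2 hx
  · refine hBk θ' (hI _ hθ') θ (hI _ (Metric.mem_ball_self hε)) h fun x hx hx' => ?_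
    rw [uIcc_of_ge h] at hcv
    exact (hball (hcv x hx')).2 hx

open Classical in
theorem pencil_sum {d n : ℕ} (D : Pencil d) (A : Fin n → Set (E d))
    (hA : ∀ i, IsCompact (A i) ∧ (A i).Nonempty) {Λ : Type} (S : Finset Λ)
    (Y : Λ → Set (OH d))
    (hY : ∀ s ∈ S, ∀ h h', lab A h = lab A h' → (h ∈ Y s ↔ h' ∈ Y s)) (μ : ℕ)
    (hμ : ∀ h, (S.filter (fun s => h ∈ Y s)).card ≤ μ) :
    ∑ s ∈ S, ncomp (Y s ∩ D.h '' Icc 0 (2 * Real.pi)) ≤ ((μ * (48 * n + 3) : ℕ) : ℕ∞) := by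
  have hpi := Real.pi_pos
  have h1 : ∀ s ∈ S, ncomp (Y s ∩ D.h '' Icc 0 (2 * Real.pi)) ≤
      ncomp (Y s ∩ D.h '' Icc 0 (2 * Real.pi / 3)) +
      (ncomp (Y s ∩ D.h '' Icc (2 * Real.pi / 3) (4 * Real.pi / 3)) +
      ncomp (Y s ∩ D.h '' Icc (4 * Real.pi / 3) (2 * Real.pi))) := by
    intro s _
    have e1 : Icc (0 : ℝ) (2 * Real.pi) = Icc 0 (2 * Real.pi / 3) ∪
        (Icc (2 * Real.pi / 3) (4 * Real.pi / 3) ∪ Icc (4 * Real.pi / 3) (2 * Real.pi)) := by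
      rw [Icc_union_Icc_eq_Icc (by linarith) (by linarith),
        Icc_union_Icc_eq_Icc (by linarith) (by linarith)]
    rw [e1, image_union, image_union, inter_union_distrib_left, inter_union_distrib_left]
    exact (ncomp_union_le _ _).trans (add_le_add le_rfl (ncomp_union_le _ _))
  refine (Finset.sum_le_sum h1).trans ?_
  rw [Finset.sum_add_distrib, Finset.sum_add_distrib]
  have h2 := pend_one D A hA S Y hY μ hμ (a := 0) (b := 2 * Real.pi / 3) (by linarith)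
  have h3 := pend_one D A hA S Y hY μ hμ (a := 2 * Real.pi / 3) (b := 4 * Real.pi / 3)
    (by linarith)
  have h4 := pend_one D A hA S Y hY μ hμ (a := 4 * Real.pi / 3) (b := 2 * Real.pi)
    (by linarith)
  refine (add_le_add h2 (add_le_add h3 h4)).trans ?_
  rw [← Nat.cast_add, ← Nat.cast_add, Nat.cast_le]
  exact le_of_eq (by ring)

theorem pencil_locconst {d n : ℕ} (D : Pencil d) (A : Fin n → Set (E d))
    (hA : ∀ i, IsCompact (A i) ∧ (A i).Nonempty) :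
    ∃ T : Set ℝ, T.Finite ∧ ∀ θ ∈ Icc 0 (2 * Real.pi), θ ∉ T →
      ∀ᶠ θ' in 𝓝 θ, lab A (D.h θ') = lab A (D.h θ) := by
  have hpi := Real.pi_pos
  obtain ⟨T1, hT1, h1⟩ := pend_loc D A hA (a := 0) (b := 2 * Real.pi / 3) (by linarith)
  obtain ⟨T2, hT2, h2⟩ := pend_loc D A hA (a := 2 * Real.pi / 3) (b := 4 * Real.pi / 3)
    (by linarith)
  obtain ⟨T3, hT3, h3⟩ := pend_loc D A hA (a := 4 * Real.pi / 3) (b := 2 * Real.pi)
    (by linarith)
  refine ⟨T1 ∪ T2 ∪ T3 ∪ {0, 2 * Real.pi / 3, 4 * Real.pi / 3, 2 * Real.pi},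
    ((hT1.union hT2).union hT3).union (by simp), fun θ hθ hθT => ?_⟩
  simp only [mem_union, mem_insert_iff, mem_singleton_iff, not_or] at hθT
  obtain ⟨⟨⟨n1, n2⟩, n3⟩, m0, m1, m2, m3⟩ := hθT
  rcases lt_or_gt_of_ne m1 with l1 | l1
  · exact h1 θ ⟨lt_of_le_of_ne hθ.1 (Ne.symm m0), l1⟩ n1
  · rcases lt_or_gt_of_ne m2 with l2 | l2
    · exact h2 θ ⟨l1, l2⟩ n2
    · exact h3 θ ⟨l2, lt_of_le_of_ne hθ.2 m3⟩ n3

open Classical in
/-- The components of label determined sets in the set of hyperplanes that contain a member of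
dimension at least `m`. -/
theorem cont_sum {m n : ℕ} (A : Fin n → Set (E (m + 2)))
    (hA : ∀ i, IsCompact (A i) ∧ (A i).Nonempty) (b : Fin n)
    (hP : ∃ P : Fin (m + 1) → E (m + 2), AffineIndependent ℝ P ∧ ∀ j, P j ∈ A b) {Λ : Type}
    (S : Finset Λ) (Y : Λ → Set (OH (m + 2)))
    (hY : ∀ s ∈ S, ∀ h h', lab A h = lab A h' → (h ∈ Y s ↔ h' ∈ Y s)) (μ : ℕ)
    (hμ : ∀ h, (S.filter (fun s => h ∈ Y s)).card ≤ μ) :
    ∑ s ∈ S, ncomp (Y s ∩ Cont (A b)) ≤ ((μ * (48 * n + 3) : ℕ) : ℕ∞) := by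
  obtain ⟨P, hP1, hP2⟩ := hP
  obtain ⟨D, hD⟩ := Cont_subset_pencil hP1 hP2
  have hC : ∀ h h' : OH (m + 2), lab A h = lab A h' → h ∈ Cont (A b) → h' ∈ Cont (A b) := by
    intro h h' hl hh
    rw [mem_Cont_iff (hA b).1 (hA b).2] at hh ⊢
    have h1 := congrFun hl b
    have h2 : SignType.sign (h.2 - hi (A b) h.1) = SignType.sign (h'.2 - hi (A b) h'.1) :=
      congrArg Prod.fst h1
    have h3 : SignType.sign (h.2 - lo (A b) h.1) = SignType.sign (h'.2 - lo (A b) h'.1) :=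
      congrArg Prod.snd h1
    rw [sub_eq_zero.2 hh.1, sign_zero] at h2
    rw [sub_eq_zero.2 hh.2, sign_zero] at h3
    exact ⟨sub_eq_zero.1 (sign_eq_zero_iff.1 h2.symm), sub_eq_zero.1 (sign_eq_zero_iff.1 h3.symm)⟩
  obtain ⟨Z, hZ⟩ : ∃ Z : Λ → Set (OH (m + 2)), ∀ s, Z s = Y s ∩ Cont (A b) :=
    ⟨_, fun _ => rfl⟩
  have h1 := pencil_sum D A hA S Z (fun s hs h h' hl => by
    rw [hZ]
    exact and_congr (hY s hs h h' hl) ⟨hC h h' hl, hC h' h hl.symm⟩) μ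
    (fun h => (Finset.card_le_card fun s hs => by
      rw [Finset.mem_filter] at hs ⊢
      have h2 := hs.2
      rw [hZ] at h2
      exact ⟨hs.1, h2.1⟩).trans (hμ h))
  have h2 : ∀ s ∈ S, ncomp (Y s ∩ Cont (A b)) =
      ncomp (Z s ∩ D.h '' Icc 0 (2 * Real.pi)) := by
    intro s _
    rw [hZ, inter_eq_left.2 (inter_subset_right.trans hD)]
  rw [Finset.sum_congr rfl h2]
  exact h1

end HyperplaneTransversals
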