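import Pool.Agent.Lib.MP_b2e5b9_co_D.Thk2
import Pool.Agent.Lib.MP_b2e5b9_co_D.PenD

/-!
# Hyperplanes that contain a member, in the closure of a two-dimensional stratum

Setting: the support of `σ` has `m` elements, `σ l = 0`, and `A l` contains `m + 1` affinely
independent points. Claim: only finitely many hyperplanes in `Cont (A l)` are limits of
hyperplanes in `St A σ`.

Proof. `Cont (A l) ⊆ D.h '' [0, 2π]` (`Cont_subset_pencil`), `T` the finite set of
`pencil_locconst`. It is enough to show: if `θ₀ ∈ [0, 2π] \ T`, `h₀ = D.h θ₀ ∈ Cont (A l)` then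
`h₀ ∉ closure (St A σ)`. Suppose `h₀ ∈ closure (St A σ)`. Then `h₀ ∈ Cl A σ` (closed). The
property `h ∈ Cl A σ ∩ Cont (A l)` is determined by the label (`mem_Cont_iff`), so there is
`η > 0` with `D.h θ ∈ Cl A σ ∩ Cont (A l)` for all `|θ - θ₀| < η`.

Let `B = thk A (fun _ => δ₀)` be the bodies of `CFam.exists_fam`, `k ≠ l` with `σ k = 0`,
`I = tup e l k` with `e` an enumeration of the support of `σ`, `ω = orient B I h₀`. All `D.h θ` for
`θ` near `θ₀`, and all `h ∈ St A σ` near `h₀`, have orientation `ω` (`orient_eventually`).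
Uniqueness (`*`): two hyperplanes `h, h'` of orientation `ω` which are tangent to the support as
prescribed, satisfy `lev (A l) y h.1 = h.2` and `lev (A l) y h'.1 = h'.2` for a common `y ∈ [-1, 1]`,
and have the same position `x = pos (B k)` in `[-1, 1]`, are equal (`sol_unique`, `tanSys_lev`,
`lev_pos`, `pos_eq_iff`). A hyperplane in `Cont (A l)` satisfies `lev (A l) y h.1 = h.2` for every
`y`.

So `x θ = pos (B k) (D.h θ)` is injective on `(θ₀ - η', θ₀ + η')` (if `x θ = x θ'` then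
`D.h θ = D.h θ'` by (`*`), and `θ ↦ D.h θ` is injective on intervals shorter than `2π`, since the
normals `cos θ • f1 + sin θ • f2` are), and continuous. By the intermediate value theorem its image
contains a neighbourhood of `x θ₀` (a continuous injective function on an interval is strictly
monotone or antitone). For `h ∈ St A σ` close to `h₀`, `pos (B k) h` is in this neighbourhood, so
`pos (B k) h = x θ` for some `θ` close to `θ₀`, and with `y` the position of `h` relative to `A l`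
(`exists_lev`) (`*`) gives `h = D.h θ ∈ Cont (A l)`, but `h` crosses `A l` strictly: contradiction.
-/

set_option autoImplicit false

open Set Filter
open scoped RealInnerProductSpace Topology

namespace HyperplaneTransversals

open CubeSys (tup tup_init tup_prev tup_last tup_forall tup_injective)

variable {m n : ℕ} {A : Fin n → Set (E (m + 2))} {σ : Fin n → SignType}

/-- Injectivity of the parametrisation of a pencil on short intervals. -/
theorem Pencil.h_injOn {d : ℕ} (D : Pencil d) {a b : ℝ} (hab : b - a < Real.pi) :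
    InjOn D.h (Icc a b) := by
  intro θ hθ θ' hθ' h
  have h1 : (D.u θ : E d) = D.u θ' := congrArg (fun z : OH d => (z.1 : E d)) h
  have h2 : Real.cos θ • D.f1 + Real.sin θ • D.f2 = Real.cos θ' • D.f1 + Real.sin θ' • D.f2 := h1
  have n1 : ⟪D.f1, D.f1⟫ = 1 := by
    rw [real_inner_self_eq_norm_sq, D.norm1]
    norm_num
  have n2 : ⟪D.f2, D.f2⟫ = 1 := by
    rw [real_inner_self_eq_norm_sq, D.norm2]
    norm_num
  have n3 : ⟪D.f2, D.f1⟫ = 0 := by
    rw [real_inner_comm]
    exact D.orth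
  have hc : Real.cos θ = Real.cos θ' := by
    have := congrArg (fun z => ⟪z, D.f1⟫) h2
    simp only [inner_add_left, real_inner_smul_left, n1, n3] at this
    linarith
  have hs : Real.sin θ = Real.sin θ' := by
    have := congrArg (fun z => ⟪z, D.f2⟫) h2
    simp only [inner_add_left, real_inner_smul_left, n2, D.orth] at this
    linarith
  have h3 : Real.cos (θ - θ') = 1 := by
    rw [Real.cos_sub, hc, hs]
    nlinarith [Real.sin_sq_add_cos_sq θ']
  have hpi := Real.pi_pos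
  have h4 := (Real.cos_eq_one_iff_of_lt_of_lt (by linarith [hθ.1, hθ'.2])
    (by linarith [hθ.2, hθ'.1])).1 h3
  linarith

private theorem badf_lab {h h' : OH (m + 2)} (e : lab A h = lab A h') (i : Fin n) :
    (h.2 ≤ hi (A i) h.1 ↔ h'.2 ≤ hi (A i) h'.1) ∧ (lo (A i) h.1 ≤ h.2 ↔ lo (A i) h'.1 ≤ h'.2) ∧
    (h.2 = hi (A i) h.1 ↔ h'.2 = hi (A i) h'.1) ∧
    (h.2 = lo (A i) h.1 ↔ h'.2 = lo (A i) h'.1) := by
  have e1 : SignType.sign (h.2 - hi (A i) h.1) = SignType.sign (h'.2 - hi (A i) h'.1) :=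
    congrArg Prod.fst (congrFun e i)
  have e2 : SignType.sign (h.2 - lo (A i) h.1) = SignType.sign (h'.2 - lo (A i) h'.1) :=
    congrArg Prod.snd (congrFun e i)
  refine ⟨?_, ?_, ?_, ?_⟩
  · rw [← sub_nonpos, ← sign_nonpos_iff, e1, sign_nonpos_iff, sub_nonpos]
  · rw [← sub_nonneg, ← sign_nonneg_iff, e2, sign_nonneg_iff, sub_nonneg]
  · rw [← sub_eq_zero, ← sign_eq_zero_iff, e1, sign_eq_zero_iff, sub_eq_zero]
  · rw [← sub_eq_zero, ← sign_eq_zero_iff, e2, sign_eq_zero_iff, sub_eq_zero]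

private theorem badf_lab_Cl {h h' : OH (m + 2)} (e : lab A h = lab A h') (hh : h' ∈ Cl A σ) :
    h ∈ Cl A σ := by
  intro i
  obtain ⟨e1, e2, e3, e4⟩ := badf_lab e i
  obtain ⟨h1, h2, h3⟩ := hh i
  exact ⟨fun h0 => ⟨e2.2 (h1 h0).1, e1.2 (h1 h0).2⟩, fun h0 => e3.2 (h2 h0),
    fun h0 => e4.2 (h3 h0)⟩

private theorem badf_lab_Cont (hA : CFam A) {h h' : OH (m + 2)} (e : lab A h = lab A h')
    {l : Fin n} (hh : h' ∈ Cont (A l)) : h ∈ Cont (A l) := by
  obtain ⟨e1, e2, e3, e4⟩ := badf_lab e l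
  rw [mem_Cont_iff (hA.compact l) (hA.nonempty l)] at hh ⊢
  exact ⟨e3.2 hh.1, e4.2 hh.2⟩

private theorem badf_closure (hA : CFam A) : closure (St A σ) ⊆ Cl A σ := by
  have hh : ∀ i, Continuous (fun h : OH (m + 2) => hi (A i) h.1) := fun i =>
    (continuous_hi (hA.compact i) (hA.convex i) (hA.nonempty i)).comp (by fun_prop)
  have hl : ∀ i, Continuous (fun h : OH (m + 2) => lo (A i) h.1) := fun i =>
    (continuous_lo (hA.compact i) (hA.convex i) (hA.nonempty i)).comp (by fun_prop)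
  intro h hc i
  refine ⟨fun h0 => ⟨?_, ?_⟩, fun h1 => ?_, fun h1 => ?_⟩
  · exact closure_minimal (s := St A σ) (t := {h | lo (A i) h.1 ≤ h.2})
      (fun z hz => ((hz i).1 h0).1.le) (isClosed_le (hl i) continuous_snd) hc
  · exact closure_minimal (s := St A σ) (t := {h | h.2 ≤ hi (A i) h.1})
      (fun z hz => ((hz i).1 h0).2.le) (isClosed_le continuous_snd (hh i)) hc
  · exact closure_minimal (s := St A σ) (t := {h | h.2 = hi (A i) h.1})
      (fun z hz => (hz i).2.1 h1) (isClosed_eq continuous_snd (hh i)) hc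
  · exact closure_minimal (s := St A σ) (t := {h | h.2 = lo (A i) h.1})
      (fun z hz => (hz i).2.2 h1) (isClosed_eq continuous_snd (hl i)) hc

private theorem badf_ivt {f : ℝ → ℝ} (hf : Continuous f) {a c b : ℝ} (hac : a < c) (hcb : c < b)
    (hi : InjOn f (Icc a b)) : ∀ᶠ z in 𝓝 (f c), ∃ θ ∈ Icc a b, f θ = z := by
  have ha : a ∈ Icc a b := ⟨le_rfl, by linarith⟩
  have hb : b ∈ Icc a b := ⟨by linarith, le_rfl⟩
  have hc : c ∈ Icc a b := ⟨hac.le, hcb.le⟩
  rcases hf.continuousOn.strictMonoOn_of_injOn_Icc' (hac.trans hcb).le hi with h | h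
  · have h1 := h ha hc hac
    have h2 := h hc hb hcb
    filter_upwards [Ioo_mem_nhds h1 h2] with z hz
    exact intermediate_value_Icc (hac.trans hcb).le hf.continuousOn ⟨hz.1.le, hz.2.le⟩
  · have h1 := h ha hc hac
    have h2 := h hc hb hcb
    filter_upwards [Ioo_mem_nhds h2 h1] with z hz
    exact intermediate_value_Icc' (hac.trans hcb).le hf.continuousOn ⟨hz.1.le, hz.2.le⟩

private theorem badf_lev_cont (hA : CFam A) {l : Fin n} {h : OH (m + 2)} (hh : h ∈ Cont (A l))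
    (y : ℝ) : lev (A l) y h.1 = h.2 := by
  rw [mem_Cont_iff (hA.compact l) (hA.nonempty l)] at hh
  unfold lev
  rw [← hh.1, ← hh.2]
  ring

private theorem badf_lev_sign {h : OH (m + 2)} (hh : h ∈ Cl A σ) {i : Fin n} (hs : σ i ≠ 0) :
    lev (A i) (σ i : ℝ) h.1 = h.2 ∧ |(σ i : ℝ)| ≤ 1 := by
  rcases SignType.trichotomy (σ i) with h1 | h1 | h1
  · refine ⟨?_, by rw [h1]; simp⟩
    rw [h1, (hh i).2.2 h1]
    unfold lev
    simp
  · exact absurd h1 hs
  · refine ⟨?_, by rw [h1]; simp⟩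
    rw [h1, (hh i).2.1 h1]
    unfold lev
    simp

private theorem badf_meet (hA : CFam A) {h : OH (m + 2)} (hh : h ∈ Cl A σ) (i : Fin n) :
    lo (A i) h.1 ≤ h.2 ∧ h.2 ≤ hi (A i) h.1 := by
  have h0 := lo_le_hi (hA.compact i) (hA.nonempty i) h.1
  rcases SignType.trichotomy (σ i) with h1 | h1 | h1
  · have h2 := (hh i).2.2 h1
    exact ⟨h2.ge, h2.le.trans h0⟩
  · exact (hh i).1 h1
  · have h2 := (hh i).2.1 h1
    exact ⟨h0.trans h2.ge, h2.le⟩

private theorem badf_pos (hA : CFam A) {δ : ℝ} (hδ : 0 < δ) (hB : Fam (thk A (fun _ => δ)))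
    {h : OH (m + 2)} (hh : h ∈ Cl A σ) (i : Fin n) : |pos (thk A (fun _ => δ) i) h| ≤ 1 := by
  rw [abs_pos_le_one_iff (hB.compact i) (hB.body i)]
  obtain ⟨h1, h2⟩ := badf_meet hA hh i
  have h3 : hi (thk A (fun _ => δ) i) h.1 = hi (A i) h.1 + δ * ‖(h.1 : E (m + 2))‖ :=
    hi_cthickening (hA.compact i) (hA.nonempty i) hδ.le _
  have h4 : lo (thk A (fun _ => δ) i) h.1 = lo (A i) h.1 - δ * ‖(h.1 : E (m + 2))‖ :=
    lo_cthickening (hA.compact i) (hA.nonempty i) hδ.le _
  have h5 : 0 ≤ δ * ‖(h.1 : E (m + 2))‖ := mul_nonneg hδ.le (norm_nonneg _)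
  rw [h3, h4]
  constructor <;> linarith

private theorem badf_unique (hA : CFam A) {δ : ℝ} (hB : Fam (thk A (fun _ => δ)))
    {e : Fin m → Fin n} (he : ∀ j, σ (e j) ≠ 0) {l k : Fin n}
    (hI : Function.Injective (tup e l k)) {h h' : OH (m + 2)} (hh : h ∈ Cl A σ)
    (hh' : h' ∈ Cl A σ) {y : ℝ} (hy : |y| ≤ 1) (h1 : lev (A l) y h.1 = h.2)
    (h1' : lev (A l) y h'.1 = h'.2) (hk : |pos (thk A (fun _ => δ) k) h| ≤ 1)
    (hx : pos (thk A (fun _ => δ) k) h = pos (thk A (fun _ => δ) k) h')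
    (ho : orient (thk A (fun _ => δ)) (tup e l k) h =
      orient (thk A (fun _ => δ)) (tup e l k) h') : h = h' := by
  have hsub : ∀ i, A i ⊆ thk A (fun _ => δ) i := fun i => Metric.self_subset_cthickening _
  obtain ⟨K, hK⟩ : ∃ K : Fin (m + 2) → Set (E (m + 2)),
    K = tup (fun j => A (e j)) (A l) (thk A (fun _ => δ) k) := ⟨_, rfl⟩
  obtain ⟨q, hq⟩ : ∃ q : Fin (m + 2) → ℝ,
    q = tup (fun j => (σ (e j) : ℝ)) y (pos (thk A (fun _ => δ) k) h) := ⟨_, rfl⟩
  have hT : TanSys (fun j => thk A (fun _ => δ) (tup e l k j)) (fun j => lev (K j) (q j)) := by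
    refine tanSys_lev hB hI ?_ ?_
    · refine tup_forall (fun j => ?_) ?_ ?_
      · rw [hK, tup_init, tup_init]
        exact ⟨hA.compact _, hA.convex _, hA.nonempty _, hsub _⟩
      · rw [hK, tup_prev, tup_prev]
        exact ⟨hA.compact _, hA.convex _, hA.nonempty _, hsub _⟩
      · rw [hK, tup_last, tup_last]
        exact ⟨hB.compact k, hB.convex k, hB.nonempty k, subset_rfl⟩
    · refine tup_forall (fun j => ?_) ?_ ?_
      · rw [hq, tup_init]
        exact (badf_lev_sign hh (he j)).2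
      · rw [hq, tup_prev]
        exact hy
      · rw [hq, tup_last]
        exact hk
  refine sol_unique hB hI hT (tup_forall (fun j => ?_) ?_ ?_) (tup_forall (fun j => ?_) ?_ ?_) ho
  · rw [hK, hq, tup_init, tup_init]
    exact (badf_lev_sign hh (he j)).1
  · rw [hK, hq, tup_prev, tup_prev]
    exact h1
  · rw [hK, hq, tup_last, tup_last]
    exact lev_pos (hB.compact k) (hB.body k) h
  · rw [hK, hq, tup_init, tup_init]
    exact (badf_lev_sign hh' (he j)).1
  · rw [hK, hq, tup_prev, tup_prev]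
    exact h1'
  · rw [hK, hq, tup_last, tup_last, hx]
    exact lev_pos (hB.compact k) (hB.body k) h'

private theorem badf_main (hA : CFam A) (hn : m + 2 ≤ n) (hσ : (supp σ).card = m) {l : Fin n}
    (hl : σ l = 0) (D : Pencil (m + 2)) {θ₀ : ℝ} (hc : D.h θ₀ ∈ Cont (A l))
    (hlab : ∀ᶠ θ in 𝓝 θ₀, lab A (D.h θ) = lab A (D.h θ₀)) : D.h θ₀ ∉ closure (St A σ) := by
  intro hcl
  have h0 : D.h θ₀ ∈ Cl A σ := badf_closure hA hcl
  obtain ⟨δ, hδ, hδA⟩ := hA.exists_fam
  have hB : Fam (thk A (fun _ => δ)) := hδA _ (fun _ => ⟨hδ, le_rfl⟩)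
  obtain ⟨e, he1, he2, he3⟩ := exists_enum hσ
  obtain ⟨k, hkl, hk⟩ : ∃ k, k ≠ l ∧ σ k = 0 := by
    by_contra hcon
    push Not at hcon
    have h1 : (Finset.univ : Finset (Fin n)) ⊆ insert l (supp σ) := by
      intro k _
      rw [Finset.mem_insert, mem_supp]
      by_cases h : k = l
      · exact Or.inl h
      · exact Or.inr (hcon k h)
    have h2 := Finset.card_le_card h1
    have h3 := Finset.card_insert_le l (supp σ)
    rw [Finset.card_univ, Fintype.card_fin] at h2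
    omega
  have hI : Function.Injective (tup e l k) :=
    tup_injective he1 (fun j h => he2 j (h ▸ hl)) (fun j h => he2 j (h ▸ hk)) hkl.symm
  have e0 := orient_eventually hB hI (h₀ := D.h θ₀) (fun j => badf_pos hA hδ hB h0 _)
  have e2 := D.continuous_h.continuousAt.eventually e0
  have e3 : ∀ᶠ θ in 𝓝 θ₀, D.h θ ∈ Cl A σ ∧ D.h θ ∈ Cont (A l) ∧
      orient (thk A (fun _ => δ)) (tup e l k) (D.h θ) =
        orient (thk A (fun _ => δ)) (tup e l k) (D.h θ₀) := by
    filter_upwards [hlab, e2] with θ h1 h2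
    have h3 : D.h θ ∈ Cl A σ := badf_lab_Cl h1 h0
    exact ⟨h3, badf_lab_Cont hA h1 hc, h2 fun j => badf_pos hA hδ hB h3 _⟩
  obtain ⟨η, hη, hηb⟩ := Metric.eventually_nhds_iff.1 e3
  have hpi := Real.pi_pos
  obtain ⟨r, hr, hrη, hrp⟩ : ∃ r : ℝ, 0 < r ∧ r < η ∧ 2 * r < Real.pi := by
    refine ⟨min (η / 2) (Real.pi / 4), lt_min (by linarith) (by linarith), ?_, ?_⟩
    · have := min_le_left (η / 2) (Real.pi / 4)
      linarith
    · have := min_le_right (η / 2) (Real.pi / 4)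
      linarith
  have hball : ∀ θ ∈ Icc (θ₀ - r) (θ₀ + r), D.h θ ∈ Cl A σ ∧ D.h θ ∈ Cont (A l) ∧
      orient (thk A (fun _ => δ)) (tup e l k) (D.h θ) =
        orient (thk A (fun _ => δ)) (tup e l k) (D.h θ₀) := by
    intro θ hθ
    refine hηb ?_
    rw [Real.dist_eq, abs_lt]
    constructor <;> linarith [hθ.1, hθ.2]
  have hpc := continuous_pos (hB.compact k) (hB.convex k) (hB.body k)
  have hxc : Continuous (fun θ => pos (thk A (fun _ => δ) k) (D.h θ)) := hpc.comp D.continuous_h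
  have hxi : InjOn (fun θ => pos (thk A (fun _ => δ) k) (D.h θ)) (Icc (θ₀ - r) (θ₀ + r)) := by
    intro θ hθ θ' hθ' h
    refine D.h_injOn (by linarith) hθ hθ' ?_
    exact badf_unique hA hB he2 hI (hball θ hθ).1 (hball θ' hθ').1 (y := 0) (by simp)
      (badf_lev_cont hA (hball θ hθ).2.1 _) (badf_lev_cont hA (hball θ' hθ').2.1 _)
      (badf_pos hA hδ hB (hball θ hθ).1 k) h
      ((hball θ hθ).2.2.trans (hball θ' hθ').2.2.symm)
  have hnb := badf_ivt hxc (c := θ₀) (by linarith) (by linarith) hxi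
  have e4 := (hpc.continuousAt (x := D.h θ₀)).eventually hnb
  obtain ⟨h, hh, hh1, θ, hθ, hh2⟩ := ((mem_closure_iff_frequently.1 hcl).and_eventually
    (e0.and e4)).exists
  have hhC : h ∈ Cl A σ := St_subset_Cl A σ hh
  obtain ⟨y, hy, hyl⟩ := exists_lev (badf_meet hA hhC l).1 (badf_meet hA hhC l).2
  have heq : h = D.h θ := badf_unique hA hB he2 hI hhC (hball θ hθ).1 hy hyl
    (badf_lev_cont hA (hball θ hθ).2.1 _) (badf_pos hA hδ hB hhC k) hh2.symm
    ((hh1 fun j => badf_pos hA hδ hB hhC _).trans (hball θ hθ).2.2.symm)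
  have h5 := (mem_Cont_iff (hA.compact l) (hA.nonempty l) h).1 (heq ▸ (hball θ hθ).2.1)
  exact absurd h5.2 ((hh l).1 hl).1.ne'

theorem closure_cont_finite (hA : CFam A) (hn : m + 2 ≤ n) (hσ : (supp σ).card = m) {l : Fin n}
    (hl : σ l = 0) (hP : ∃ P : Fin (m + 1) → E (m + 2), AffineIndependent ℝ P ∧ ∀ j, P j ∈ A l) :
    (closure (St A σ) ∩ Cont (A l)).Finite := by
  obtain ⟨P, hP1, hP2⟩ := hP
  obtain ⟨D, hD⟩ := Cont_subset_pencil hP1 hP2
  obtain ⟨T, hT, hT2⟩ := pencil_locconst D A (fun i => ⟨hA.compact i, hA.nonempty i⟩)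
  refine (hT.image D.h).subset ?_
  rintro h₀ ⟨hcl, hc⟩
  obtain ⟨θ₀, hθ₀, rfl⟩ := hD hc
  by_contra hcon
  exact badf_main hA hn hσ hl D hc (hT2 θ₀ hθ₀ fun h => hcon ⟨θ₀, h, rfl⟩) hcl

end HyperplaneTransversals
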