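import Pool.Agent.Lib.MP_b2e5b9_co_D.Defs

/-!
# The one-dimensional strata of a family of convex bodies

Proof. `St_eq_str`: compare the conditions member by member with `C.str σ` (file `Fat/Defs.lean`):
for a body `pos (B i) h = 1` iff `h.2 = hi (B i) h.1` (`pos_eq_one_iff`), `pos (B i) h = -1` iff
`h.2 = lo (B i) h.1` (`pos_eq_neg_one_iff`), and `|pos (B i) h| < 1` iff `lo < h.2 < hi` (from
`abs_pos_le_one_iff` and the two equality cases). `body_bound`: `exists_cubeSys` and
`CubeSys.N_top` (file `Fat/Count.lean`; `CubeSys.N` is the sum over `lvl n (m + 1)`).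
-/

set_option autoImplicit false

open scoped RealInnerProductSpace Topology

namespace HyperplaneTransversals

variable {m n : ℕ} {B : Fin n → Set (E (m + 2))}

theorem bodyb_abs_lt {d : ℕ} {K : Set (E d)} (hK : IsCompact K) (hint : (interior K).Nonempty)
    (h : OH d) : |pos K h| < 1 ↔ lo K h.1 < h.2 ∧ h.2 < hi K h.1 := by
  have hlt := sub_pos.2 (lo_lt_hi hK hint (sphere_ne_zero h.1))
  unfold pos
  rw [abs_lt, lt_div_iff₀ hlt, div_lt_iff₀ hlt]
  constructor
  · rintro ⟨h1, h2⟩
    constructor <;> linarith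
  · rintro ⟨h1, h2⟩
    constructor <;> linarith

theorem St_eq_str (hB : Fam B) (C : CubeSys m n (OH (m + 2)))
    (hC : ∀ i h, C.pos i h = pos (B i) h) (σ : Fin n → SignType) : St B σ = C.str σ := by
  ext h
  refine forall_congr' fun i => ?_
  rw [hC, bodyb_abs_lt (hB.compact i) (hB.body i)]
  rcases hs : σ i with _ | _ | _
  · have e : SignType.zero = 0 := rfl
    rw [e]
    simp
  · have e : SignType.neg = -1 := rfl
    rw [e]
    have h1 : ((-1 : SignType) : ℝ) = -1 := by simp
    rw [h1, pos_eq_neg_one_iff hB]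
    simp
  · have e : SignType.pos = 1 := rfl
    rw [e]
    have h1 : ((1 : SignType) : ℝ) = 1 := by simp
    rw [h1, pos_eq_one_iff hB]
    simp

theorem body_bound (hB : Fam B) (hn : m + 2 ≤ n) :
    ∑ σ ∈ lvl n (m + 1), ncomp (St B σ) ≤ ((lvl n m).card : ℕ∞) * (200 * n) := by
  obtain ⟨C, hC⟩ := exists_cubeSys hB
  have h := CubeSys.N_top (C := C) hn
  unfold CubeSys.N at h
  refine le_trans (le_of_eq (Finset.sum_congr rfl fun σ _ => ?_)) h
  rw [St_eq_str hB C hC]

end HyperplaneTransversals
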