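import Pool.Agent.Lib.MP_b2e5b9_co_D.Thk2
import Pool.Agent.Lib.MP_b2e5b9_co_D.Sol1

/-!
# Spherical caps, generic directions

Plan. `cone_preconnected`: the set is the image of `W` under `w ↦ ‖w‖⁻¹ • w` (as a point of the
sphere), which is continuous on `W` as `w ≠ 0` there.

`cap_preconnected`: `W = {w | c * ‖w‖ < ⟪w, u₀⟫}` is convex (`convexOn_norm`), nonzero vectors
only as `0 ≤ c`, and a unit vector `u` satisfies `c < ⟪u, u₀⟫` iff `u = ‖w‖⁻¹ • w` for some `w ∈ W`.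
`half_cap_preconnected`: the same with `W = {w | c * ‖w‖ < ⟪w, u₀⟫ ∧ 0 < ⟪w, v⟫}`.

`exists_cap`: on the sphere `‖u - u₀‖ ^ 2 = 2 - 2 * ⟪u, u₀⟫`, so the caps form a neighbourhood
basis.

`hi_ne_dense`: `A i` and `A j` are disjoint (`CFam.disjoint`), compact and convex, so there are `w`
and `c < c'` with `⟪w, x⟫ ≤ c` on `A i` and `c' ≤ ⟪w, y⟫` on `A j`
(`geometric_hahn_banach_compact_closed` or
`geometric_hahn_banach_compact_compact`, and `InnerProductSpace.toDual`). For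
`s < s'`: `hi (A j) (u₀ + s' • w) ≥ hi (A j) (u₀ + s • w) + (s' - s) c'` (take a maximiser for `s`)
and `hi (A i) (u₀ + s' • w) ≤ hi (A i) (u₀ + s • w) + (s' - s) c` (take a maximiser for `s'`). So
the
difference is strictly increasing in `s` and vanishes for at most one `s`. So there are
arbitrarily small `s > 0` with `hi (A i) ≠ hi (A j)` at `u₀ + s • w`, and by homogeneity
(`hi_smul`) at its normalisation, which tends to `u₀`.

`exists_generic`: finitely many open dense sets (`hi` is continuous) have a dense intersection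
(`Dense.inter_of_isOpen_left`, finite induction, or `dense_biInter_of_isOpen`).
-/

set_option autoImplicit false

open Set Filter
open scoped RealInnerProductSpace Topology

namespace HyperplaneTransversals

variable {d : ℕ}

theorem cone_preconnected {W : Set (E d)} (hW : IsPreconnected W) (h0 : ∀ w ∈ W, w ≠ 0) :
    IsPreconnected {u : Metric.sphere (0 : E d) 1 | ∃ w ∈ W, (u : E d) = ‖w‖⁻¹ • w} := by
  have hi : Topology.IsInducing (Subtype.val : Metric.sphere (0 : E d) 1 → E d) :=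
    Topology.IsInducing.subtypeVal
  rw [← hi.isPreconnected_image]
  have h1 : (Subtype.val : Metric.sphere (0 : E d) 1 → E d) ''
      {u : Metric.sphere (0 : E d) 1 | ∃ w ∈ W, (u : E d) = ‖w‖⁻¹ • w} =
      (fun w : E d => ‖w‖⁻¹ • w) '' W := by
    ext x
    constructor
    · rintro ⟨u, ⟨w, hw, hu⟩, rfl⟩
      exact ⟨w, hw, hu.symm⟩
    · rintro ⟨w, hw, rfl⟩
      have hn : ‖‖w‖⁻¹ • w‖ = 1 := by
        rw [norm_smul, norm_inv, norm_norm, inv_mul_cancel₀ (norm_ne_zero_iff.2 (h0 w hw))]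
      exact ⟨⟨‖w‖⁻¹ • w, mem_sphere_zero_iff_norm.2 hn⟩, ⟨w, hw, rfl⟩, rfl⟩
  rw [h1]
  refine hW.image _ ?_
  exact (continuous_norm.continuousOn.inv₀ fun w hw => norm_ne_zero_iff.2 (h0 w hw)).smul
    continuousOn_id

theorem cap_norm_pos {c : ℝ} (hc : 0 ≤ c) {w u₀ : E d} (h : c * ‖w‖ < ⟪w, u₀⟫) : 0 < ‖w‖ := by
  rw [norm_pos_iff]
  rintro rfl
  simp at h

theorem cap_convex (u₀ : E d) {c : ℝ} (hc : 0 ≤ c) : Convex ℝ {w : E d | c * ‖w‖ < ⟪w, u₀⟫} := by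
  rw [convex_iff_forall_pos]
  intro x hx y hy a b ha hb _
  have hx' : c * ‖x‖ < ⟪x, u₀⟫ := hx
  have hy' : c * ‖y‖ < ⟪y, u₀⟫ := hy
  show c * ‖a • x + b • y‖ < ⟪a • x + b • y, u₀⟫
  have h1 : ‖a • x + b • y‖ ≤ a * ‖x‖ + b * ‖y‖ := by
    refine (norm_add_le _ _).trans (le_of_eq ?_)
    rw [norm_smul, norm_smul, Real.norm_of_nonneg ha.le, Real.norm_of_nonneg hb.le]
  have h2 : ⟪a • x + b • y, u₀⟫ = a * ⟪x, u₀⟫ + b * ⟪y, u₀⟫ := by
    rw [inner_add_left, real_inner_smul_left, real_inner_smul_left]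
  rw [h2]
  calc c * ‖a • x + b • y‖ ≤ c * (a * ‖x‖ + b * ‖y‖) := mul_le_mul_of_nonneg_left h1 hc
    _ = a * (c * ‖x‖) + b * (c * ‖y‖) := by ring
    _ < a * ⟪x, u₀⟫ + b * ⟪y, u₀⟫ :=
        add_lt_add (mul_lt_mul_of_pos_left hx' ha) (mul_lt_mul_of_pos_left hy' hb)

theorem cap_preconnected (u₀ : E d) {c : ℝ} (hc : 0 ≤ c) :
    IsPreconnected {u : Metric.sphere (0 : E d) 1 | c < ⟪(u : E d), u₀⟫} := by
  have h1 := cone_preconnected (cap_convex u₀ hc).isPreconnected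
    fun w hw => norm_pos_iff.1 (cap_norm_pos hc hw)
  have h2 : {u : Metric.sphere (0 : E d) 1 | c < ⟪(u : E d), u₀⟫} =
      {u : Metric.sphere (0 : E d) 1 | ∃ w ∈ {w : E d | c * ‖w‖ < ⟪w, u₀⟫},
        (u : E d) = ‖w‖⁻¹ • w} := by
    ext u
    constructor
    · intro hu
      have hn : ‖(u : E d)‖ = 1 := by simp
      refine ⟨u, ?_, by rw [hn, inv_one, one_smul]⟩
      show c * ‖(u : E d)‖ < ⟪(u : E d), u₀⟫
      rw [hn, mul_one]
      exact hu
    · rintro ⟨w, hw, hu⟩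
      have hw' : c * ‖w‖ < ⟪w, u₀⟫ := hw
      have hn := cap_norm_pos hc hw
      show c < ⟪(u : E d), u₀⟫
      rw [hu, real_inner_smul_left, inv_mul_eq_div, lt_div_iff₀ hn]
      exact hw'
  rw [h2]
  exact h1

theorem half_cap_preconnected (u₀ v : E d) {c : ℝ} (hc : 0 ≤ c) :
    IsPreconnected {u : Metric.sphere (0 : E d) 1 | c < ⟪(u : E d), u₀⟫ ∧ 0 < ⟪(u : E d), v⟫} := by
  have hcv : Convex ℝ {w : E d | 0 < ⟪w, v⟫} := by
    have := cap_convex (d := d) v (le_refl (0 : ℝ))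
    simp only [zero_mul] at this
    exact this
  have h1 := cone_preconnected ((cap_convex u₀ hc).inter hcv).isPreconnected
    fun w hw => norm_pos_iff.1 (cap_norm_pos hc hw.1)
  have h2 : {u : Metric.sphere (0 : E d) 1 | c < ⟪(u : E d), u₀⟫ ∧ 0 < ⟪(u : E d), v⟫} =
      {u : Metric.sphere (0 : E d) 1 | ∃ w ∈ {w : E d | c * ‖w‖ < ⟪w, u₀⟫} ∩
        {w : E d | 0 < ⟪w, v⟫}, (u : E d) = ‖w‖⁻¹ • w} := by
    ext u
    constructor
    · rintro ⟨hu, hv⟩
      have hn : ‖(u : E d)‖ = 1 := by simp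
      refine ⟨u, ⟨?_, hv⟩, by rw [hn, inv_one, one_smul]⟩
      show c * ‖(u : E d)‖ < ⟪(u : E d), u₀⟫
      rw [hn, mul_one]
      exact hu
    · rintro ⟨w, ⟨hw, hwv⟩, hu⟩
      have hw' : c * ‖w‖ < ⟪w, u₀⟫ := hw
      have hwv' : 0 < ⟪w, v⟫ := hwv
      have hn := cap_norm_pos hc hw
      show c < ⟪(u : E d), u₀⟫ ∧ 0 < ⟪(u : E d), v⟫
      rw [hu, real_inner_smul_left, real_inner_smul_left]
      refine ⟨?_, by positivity⟩
      rw [inv_mul_eq_div, lt_div_iff₀ hn]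
      exact hw'
  rw [h2]
  exact h1

theorem exists_cap (u₀ : Metric.sphere (0 : E d) 1) {U : Set (Metric.sphere (0 : E d) 1)}
    (hU : U ∈ 𝓝 u₀) : ∃ c : ℝ, 0 ≤ c ∧ c < 1 ∧
      {u : Metric.sphere (0 : E d) 1 | c < ⟪(u : E d), (u₀ : E d)⟫} ⊆ U := by
  obtain ⟨ε, hε, h⟩ := Metric.mem_nhds_iff.1 hU
  have hε2 : 0 < ε ^ 2 := by positivity
  refine ⟨max 0 (1 - ε ^ 2 / 2), le_max_left _ _, max_lt one_pos (by linarith), ?_⟩
  intro u hu
  refine h ?_
  rw [Metric.mem_ball, Subtype.dist_eq, dist_eq_norm]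
  have h1 : 1 - ε ^ 2 / 2 < ⟪(u : E d), (u₀ : E d)⟫ := (le_max_right _ _).trans_lt hu
  have hn : ‖(u : E d)‖ = 1 := by simp
  have hn₀ : ‖(u₀ : E d)‖ = 1 := by simp
  have h2 : ‖(u : E d) - u₀‖ ^ 2 < ε ^ 2 := by
    rw [norm_sub_sq_real, hn, hn₀]
    linarith
  exact lt_of_pow_lt_pow_left₀ 2 hε.le h2

theorem cap_mem_nhds (u₀ : Metric.sphere (0 : E d) 1) {c : ℝ} (hc : c < 1) :
    {u : Metric.sphere (0 : E d) 1 | c < ⟪(u : E d), (u₀ : E d)⟫} ∈ 𝓝 u₀ := by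
  have h1 : IsOpen {u : Metric.sphere (0 : E d) 1 | c < ⟪(u : E d), (u₀ : E d)⟫} :=
    isOpen_lt continuous_const (continuous_subtype_val.inner continuous_const)
  refine h1.mem_nhds ?_
  have hn₀ : ‖(u₀ : E d)‖ = 1 := by simp
  show c < ⟪(u₀ : E d), (u₀ : E d)⟫
  rw [real_inner_self_eq_norm_sq, hn₀]
  linarith

variable {m n : ℕ} {A : Fin n → Set (E (m + 2))}

theorem hi_ne_dense (hA : CFam A) (hn : m + 2 ≤ n) {i j : Fin n} (hij : i ≠ j) :
    Dense {u : Metric.sphere (0 : E (m + 2)) 1 | hi (A i) u ≠ hi (A j) u} := by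
  intro u₀
  obtain ⟨f, c, c', h1, h2, h3⟩ := geometric_hahn_banach_compact_closed (hA.convex i)
    (hA.compact i) (hA.convex j) (hA.compact j).isClosed (hA.disjoint hn hij)
  obtain ⟨w, hw⟩ : ∃ w : E (m + 2), ∀ x, ⟪w, x⟫ = f x :=
    ⟨(InnerProductSpace.toDual ℝ (E (m + 2))).symm f, fun x =>
      InnerProductSpace.toDual_symm_apply⟩
  have hin : ∀ (s s' : ℝ) (x : E (m + 2)), ⟪(u₀ : E (m + 2)) + s' • w, x⟫ =
      ⟪(u₀ : E (m + 2)) + s • w, x⟫ + (s' - s) * ⟪w, x⟫ := by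
    intro s s' x
    rw [inner_add_left, inner_add_left, real_inner_smul_left, real_inner_smul_left]
    ring
  have hmono : ∀ s s' : ℝ, s < s' →
      hi (A j) ((u₀ : E (m + 2)) + s • w) - hi (A i) ((u₀ : E (m + 2)) + s • w) <
      hi (A j) ((u₀ : E (m + 2)) + s' • w) - hi (A i) ((u₀ : E (m + 2)) + s' • w) := by
    intro s s' hss
    obtain ⟨y, hy, hy'⟩ := exists_hi (hA.compact j) (hA.nonempty j) ((u₀ : E (m + 2)) + s • w)
    obtain ⟨x, hx, hx'⟩ := exists_hi (hA.compact i) (hA.nonempty i) ((u₀ : E (m + 2)) + s' • w)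
    have e1 := le_hi (hA.compact j) ((u₀ : E (m + 2)) + s' • w) hy
    have e2 := le_hi (hA.compact i) ((u₀ : E (m + 2)) + s • w) hx
    rw [hin s s', hy'] at e1
    rw [hin s s'] at hx'
    have e3 := h3 y hy
    have e4 := h1 x hx
    rw [← hw] at e3 e4
    have e5 : (s' - s) * ⟪w, x⟫ < (s' - s) * ⟪w, y⟫ :=
      mul_lt_mul_of_pos_left (by linarith) (by linarith)
    linarith
  have hev : ∀ᶠ s in 𝓝[>] (0 : ℝ),
      hi (A i) ((u₀ : E (m + 2)) + s • w) ≠ hi (A j) ((u₀ : E (m + 2)) + s • w) := by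
    by_cases hz : ∃ s₀ : ℝ, 0 < s₀ ∧
        hi (A i) ((u₀ : E (m + 2)) + s₀ • w) = hi (A j) ((u₀ : E (m + 2)) + s₀ • w)
    · obtain ⟨s₀, hs₀, hz⟩ := hz
      filter_upwards [Ioo_mem_nhdsGT hs₀] with s hs heq
      have := hmono s s₀ hs.2
      rw [hz, heq] at this
      simp at this
    · filter_upwards [self_mem_nhdsWithin] with s hs heq
      exact hz ⟨s, hs, heq⟩
  have hn₀ : ‖(u₀ : E (m + 2))‖ = 1 := by simp
  have hne₀ : (u₀ : E (m + 2)) ≠ 0 := by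
    rw [← norm_pos_iff, hn₀]
    exact one_pos
  have hcont : Continuous fun s : ℝ => (u₀ : E (m + 2)) + s • w := by fun_prop
  have ht0 : Tendsto (fun s : ℝ => (u₀ : E (m + 2)) + s • w) (𝓝[>] 0) (𝓝 (u₀ : E (m + 2))) := by
    have := (hcont.tendsto 0).mono_left (nhdsWithin_le_nhds (s := Set.Ioi (0 : ℝ)))
    rwa [zero_smul, add_zero] at this
  have hne : ∀ᶠ s in 𝓝[>] (0 : ℝ), (u₀ : E (m + 2)) + s • w ≠ 0 := ht0.eventually_ne hne₀
  have ht : Tendsto (fun s : ℝ => ‖(u₀ : E (m + 2)) + s • w‖⁻¹ • ((u₀ : E (m + 2)) + s • w))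
      (𝓝[>] 0) (𝓝 (u₀ : E (m + 2))) := by
    have h5 := (ht0.norm.inv₀ (by rw [hn₀]; exact one_ne_zero)).smul ht0
    rwa [hn₀, inv_one, one_smul] at h5
  rw [closure_subtype]
  refine mem_closure_of_tendsto ht ?_
  filter_upwards [hev, hne] with s hs hs0
  have hp : 0 < ‖(u₀ : E (m + 2)) + s • w‖ := norm_pos_iff.2 hs0
  have hn1 : ‖‖(u₀ : E (m + 2)) + s • w‖⁻¹ • ((u₀ : E (m + 2)) + s • w)‖ = 1 := by
    rw [norm_smul, norm_inv, norm_norm, inv_mul_cancel₀ hp.ne']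
  refine ⟨⟨_, mem_sphere_zero_iff_norm.2 hn1⟩, ?_, rfl⟩
  show hi (A i) (‖(u₀ : E (m + 2)) + s • w‖⁻¹ • ((u₀ : E (m + 2)) + s • w)) ≠
    hi (A j) (‖(u₀ : E (m + 2)) + s • w‖⁻¹ • ((u₀ : E (m + 2)) + s • w))
  rw [hi_smul (hA.compact i) (hA.nonempty i) _ (inv_nonneg.2 hp.le),
    hi_smul (hA.compact j) (hA.nonempty j) _ (inv_nonneg.2 hp.le)]
  exact fun h => hs (mul_left_cancel₀ (inv_pos.2 hp).ne' h)

/-- Near every direction there is one in which all upper support values are different. -/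
theorem exists_generic (hA : CFam A) (hn : m + 2 ≤ n)
    {U : Set (Metric.sphere (0 : E (m + 2)) 1)} (hU : IsOpen U) (hne : U.Nonempty) :
    ∃ u ∈ U, ∀ i j, i ≠ j → hi (A i) u ≠ hi (A j) u := by
  have hd : Dense (⋂ p : Fin n × Fin n, {u : Metric.sphere (0 : E (m + 2)) 1 |
      p.1 ≠ p.2 → hi (A p.1) u ≠ hi (A p.2) u}) := by
    refine dense_iInter_of_isOpen (fun p => ?_) fun p => ?_
    · by_cases hp : p.1 = p.2
      · simp [hp]
      · have e : {u : Metric.sphere (0 : E (m + 2)) 1 |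
            p.1 ≠ p.2 → hi (A p.1) u ≠ hi (A p.2) u} =
            {u : Metric.sphere (0 : E (m + 2)) 1 | hi (A p.1) u ≠ hi (A p.2) u} := by
          ext u
          exact ⟨fun h => h hp, fun h _ => h⟩
        rw [e]
        exact isOpen_ne_fun
          ((continuous_hi (hA.compact _) (hA.convex _) (hA.nonempty _)).comp
            continuous_subtype_val)
          ((continuous_hi (hA.compact _) (hA.convex _) (hA.nonempty _)).comp
            continuous_subtype_val)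
    · by_cases hp : p.1 = p.2
      · simp [hp]
      · refine (hi_ne_dense hA hn hp).mono fun u hu _ => hu
  obtain ⟨u, huU, hu⟩ := hd.inter_open_nonempty U hU hne
  exact ⟨u, huU, fun i j hij => Set.mem_iInter.1 hu (i, j) hij⟩

end HyperplaneTransversals
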