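import Pool.Agent.Lib.MP_b2e5b9_co_D.Thk2
import Pool.Agent.Lib.MP_b2e5b9_co_D.Sol1

/-!
# Two-dimensional strata near a nondegenerate edge point

Setting: the support of `σ` has `m` elements, `σ b = 0`, `δ ≠ 0`, `h₁ ∈ St A (update σ b δ)` does
not contain `A b` and does not lie in the closed set `F`.

Proof. Let `B = thk A (fun _ => δ₀)` be the bodies of `CFam.exists_fam` (`A i ⊆ B i`). Choose `k ≠
b`
with `σ k = 0` (`m + 2 ≤ n`) and the injective tuple `I = tup e b k`, `e` an enumeration of the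
support of `σ` (`exists_enum`, `tup` from `Fat/Rec.lean`). `ω = orient B I h₁`. For
`y, x ∈ [-1, 1]` let `γ (y, x)` be the solution (`sol_exists`) with orientation `ω` of the
functions `lev (A (e j)) (σ (e j))`, `lev (A b) y`, `lev (A k) x`; it is continuous on the closed
square (`sol_continuousOn` with `P = ℝ × ℝ`, `tanSys_lev`). `h₁` crosses `A k` strictly, so
`h₁ = γ (δ, x₁)` with `|x₁| < 1`, where `δ` is read as the number `1` or `-1` (`sol_unique`).

At `h₁` we have: `lo (A b) < hi (A b)` (otherwise `h₁ ∈ Cont (A b)`, `mem_Cont_iff`), `lo (A l) <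
t <
hi (A l)` for all `l ≠ b` with `σ l = 0`, and `h₁ ∉ F`. These are open conditions (`continuous_hi`,
`continuous_lo`), so there is `η > 0` such that they hold at `γ (y, x)` for `|y| ≤ 1`,
`|y - δ| < η`, `|x - x₁| < η`, `|x| < 1`. Let `Q` be the image under `γ` of the convex set of the
`(y, x)` with `|y| < 1`, `|y - δ| < η`, `|x - x₁| < η`, `|x| < 1`: it is preconnected and
contained in `St A σ \ F` (`A b` is crossed strictly since `|y| < 1` and `lo < hi`).

`h₁ ∈ closure (St A σ \ F)`: `γ (y, x₁) → γ (δ, x₁) = h₁` as `y → δ`, `|y| < 1`.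

If `h ∈ St A σ` is close to `h₁`: `orient B I h = ω` (`orient_eventually`), `h = γ (y, x)` for its
positions `y = (2 t - hi - lo) / (hi - lo)` relative to `A b` and `x` relative to `A k`
(`sol_unique`), which depend continuously on `h` near `h₁` (as `lo < hi` there for `b` and `k`), so
they are close to `δ` and `x₁`, and `|y| < 1` as `h` crosses `A b` strictly. So `h ∈ Q`.
-/

set_option autoImplicit false

open Set Filter
open scoped RealInnerProductSpace Topology

namespace HyperplaneTransversals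

variable {m n : ℕ} {A : Fin n → Set (E (m + 2))} {σ : Fin n → SignType}

theorem cell2_pos_eq_iff {d : ℕ} {K : Set (E d)} {h : OH d} (hlt : lo K h.1 < hi K h.1) (q : ℝ) :
    pos K h = q ↔ lev K q h.1 = h.2 := by
  have hne : hi K h.1 - lo K h.1 ≠ 0 := (sub_pos.2 hlt).ne'
  unfold pos lev
  rw [div_eq_iff hne]
  constructor
  · intro e
    linarith
  · intro e
    linarith

theorem cell2_continuousAt_pos {d : ℕ} {K : Set (E d)} (hK : IsCompact K) (hconv : Convex ℝ K)
    (hne : K.Nonempty) {h : OH d} (hlt : lo K h.1 < hi K h.1) : ContinuousAt (pos K) h := by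
  have h1 := continuous_hi hK hconv hne
  have h2 := continuous_lo hK hconv hne
  have h3 : Continuous (fun h : OH d => hi K h.1) := h1.comp (by fun_prop)
  have h4 : Continuous (fun h : OH d => lo K h.1) := h2.comp (by fun_prop)
  unfold pos
  refine ContinuousAt.div (Continuous.continuousAt (by fun_prop))
    (Continuous.continuousAt (by fun_prop)) (sub_pos.2 hlt).ne'

theorem cell2_abs_pos_lt {d : ℕ} {K : Set (E d)} {h : OH d} (h1 : lo K h.1 < h.2)
    (h2 : h.2 < hi K h.1) : |pos K h| < 1 := by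
  have hlt : 0 < hi K h.1 - lo K h.1 := by linarith
  unfold pos
  rw [abs_lt, lt_div_iff₀ hlt, div_lt_iff₀ hlt]
  constructor <;> linarith

theorem cell2_lev_sign {d : ℕ} {K : Set (E d)} {h : OH d} {s : SignType} (hs : s ≠ 0) :
    lev K (s : ℝ) h.1 = h.2 ↔ (s = 1 → h.2 = hi K h.1) ∧ (s = -1 → h.2 = lo K h.1) := by
  rcases hs' : s with _ | _ | _
  · exact absurd hs' hs
  · have e : SignType.neg = -1 := rfl
    rw [e]
    have h1 : ((-1 : SignType) : ℝ) = -1 := by simp
    have h2 : ¬ ((-1 : SignType) = 1) := by decide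
    rw [h1]
    simp only [h2, false_imp_iff, true_and, true_imp_iff]
    unfold lev
    constructor <;> intro e <;> linarith
  · have e : SignType.pos = 1 := rfl
    rw [e]
    have h1 : ((1 : SignType) : ℝ) = 1 := by simp
    have h2 : ¬ ((1 : SignType) = -1) := by decide
    rw [h1]
    simp only [h2, false_imp_iff, and_true, true_imp_iff]
    unfold lev
    constructor <;> intro e <;> linarith

theorem cell2_lev_strict {d : ℕ} {K : Set (E d)} {u : E d} (hlt : lo K u < hi K u) {q : ℝ}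
    (hq : |q| < 1) : lo K u < lev K q u ∧ lev K q u < hi K u := by
  obtain ⟨h1, h2⟩ := abs_lt.1 hq
  unfold lev
  constructor <;> nlinarith

theorem cell2_exists_ne (hn : m + 2 ≤ n) (hσ : (supp σ).card = m) (b : Fin n) :
    ∃ k, σ k = 0 ∧ k ≠ b := by
  classical
  by_contra hcon
  push Not at hcon
  have h1 : (Finset.univ.erase b : Finset (Fin n)) ⊆ supp σ := by
    intro k hk
    rw [mem_supp]
    intro h0
    exact (Finset.mem_erase.1 hk).1 (hcon k h0)
  have h2 := Finset.card_le_card h1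
  rw [Finset.card_erase_of_mem (Finset.mem_univ b), Finset.card_univ, Fintype.card_fin, hσ] at h2
  omega

theorem cell2_abs_le (hA : CFam A) {B : Fin n → Set (E (m + 2))} (hB : Fam B)
    (hAB : ∀ i, A i ⊆ B i) (i : Fin n) {h : OH (m + 2)} (h1 : lo (A i) h.1 ≤ h.2)
    (h2 : h.2 ≤ hi (A i) h.1) : |pos (B i) h| ≤ 1 := by
  rw [← meets_iff hB]
  obtain ⟨x, hx, hx'⟩ := (exists_meet (hA.compact i) (hA.convex i) (hA.nonempty i) h.1 h.2).2
    ⟨h1, h2⟩
  exact ⟨x, hAB i hx, hx'⟩

theorem cell2_St_le (hA : CFam A) {h : OH (m + 2)} (hh : h ∈ St A σ) (i : Fin n) :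
    lo (A i) h.1 ≤ h.2 ∧ h.2 ≤ hi (A i) h.1 := by
  have hle := lo_le_hi (hA.compact i) (hA.nonempty i) (h.1 : E (m + 2))
  rcases hs : σ i with _ | _ | _
  · have := (hh i).1 hs
    exact ⟨this.1.le, this.2.le⟩
  · have := (hh i).2.2 hs
    exact ⟨this.ge, this.le.trans hle⟩
  · have := (hh i).2.1 hs
    exact ⟨hle.trans this.ge, this.le⟩

theorem cell_two (hA : CFam A) (hn : m + 2 ≤ n) (hσ : (supp σ).card = m)
    {F : Set (OH (m + 2))} (hF : IsClosed F) {b : Fin n} (hb : σ b = 0) {δ : SignType}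
    (hδ : δ ≠ 0) {h₁ : OH (m + 2)} (hh : h₁ ∈ St A (Function.update σ b δ))
    (hc : h₁ ∉ Cont (A b)) (hhF : h₁ ∉ F) :
    h₁ ∈ closure (St A σ \ F) ∧ ∃ Q ⊆ St A σ \ F, IsPreconnected Q ∧
      ∀ᶠ h in 𝓝 h₁, h ∈ St A σ \ F → h ∈ Q := by
  classical
  obtain ⟨δ₀, hδ₀, hfam⟩ := hA.exists_fam
  set B : Fin n → Set (E (m + 2)) := thk A (fun _ => δ₀) with hBdef
  have hB : Fam B := hfam _ (fun _ => ⟨hδ₀, le_rfl⟩)
  have hAB : ∀ i, A i ⊆ B i := fun i => Metric.self_subset_cthickening _
  obtain ⟨k, hk0, hkb⟩ := cell2_exists_ne hn hσ b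
  obtain ⟨e, he, he1, he2⟩ := exists_enum hσ
  have heb : ∀ j, e j ≠ b := fun j hj => he1 j (by rw [hj]; exact hb)
  have hek : ∀ j, e j ≠ k := fun j hj => he1 j (by rw [hj]; exact hk0)
  set I : Fin (m + 2) → Fin n := CubeSys.tup e b k with hIdef
  have hI : Function.Injective I := CubeSys.tup_injective he heb hek hkb.symm
  set ω : ℝ := orient B I h₁ with hωdef
  have hω : ω = 1 ∨ ω = -1 := orient_mem B I h₁
  set S : Set (ℝ × ℝ) := {p | |p.1| ≤ 1 ∧ |p.2| ≤ 1} with hSdef
  set q : ℝ × ℝ → Fin (m + 2) → ℝ :=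
    fun p => CubeSys.tup (fun j => ((σ (e j) : SignType) : ℝ)) p.1 p.2 with hqdef
  have hq : ∀ p ∈ S, ∀ j, |q p j| ≤ 1 := by
    intro p hp
    refine CubeSys.tup_forall (fun j => ?_) ?_ ?_
    · rw [hqdef]
      simp only [CubeSys.tup_init]
      exact (SignType.abs_cast_eq_one (he1 j)).le
    · rw [hqdef]
      simp only [CubeSys.tup_prev]
      exact hp.1
    · rw [hqdef]
      simp only [CubeSys.tup_last]
      exact hp.2
  have hK : ∀ j, IsCompact (A (I j)) ∧ Convex ℝ (A (I j)) ∧ (A (I j)).Nonempty ∧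
      A (I j) ⊆ B (I j) :=
    fun j => ⟨hA.compact _, hA.convex _, hA.nonempty _, hAB _⟩
  have hT : ∀ p ∈ S, TanSys (fun j => B (I j)) (fun j => lev (A (I j)) (q p j)) :=
    fun p hp => tanSys_lev hB hI hK (hq p hp)
  -- reformulation of the equations of the system
  have hsys : ∀ (p : ℝ × ℝ) (h : OH (m + 2)), (∀ j, lev (A (I j)) (q p j) h.1 = h.2) ↔
      (∀ j, lev (A (e j)) ((σ (e j) : SignType) : ℝ) h.1 = h.2) ∧ lev (A b) p.1 h.1 = h.2 ∧
        lev (A k) p.2 h.1 = h.2 := by
    intro p h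
    constructor
    · intro hj
      refine ⟨fun j => ?_, ?_, ?_⟩
      · have := hj j.castSucc.castSucc
        rw [hqdef, hIdef] at this
        simp only [CubeSys.tup_init] at this
        exact this
      · have := hj (Fin.last m).castSucc
        rw [hqdef, hIdef] at this
        simp only [CubeSys.tup_prev] at this
        exact this
      · have := hj (Fin.last (m + 1))
        rw [hqdef, hIdef] at this
        simp only [CubeSys.tup_last] at this
        exact this
    · rintro ⟨h1, h2, h3⟩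
      refine CubeSys.tup_forall (fun j => ?_) ?_ ?_
      · rw [hqdef, hIdef]
        simp only [CubeSys.tup_init]
        exact h1 j
      · rw [hqdef, hIdef]
        simp only [CubeSys.tup_prev]
        exact h2
      · rw [hqdef, hIdef]
        simp only [CubeSys.tup_last]
        exact h3
  have : Nonempty (OH (m + 2)) := ⟨h₁⟩
  have hex : ∀ p ∈ S, ∃ h : OH (m + 2), (∀ j, lev (A (I j)) (q p j) h.1 = h.2) ∧
      orient B I h = ω := fun p hp => sol_exists hB hI (hT p hp) hω
  choose! γ hγ using hex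
  have hcont : ContinuousOn γ S := by
    refine sol_continuousOn hB hI (F := fun p j => lev (A (I j)) (q p j)) hT (fun j => ?_)
      (fun p hp => hγ p hp)
    have hh : Continuous (fun z : (ℝ × ℝ) × E (m + 2) => hi (A (I j)) z.2) :=
      (continuous_hi (hA.compact _) (hA.convex _) (hA.nonempty _)).comp continuous_snd
    have hl : Continuous (fun z : (ℝ × ℝ) × E (m + 2) => lo (A (I j)) z.2) :=
      (continuous_lo (hA.compact _) (hA.convex _) (hA.nonempty _)).comp continuous_snd
    have hqc : Continuous (fun z : (ℝ × ℝ) × E (m + 2) => q z.1 j) := by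
      revert j
      refine CubeSys.tup_forall (fun j => ?_) ?_ ?_
      · intro _ _
        rw [hqdef]
        simp only [CubeSys.tup_init]
        exact continuous_const
      · intro _ _
        rw [hqdef]
        simp only [CubeSys.tup_prev]
        exact continuous_fst.comp continuous_fst
      · intro _ _
        rw [hqdef]
        simp only [CubeSys.tup_last]
        exact continuous_snd.comp continuous_fst
    refine Continuous.continuousOn ?_
    unfold lev
    exact ((((continuous_const.add hqc).div_const _).mul hh).add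
      (((continuous_const.sub hqc).div_const _).mul hl))
  -- the conditions at `h₁`
  have hupd : ∀ l, l ≠ b → Function.update σ b δ l = σ l := fun l hl =>
    Function.update_of_ne hl _ _
  have hl1 : ∀ l, l ≠ b → σ l = 0 → lo (A l) h₁.1 < h₁.2 ∧ h₁.2 < hi (A l) h₁.1 := by
    intro l hl h0
    exact (hh l).1 (by rw [hupd l hl]; exact h0)
  have hle1 := cell2_St_le hA hh
  have hbs : lev (A b) (δ : ℝ) h₁.1 = h₁.2 := by
    rw [cell2_lev_sign hδ]
    have := (hh b).2
    rwa [Function.update_self] at this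
  have hblt : lo (A b) h₁.1 < hi (A b) h₁.1 := by
    refine lt_of_le_of_ne (lo_le_hi (hA.compact b) (hA.nonempty b) _) fun heq => hc ?_
    rw [mem_Cont_iff (hA.compact b) (hA.nonempty b)]
    obtain ⟨h1, h2⟩ := hle1 b
    constructor <;> linarith
  have hklt : lo (A k) h₁.1 < hi (A k) h₁.1 := by
    obtain ⟨h1, h2⟩ := hl1 k hkb hk0
    linarith
  set d : ℝ := (δ : ℝ) with hddef
  have hd : |d| = 1 := SignType.abs_cast_eq_one hδ
  set x₁ : ℝ := pos (A k) h₁ with hx₁def
  have hx₁ : |x₁| < 1 := cell2_abs_pos_lt (hl1 k hkb hk0).1 (hl1 k hkb hk0).2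
  set p₁ : ℝ × ℝ := (d, x₁) with hp₁def
  have hp₁ : p₁ ∈ S := ⟨hd.le, hx₁.le⟩
  have hγ1 : γ p₁ = h₁ := by
    obtain ⟨h1, h2⟩ := hγ p₁ hp₁
    refine sol_unique hB hI (hT p₁ hp₁) h1 ?_ h2
    rw [hsys]
    refine ⟨fun j => ?_, hbs, ?_⟩
    · rw [cell2_lev_sign (he1 j)]
      have := (hh (e j)).2
      rwa [hupd _ (heb j)] at this
    · exact (cell2_pos_eq_iff hklt x₁).1 rfl
  -- the open set
  have hci : ∀ i, Continuous (fun h : OH (m + 2) => hi (A i) h.1) := fun i =>
    (continuous_hi (hA.compact i) (hA.convex i) (hA.nonempty i)).comp (by fun_prop)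
  have hcl : ∀ i, Continuous (fun h : OH (m + 2) => lo (A i) h.1) := fun i =>
    (continuous_lo (hA.compact i) (hA.convex i) (hA.nonempty i)).comp (by fun_prop)
  set U : Set (OH (m + 2)) := {h | lo (A b) h.1 < hi (A b) h.1} ∩
    ((⋂ l, {h | l ≠ b → σ l = 0 → lo (A l) h.1 < h.2 ∧ h.2 < hi (A l) h.1}) ∩ Fᶜ) with hUdef
  have hUo : IsOpen U := by
    refine (isOpen_lt (hcl b) (hci b)).inter (IsOpen.inter ?_ hF.isOpen_compl)
    refine isOpen_iInter_of_finite fun l => ?_
    by_cases h1 : l ≠ b ∧ σ l = 0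
    · have : {h : OH (m + 2) | l ≠ b → σ l = 0 → lo (A l) h.1 < h.2 ∧ h.2 < hi (A l) h.1} =
          {h | lo (A l) h.1 < h.2} ∩ {h | h.2 < hi (A l) h.1} := by
        ext h
        simp [h1.1, h1.2]
      rw [this]
      exact (isOpen_lt (hcl l) continuous_snd).inter (isOpen_lt continuous_snd (hci l))
    · have : {h : OH (m + 2) | l ≠ b → σ l = 0 → lo (A l) h.1 < h.2 ∧ h.2 < hi (A l) h.1} =
          Set.univ := by
        ext h
        simp only [Set.mem_ofPred_eq, Set.mem_univ, iff_true]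
        intro a1 a2
        exact absurd ⟨a1, a2⟩ h1
      rw [this]
      exact isOpen_univ
  have hU1 : h₁ ∈ U := ⟨hblt, Set.mem_iInter.2 fun l => hl1 l, hhF⟩
  have hUev : γ ⁻¹' U ∈ 𝓝[S] p₁ :=
    (hcont p₁ hp₁) (hUo.mem_nhds (by rw [hγ1]; exact hU1))
  obtain ⟨η, hη, hball⟩ := Metric.mem_nhdsWithin_iff.1 hUev
  set D : Set (ℝ × ℝ) := Metric.ball p₁ η ∩ (Ioo (-1 : ℝ) 1 ×ˢ Ioo (-1 : ℝ) 1) with hDdef
  have hDS : D ⊆ S := fun p hp =>
    ⟨(abs_lt.2 hp.2.1).le, (abs_lt.2 hp.2.2).le⟩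
  have hDconv : Convex ℝ D :=
    (convex_ball p₁ η).inter ((convex_Ioo _ _).prod (convex_Ioo _ _))
  have hDU : ∀ p ∈ D, γ p ∈ U := fun p hp => hball ⟨hp.1, hDS hp⟩
  have hQsub : γ '' D ⊆ St A σ \ F := by
    rintro _ ⟨p, hp, rfl⟩
    obtain ⟨hU1', hU2, hU3⟩ := hDU p hp
    obtain ⟨s1, s2, s3⟩ := (hsys p (γ p)).1 (hγ p (hDS hp)).1
    refine ⟨fun l => ?_, hU3⟩
    by_cases hl : σ l = 0
    · have hn1 : ¬ (0 : SignType) = 1 := by decide
      have hn2 : ¬ (0 : SignType) = -1 := by decide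
      rw [hl]
      refine ⟨fun _ => ?_, fun h => absurd h hn1, fun h => absurd h hn2⟩
      by_cases hlb : l = b
      · subst hlb
        have := cell2_lev_strict hU1' (abs_lt.2 hp.2.1 : |p.1| < 1)
        rwa [s2] at this
      · exact Set.mem_iInter.1 hU2 l hlb hl
    · obtain ⟨j, rfl⟩ := he2 l hl
      exact ⟨fun h => absurd h hl, (cell2_lev_sign hl).1 (s1 j)⟩
  refine ⟨?_, γ '' D, hQsub, hDconv.isPreconnected.image _ (hcont.mono hDS), ?_⟩
  · refine closure_mono hQsub ?_
    rw [← hγ1]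
    refine ContinuousWithinAt.mem_closure_image ((hcont p₁ hp₁).mono hDS) ?_
    refine Metric.isOpen_ball.inter_closure ⟨Metric.mem_ball_self hη, ?_⟩
    rw [closure_prod_eq, closure_Ioo (by norm_num)]
    exact ⟨abs_le.1 hd.le, abs_le.1 hx₁.le⟩
  · have ev1 : ∀ᶠ h in 𝓝 h₁, (∀ j, |pos (B (I j)) h| ≤ 1) → orient B I h = ω :=
      orient_eventually hB hI fun j => cell2_abs_le hA hB hAB _ (hle1 _).1 (hle1 _).2
    have hposb : pos (A b) h₁ = d := (cell2_pos_eq_iff hblt d).2 hbs
    have ev2 : ∀ᶠ h in 𝓝 h₁, dist (pos (A b) h) d < η := by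
      have := cell2_continuousAt_pos (hA.compact b) (hA.convex b) (hA.nonempty b) hblt
      have h2 := this.eventually (Metric.ball_mem_nhds _ hη)
      rw [hposb] at h2
      exact h2
    have ev3 : ∀ᶠ h in 𝓝 h₁, dist (pos (A k) h) x₁ < η := by
      have := cell2_continuousAt_pos (hA.compact k) (hA.convex k) (hA.nonempty k) hklt
      exact this.eventually (Metric.ball_mem_nhds _ hη)
    filter_upwards [ev1, ev2, ev3] with h g1 g2 g3 hhS
    have hle := cell2_St_le hA hhS.1
    have hbh := (hhS.1 b).1 hb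
    have hkh := (hhS.1 k).1 hk0
    have hpD : ((pos (A b) h, pos (A k) h) : ℝ × ℝ) ∈ D := by
      refine ⟨?_, abs_lt.1 (cell2_abs_pos_lt hbh.1 hbh.2), abs_lt.1 (cell2_abs_pos_lt hkh.1 hkh.2)⟩
      rw [Metric.mem_ball, Prod.dist_eq]
      exact max_lt g2 g3
    refine ⟨_, hpD, ?_⟩
    obtain ⟨h1, h2⟩ := hγ _ (hDS hpD)
    refine sol_unique hB hI (hT _ (hDS hpD)) h1 ?_ ?_
    · rw [hsys]
      refine ⟨fun j => ?_, ?_, ?_⟩
      · rw [cell2_lev_sign (he1 j)]
        exact (hhS.1 (e j)).2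
      · exact (cell2_pos_eq_iff (hbh.1.trans hbh.2) _).1 rfl
      · exact (cell2_pos_eq_iff (hkh.1.trans hkh.2) _).1 rfl
    · rw [h2, g1 fun j => cell2_abs_le hA hB hAB _ (hle _).1 (hle _).2]

end HyperplaneTransversals
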