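import Pool.Agent.Lib.MP_b2e5b9_co_D.CurveA

/-!
# The one-dimensional strata are arcs

Setting: `σ` has `m + 1` nonzero entries, `h₀ ∈ Cl A σ`, `Z` is the component of `h₀` in `Cl A σ`.

Proof. Let `B = thk A (fun _ => δ)` be the separated family of bodies of `CFam.exists_fam`;
`A i ⊆ B i` (`Metric.self_subset_cthickening`), so every hyperplane that meets `A i` has
`|pos (B i) h| ≤ 1` (`meets_iff`). Choose `k` with `σ k = 0` and an injective
`I : Fin (m + 2) → Fin n` with `I (Fin.last _) = k` whose other values enumerate the support of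
`σ` (`Fin.snoc` of `exists_enum`). Let `ω = orient B I h₀`. For `r ∈ [-1, 1]` let `c r` be the
solution (`sol_exists`, unique by `sol_unique`) with orientation `ω` of the functions
`lev (A (I j)) (σ (I j))` (`j` not last; this is `hi` for `σ = 1` and `lo` for `σ = -1`) and
`lev (A k) r`; these form a `TanSys` in the `B (I j)` by `tanSys_lev`. `c` is continuous on
`[-1, 1]` (`sol_continuousOn` with `P = ℝ`). Every `h ∈ Z` has orientation `ω` (`orient_const`) and
meets `A k`, so `h = c r` for some `r ∈ [-1, 1]` (`exists_lev`, `sol_unique`).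

Case 1: `c r₀ ∈ Cont (A k)` for some `r₀`. Then `lev (A k) r (c r₀).1 = (c r₀).2` for all `r`, so
`c r = c r₀` for all `r` and `Z = {h₀}`: take `a = b = r₀`.

Case 2: otherwise `lo (A k) < hi (A k)` at `c r` for all `r`, so `c` is injective (`lev_inj`). The
set `R` of the `r ∈ [-1, 1]` with `c r ∈ Z` is closed (`Cl A σ` is closed, so `Z` is closed) and
preconnected (`c` is a homeomorphism from the compact interval onto its image, which contains `Z`;
or: if `R` were covered by two disjoint nonempty relatively closed parts, their images would be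
disjoint compact sets covering `Z`), so `R = [a, b]` and `Z = c '' [a, b]`. Let
`a < r < b`; claim `c r ∈ St A σ`. For `l = k` this is `|r| < 1` and `lo < hi`. Let `σ l = 0`,
`l ≠ k`, and let `I'` be `I` with the last value replaced by `l`; `orient B I'` is constant on `Z`
(`orient_const`). If `c r' ∈ Cont (A l)` for some `r' ∈ [a, b]` then for every `r'' ∈ [a, b]` the
hyperplanes `c r'` and `c r''` are both solutions for the tuple `I'` with the function
`lev (A l) y`, where `y` is a position of `c r''` (`exists_lev`), so `c r' = c r''`,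
contradicting `a < b`. So `lo (A l) < hi (A l)` at all `c r'`, and the position
`y r' = (2 t - hi - lo) / (hi - lo)` of `c r'` is continuous on `[a, b]`, injective (`sol_unique` for
`I'`), and has values in `[-1, 1]`. A continuous injective function on `[a, b]` is strictly
monotone or antitone (`Continuous.strictMonoOn_of_injOn_Icc'` or
`ContinuousOn.strictMonoOn_of_injOn_Icc'`), so `|y r| < 1` in the interior, which means
`lo (A l) < t < hi (A l)` at `c r`.
-/

set_option autoImplicit false

open Set Filter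
open scoped RealInnerProductSpace Topology

namespace HyperplaneTransversals

variable {m n : ℕ} {A : Fin n → Set (E (m + 2))} {σ : Fin n → SignType}

theorem curve_lev_pos {d : ℕ} {K : Set (E d)} {h : OH d} (hlt : lo K h.1 < hi K h.1) :
    lev K (pos K h) h.1 = h.2 := by
  have h1 : hi K h.1 - lo K h.1 ≠ 0 := (sub_pos.2 hlt).ne'
  unfold lev pos
  field_simp
  ring

theorem curve_abs_pos {d : ℕ} {K : Set (E d)} {h : OH d} (hlt : lo K h.1 < hi K h.1)
    (h1 : lo K h.1 ≤ h.2) (h2 : h.2 ≤ hi K h.1) : |pos K h| ≤ 1 := by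
  have h3 := sub_pos.2 hlt
  unfold pos
  rw [abs_le, le_div_iff₀ h3, div_le_iff₀ h3]
  constructor <;> linarith

theorem curve_strict {d : ℕ} {K : Set (E d)} {h : OH d} (hlt : lo K h.1 < hi K h.1)
    (h1 : |pos K h| < 1) : lo K h.1 < h.2 ∧ h.2 < hi K h.1 := by
  have h3 := sub_pos.2 hlt
  unfold pos at h1
  rw [abs_lt, lt_div_iff₀ h3, div_lt_iff₀ h3] at h1
  constructor <;> linarith [h1.1, h1.2]

theorem curve_pos_cont (hA : CFam A) (k : Fin n) :
    ContinuousOn (pos (A k)) {h : OH (m + 2) | lo (A k) h.1 < hi (A k) h.1} := by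
  have h1 : Continuous (fun h : OH (m + 2) => hi (A k) (h.1 : E (m + 2))) :=
    (continuous_hi (hA.compact k) (hA.convex k) (hA.nonempty k)).comp
      (continuous_subtype_val.comp continuous_fst)
  have h2 : Continuous (fun h : OH (m + 2) => lo (A k) (h.1 : E (m + 2))) :=
    (continuous_lo (hA.compact k) (hA.convex k) (hA.nonempty k)).comp
      (continuous_subtype_val.comp continuous_fst)
  have h3 : ContinuousOn (fun h : OH (m + 2) =>
      (2 * h.2 - hi (A k) (h.1 : E (m + 2)) - lo (A k) (h.1 : E (m + 2))) /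
        (hi (A k) (h.1 : E (m + 2)) - lo (A k) (h.1 : E (m + 2))))
      {h : OH (m + 2) | lo (A k) h.1 < hi (A k) h.1} :=
    ContinuousOn.div (((continuous_const.mul continuous_snd).sub h1).sub h2).continuousOn
      (h1.sub h2).continuousOn fun h hh => (sub_pos.2 hh).ne'
  exact h3

theorem curve_closed {X : Type} [TopologicalSpace X] {S : Set X} (hS : IsClosed S) (x : X) :
    IsClosed (connectedComponentIn S x) := by
  by_cases hx : x ∈ S
  · refine isClosed_of_closure_subset ?_
    refine (isPreconnected_connectedComponentIn.closure).subset_connectedComponentIn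
      (subset_closure (mem_connectedComponentIn hx)) ?_
    exact closure_minimal (connectedComponentIn_subset S x) hS
  · rw [connectedComponentIn_eq_empty hx]
    exact isClosed_empty

theorem CFam.lo_lt_hi_of (hA : CFam A) (k : Fin n) {h : OH (m + 2)}
    (h1 : lo (A k) h.1 ≤ h.2 ∧ h.2 ≤ hi (A k) h.1) (h2 : h ∉ Cont (A k)) :
    lo (A k) h.1 < hi (A k) h.1 := by
  refine lt_of_le_of_ne (h1.1.trans h1.2) fun h3 => h2 ?_
  rw [mem_Cont_iff (hA.compact k) (hA.nonempty k)]
  have h4 : lo (A k) (h.1 : E (m + 2)) ≤ h.2 := h1.1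
  have h5 : h.2 ≤ hi (A k) (h.1 : E (m + 2)) := h1.2
  constructor <;> linarith

/-- The components of `Cl A σ` are points or arcs, with interior in `St A σ`. -/
theorem comp_structure (hA : CFam A) (hn : m + 2 ≤ n) (hσ : (supp σ).card = m + 1)
    {h₀ : OH (m + 2)} (hh : h₀ ∈ Cl A σ) :
    ∃ (a b : ℝ) (c : ℝ → OH (m + 2)), a ≤ b ∧ ContinuousOn c (Icc a b) ∧ InjOn c (Icc a b) ∧
      c '' Icc a b = connectedComponentIn (Cl A σ) h₀ ∧ ∀ r ∈ Ioo a b, c r ∈ St A σ := by
  classical
  obtain ⟨k, hk⟩ : ∃ k, σ k = 0 := by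
    by_contra hcon
    push Not at hcon
    have h : supp σ = Finset.univ := Finset.eq_univ_iff_forall.2 fun i => mem_supp.2 (hcon i)
    rw [h, Finset.card_univ, Fintype.card_fin] at hσ
    omega
  obtain ⟨c, hc, hsol, hback, hcov, hcont⟩ := curvea_param hA hσ hh hk
  have hsub := connectedComponentIn_subset (Cl A σ) h₀
  have h00 : h₀ ∈ connectedComponentIn (Cl A σ) h₀ := mem_connectedComponentIn hh
  by_cases hcase : ∃ r ∈ Icc (-1 : ℝ) 1, c r ∈ Cont (A k)
  · obtain ⟨r, hr, hr'⟩ := hcase
    have hZ := hcont r hr hr'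
    refine ⟨0, 0, fun _ => h₀, le_rfl, continuousOn_const, ?_, ?_, ?_⟩
    · intro x hx y hy _
      rw [Icc_self] at hx hy
      exact (mem_singleton_iff.1 hx).trans (mem_singleton_iff.1 hy).symm
    · rw [hZ, Icc_self, image_singleton]
    · intro x hx
      exact absurd (hx.1.trans hx.2) (lt_irrefl _)
  · push Not at hcase
    have hmeet : ∀ r ∈ Icc (-1 : ℝ) 1,
        lo (A k) (c r).1 ≤ (c r).2 ∧ (c r).2 ≤ hi (A k) (c r).1 := by
      intro r hr
      have h1 := lev_mem_Icc (lo_le_hi (hA.compact k) (hA.nonempty k) ((c r).1 : E (m + 2)))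
        (abs_le.2 hr)
      rw [(hsol r hr).1] at h1
      exact h1
    have hlt : ∀ r ∈ Icc (-1 : ℝ) 1, lo (A k) (c r).1 < hi (A k) (c r).1 := fun r hr =>
      hA.lo_lt_hi_of k (hmeet r hr) (hcase r hr)
    have hinj : InjOn c (Icc (-1) 1) := by
      intro r hr r' hr' he
      refine lev_inj (hlt r hr) ?_
      have h1 := (hsol r hr).1
      have h2 := (hsol r' hr').1
      rw [← he] at h2
      rw [h1, h2]
    have hZlt : ∀ h ∈ connectedComponentIn (Cl A σ) h₀, lo (A k) h.1 < hi (A k) h.1 := by
      intro h hZ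
      obtain ⟨r, hr, rfl⟩ := hcov h hZ
      exact hlt r hr
    have hposZ : ∀ h ∈ connectedComponentIn (Cl A σ) h₀,
        pos (A k) h ∈ Icc (-1 : ℝ) 1 ∧ c (pos (A k) h) = h := by
      intro h hZ
      have h1 : pos (A k) h ∈ Icc (-1 : ℝ) 1 :=
        abs_le.1 (curve_abs_pos (hZlt h hZ) ((hsub hZ k).1 hk).1 ((hsub hZ k).1 hk).2)
      exact ⟨h1, hback h hZ _ h1 (curve_lev_pos (hZlt h hZ))⟩
    have hRdef : pos (A k) '' connectedComponentIn (Cl A σ) h₀ =
        Icc (-1 : ℝ) 1 ∩ c ⁻¹' connectedComponentIn (Cl A σ) h₀ := by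
      ext r
      constructor
      · rintro ⟨h, hZ, rfl⟩
        refine ⟨(hposZ h hZ).1, ?_⟩
        rw [mem_preimage, (hposZ h hZ).2]
        exact hZ
      · rintro ⟨hr, hr'⟩
        refine ⟨c r, hr', ?_⟩
        exact hinj (hposZ _ hr').1 hr (hposZ _ hr').2
    have hRconn : IsConnected (pos (A k) '' connectedComponentIn (Cl A σ) h₀) :=
      ⟨⟨_, mem_image_of_mem _ h00⟩, isPreconnected_connectedComponentIn.image _
        ((curve_pos_cont hA k).mono fun h hZ => hZlt h hZ)⟩
    have hRcomp : IsCompact (pos (A k) '' connectedComponentIn (Cl A σ) h₀) := by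
      rw [hRdef]
      exact isCompact_Icc.of_isClosed_subset
        (hc.preimage_isClosed_of_isClosed isClosed_Icc (curve_closed (hA.isClosed_Cl σ) h₀))
        inter_subset_left
    have hR := eq_Icc_of_connected_compact hRconn hRcomp
    generalize sInf (pos (A k) '' connectedComponentIn (Cl A σ) h₀) = a at hR
    generalize sSup (pos (A k) '' connectedComponentIn (Cl A σ) h₀) = b at hR
    have hab : a ≤ b := by
      have h1 := hRconn.1
      rw [hR] at h1
      exact nonempty_Icc.1 h1
    have hsubI : Icc a b ⊆ Icc (-1 : ℝ) 1 := by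
      rw [← hR, hRdef]
      exact inter_subset_left
    have hcZ : ∀ r ∈ Icc a b, c r ∈ connectedComponentIn (Cl A σ) h₀ := by
      intro r hr
      rw [← hR, hRdef] at hr
      exact hr.2
    refine ⟨a, b, c, hab, hc.mono hsubI, hinj.mono hsubI, ?_, ?_⟩
    · apply Subset.antisymm
      · rintro h ⟨r, hr, rfl⟩
        exact hcZ r hr
      · intro h hZ
        refine ⟨pos (A k) h, ?_, (hposZ h hZ).2⟩
        rw [← hR]
        exact mem_image_of_mem _ hZ
    · intro r hr l
      have hrI : r ∈ Icc a b := ⟨hr.1.le, hr.2.le⟩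
      refine ⟨fun hl => ?_, ((hsol r (hsubI hrI)).2 l)⟩
      have hab' : a < b := hr.1.trans hr.2
      have haI : a ∈ Icc a b := left_mem_Icc.2 hab
      have hbI : b ∈ Icc a b := right_mem_Icc.2 hab
      have hnc : ∀ r' ∈ Icc a b, c r' ∉ Cont (A l) := by
        intro r' hr' hcon
        have h1 := (mem_Cont_iff (hA.compact l) (hA.nonempty l) (c r')).1 hcon
        have h2 : ∀ r'' ∈ Icc a b, c r' = c r'' := by
          intro r'' hr''
          have h3 := (hsub (hcZ r'' hr'') l).1 hl
          obtain ⟨y, hy, hy'⟩ := exists_lev h3.1 h3.2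
          refine curvea_unique hA hσ hl (hcZ r' hr') (hcZ r'' hr'') hy ?_ hy'
          unfold lev
          rw [← h1.1, ← h1.2]
          ring
        have h4 := hinj (hsubI haI) (hsubI hbI) ((h2 a haI).symm.trans (h2 b hbI))
        exact absurd h4 hab'.ne
      have hltl : ∀ r' ∈ Icc a b, lo (A l) (c r').1 < hi (A l) (c r').1 := fun r' hr' =>
        hA.lo_lt_hi_of l ((hsub (hcZ r' hr') l).1 hl) (hnc r' hr')
      have hyc : ContinuousOn (fun r' => pos (A l) (c r')) (Icc a b) :=
        (curve_pos_cont hA l).comp (hc.mono hsubI) fun r' hr' => hltl r' hr'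
      have hyb : ∀ r' ∈ Icc a b, |pos (A l) (c r')| ≤ 1 := fun r' hr' =>
        curve_abs_pos (hltl r' hr') ((hsub (hcZ r' hr') l).1 hl).1
          ((hsub (hcZ r' hr') l).1 hl).2
      have hyi : InjOn (fun r' => pos (A l) (c r')) (Icc a b) := by
        intro x hx y hy he
        refine hinj (hsubI hx) (hsubI hy) ?_
        refine curvea_unique hA hσ hl (hcZ x hx) (hcZ y hy) (hyb x hx)
          (curve_lev_pos (hltl x hx)) ?_
        have he' : pos (A l) (c x) = pos (A l) (c y) := he
        rw [he']
        exact curve_lev_pos (hltl y hy)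
      refine curve_strict (hltl r hrI) ?_
      have hya := abs_le.1 (hyb a haI)
      have hyb' := abs_le.1 (hyb b hbI)
      rw [abs_lt]
      rcases hyc.strictMonoOn_of_injOn_Icc' hab hyi with hmono | hanti
      · have h1 : pos (A l) (c a) < pos (A l) (c r) := hmono haI hrI hr.1
        have h2 : pos (A l) (c r) < pos (A l) (c b) := hmono hrI hbI hr.2
        constructor <;> linarith [hya.1, hyb'.2]
      · have h1 : pos (A l) (c r) < pos (A l) (c a) := hanti haI hrI hr.1
        have h2 : pos (A l) (c b) < pos (A l) (c r) := hanti hrI hbI hr.2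
        constructor <;> linarith [hya.2, hyb'.1]

end HyperplaneTransversals
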