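import Pool.Agent.Lib.MP_b2e5b9_co_D.Thk2
import Pool.Agent.Lib.MP_b2e5b9_co_D.Sol1

/-!
# The one-dimensional strata are arcs: parametrisation
-/

set_option autoImplicit false

open Set Filter
open scoped RealInnerProductSpace Topology

namespace HyperplaneTransversals

variable {m n : ℕ} {A : Fin n → Set (E (m + 2))} {σ : Fin n → SignType}

theorem CFam.isClosed_Cl (hA : CFam A) (σ : Fin n → SignType) : IsClosed (Cl A σ) := by
  have h1 : ∀ i, Continuous (fun h : OH (m + 2) => hi (A i) (h.1 : E (m + 2))) := fun i =>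
    (continuous_hi (hA.compact i) (hA.convex i) (hA.nonempty i)).comp
      (continuous_subtype_val.comp continuous_fst)
  have h2 : ∀ i, Continuous (fun h : OH (m + 2) => lo (A i) (h.1 : E (m + 2))) := fun i =>
    (continuous_lo (hA.compact i) (hA.convex i) (hA.nonempty i)).comp
      (continuous_subtype_val.comp continuous_fst)
  have h3 : Cl A σ = ⋂ i, {h : OH (m + 2) | (σ i = 0 → lo (A i) h.1 ≤ h.2 ∧ h.2 ≤ hi (A i) h.1) ∧
      (σ i = 1 → h.2 = hi (A i) h.1) ∧ (σ i = -1 → h.2 = lo (A i) h.1)} := by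
    ext h
    simp only [Cl, mem_setOf_eq, mem_iInter]
  rw [h3]
  refine isClosed_iInter fun i => ?_
  have c1 : IsClosed {h : OH (m + 2) | σ i = 0 → lo (A i) h.1 ≤ h.2 ∧ h.2 ≤ hi (A i) h.1} := by
    by_cases h0 : σ i = 0
    · simp only [h0, forall_const]
      exact (isClosed_le (h2 i) continuous_snd).inter (isClosed_le continuous_snd (h1 i))
    · simp only [h0, false_imp_iff, setOf_true, isClosed_univ]
  have c2 : IsClosed {h : OH (m + 2) | σ i = 1 → h.2 = hi (A i) h.1} := by
    by_cases h0 : σ i = 1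
    · simp only [h0, forall_const]
      exact isClosed_eq continuous_snd (h1 i)
    · simp only [h0, false_imp_iff, setOf_true, isClosed_univ]
  have c3 : IsClosed {h : OH (m + 2) | σ i = -1 → h.2 = lo (A i) h.1} := by
    by_cases h0 : σ i = -1
    · simp only [h0, forall_const]
      exact isClosed_eq continuous_snd (h2 i)
    · simp only [h0, false_imp_iff, setOf_true, isClosed_univ]
  exact c1.inter (c2.inter c3)

theorem curvea_enum (hσ : (supp σ).card = m + 1) {k : Fin n} (hk : σ k = 0) :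
    ∃ I : Fin (m + 2) → Fin n, Function.Injective I ∧ (∃ j, I j = k) ∧
      (∀ j, I j ≠ k → σ (I j) ≠ 0) ∧ ∀ i, σ i ≠ 0 → ∃ j, I j = i := by
  classical
  have hk' : k ∉ supp σ := fun h => mem_supp.1 h hk
  have h2 : (insert k (supp σ)).card = m + 2 := by
    rw [Finset.card_insert_of_notMem hk', hσ]
  have hr := Finset.range_orderEmbOfFin (insert k (supp σ)) h2
  refine ⟨(insert k (supp σ)).orderEmbOfFin h2, ((insert k (supp σ)).orderEmbOfFin h2).injective,
    ?_, ?_, ?_⟩
  · have : k ∈ Set.range ((insert k (supp σ)).orderEmbOfFin h2) := by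
      rw [hr]
      exact Finset.mem_coe.2 (Finset.mem_insert_self _ _)
    exact this
  · intro j hj
    rcases Finset.mem_insert.1 (Finset.orderEmbOfFin_mem (insert k (supp σ)) h2 j) with h | h
    · exact absurd h hj
    · exact mem_supp.1 h
  · intro i h0
    have : i ∈ Set.range ((insert k (supp σ)).orderEmbOfFin h2) := by
      rw [hr]
      exact Finset.mem_coe.2 (Finset.mem_insert_of_mem (mem_supp.2 h0))
    exact this

theorem curvea_lev_one {d : ℕ} (K : Set (E d)) (u : E d) : lev K 1 u = hi K u := by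
  unfold lev
  ring

theorem curvea_lev_neg {d : ℕ} (K : Set (E d)) (u : E d) : lev K (-1) u = lo K u := by
  unfold lev
  ring

open Classical in
/-- The positions. -/
noncomputable def curveaQ {m n : ℕ} (σ : Fin n → SignType) (I : Fin (m + 2) → Fin n) (k : Fin n)
    (y : ℝ) (j : Fin (m + 2)) : ℝ :=
  if I j = k then y else ((σ (I j) : SignType) : ℝ)

theorem curvea_abs {I : Fin (m + 2) → Fin n} {k : Fin n} {y : ℝ} (hy : |y| ≤ 1)
    (j : Fin (m + 2)) : |curveaQ σ I k y j| ≤ 1 := by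
  unfold curveaQ
  split_ifs with h
  · exact hy
  · rcases SignType.trichotomy (σ (I j)) with h | h | h <;> rw [h] <;> simp

theorem curvea_solves {I : Fin (m + 2) → Fin n} {k : Fin n} (hI : ∀ j, I j ≠ k → σ (I j) ≠ 0)
    {y : ℝ} {h : OH (m + 2)} (hh : h ∈ Cl A σ) (hk : lev (A k) y h.1 = h.2) (j : Fin (m + 2)) :
    lev (A (I j)) (curveaQ σ I k y j) h.1 = h.2 := by
  unfold curveaQ
  split_ifs with h1
  · rw [h1]
    exact hk
  · rcases SignType.trichotomy (σ (I j)) with h2 | h2 | h2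
    · rw [h2]
      have := (hh (I j)).2.2 h2
      simp only [SignType.coe_neg_one, curvea_lev_neg]
      exact this.symm
    · exact absurd h2 (hI j h1)
    · rw [h2]
      have := (hh (I j)).2.1 h2
      simp only [SignType.coe_one, curvea_lev_one]
      exact this.symm

theorem curvea_meets (hA : CFam A) {h : OH (m + 2)} (hh : h ∈ Cl A σ) (i : Fin n) :
    lo (A i) h.1 ≤ h.2 ∧ h.2 ≤ hi (A i) h.1 := by
  have h0 := lo_le_hi (hA.compact i) (hA.nonempty i) (h.1 : E (m + 2))
  rcases SignType.trichotomy (σ i) with h2 | h2 | h2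
  · have := (hh i).2.2 h2
    exact ⟨this.ge, this.le.trans h0⟩
  · exact (hh i).1 h2
  · have := (hh i).2.1 h2
    exact ⟨h0.trans this.ge, this.le⟩

theorem curvea_pos (hA : CFam A) {δ : ℝ} (hδ : 0 < δ) {h : OH (m + 2)} (hh : h ∈ Cl A σ)
    (i : Fin n) : |pos (thk A (fun _ => δ) i) h| ≤ 1 := by
  have h1 := curvea_meets hA hh i
  have h2 := hi_cthickening (hA.compact i) (hA.nonempty i) hδ.le (h.1 : E (m + 2))
  have h3 := lo_cthickening (hA.compact i) (hA.nonempty i) hδ.le (h.1 : E (m + 2))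
  have h4 : 0 ≤ δ * ‖(h.1 : E (m + 2))‖ := mul_nonneg hδ.le (norm_nonneg _)
  have hK : IsCompact (thk A (fun _ => δ) i) := (hA.compact i).cthickening
  rw [abs_pos_le_one_iff hK (interior_cthickening (hA.nonempty i) hδ)]
  show lo (Metric.cthickening δ (A i)) h.1 ≤ h.2 ∧ h.2 ≤ hi (Metric.cthickening δ (A i)) h.1
  rw [h2, h3]
  constructor <;> linarith [h1.1, h1.2]

theorem curvea_tan (hA : CFam A) {δ : ℝ} (hB : Fam (thk A (fun _ => δ)))
    {I : Fin (m + 2) → Fin n} (hI : Function.Injective I) {k : Fin n} {y : ℝ} (hy : |y| ≤ 1) :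
    TanSys (fun j => thk A (fun _ => δ) (I j))
      (fun j => lev (A (I j)) (curveaQ σ I k y j)) :=
  tanSys_lev hB hI (K := fun j => A (I j)) (fun j => ⟨hA.compact _, hA.convex _, hA.nonempty _,
    Metric.self_subset_cthickening _⟩) (curvea_abs hy)

/-- Two points of one component with the same position of a member outside of the support. -/
theorem curvea_unique (hA : CFam A) (hσ : (supp σ).card = m + 1)
    {h₀ : OH (m + 2)} {l : Fin n} (hl : σ l = 0) {h h' : OH (m + 2)}
    (hZ : h ∈ connectedComponentIn (Cl A σ) h₀) (hZ' : h' ∈ connectedComponentIn (Cl A σ) h₀)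
    {y : ℝ} (hy : |y| ≤ 1) (h1 : lev (A l) y h.1 = h.2) (h2 : lev (A l) y h'.1 = h'.2) :
    h = h' := by
  obtain ⟨δ, hδ, hfam⟩ := hA.exists_fam
  have hB : Fam (thk A (fun _ => δ)) := hfam _ fun _ => ⟨hδ, le_rfl⟩
  obtain ⟨I, hI, -, hI0, -⟩ := curvea_enum hσ hl
  have hsub := connectedComponentIn_subset (Cl A σ) h₀
  refine sol_unique hB hI (curvea_tan (σ := σ) (k := l) hA hB hI hy)
    (fun j => curvea_solves hI0 (hsub hZ) h1 j) (fun j => curvea_solves hI0 (hsub hZ') h2 j) ?_
  exact orient_const hB hI isPreconnected_connectedComponentIn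
    (fun x hx j => curvea_pos hA hδ (hsub hx) (I j)) hZ hZ'

/-- The parametrisation by the position of the member `k`. -/
theorem curvea_param (hA : CFam A) (hσ : (supp σ).card = m + 1)
    {h₀ : OH (m + 2)} (hh : h₀ ∈ Cl A σ) {k : Fin n} (hk : σ k = 0) :
    ∃ c : ℝ → OH (m + 2), ContinuousOn c (Icc (-1) 1) ∧
      (∀ r ∈ Icc (-1 : ℝ) 1, lev (A k) r (c r).1 = (c r).2 ∧
        ∀ i, (σ i = 1 → (c r).2 = hi (A i) (c r).1) ∧ (σ i = -1 → (c r).2 = lo (A i) (c r).1)) ∧
      (∀ h ∈ connectedComponentIn (Cl A σ) h₀, ∀ r ∈ Icc (-1 : ℝ) 1,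
        lev (A k) r h.1 = h.2 → c r = h) ∧
      (∀ h ∈ connectedComponentIn (Cl A σ) h₀, ∃ r ∈ Icc (-1 : ℝ) 1, c r = h) ∧
      (∀ r ∈ Icc (-1 : ℝ) 1, c r ∈ Cont (A k) →
        connectedComponentIn (Cl A σ) h₀ = {h₀}) := by
  classical
  obtain ⟨δ, hδ, hfam⟩ := hA.exists_fam
  have hB : Fam (thk A (fun _ => δ)) := hfam _ fun _ => ⟨hδ, le_rfl⟩
  obtain ⟨I, hI, ⟨jk, hjk⟩, hI0, hI1⟩ := curvea_enum hσ hk
  have hsub := connectedComponentIn_subset (Cl A σ) h₀
  have h00 : h₀ ∈ connectedComponentIn (Cl A σ) h₀ := mem_connectedComponentIn hh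
  have habs : ∀ r : ℝ, r ∈ Icc (-1 : ℝ) 1 → |r| ≤ 1 := fun r hr => abs_le.2 hr
  have hT : ∀ r ∈ Icc (-1 : ℝ) 1, TanSys (fun j => thk A (fun _ => δ) (I j))
      (fun j => lev (A (I j)) (curveaQ σ I k r j)) := fun r hr =>
    curvea_tan hA hB hI (habs r hr)
  have hex : ∀ r : ℝ, ∃ h : OH (m + 2), r ∈ Icc (-1 : ℝ) 1 →
      (∀ j, lev (A (I j)) (curveaQ σ I k r j) h.1 = h.2) ∧
      orient (thk A (fun _ => δ)) I h = orient (thk A (fun _ => δ)) I h₀ := by
    intro r
    by_cases hr : r ∈ Icc (-1 : ℝ) 1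
    · obtain ⟨h, h1, h2⟩ := sol_exists hB hI (hT r hr)
        (orient_mem (thk A (fun _ => δ)) I h₀)
      exact ⟨h, fun _ => ⟨h1, h2⟩⟩
    · exact ⟨h₀, fun h => absurd h hr⟩
  choose c hc using hex
  have hori : ∀ h ∈ connectedComponentIn (Cl A σ) h₀,
      orient (thk A (fun _ => δ)) I h = orient (thk A (fun _ => δ)) I h₀ := fun h hZ =>
    orient_const hB hI isPreconnected_connectedComponentIn
      (fun x hx j => curvea_pos hA hδ (hsub hx) (I j)) hZ h00
  have huniq : ∀ h : OH (m + 2), ∀ r ∈ Icc (-1 : ℝ) 1,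
      (∀ j, lev (A (I j)) (curveaQ σ I k r j) h.1 = h.2) →
      orient (thk A (fun _ => δ)) I h = orient (thk A (fun _ => δ)) I h₀ → c r = h := by
    intro h r hr h1 h2
    exact sol_unique hB hI (hT r hr) (hc r hr).1 h1 ((hc r hr).2.trans h2.symm)
  have hsolk : ∀ r ∈ Icc (-1 : ℝ) 1, lev (A k) r (c r).1 = (c r).2 := by
    intro r hr
    have := (hc r hr).1 jk
    unfold curveaQ at this
    rw [if_pos hjk, hjk] at this
    exact this
  have hsol : ∀ r ∈ Icc (-1 : ℝ) 1, ∀ i, (σ i = 1 → (c r).2 = hi (A i) (c r).1) ∧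
      (σ i = -1 → (c r).2 = lo (A i) (c r).1) := by
    intro r hr i
    constructor
    · intro hi1
      obtain ⟨j, hj⟩ := hI1 i (by rw [hi1]; decide)
      have := (hc r hr).1 j
      unfold curveaQ at this
      rw [if_neg (by rintro h; rw [← h, hj, hi1] at hk; exact absurd hk (by decide)), hj, hi1,
        SignType.coe_one, curvea_lev_one] at this
      exact this.symm
    · intro hi1
      obtain ⟨j, hj⟩ := hI1 i (by rw [hi1]; decide)
      have := (hc r hr).1 j
      unfold curveaQ at this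
      rw [if_neg (by rintro h; rw [← h, hj, hi1] at hk; exact absurd hk (by decide)), hj, hi1,
        SignType.coe_neg_one, curvea_lev_neg] at this
      exact this.symm
  have hback : ∀ h ∈ connectedComponentIn (Cl A σ) h₀, ∀ r ∈ Icc (-1 : ℝ) 1,
      lev (A k) r h.1 = h.2 → c r = h := fun h hZ r hr h1 =>
    huniq h r hr (fun j => curvea_solves hI0 (hsub hZ) h1 j) (hori h hZ)
  have hcov : ∀ h ∈ connectedComponentIn (Cl A σ) h₀, ∃ r ∈ Icc (-1 : ℝ) 1, c r = h := by
    intro h hZ
    have h1 := (hsub hZ k).1 hk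
    obtain ⟨q, hq, hq'⟩ := exists_lev h1.1 h1.2
    exact ⟨q, abs_le.1 hq, hback h hZ q (abs_le.1 hq) hq'⟩
  refine ⟨c, ?_, fun r hr => ⟨hsolk r hr, hsol r hr⟩, hback, hcov, ?_⟩
  · refine sol_continuousOn hB hI (F := fun r j => lev (A (I j)) (curveaQ σ I k r j))
      (ε := orient (thk A (fun _ => δ)) I h₀) hT (fun j => ?_) hc
    have h1 : Continuous (fun z : ℝ × E (m + 2) => hi (A (I j)) z.2) :=
      (continuous_hi (hA.compact _) (hA.convex _) (hA.nonempty _)).comp continuous_snd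
    have h2 : Continuous (fun z : ℝ × E (m + 2) => lo (A (I j)) z.2) :=
      (continuous_lo (hA.compact _) (hA.convex _) (hA.nonempty _)).comp continuous_snd
    have h3 : Continuous (fun z : ℝ × E (m + 2) => curveaQ σ I k z.1 j) := by
      unfold curveaQ
      split_ifs
      · exact continuous_fst
      · exact continuous_const
    unfold lev
    exact (((continuous_const.add h3).div_const 2).mul h1 |>.add
      (((continuous_const.sub h3).div_const 2).mul h2)).continuousOn
  · intro r hr hcont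
    have h1 := (mem_Cont_iff (hA.compact k) (hA.nonempty k) (c r)).1 hcont
    have h2 : ∀ r' : ℝ, lev (A k) r' (c r).1 = (c r).2 := by
      intro r'
      unfold lev
      rw [← h1.1, ← h1.2]
      ring
    have h3 : ∀ r' ∈ Icc (-1 : ℝ) 1, c r' = c r := by
      intro r' hr'
      refine huniq (c r) r' hr' (fun j => ?_) (hc r hr).2
      have h4 := (hc r hr).1 j
      unfold curveaQ at h4 ⊢
      split_ifs with h5
      · rw [h5]
        exact h2 r'
      · rw [if_neg h5] at h4
        exact h4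
    refine Set.eq_singleton_iff_unique_mem.2 ⟨h00, fun h hZ => ?_⟩
    obtain ⟨a, ha, ha'⟩ := hcov h hZ
    obtain ⟨b, hb, hb'⟩ := hcov h₀ h00
    rw [← ha', ← hb', h3 a ha, h3 b hb]

end HyperplaneTransversals
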