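import Pool.Agent.Lib.MP_b2e5b9_co_D.Curve
import Pool.Agent.Lib.MP_b2e5b9_co_D.Adj

/-!
# Consequences of the arc structure

Notation: `Z = c '' [a, b]` from `comp_structure`, `J = {r ∈ [a, b] | c r ∈ St A σ}`, which
contains `(a, b)`, so `J` is order connected (if `a < b` it is `(a, b)` with possibly some of the
end points, if `a = b` it has at most one point), and `Z ∩ St A σ = c '' J`.

`inter_preconnected`: the image of an order connected set under `c`.

`few_outside`: `Z \ St A σ ⊆ {c a, c b}`.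

`ncomp_interval`: `J` order connected, `F` closed. Map a component `L` of `J \ F` (an order
connected set) as follows: if some point of `J ∩ F` is above `L`, to the component of `J ∩ F` that
contains `sSup L` (`sSup L ∈ J` since it lies between points of `J`, and `sSup L ∈ F`: otherwise,
`F` being closed, a small interval to the right of `sSup L` would be in `J \ F` and could be
added to `L`); otherwise to an extra element. This map is injective.

`ncomp_cut_arc`: `c` is a homeomorphism from `[a, b]` onto `Z`, so it maps the components of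
`J \ c⁻¹ F` onto the components of `(Z ∩ St A σ) \ F`, and `J ∩ c⁻¹ F` onto those of
`(Z ∩ St A σ) ∩ F` (for the second inequality one only needs that `c⁻¹` is continuous on `Z`, as
`c` is a continuous injective map on a compact set).

`St_ncomp_le_Gc`: every point of `St A σ` is a good point; map the component of `St A σ` that
contains `h` to the component of `Cl A σ` that contains `h`; injective by `inter_preconnected`.

`ncomp_cut`: the sum over the components of `St A σ`: for a component `L` of `St A σ \ F` let `K` be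
the component of `St A σ` containing it, `K = Z ∩ St A σ` where `Z` is the component in
`Cl A σ`. The components of `St A σ \ F` inside `K` are the components of `K \ F`, at most
`1 + ncomp (K ∩ F)` many, and the components of `St A σ ∩ F` inside `K` are those of `K ∩ F`. So
the total is at most `ncomp (St A σ) + ncomp (St A σ ∩ F)`. (As an injective map: a component `L` of
`St A σ \ F` goes to the component of `St A σ ∩ F` immediately after it on the arc `K`, or to `K` if
there is none.)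
-/

set_option autoImplicit false

open Set Filter
open scoped RealInnerProductSpace Topology

namespace HyperplaneTransversals

variable {m n : ℕ} {A : Fin n → Set (E (m + 2))} {σ : Fin n → SignType}

/-- Two points joined by a preconnected subset have the same component. -/
theorem curveb_same {X : Type} [TopologicalSpace X] {T Q : Set X} {x y : X}
    (hQ : IsPreconnected Q) (hQT : Q ⊆ T) (hx : x ∈ Q) (hy : y ∈ Q) :
    connectedComponentIn T x = connectedComponentIn T y :=
  connectedComponentIn_eq (hQ.subset_connectedComponentIn hx hQT hy)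

/-- The values of a path on an interval. -/
theorem curveb_path {X : Type} [TopologicalSpace X] {T : Set X} {a b r r' : ℝ} {c : ℝ → X}
    (hc : ContinuousOn c (Icc a b)) (hr : r ∈ Icc a b) (hr' : r' ∈ Icc a b) (hrr : r ≤ r')
    (h : ∀ y ∈ Icc r r', c y ∈ T) :
    connectedComponentIn T (c r) = connectedComponentIn T (c r') := by
  have h1 : IsPreconnected (c '' Icc r r') :=
    isPreconnected_Icc.image c (hc.mono (Icc_subset_Icc hr.1 hr'.2))
  refine curveb_same h1 ?_ (mem_image_of_mem c ⟨le_rfl, hrr⟩) (mem_image_of_mem c ⟨hrr, le_rfl⟩)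
  rintro _ ⟨y, hy, rfl⟩
  exact h y hy

/-- If the first points of `F` after `r ≤ r'` lie in one connected subset of `F` then there is no
point of `F` between `r` and `r'`. -/
theorem curveb_first {X : Type} [TopologicalSpace X] [T2Space X] {S F Q : Set X}
    {a b r r' t t' : ℝ} {c : ℝ → X} (hc : ContinuousOn c (Icc a b)) (hinj : InjOn c (Icc a b))
    (hIoo : ∀ y ∈ Ioo a b, c y ∈ S) (hr : r ∈ Icc a b) (hr' : r' ∈ Icc a b) (hrr : r ≤ r')
    (ht : t ∈ Icc a b) (ht' : t' ∈ Icc a b) (hrt' : r' < t')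
    (htF : ∀ y, r ≤ y → y < t → c y ∉ F) (hS : c r ∈ S) (hS' : c r' ∈ S) (hF' : c r' ∉ F)
    (htQ : c t ∈ Q) (htQ' : c t' ∈ Q) (hQ : IsPreconnected Q) (hQF : Q ⊆ F)
    (hQZ : Q ⊆ c '' Icc a b) :
    connectedComponentIn (S \ F) (c r) = connectedComponentIn (S \ F) (c r') := by
  have hlt : r' < t := by
    by_contra hcon
    rw [not_lt] at hcon
    have e1 : IsClosed (c '' Icc a r') :=
      ((isCompact_Icc).image_of_continuousOn (hc.mono (Icc_subset_Icc le_rfl hr'.2))).isClosed
    have e2 : IsClosed (c '' Icc r' b) :=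
      ((isCompact_Icc).image_of_continuousOn (hc.mono (Icc_subset_Icc hr'.1 le_rfl))).isClosed
    have e3 : Q ⊆ c '' Icc a r' ∪ c '' Icc r' b := by
      intro z hz
      obtain ⟨y, hy, rfl⟩ := hQZ hz
      rcases le_total y r' with h | h
      · exact Or.inl (mem_image_of_mem c ⟨hy.1, h⟩)
      · exact Or.inr (mem_image_of_mem c ⟨h, hy.2⟩)
    obtain ⟨z, hzQ, ⟨u, hu, hzu⟩, ⟨v, hv, hzv⟩⟩ := (isPreconnected_closed_iff.1 hQ) _ _ e1 e2 e3
      ⟨c t, htQ, mem_image_of_mem c ⟨ht.1, hcon⟩⟩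
      ⟨c t', htQ', mem_image_of_mem c ⟨hrt'.le, ht'.2⟩⟩
    have huv : u = v := hinj ⟨hu.1, hu.2.trans hr'.2⟩ ⟨hr'.1.trans hv.1, hv.2⟩
      (hzu.trans hzv.symm)
    have hur : u = r' := le_antisymm hu.2 (huv ▸ hv.1)
    rw [hur] at hzu
    exact hF' (hQF (hzu ▸ hzQ))
  refine curveb_path hc hr hr' hrr fun y hy => ⟨?_, htF y hy.1 (lt_of_le_of_lt hy.2 hlt)⟩
  rcases hy.1.eq_or_lt with h | h
  · exact h ▸ hS
  rcases hy.2.eq_or_lt with h' | h'
  · exact h'.symm ▸ hS'
  exact hIoo y ⟨lt_of_le_of_lt hr.1 h, lt_of_lt_of_le h' hr'.2⟩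

theorem curveb_union {α β : Type} (s : Set α) (t : Set β) :
    ((Sum.inl '' s ∪ Sum.inr '' t : Set (α ⊕ β))).encard ≤ s.encard + t.encard :=
  (encard_union_le _ _).trans (add_le_add (encard_image_le _ _) (encard_image_le _ _))

/-- The abstract form of `ncomp_cut`. -/
theorem curveb_cut {X : Type} [TopologicalSpace X] [T2Space X] {S C F : Set X} (hSC : S ⊆ C)
    (hF : IsClosed F)
    (hstr : ∀ h₀ ∈ C, ∃ (a b : ℝ) (c : ℝ → X), a ≤ b ∧ ContinuousOn c (Icc a b) ∧
      InjOn c (Icc a b) ∧ c '' Icc a b = connectedComponentIn C h₀ ∧ ∀ r ∈ Ioo a b, c r ∈ S) :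
    ncomp (S \ F) ≤ ncomp S + ncomp (S ∩ F) := by
  classical
  let PP : Set X → Prop := fun Z => ∃ (a b : ℝ) (c : ℝ → X), a ≤ b ∧ ContinuousOn c (Icc a b) ∧
    InjOn c (Icc a b) ∧ c '' Icc a b = Z ∧ ∀ r ∈ Ioo a b, c r ∈ S
  have hP : ∀ Z : {Z // PP Z}, ∃ (a b : ℝ) (c : ℝ → X), a ≤ b ∧ ContinuousOn c (Icc a b) ∧
    InjOn c (Icc a b) ∧ c '' Icc a b = Z.1 ∧ ∀ r ∈ Ioo a b, c r ∈ S := fun Z => Z.2
  choose a b c hab hc hinj himg hIoo using hP
  -- the relation between a point `h` of `S \ F` and its label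
  let Rel : X → Set X ⊕ Set X → Prop := fun h L =>
    ∃ Z : {Z // PP Z}, Z.1 = connectedComponentIn C h ∧ ∃ r ∈ Icc (a Z) (b Z), c Z r = h ∧
      ((L = Sum.inl (connectedComponentIn S h) ∧
        ∀ y ∈ Icc (a Z) (b Z), r < y → c Z y ∈ S → c Z y ∉ F) ∨
      ∃ t ∈ Icc (a Z) (b Z), r < t ∧ c Z t ∈ S ∩ F ∧ (∀ y, r ≤ y → y < t → c Z y ∉ F) ∧
        L = Sum.inr (connectedComponentIn (S ∩ F) (c Z t)))
  have htot : ∀ h ∈ S \ F, ∃ L ∈ (Sum.inl '' ((fun x => connectedComponentIn S x) '' S) ∪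
      Sum.inr '' ((fun x => connectedComponentIn (S ∩ F) x) '' (S ∩ F)) : Set (Set X ⊕ Set X)),
      Rel h L := by
    rintro h ⟨hS, hF0⟩
    obtain ⟨Z, hZ⟩ : ∃ Z : {Z // PP Z}, Z.1 = connectedComponentIn C h :=
      ⟨⟨connectedComponentIn C h, hstr h (hSC hS)⟩, rfl⟩
    have hmem : h ∈ Z.1 := hZ ▸ mem_connectedComponentIn (hSC hS)
    rw [← himg Z] at hmem
    obtain ⟨r, hr, hcr⟩ := hmem
    by_cases hex : ∃ y ∈ Icc (a Z) (b Z), r < y ∧ c Z y ∈ S ∧ c Z y ∈ F
    · obtain ⟨y, hy, hry, hyS, hyF⟩ := hex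
      have hcl : IsClosed (Icc (a Z) (b Z) ∩ c Z ⁻¹' F) :=
        (hc Z).preimage_isClosed_of_isClosed isClosed_Icc hF
      have hcl2 : IsClosed (Icc (a Z) (b Z) ∩ c Z ⁻¹' F ∩ Ici r) := hcl.inter isClosed_Ici
      have hne : (Icc (a Z) (b Z) ∩ c Z ⁻¹' F ∩ Ici r).Nonempty := ⟨y, ⟨hy, hyF⟩, hry.le⟩
      have hbd : BddBelow (Icc (a Z) (b Z) ∩ c Z ⁻¹' F ∩ Ici r) := ⟨r, fun z hz => hz.2⟩
      have htm := hcl2.csInf_mem hne hbd
      set t := sInf (Icc (a Z) (b Z) ∩ c Z ⁻¹' F ∩ Ici r) with ht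
      obtain ⟨⟨ht1, ht2⟩, ht3⟩ := htm
      have hty : t ≤ y := csInf_le hbd ⟨⟨hy, hyF⟩, hry.le⟩
      have hrt : r < t := by
        refine lt_of_le_of_ne ht3 fun h0 => hF0 ?_
        rw [← hcr, h0]
        exact ht2
      have htS : c Z t ∈ S := by
        rcases hty.eq_or_lt with h0 | h0
        · rw [h0]
          exact hyS
        · exact hIoo Z t ⟨lt_of_le_of_lt hr.1 hrt, lt_of_lt_of_le h0 hy.2⟩
      refine ⟨Sum.inr (connectedComponentIn (S ∩ F) (c Z t)), Or.inr (mem_image_of_mem _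
        (mem_image_of_mem _ ⟨htS, ht2⟩)), Z, hZ, r, hr, hcr, Or.inr ⟨t, ht1, hrt, ⟨htS, ht2⟩,
        fun z hz1 hz2 hz3 => ?_, rfl⟩⟩
      exact absurd (csInf_le hbd ⟨⟨⟨hr.1.trans hz1, hz2.le.trans ht1.2⟩, hz3⟩, hz1⟩)
        (not_le.2 hz2)
    · push Not at hex
      exact ⟨Sum.inl (connectedComponentIn S h), Or.inl (mem_image_of_mem _
        (mem_image_of_mem _ hS)), Z, hZ, r, hr, hcr, Or.inl ⟨rfl, fun y hy hry hyS =>
        hex y hy hry hyS⟩⟩
  have hone : ∀ h ∈ S \ F, ∀ h' ∈ S \ F, ∀ L, Rel h L → Rel h' L →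
      connectedComponentIn (S \ F) h = connectedComponentIn (S \ F) h' := by
    rintro h ⟨hS, hF0⟩ h' ⟨hS', hF0'⟩ L ⟨Z, hZ, r, hr, hcr, hL⟩ ⟨Z', hZ', r', hr', hcr', hL'⟩
    rcases hL with ⟨hL, hno⟩ | ⟨t, ht, hrt, htSF, htF, hL⟩
    · rcases hL' with ⟨hL', hno'⟩ | ⟨t', ht', hrt', htSF', htF', hL'⟩
      · -- no point of `F` above
        have e1 : connectedComponentIn S h = connectedComponentIn S h' :=
          Sum.inl.inj (hL.symm.trans hL')
        have e2 : connectedComponentIn C h = connectedComponentIn C h' :=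
          curveb_same isPreconnected_connectedComponentIn
            ((connectedComponentIn_subset S h).trans hSC) (mem_connectedComponentIn hS)
            (e1 ▸ mem_connectedComponentIn hS')
        have e3 : Z = Z' := Subtype.ext (hZ.trans (e2.trans hZ'.symm))
        subst e3
        have key : ∀ u v : ℝ, u ∈ Icc (a Z) (b Z) → v ∈ Icc (a Z) (b Z) → u ≤ v → c Z u ∈ S →
            c Z v ∈ S → c Z u ∉ F →
            (∀ y ∈ Icc (a Z) (b Z), u < y → c Z y ∈ S → c Z y ∉ F) →
            connectedComponentIn (S \ F) (c Z u) = connectedComponentIn (S \ F) (c Z v) := by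
          intro u v hu hv huv hSu hSv hFu hn
          refine curveb_path (hc Z) hu hv huv fun y hy => ?_
          have hyI : y ∈ Icc (a Z) (b Z) := ⟨hu.1.trans hy.1, hy.2.trans hv.2⟩
          have hyS : c Z y ∈ S := by
            rcases hy.1.eq_or_lt with h0 | h0
            · exact h0 ▸ hSu
            rcases hy.2.eq_or_lt with h1 | h1
            · exact h1.symm ▸ hSv
            exact hIoo Z y ⟨lt_of_le_of_lt hu.1 h0, lt_of_lt_of_le h1 hv.2⟩
          refine ⟨hyS, ?_⟩
          rcases hy.1.eq_or_lt with h0 | h0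
          · exact h0 ▸ hFu
          · exact hn y hyI h0 hyS
        rw [← hcr] at hS hF0 ⊢
        rw [← hcr'] at hS' hF0' ⊢
        rcases le_total r r' with hrr | hrr
        · exact key r r' hr hr' hrr hS hS' hF0 hno
        · exact (key r' r hr' hr hrr hS' hS hF0' hno').symm
      · rw [hL] at hL'
        exact absurd hL' (by simp)
    · rcases hL' with ⟨hL', hno'⟩ | ⟨t', ht', hrt', htSF', htF', hL'⟩
      · rw [hL] at hL'
        exact absurd hL' (by simp)
      · have e1 : connectedComponentIn (S ∩ F) (c Z t) =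
            connectedComponentIn (S ∩ F) (c Z' t') := Sum.inr.inj (hL.symm.trans hL')
        have hQC : connectedComponentIn (S ∩ F) (c Z t) ⊆ C :=
          (connectedComponentIn_subset _ _).trans (inter_subset_left.trans hSC)
        have htQ : c Z t ∈ connectedComponentIn (S ∩ F) (c Z t) :=
          mem_connectedComponentIn htSF
        have htQ' : c Z' t' ∈ connectedComponentIn (S ∩ F) (c Z t) :=
          e1 ▸ mem_connectedComponentIn htSF'
        have e2 : connectedComponentIn C (c Z t) = connectedComponentIn C (c Z' t') :=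
          curveb_same isPreconnected_connectedComponentIn hQC htQ htQ'
        have e4 : ∀ (W : {Z // PP Z}) (g : X) (u : ℝ), W.1 = connectedComponentIn C g →
            u ∈ Icc (a W) (b W) → connectedComponentIn C (c W u) = W.1 := by
          intro W g u hW hu
          have h1 : c W u ∈ connectedComponentIn C g := by
            rw [← hW, ← himg W]
            exact mem_image_of_mem _ hu
          rw [hW]
          exact (connectedComponentIn_eq h1).symm
        have e3 : Z = Z' :=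
          Subtype.ext (((e4 Z h t hZ ht).symm.trans e2).trans (e4 Z' h' t' hZ' ht'))
        subst e3
        have hQZ : connectedComponentIn (S ∩ F) (c Z t) ⊆ c Z '' Icc (a Z) (b Z) := by
          rw [himg Z, ← e4 Z h t hZ ht]
          exact isPreconnected_connectedComponentIn.subset_connectedComponentIn htQ hQC
        have hQF : connectedComponentIn (S ∩ F) (c Z t) ⊆ F :=
          (connectedComponentIn_subset _ _).trans inter_subset_right
        rw [← hcr] at hS hF0 ⊢
        rw [← hcr'] at hS' hF0' ⊢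
        rcases le_total r r' with hrr | hrr
        · exact curveb_first (hc Z) (hinj Z) (hIoo Z) hr hr' hrr ht ht' hrt' htF hS hS' hF0'
            htQ htQ' isPreconnected_connectedComponentIn hQF hQZ
        · exact (curveb_first (hc Z) (hinj Z) (hIoo Z) hr' hr hrr ht' ht hrt htF' hS' hS hF0
            htQ' htQ isPreconnected_connectedComponentIn hQF hQZ).symm
  refine le_trans ?_ (curveb_union ((fun x => connectedComponentIn S x) '' S)
    ((fun x => connectedComponentIn (S ∩ F) x) '' (S ∩ F)))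
  refine encard_le_of_rel _ _ (fun K L => ∃ h ∈ S \ F, K = connectedComponentIn (S \ F) h ∧
    Rel h L) ?_ ?_
  · rintro _ ⟨h, hh, rfl⟩
    obtain ⟨L, hL, hR⟩ := htot h hh
    exact ⟨L, hL, h, hh, rfl, hR⟩
  · rintro _ - _ - L - ⟨h, hh, rfl, hR⟩ ⟨h', hh', rfl, hR'⟩
    exact hone h hh h' hh' L hR hR'

theorem inter_preconnected (hA : CFam A) (hn : m + 2 ≤ n) (hσ : (supp σ).card = m + 1)
    {h₀ : OH (m + 2)} (hh : h₀ ∈ Cl A σ) :
    IsPreconnected (connectedComponentIn (Cl A σ) h₀ ∩ St A σ) := by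
  obtain ⟨a, b, c, hab, hc, hinj, himg, hIoo⟩ := comp_structure hA hn hσ hh
  have hJ : ({r | r ∈ Icc a b ∧ c r ∈ St A σ}).OrdConnected := by
    refine ⟨fun x hx z hz y hy => ?_⟩
    refine ⟨⟨hx.1.1.trans hy.1, hy.2.trans hz.1.2⟩, ?_⟩
    rcases hy.1.eq_or_lt with h0 | h0
    · exact h0 ▸ hx.2
    rcases hy.2.eq_or_lt with h1 | h1
    · exact h1.symm ▸ hz.2
    exact hIoo y ⟨lt_of_le_of_lt hx.1.1 h0, lt_of_lt_of_le h1 hz.1.2⟩
  have h1 : connectedComponentIn (Cl A σ) h₀ ∩ St A σ =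
      c '' {r | r ∈ Icc a b ∧ c r ∈ St A σ} := by
    rw [← himg]
    ext z
    constructor
    · rintro ⟨⟨r, hr, rfl⟩, hz⟩
      exact ⟨r, ⟨hr, hz⟩, rfl⟩
    · rintro ⟨r, ⟨hr, hz⟩, rfl⟩
      exact ⟨⟨r, hr, rfl⟩, hz⟩
  rw [h1]
  exact hJ.isPreconnected.image c (hc.mono fun r hr => hr.1)

theorem few_outside (hA : CFam A) (hn : m + 2 ≤ n) (hσ : (supp σ).card = m + 1)
    {h₀ : OH (m + 2)} (hh : h₀ ∈ Cl A σ) :
    (connectedComponentIn (Cl A σ) h₀ \ St A σ).encard ≤ 2 := by
  obtain ⟨a, b, c, hab, hc, hinj, himg, hIoo⟩ := comp_structure hA hn hσ hh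
  have h1 : connectedComponentIn (Cl A σ) h₀ \ St A σ ⊆ {c a, c b} := by
    rw [← himg]
    rintro _ ⟨⟨r, hr, rfl⟩, hz⟩
    rcases hr.1.eq_or_lt with h0 | h0
    · exact Or.inl (h0 ▸ rfl)
    rcases hr.2.eq_or_lt with h1 | h1
    · exact Or.inr (h1 ▸ rfl)
    exact absurd (hIoo r ⟨h0, h1⟩) hz
  refine (encard_le_encard h1).trans ((encard_insert_le _ _).trans ?_)
  rw [encard_singleton, one_add_one_eq_two]

theorem ncomp_interval {J F : Set ℝ} (hJ : J.OrdConnected) (hF : IsClosed F) :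
    ncomp (J \ F) ≤ 1 + ncomp (J ∩ F) := by
  classical
  let Rel : ℝ → Unit ⊕ Set ℝ → Prop := fun r L =>
    (L = Sum.inl () ∧ ∀ y ∈ J, r < y → y ∉ F) ∨
      ∃ t, r < t ∧ t ∈ J ∩ F ∧ (∀ y, r ≤ y → y < t → y ∉ F) ∧
        L = Sum.inr (connectedComponentIn (J ∩ F) t)
  have htot : ∀ r ∈ J \ F, ∃ L ∈ (Sum.inl '' (univ : Set Unit) ∪
      Sum.inr '' ((fun x => connectedComponentIn (J ∩ F) x) '' (J ∩ F)) :
        Set (Unit ⊕ Set ℝ)), Rel r L := by
    rintro r ⟨hrJ, hrF⟩
    by_cases hex : ∃ y ∈ J, r < y ∧ y ∈ F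
    · obtain ⟨y, hy, hry, hyF⟩ := hex
      have hcl2 : IsClosed (F ∩ Ici r) := hF.inter isClosed_Ici
      have hne : (F ∩ Ici r).Nonempty := ⟨y, hyF, hry.le⟩
      have hbd : BddBelow (F ∩ Ici r) := ⟨r, fun z hz => hz.2⟩
      have htm := hcl2.csInf_mem hne hbd
      set t := sInf (F ∩ Ici r) with ht
      obtain ⟨ht2, ht3⟩ := htm
      have hty : t ≤ y := csInf_le hbd ⟨hyF, hry.le⟩
      have hrt : r < t := by
        refine lt_of_le_of_ne ht3 fun h0 => hrF ?_
        rw [h0]
        exact ht2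
      have htJ : t ∈ J := hJ.out hrJ hy ⟨hrt.le, hty⟩
      refine ⟨Sum.inr (connectedComponentIn (J ∩ F) t), Or.inr (mem_image_of_mem _
        (mem_image_of_mem _ ⟨htJ, ht2⟩)), Or.inr ⟨t, hrt, ⟨htJ, ht2⟩,
        fun z hz1 hz2 hz3 => ?_, rfl⟩⟩
      exact absurd (csInf_le hbd ⟨hz3, hz1⟩) (not_le.2 hz2)
    · push Not at hex
      exact ⟨Sum.inl (), Or.inl (mem_image_of_mem _ (mem_univ _)), Or.inl ⟨rfl, hex⟩⟩
  have key1 : ∀ r r' : ℝ, r ∈ J → r' ∈ J → r ≤ r' → (∀ y ∈ Icc r r', y ∉ F) →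
      connectedComponentIn (J \ F) r = connectedComponentIn (J \ F) r' := by
    intro r r' hr hr' hrr h
    exact curveb_same isPreconnected_Icc (fun y hy => ⟨hJ.out hr hr' hy, h y hy⟩)
      ⟨le_rfl, hrr⟩ ⟨hrr, le_rfl⟩
  have key2 : ∀ r r' t t' : ℝ, r ∈ J → r' ∈ J → r ≤ r' → r' ∉ F → r' < t' →
      (∀ y, r ≤ y → y < t → y ∉ F) →
      t ∈ connectedComponentIn (J ∩ F) t → t' ∈ connectedComponentIn (J ∩ F) t →
      connectedComponentIn (J \ F) r = connectedComponentIn (J \ F) r' := by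
    intro r r' t t' hr hr' hrr hF' hrt' htF ht ht'
    have hlt : r' < t := by
      by_contra hcon
      rw [not_lt] at hcon
      have h1 := (isPreconnected_connectedComponentIn (F := J ∩ F) (x := t)).ordConnected
      exact hF' ((connectedComponentIn_subset (J ∩ F) t) (h1.out ht ht' ⟨hcon, hrt'.le⟩)).2
    exact key1 r r' hr hr' hrr fun y hy => htF y hy.1 (lt_of_le_of_lt hy.2 hlt)
  have hone : ∀ h ∈ J \ F, ∀ h' ∈ J \ F, ∀ L, Rel h L → Rel h' L →
      connectedComponentIn (J \ F) h = connectedComponentIn (J \ F) h' := by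
    rintro r ⟨hr, hrF⟩ r' ⟨hr', hrF'⟩ L hL hL'
    rcases hL with ⟨hL, hno⟩ | ⟨t, hrt, htSF, htF, hL⟩
    · rcases hL' with ⟨hL', hno'⟩ | ⟨t', hrt', htSF', htF', hL'⟩
      · have key3 : ∀ u v : ℝ, u ∈ J → v ∈ J → u ≤ v → u ∉ F →
            (∀ y ∈ J, u < y → y ∉ F) →
            connectedComponentIn (J \ F) u = connectedComponentIn (J \ F) v := by
          intro u v hu hv huv huF hn
          refine key1 u v hu hv huv fun y hy => ?_
          rcases hy.1.eq_or_lt with h0 | h0
          · exact h0 ▸ huF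
          · exact hn y (hJ.out hu hv hy) h0
        rcases le_total r r' with hrr | hrr
        · exact key3 r r' hr hr' hrr hrF hno
        · exact (key3 r' r hr' hr hrr hrF' hno').symm
      · rw [hL] at hL'
        exact absurd hL' (by simp)
    · rcases hL' with ⟨hL', hno'⟩ | ⟨t', hrt', htSF', htF', hL'⟩
      · rw [hL] at hL'
        exact absurd hL' (by simp)
      · have e1 : connectedComponentIn (J ∩ F) t = connectedComponentIn (J ∩ F) t' :=
          Sum.inr.inj (hL.symm.trans hL')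
        have m1 : t ∈ connectedComponentIn (J ∩ F) t := mem_connectedComponentIn htSF
        have m2 : t' ∈ connectedComponentIn (J ∩ F) t' := mem_connectedComponentIn htSF'
        rcases le_total r r' with hrr | hrr
        · exact key2 r r' t t' hr hr' hrr hrF' hrt' htF m1 (e1 ▸ m2)
        · exact (key2 r' r t' t hr' hr hrr hrF hrt htF' m2 (e1 ▸ m1)).symm
  have hfin : (Sum.inl '' (univ : Set Unit) ∪
      Sum.inr '' ((fun x => connectedComponentIn (J ∩ F) x) '' (J ∩ F)) :
        Set (Unit ⊕ Set ℝ)).encard ≤ 1 + ncomp (J ∩ F) := by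
    refine (curveb_union _ _).trans (add_le_add ?_ le_rfl)
    simp
  refine le_trans ?_ hfin
  refine encard_le_of_rel _ _ (fun K L => ∃ h ∈ J \ F, K = connectedComponentIn (J \ F) h ∧
    Rel h L) ?_ ?_
  · rintro _ ⟨h, hh, rfl⟩
    obtain ⟨L, hL, hR⟩ := htot h hh
    exact ⟨L, hL, h, hh, rfl, hR⟩
  · rintro _ - _ - L - ⟨h, hh, rfl, hR⟩ ⟨h', hh', rfl, hR'⟩
    exact hone h hh h' hh' L hR hR'

theorem St_ncomp_le_Gc (hA : CFam A) (hn : m + 2 ≤ n) (hσ : (supp σ).card = m + 1) :
    ncomp (St A σ) ≤ Gc A σ := by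
  have hG : ∀ h ∈ St A σ, h ∈ GoodPt A σ := by
    intro h hh
    refine ⟨St_subset_Cl A σ hh, fun l hl ht => ?_⟩
    have h1 := (hh l).1 hl
    rcases ht with ht | ht
    · exact absurd ht h1.2.ne
    · exact absurd ht h1.1.ne'
  refine encard_le_of_rel _ _ (fun K L => ∃ h ∈ St A σ, K = connectedComponentIn (St A σ) h ∧
    L = connectedComponentIn (Cl A σ) h) ?_ ?_
  · rintro _ ⟨h, hh, rfl⟩
    exact ⟨_, mem_image_of_mem _ (hG h hh), h, hh, rfl, rfl⟩
  · rintro _ - _ - L - ⟨h, hh, rfl, hL⟩ ⟨h', hh', rfl, hL'⟩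
    have h1 := inter_preconnected hA hn hσ (St_subset_Cl A σ hh)
    refine curveb_same h1 inter_subset_right
      ⟨mem_connectedComponentIn (St_subset_Cl A σ hh), hh⟩ ⟨?_, hh'⟩
    rw [← hL, hL']
    exact mem_connectedComponentIn (St_subset_Cl A σ hh')

/-- Cutting a one-dimensional stratum along a closed set. -/
theorem ncomp_cut (hA : CFam A) (hn : m + 2 ≤ n) (hσ : (supp σ).card = m + 1)
    {F : Set (OH (m + 2))} (hF : IsClosed F) :
    ncomp (St A σ \ F) ≤ ncomp (St A σ) + ncomp (St A σ ∩ F) := by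
  exact curveb_cut (St_subset_Cl A σ) hF fun h₀ hh => comp_structure hA hn hσ hh

end HyperplaneTransversals
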