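import Pool.Agent.Lib.MP_b2e5b9_co.Fat.Final

/-!
# Families of arbitrary compact convex sets: definitions

The members may have empty interior. `hi`, `lo`, `lev`, `TanSys`, `orient`, `Fam` (convex bodies),
`ncomp`, `supp`, `lvl`, `zers` are from the folder `MP_b2e5b9_co/Fat`.
-/

set_option autoImplicit false

open scoped RealInnerProductSpace Topology

namespace HyperplaneTransversals

/-- A separated family of nonempty compact convex sets in dimension `m + 2`. -/
structure CFam {m n : ℕ} (A : Fin n → Set (E (m + 2))) : Prop where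
  compact : ∀ i, IsCompact (A i)
  convex : ∀ i, Convex ℝ (A i)
  nonempty : ∀ i, (A i).Nonempty
  sep : Separated m A

/-- The oriented hyperplanes with sign vector `σ`: they cross the members with `σ i = 0`
strictly, and they are tangent to the members with `σ i = 1` (from above) and `σ i = -1` (from
below). A hyperplane that contains a member counts as tangent on both sides. -/
def St {d n : ℕ} (A : Fin n → Set (E d)) (σ : Fin n → SignType) : Set (OH d) :=
  {h | ∀ i, (σ i = 0 → lo (A i) h.1 < h.2 ∧ h.2 < hi (A i) h.1) ∧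
    (σ i = 1 → h.2 = hi (A i) h.1) ∧ (σ i = -1 → h.2 = lo (A i) h.1)}

/-- The same with weak inequalities: the hyperplane meets the members with `σ i = 0`. -/
def Cl {d n : ℕ} (A : Fin n → Set (E d)) (σ : Fin n → SignType) : Set (OH d) :=
  {h | ∀ i, (σ i = 0 → lo (A i) h.1 ≤ h.2 ∧ h.2 ≤ hi (A i) h.1) ∧
    (σ i = 1 → h.2 = hi (A i) h.1) ∧ (σ i = -1 → h.2 = lo (A i) h.1)}

/-- The oriented hyperplanes containing `K`. -/
def Cont {d : ℕ} (K : Set (E d)) : Set (OH d) := {h | ∀ x ∈ K, ⟪(h.1 : E d), x⟫ = h.2}

/-- The oriented hyperplane transversals. -/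
def TT {d n : ℕ} (A : Fin n → Set (E d)) : Set (OH d) :=
  {h | ∀ i, lo (A i) h.1 ≤ h.2 ∧ h.2 ≤ hi (A i) h.1}

open Classical in
/-- The members touched by `h` (a contained member is touched). -/
noncomputable def tset {d n : ℕ} (A : Fin n → Set (E d)) (h : OH d) : Finset (Fin n) :=
  Finset.univ.filter (fun i => h.2 = hi (A i) h.1 ∨ h.2 = lo (A i) h.1)

/-- The vertices: transversals touching at least `m + 2` members. -/
def Ver {m n : ℕ} (A : Fin n → Set (E (m + 2))) : Set (OH (m + 2)) :=
  {h | h ∈ TT A ∧ m + 2 ≤ (tset A h).card}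

/-- The points of `Cl A σ` such that every touched member outside of the support of `σ` comes
after all members of the support. -/
def GoodPt {d n : ℕ} (A : Fin n → Set (E d)) (σ : Fin n → SignType) : Set (OH d) :=
  {h | h ∈ Cl A σ ∧ ∀ l, σ l = 0 → (h.2 = hi (A l) h.1 ∨ h.2 = lo (A l) h.1) →
    ∀ i, σ i ≠ 0 → i < l}

/-- The number of components of `Cl A σ` that contain a good point. -/
noncomputable def Gc {d n : ℕ} (A : Fin n → Set (E d)) (σ : Fin n → SignType) : ℕ∞ :=
  ((fun h => connectedComponentIn (Cl A σ) h) '' GoodPt A σ).encard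

/-- The closed neighbourhoods of the members with radii `ε i`. -/
def thk {d n : ℕ} (A : Fin n → Set (E d)) (ε : Fin n → ℝ) (i : Fin n) : Set (E d) :=
  Metric.cthickening (ε i) (A i)

/-- The label of an oriented hyperplane: the signs of its offset relative to the upper and the
lower tangent hyperplanes of the members. -/
noncomputable def lab {d n : ℕ} (A : Fin n → Set (E d)) (h : OH d) :
    Fin n → SignType × SignType :=
  fun i => (SignType.sign (h.2 - hi (A i) h.1), SignType.sign (h.2 - lo (A i) h.1))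

/-- A pencil of hyperplanes: an orthonormal pair of vectors and a point. -/
structure Pencil (d : ℕ) where
  /-- first vector -/
  f1 : E d
  /-- second vector -/
  f2 : E d
  /-- base point -/
  p : E d
  norm1 : ‖f1‖ = 1
  norm2 : ‖f2‖ = 1
  orth : ⟪f1, f2⟫ = 0

/-- The unit normal with angle `θ`. -/
noncomputable def Pencil.u {d : ℕ} (D : Pencil d) (θ : ℝ) : Metric.sphere (0 : E d) 1 :=
  ⟨Real.cos θ • D.f1 + Real.sin θ • D.f2, by
    rw [mem_sphere_zero_iff_norm]
    have h : ‖Real.cos θ • D.f1 + Real.sin θ • D.f2‖ ^ 2 = 1 := by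
      rw [norm_add_sq_real, norm_smul, norm_smul, D.norm1, D.norm2, inner_smul_left,
        inner_smul_right, D.orth]
      simp
    nlinarith [norm_nonneg (Real.cos θ • D.f1 + Real.sin θ • D.f2)]⟩

/-- The oriented hyperplane of the pencil with angle `θ`. -/
noncomputable def Pencil.h {d : ℕ} (D : Pencil d) (θ : ℝ) : OH d :=
  (D.u θ, ⟪(D.u θ : E d), D.p⟫)

/-- The preimage of a stratum under the map from oriented hyperplanes to hyperplanes. -/
def TS {d n : ℕ} (proper : Prop) (A : Fin n → Set (E d)) (S : Set (Fin n)) : Set (OH d) :=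
  {h | Hyp.of h ∈ stratum proper A S}

theorem St_subset_Cl {d n : ℕ} (A : Fin n → Set (E d)) (σ : Fin n → SignType) :
    St A σ ⊆ Cl A σ := fun _ hh i =>
  ⟨fun h => ⟨((hh i).1 h).1.le, ((hh i).1 h).2.le⟩, (hh i).2⟩

theorem mem_tset {d n : ℕ} {A : Fin n → Set (E d)} {h : OH d} {i : Fin n} :
    i ∈ tset A h ↔ (h.2 = hi (A i) h.1 ∨ h.2 = lo (A i) h.1) := by
  simp [tset]

end HyperplaneTransversals
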