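import Pool.Agent.Lib.MP_b2e5b9_co_D.LabA
import Pool.Agent.Lib.MP_b2e5b9_co_D.Adj

/-!
# Faces and strata

`faces_le_TS` (model: `faces_le` in `Fat/Final.lean`): a stratum is the image of `TS proper A S`
under the continuous surjection `Hyp.of`, so `ncomp_image_le` (file `Fat/Count.lean`) bounds the
number of its components; the set of all faces is the union over the strata; every
`S : Set (Fin n)` is the coercion of a finset.

`sum_improper`: for `proper = False`, `TS False A S` is the set of the `h ∈ TT A` with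
`tset A h = S` (`mem_TS_iff`). If `S.card < m + 2`: it is the union of the sets `St A σ` over the
`σ` with `supp σ = S` (given `h`, put `σ i = 1` if `i ∈ S` and `t = hi`, `σ i = -1` for the other
`i ∈ S`), apply `ncomp_biUnion_le`, and every `σ ∈ lvl n k` belongs to one `S` only. If
`m + 2 ≤ S.card` it is contained in `Ver A`, and these sets are disjoint, `ncomp_le_encard`.

`sum_proper`. Let `Sm` be a set of members that are contained in all transversals, and
`G = ⋃ b ∉ Sm, Cont (A b)`. `TS True A S` is the union of `TS True A S \ G` and of the sets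
`TS True A S ∩ Cont (A b)`, `b ∉ Sm` (`ncomp_union_le`, `ncomp_biUnion_le`). For
`h ∈ TS True A S \ G` the set of touched members is `tset A h = S ∪ Sm` (a touched member outside
of `Sm` is not contained in `h`, members of `Sm` are contained, so touched, and not in `S`). So if
`(S ∪ Sm).card < m + 2` then `TS True A S \ G` is empty or the union of the sets `St A σ \ G` over
the `σ` with `supp σ = S ∪ Sm` and `σ = 1` on `Sm` (for `h ∈ St A σ \ G`: `h ∈ TT A`, and
`mem_TS_iff`), where `S` is disjoint from `Sm`; so `σ` determines `S = supp σ \ Sm`. If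
`m + 2 ≤ (S ∪ Sm).card` it is contained in `Ver A`, and the sets `TS True A S` are disjoint.
-/

set_option autoImplicit false

open Set Filter
open scoped RealInnerProductSpace Topology

namespace HyperplaneTransversals

variable {m n : ℕ} {A : Fin n → Set (E (m + 2))}

/-- Finite disjoint unions. -/
theorem ksum_disj {ι α : Type} (T : Finset ι) (f : ι → Set α)
    (hd : ∀ i ∈ T, ∀ j ∈ T, i ≠ j → Disjoint (f i) (f j)) :
    ∑ i ∈ T, (f i).encard = (⋃ i ∈ T, f i).encard := by
  classical
  induction T using Finset.induction_on with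
  | empty => simp
  | insert a T ha ih =>
    rw [Finset.sum_insert ha, Finset.set_biUnion_insert, encard_union_eq, ih]
    · intro i hi j hj hij
      exact hd i (Finset.mem_insert_of_mem hi) j (Finset.mem_insert_of_mem hj) hij
    · rw [Set.disjoint_left]
      intro x hx hx'
      simp only [mem_iUnion] at hx'
      obtain ⟨j, hj, hxj⟩ := hx'
      have haj : a ≠ j := fun h => ha (h ▸ hj)
      exact Set.disjoint_left.1 (hd a (Finset.mem_insert_self a T) j
        (Finset.mem_insert_of_mem hj) haj) hx hxj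

/-- A sign vector for every transversal. -/
theorem ksum_exists_sign {h : OH (m + 2)} (hh : h ∈ TT A) : ∃ σ : Fin n → SignType,
    supp σ = tset A h ∧ h ∈ St A σ := by
  classical
  refine ⟨fun i => if h.2 = hi (A i) h.1 then 1 else if h.2 = lo (A i) h.1 then -1 else 0, ?_,
    ?_⟩
  · ext i
    rw [mem_supp, mem_tset]
    by_cases h1 : h.2 = hi (A i) h.1
    · simp [h1]
    · by_cases h2 : h.2 = lo (A i) h.1
      · rw [if_neg h1, if_pos h2]
        exact iff_of_true (by decide) (Or.inr h2)
      · simp [h1, h2]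
  · intro i
    have h0 := hh i
    by_cases h1 : h.2 = hi (A i) h.1
    · simp only [if_pos h1]
      exact ⟨fun h => absurd h (by decide), fun _ => h1, fun h => absurd h (by decide)⟩
    · by_cases h2 : h.2 = lo (A i) h.1
      · simp only [if_neg h1, if_pos h2]
        exact ⟨fun h => absurd h (by decide), fun h => absurd h (by decide), fun _ => h2⟩
      · simp only [if_neg h1, if_neg h2]
        exact ⟨fun _ => ⟨lt_of_le_of_ne h0.1 (Ne.symm h2), lt_of_le_of_ne h0.2 h1⟩,
          fun h => absurd h (by decide), fun h => absurd h (by decide)⟩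

theorem ksum_St_TT (hA : CFam A) {σ : Fin n → SignType} {h : OH (m + 2)} (hh : h ∈ St A σ) :
    h ∈ TT A := by
  intro i
  have hle : lo (A i) h.1 ≤ hi (A i) h.1 := by
    obtain ⟨x, hx, hx'⟩ := exists_hi (hA.compact i) (hA.nonempty i) (h.1 : E (m + 2))
    rw [← hx']
    exact lo_le (hA.compact i) _ hx
  rcases h1 : σ i with _ | _ | _
  · have h2 := (hh i).1 h1
    exact ⟨h2.1.le, h2.2.le⟩
  · have h2 := (hh i).2.2 h1
    exact ⟨h2.symm.le, h2 ▸ hle⟩
  · have h2 := (hh i).2.1 h1
    exact ⟨h2 ▸ hle, h2.le⟩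

/-- The common part of the two sums. -/
theorem ksum_main (hA : CFam A) (Y : Finset (Fin n) → Set (OH (m + 2))) (Sm : Finset (Fin n))
    (G : Set (OH (m + 2)))
    (hY : ∀ S : Finset (Fin n), Disjoint S Sm → ∀ h : OH (m + 2),
      (h ∈ Y S ↔ h ∈ TT A ∧ h ∉ G ∧ tset A h = S ∪ Sm))
    (hY0 : ∀ S : Finset (Fin n), ¬ Disjoint S Sm → Y S = ∅) :
    ∑ S : Finset (Fin n), ncomp (Y S) ≤
      (∑ k ∈ Finset.range (m + 2), ∑ σ ∈ lvl n k, ncomp (St A σ \ G)) + (Ver A).encard := by
  classical
  have hdisj : ∀ S S' : Finset (Fin n), Disjoint S Sm → Disjoint S' Sm → S ∪ Sm = S' ∪ Sm →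
      S = S' := by
    intro S S' h1 h2 h3
    rw [← Finset.union_sdiff_cancel_right h1, h3, Finset.union_sdiff_cancel_right h2]
  have hsplit : ∑ S : Finset (Fin n), ncomp (Y S) =
      ∑ S ∈ Finset.univ.filter (fun S => (S ∪ Sm).card < m + 2 ∧ Disjoint S Sm), ncomp (Y S) +
      ∑ S ∈ Finset.univ.filter (fun S => ¬ ((S ∪ Sm).card < m + 2 ∧ Disjoint S Sm)),
        ncomp (Y S) := (Finset.sum_filter_add_sum_filter_not _ _ _).symm
  rw [hsplit]
  refine add_le_add ?_ ?_
  · have h1 : ∀ S ∈ Finset.univ.filter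
        (fun S : Finset (Fin n) => (S ∪ Sm).card < m + 2 ∧ Disjoint S Sm),
        ncomp (Y S) ≤ ∑ σ ∈ Finset.univ.filter (fun σ : Fin n → SignType => supp σ = S ∪ Sm),
          ncomp (St A σ \ G) := by
      intro S hS
      rw [Finset.mem_filter] at hS
      have e : Y S = ⋃ σ ∈ Finset.univ.filter (fun σ : Fin n → SignType => supp σ = S ∪ Sm),
          (St A σ \ G) := by
        ext h
        rw [hY S hS.2.2]
        simp only [mem_iUnion, Finset.mem_filter, Finset.mem_univ, true_and]
        constructor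
        · rintro ⟨h2, h3, h4⟩
          obtain ⟨σ, h5, h6⟩ := ksum_exists_sign h2
          exact ⟨σ, h5.trans h4, h6, h3⟩
        · rintro ⟨σ, h2, h3, h4⟩
          exact ⟨ksum_St_TT hA h3, h4, (supp_eq_tset h3).symm.trans h2⟩
      rw [e]
      exact ncomp_biUnion_le _ _
    refine (Finset.sum_le_sum h1).trans ?_
    rw [← Finset.sum_biUnion]
    · have h2 : ∑ k ∈ Finset.range (m + 2), ∑ σ ∈ lvl n k, ncomp (St A σ \ G) =
          ∑ σ ∈ (Finset.range (m + 2)).biUnion (lvl n), ncomp (St A σ \ G) := by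
        rw [Finset.sum_biUnion]
        intro k _ k' _ hkk
        rw [Function.onFun, Finset.disjoint_left]
        intro σ h3 h4
        exact hkk ((mem_lvl.1 h3).symm.trans (mem_lvl.1 h4))
      rw [h2]
      refine Finset.sum_le_sum_of_subset ?_
      intro σ hσ
      rw [Finset.mem_biUnion] at hσ ⊢
      obtain ⟨S, hS, hσS⟩ := hσ
      rw [Finset.mem_filter] at hS hσS
      refine ⟨(supp σ).card, ?_, mem_lvl.2 rfl⟩
      rw [Finset.mem_range, hσS.2]
      exact hS.2.1
    · intro S hS S' hS' hSS
      rw [Function.onFun, Finset.disjoint_left]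
      intro σ h3 h4
      rw [Finset.mem_coe, Finset.mem_filter] at hS hS'
      rw [Finset.mem_filter] at h3 h4
      exact hSS (hdisj S S' hS.2.2 hS'.2.2 (h3.2.symm.trans h4.2))
  · refine (Finset.sum_le_sum fun S _ => ncomp_le_encard (Y S)).trans ?_
    rw [ksum_disj]
    · refine encard_le_encard ?_
      intro h hh
      simp only [mem_iUnion] at hh
      obtain ⟨S, hS, hh⟩ := hh
      rw [Finset.mem_filter] at hS
      by_cases hd : Disjoint S Sm
      · have h1 := (hY S hd h).1 hh
        refine ⟨h1.1, ?_⟩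
        rw [h1.2.2]
        by_contra hc
        exact hS.2 ⟨not_le.1 hc, hd⟩
      · rw [hY0 S hd] at hh
        exact absurd hh (notMem_empty h)
    · intro S _ S' _ hSS
      rw [Set.disjoint_left]
      intro h hh hh'
      by_cases hd : Disjoint S Sm
      · by_cases hd' : Disjoint S' Sm
        · exact hSS (hdisj S S' hd hd' (((hY S hd h).1 hh).2.2.symm.trans
            ((hY S' hd' h).1 hh').2.2))
        · rw [hY0 S' hd'] at hh'
          exact hh'
      · rw [hY0 S hd] at hh
        exact hh

theorem faces_le_TS (hA : CFam A) (proper : Prop) :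
    (faces proper A).encard ≤ ∑ S : Finset (Fin n), ncomp (TS proper A (S : Set (Fin n))) := by
  classical
  refine (encard_le_of_rel (faces proper A)
    {p : Finset (Fin n) × Set (OH (m + 2)) | p.1 ∈ (Finset.univ : Finset (Finset (Fin n))) ∧
      p.2 ∈ (fun x => connectedComponentIn (TS proper A (p.1 : Set (Fin n))) x) ''
        TS proper A (p.1 : Set (Fin n))}
    (fun F p => ∃ h ∈ TS proper A (p.1 : Set (Fin n)),
      F = connectedComponentIn (stratum proper A (p.1 : Set (Fin n))) (Hyp.of h) ∧
      p.2 = connectedComponentIn (TS proper A (p.1 : Set (Fin n))) h) ?_ ?_).trans ?_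
  · rintro F ⟨S, H, hH, rfl⟩
    obtain ⟨h, hh⟩ := H.isHyperplane
    have hHof : H = Hyp.of h := by
      cases H
      simp only [Hyp.of] at hh ⊢
      subst hh
      rfl
    subst hHof
    obtain ⟨T, rfl⟩ : ∃ T : Finset (Fin n), S = (T : Set (Fin n)) :=
      ⟨S.toFinset, (Set.coe_toFinset S).symm⟩
    exact ⟨(T, connectedComponentIn (TS proper A (T : Set (Fin n))) h),
      ⟨Finset.mem_univ _, h, hH, rfl⟩, h, hH, rfl, rfl⟩
  · rintro F - F' - ⟨T, K⟩ - ⟨h, hh, rfl, hK⟩ ⟨h', hh', rfl, hK'⟩
    simp only [] at hh hh' hK hK' ⊢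
    refine connectedComponentIn_eq ?_
    have h1 : IsPreconnected (Hyp.of '' connectedComponentIn (TS proper A (T : Set (Fin n))) h) :=
      isPreconnected_connectedComponentIn.image _ continuous_of.continuousOn
    have h2 : Hyp.of '' connectedComponentIn (TS proper A (T : Set (Fin n))) h ⊆
        stratum proper A (T : Set (Fin n)) := by
      rintro _ ⟨u, hu, rfl⟩
      exact (connectedComponentIn_subset (TS proper A (T : Set (Fin n))) h hu : u ∈ TS proper A _)
    refine h1.subset_connectedComponentIn ⟨h, mem_connectedComponentIn hh, rfl⟩ h2 ⟨h', ?_, rfl⟩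
    rw [← hK, hK']
    exact mem_connectedComponentIn hh'
  · refine (encard_le_of_rel _
      (⋃ T ∈ (Finset.univ : Finset (Finset (Fin n))),
        (fun K => (T, K)) '' ((fun x => connectedComponentIn (TS proper A (T : Set (Fin n))) x) ''
          TS proper A (T : Set (Fin n))))
      (fun p q => p = q) ?_ ?_).trans ?_
    · rintro ⟨T, K⟩ ⟨-, hK⟩
      exact ⟨(T, K), by simp only [mem_iUnion]; exact ⟨T, Finset.mem_univ _, K, hK, rfl⟩, rfl⟩
    · rintro p - p' - q - rfl rfl
      rfl
    · refine (encard_biUnion_le_sum _ _).trans (Finset.sum_le_sum fun σ _ => ?_)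
      exact Set.encard_image_le _ _

theorem sum_improper (hA : CFam A) :
    ∑ S : Finset (Fin n), ncomp (TS False A (S : Set (Fin n))) ≤
      (∑ k ∈ Finset.range (m + 2), ∑ σ ∈ lvl n k, ncomp (St A σ)) + (Ver A).encard := by
  have h := ksum_main hA (fun S => TS False A (S : Set (Fin n))) ∅ ∅ ?_ ?_
  · simpa only [sdiff_empty] using h
  · intro S _ h
    rw [mem_TS_iff hA, Finset.union_empty]
    refine and_congr_right fun _ => ?_
    rw [Finset.ext_iff]
    simp
  · intro S hS
    exact absurd (Finset.disjoint_empty_right S) hS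

theorem sum_proper (hA : CFam A) (Sm : Finset (Fin n))
    (hSm : ∀ b ∈ Sm, ∀ h ∈ TT A, h ∈ Cont (A b)) :
    ∑ S : Finset (Fin n), ncomp (TS True A (S : Set (Fin n))) ≤
      (∑ k ∈ Finset.range (m + 2), ∑ σ ∈ lvl n k, ncomp (St A σ \ ⋃ b ∈ Smᶜ, Cont (A b))) +
        (Ver A).encard +
        ∑ b ∈ Smᶜ, ∑ S : Finset (Fin n), ncomp (TS True A (S : Set (Fin n)) ∩ Cont (A b)) := by
  classical
  have hCt : ∀ (i : Fin n) (h : OH (m + 2)), h ∈ Cont (A i) → i ∈ tset A h := by
    intro i h hh
    rw [mem_Cont_iff (hA.compact i) (hA.nonempty i)] at hh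
    rw [mem_tset]
    exact Or.inl hh.1
  have h1 : ∀ S : Finset (Fin n), ncomp (TS True A (S : Set (Fin n))) ≤
      ncomp (TS True A (S : Set (Fin n)) \ ⋃ b ∈ Smᶜ, Cont (A b)) +
        ∑ b ∈ Smᶜ, ncomp (TS True A (S : Set (Fin n)) ∩ Cont (A b)) := by
    intro S
    have e : TS True A (S : Set (Fin n)) =
        (TS True A (S : Set (Fin n)) \ ⋃ b ∈ Smᶜ, Cont (A b)) ∪
          ⋃ b ∈ Smᶜ, (TS True A (S : Set (Fin n)) ∩ Cont (A b)) := by
      ext h
      simp only [mem_union, Set.mem_sdiff, mem_iUnion, mem_inter_iff, exists_prop]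
      constructor
      · intro hh
        by_cases hc : ∃ i, i ∈ Smᶜ ∧ h ∈ Cont (A i)
        · obtain ⟨i, hi1, hi2⟩ := hc
          exact Or.inr ⟨i, hi1, hh, hi2⟩
        · exact Or.inl ⟨hh, hc⟩
      · rintro (⟨hh, -⟩ | ⟨i, -, hh, -⟩)
        · exact hh
        · exact hh
    calc ncomp (TS True A (S : Set (Fin n)))
        = ncomp ((TS True A (S : Set (Fin n)) \ ⋃ b ∈ Smᶜ, Cont (A b)) ∪
          ⋃ b ∈ Smᶜ, (TS True A (S : Set (Fin n)) ∩ Cont (A b))) := by rw [← e]
      _ ≤ _ := (ncomp_union_le _ _).trans (add_le_add le_rfl (ncomp_biUnion_le _ _))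
  refine (Finset.sum_le_sum fun S _ => h1 S).trans ?_
  rw [Finset.sum_add_distrib, Finset.sum_comm]
  refine add_le_add ?_ le_rfl
  refine ksum_main hA (fun S => TS True A (S : Set (Fin n)) \ ⋃ b ∈ Smᶜ, Cont (A b)) Sm
    (⋃ b ∈ Smᶜ, Cont (A b)) ?_ ?_
  · intro S hS h
    rw [Set.mem_sdiff, mem_TS_iff hA]
    constructor
    · rintro ⟨⟨h2, h3⟩, h4⟩
      refine ⟨h2, h4, ?_⟩
      ext i
      rw [Finset.mem_union]
      constructor
      · intro h5
        by_cases h6 : h ∈ Cont (A i)
        · right
          by_contra h7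
          refine h4 ?_
          simp only [mem_iUnion]
          exact ⟨i, Finset.mem_compl.2 h7, h6⟩
        · left
          exact Finset.mem_coe.1 ((h3 i).1 ⟨h5, fun _ => h6⟩)
      · rintro (h5 | h5)
        · exact ((h3 i).2 (Finset.mem_coe.2 h5)).1
        · exact hCt i h (hSm i h5 h h2)
    · rintro ⟨h2, h4, h5⟩
      refine ⟨⟨h2, fun i => ?_⟩, h4⟩
      rw [h5, Finset.mem_union, Finset.mem_coe]
      constructor
      · rintro ⟨h6 | h6, h7⟩
        · exact h6
        · exact absurd (hSm i h6 h h2) (h7 trivial)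
      · intro h6
        refine ⟨Or.inl h6, fun _ h7 => h4 ?_⟩
        simp only [mem_iUnion]
        exact ⟨i, Finset.mem_compl.2 fun h8 => Finset.disjoint_left.1 hS h6 h8, h7⟩
  · intro S hS
    rw [Set.eq_empty_iff_forall_notMem]
    rintro h ⟨hh, -⟩
    rw [mem_TS_iff hA] at hh
    refine hS (Finset.disjoint_left.2 fun i h1 h2 => ?_)
    exact ((hh.2 i).2 (Finset.mem_coe.2 h1)).2 trivial (hSm i h2 h hh.1)

/-- The faces do not depend on `proper` beyond its truth value. -/
theorem faces_proper_cases (A : Fin n → Set (E (m + 2))) (proper : Prop) :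
    faces proper A = faces True A ∨ faces proper A = faces False A := by
  by_cases h : proper
  · left
    rw [eq_true h]
  · right
    rw [eq_false h]

end HyperplaneTransversals
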