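import Pool.Agent.Lib.MP_b2e5b9_co_D.Defs

/-!
# Hierarchical choice of radii

Proof. Downward induction on `k : ℕ`, `k ≤ n`, of the statement `S k`: there is `ε` with
`0 < ε i ≤ δ` such that for all `a` with `k ≤ (M a).val` and all `ε'` with `0 < ε' i ≤ ε i` for all
`i` and `ε' l = ε l` for all `l` with `k ≤ l.val` we have `P a ε'`. `S n` is trivial (`ε = δ`),
`S 0` with `ε' = ε` is the theorem.
From `S (k + 1)` to `S k`: let `ε` be given by `S (k + 1)`; for the
finitely many `a` with `(M a).val = k` let `η a > 0` be given by `hP a ε`, let `η > 0` be smaller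
than all of them, and put `ε₁ l = ε l` for `k < l.val` and `ε₁ l = min (ε l) (η / 2)` for
`l.val ≤ k`. If `ε'` is as in `S k` for `ε₁`: for `(M a).val ≥ k + 1` use `S (k + 1)`
(`ε' ≤ ε₁ ≤ ε` and `ε' = ε₁ = ε` on the indices `≥ k + 1`); for `(M a).val = k` use `hP a ε`:
`ε' = ε` on the indices `> M a`, and `ε' l ≤ η / 2 < η a` for `l ≤ M a`.
-/

set_option autoImplicit false

namespace HyperplaneTransversals

theorem exists_radii {n : ℕ} {δ : ℝ} (hδ : 0 < δ) {ι : Type} [Finite ι] (M : ι → Fin n)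
    (P : ι → (Fin n → ℝ) → Prop)
    (hP : ∀ a, ∀ ε₀ : Fin n → ℝ, (∀ i, 0 < ε₀ i ∧ ε₀ i ≤ δ) → ∃ η : ℝ, 0 < η ∧
      ∀ ε : Fin n → ℝ, (∀ i, 0 < ε i ∧ ε i ≤ δ) → (∀ l, M a < l → ε l = ε₀ l) →
        (∀ l, l ≤ M a → ε l < η) → P a ε) :
    ∃ ε : Fin n → ℝ, (∀ i, 0 < ε i ∧ ε i ≤ δ) ∧ ∀ a, P a ε := by
  have key : ∀ j : ℕ, j ≤ n → ∃ ε : Fin n → ℝ, (∀ i, 0 < ε i ∧ ε i ≤ δ) ∧
      ∀ a, n - j ≤ (M a).val → ∀ ε' : Fin n → ℝ, (∀ i, 0 < ε' i ∧ ε' i ≤ ε i) →
        (∀ l : Fin n, n - j ≤ l.val → ε' l = ε l) → P a ε' := by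
    intro j
    induction j with
    | zero =>
      intro _
      refine ⟨fun _ => δ, fun _ => ⟨hδ, le_rfl⟩, fun a ha => ?_⟩
      exact absurd (M a).isLt (by omega)
    | succ j ih =>
      intro hj
      obtain ⟨ε, hε, h1⟩ := ih (by omega)
      choose η hη h2 using fun a => hP a ε hε
      obtain ⟨η₀, hη₀, hη₁⟩ : ∃ η₀ : ℝ, 0 < η₀ ∧ ∀ a, η₀ ≤ η a := by
        rcases isEmpty_or_nonempty ι with hι | hι
        · exact ⟨1, one_pos, fun a => isEmptyElim a⟩
        · obtain ⟨a₀, ha₀⟩ := Finite.exists_min η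
          exact ⟨η a₀, hη a₀, ha₀⟩
      refine ⟨fun l => if n - (j + 1) < l.val then ε l else min (ε l) (η₀ / 2), ?_, ?_⟩
      · intro l
        dsimp only
        split_ifs with h
        · exact hε l
        · exact ⟨lt_min (hε l).1 (by linarith), (min_le_left _ _).trans (hε l).2⟩
      · intro a ha ε' hε' he
        have hle : ∀ i, 0 < ε' i ∧ ε' i ≤ ε i := by
          intro i
          refine ⟨(hε' i).1, (hε' i).2.trans ?_⟩
          dsimp only
          split_ifs with h
          · exact le_rfl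
          · exact min_le_left _ _
        have heq : ∀ l : Fin n, n - (j + 1) < l.val → ε' l = ε l := by
          intro l hl
          exact (he l hl.le).trans (if_pos hl)
        by_cases hc : n - j ≤ (M a).val
        · exact h1 a hc ε' hle fun l hl => heq l (by omega)
        · have hM : (M a).val = n - (j + 1) := by omega
          refine h2 a ε' (fun i => ⟨(hle i).1, (hle i).2.trans (hε i).2⟩) ?_ ?_
          · intro l hl
            exact heq l (by rw [← hM]; exact hl)
          · intro l hl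
            have h3 : ¬ n - (j + 1) < l.val := by
              rw [← hM]
              exact not_lt.2 hl
            have h4 := (hε' l).2
            dsimp only at h4
            rw [if_neg h3] at h4
            have h5 := hη₁ a
            have h6 := min_le_right (ε l) (η₀ / 2)
            linarith
  obtain ⟨ε, hε, h⟩ := key n le_rfl
  refine ⟨ε, hε, fun a => h a (by omega) ε (fun i => ⟨(hε i).1, le_rfl⟩) fun _ _ => rfl⟩

end HyperplaneTransversals
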