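import Pool.Agent.Lib.MP_b2e5b9_co_D.Thk1

/-!
# Small thickenings: semicontinuity and separation of components

Proof of `Cl_thk_subset`. Otherwise for every `j : ℕ` there are `ε j` with
`0 ≤ ε j i ≤ 1 / (j + 1)` and `h j ∈ Cl (thk A (ε j)) σ`, `h j ∉ V`. By `hi_cthickening`,
`lo_cthickening` (unit vectors): `lo (A i) u - ε ≤ t ≤ hi (A i) u + ε` for all `i`, with equality
`t = hi (A i) u + ε` or `t = lo (A i) u - ε` for the members of the support. The `h j` lie in a
compact set (the sphere times a bounded interval, from `i = ⟨0, _⟩`, the support functions are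
bounded on the sphere). A cluster point `h` satisfies all conditions of `Cl A σ` (continuity of
`hi`, `lo`: `continuous_hi`, `continuous_lo`) and is not in the open set `V`: contradiction.

Proof of `separate`. `Cl A σ` is compact (closed and bounded as above; `0 < n`), so in the
subtype the component of `h` is the intersection of the clopen sets containing `h`
(`connectedComponent_eq_iInter_isClopen`), and there is a clopen set of the subtype that
contains `h` but not `h'` (otherwise `h'` would be in the component of `h`, and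
`connectedComponentIn_eq` gives equality). Its image `P` and the image `Q` of its complement are
disjoint compact sets with union `Cl A σ`; let `VP`, `VQ` be disjoint open neighbourhoods
(`SeparatedNhds`, `IsCompact.separatedNhds` or `SeparatedNhds.of_isCompact_isCompact`). Apply
`Cl_thk_subset` with `V = VP ∪ VQ`, and take `U = VP`, `U' = VQ`. If the components of `x` and
`x'` in `St (thk A ε) σ` were equal, this preconnected set would be contained in `VP ∪ VQ` (`St ⊆
Cl`)
and meet both.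
-/

set_option autoImplicit false

open Set Filter
open scoped RealInnerProductSpace Topology

namespace HyperplaneTransversals

variable {m n : ℕ} {A : Fin n → Set (E (m + 2))}

/-- The violation of the condition of `Cl` for one member. -/
private noncomputable def semi_f {d : ℕ} (K : Set (E d)) : SignType → OH d → ℝ
  | SignType.zero, h => max (lo K h.1 - h.2) (h.2 - hi K h.1)
  | SignType.pos, h => |h.2 - hi K h.1|
  | SignType.neg, h => |h.2 - lo K h.1|

private theorem semi_cont {d : ℕ} {K : Set (E d)} (hK : IsCompact K) (hc : Convex ℝ K)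
    (hne : K.Nonempty) (s : SignType) : Continuous (semi_f K s) := by
  have h1 := continuous_hi hK hc hne
  have h2 := continuous_lo hK hc hne
  have h3 : Continuous (fun h : OH d => hi K h.1) := h1.comp (by fun_prop)
  have h4 : Continuous (fun h : OH d => lo K h.1) := h2.comp (by fun_prop)
  cases s with
  | zero => exact (h4.sub continuous_snd).max (continuous_snd.sub h3)
  | pos => exact (continuous_snd.sub h3).abs
  | neg => exact (continuous_snd.sub h4).abs

private theorem semi_mem {d : ℕ} {B : Fin n → Set (E d)} {σ : Fin n → SignType} {h : OH d}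
    (hf : ∀ i, semi_f (B i) (σ i) h ≤ 0) : h ∈ Cl B σ := by
  intro i
  have h1 := hf i
  refine ⟨fun hs => ?_, fun hs => ?_, fun hs => ?_⟩
  · rw [hs] at h1
    have h2 : max (lo (B i) h.1 - h.2) (h.2 - hi (B i) h.1) ≤ 0 := h1
    rw [max_le_iff] at h2
    constructor <;> linarith [h2.1, h2.2]
  · rw [hs] at h1
    have h2 : |h.2 - hi (B i) h.1| ≤ 0 := h1
    exact sub_eq_zero.1 (abs_nonpos_iff.1 h2)
  · rw [hs] at h1
    have h2 : |h.2 - lo (B i) h.1| ≤ 0 := h1
    exact sub_eq_zero.1 (abs_nonpos_iff.1 h2)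

private theorem semi_norm {d : ℕ} (u : Metric.sphere (0 : E d) 1) : ‖(u : E d)‖ = 1 :=
  mem_sphere_zero_iff_norm.1 u.2

private theorem semi_thk (hA : CFam A) {σ : Fin n → SignType} {ε : Fin n → ℝ} {δ : ℝ}
    (hε : ∀ i, 0 ≤ ε i ∧ ε i ≤ δ) {h : OH (m + 2)} (hh : h ∈ Cl (thk A ε) σ) (i : Fin n) :
    semi_f (A i) (σ i) h ≤ δ := by
  have h1 := hh i
  have e1 : hi (thk A ε i) h.1 = hi (A i) h.1 + ε i := by
    rw [thk, hi_cthickening (hA.compact i) (hA.nonempty i) (hε i).1, semi_norm, mul_one]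
  have e2 : lo (thk A ε i) h.1 = lo (A i) h.1 - ε i := by
    rw [thk, lo_cthickening (hA.compact i) (hA.nonempty i) (hε i).1, semi_norm, mul_one]
  rw [e1, e2] at h1
  obtain ⟨h2, h3⟩ := hε i
  cases hs : σ i with
  | zero =>
    have h4 := h1.1 hs
    show max (lo (A i) h.1 - h.2) (h.2 - hi (A i) h.1) ≤ δ
    exact max_le (by linarith [h4.1]) (by linarith [h4.2])
  | pos =>
    have h4 := h1.2.1 hs
    show |h.2 - hi (A i) h.1| ≤ δ
    rw [abs_le]
    constructor <;> linarith
  | neg =>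
    have h4 := h1.2.2 hs
    show |h.2 - lo (A i) h.1| ≤ δ
    rw [abs_le]
    constructor <;> linarith

private theorem semi_bound (hA : CFam A) (hn : 0 < n) (σ : Fin n → SignType) : ∃ M : ℝ,
    ∀ h : OH (m + 2), (∀ i, semi_f (A i) (σ i) h ≤ 1) → h ∈ (univ ×ˢ Icc (-M) M : Set _) := by
  obtain ⟨C, hC0, hC⟩ := exists_bound (hA.compact ⟨0, hn⟩)
  refine ⟨C + 1, fun h hh => ⟨mem_univ _, ?_⟩⟩
  have h1 : |hi (A ⟨0, hn⟩) h.1| ≤ C := by
    obtain ⟨x, hx, hx'⟩ := exists_hi (hA.compact ⟨0, hn⟩) (hA.nonempty _) (h.1 : E (m + 2))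
    rw [← hx']
    refine (abs_real_inner_le_norm _ _).trans ?_
    rw [semi_norm, one_mul]
    exact hC x hx
  have h2 : |lo (A ⟨0, hn⟩) h.1| ≤ C := by
    obtain ⟨x, hx, hx'⟩ := exists_lo (hA.compact ⟨0, hn⟩) (hA.nonempty _) (h.1 : E (m + 2))
    rw [← hx']
    refine (abs_real_inner_le_norm _ _).trans ?_
    rw [semi_norm, one_mul]
    exact hC x hx
  rw [abs_le] at h1 h2
  have h3 := hh ⟨0, hn⟩
  cases hs : σ ⟨0, hn⟩ with
  | zero =>
    rw [hs] at h3
    have h4 : max (lo (A ⟨0, hn⟩) h.1 - h.2) (h.2 - hi (A ⟨0, hn⟩) h.1) ≤ 1 := h3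
    rw [max_le_iff] at h4
    constructor <;> linarith [h4.1, h4.2, h1.1, h1.2, h2.1, h2.2]
  | pos =>
    rw [hs] at h3
    have h4 : |h.2 - hi (A ⟨0, hn⟩) h.1| ≤ 1 := h3
    rw [abs_le] at h4
    constructor <;> linarith [h4.1, h4.2, h1.1, h1.2, h2.1, h2.2]
  | neg =>
    rw [hs] at h3
    have h4 : |h.2 - lo (A ⟨0, hn⟩) h.1| ≤ 1 := h3
    rw [abs_le] at h4
    constructor <;> linarith [h4.1, h4.2, h1.1, h1.2, h2.1, h2.2]

private theorem semi_closed (hA : CFam A) (σ : Fin n → SignType) (δ : ℝ) :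
    IsClosed {h : OH (m + 2) | ∀ i, semi_f (A i) (σ i) h ≤ δ} := by
  rw [Set.ofPred_forall]
  exact isClosed_iInter fun i =>
    isClosed_le (semi_cont (hA.compact i) (hA.convex i) (hA.nonempty i) (σ i)) continuous_const

private theorem semi_compact (hA : CFam A) (hn : 0 < n) (σ : Fin n → SignType) :
    IsCompact (Cl A σ) := by
  obtain ⟨M, hM⟩ := semi_bound hA hn σ
  have hK : IsCompact (univ ×ˢ Icc (-M) M : Set (OH (m + 2))) := isCompact_univ.prod isCompact_Icc
  have h1 : Cl A σ = (univ ×ˢ Icc (-M) M : Set (OH (m + 2))) ∩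
      {h : OH (m + 2) | ∀ i, semi_f (A i) (σ i) h ≤ 0} := by
    ext h
    constructor
    · intro hh
      have h2 : ∀ i, semi_f (A i) (σ i) h ≤ 0 := by
        intro i
        have h3 := hh i
        cases hs : σ i with
        | zero =>
          have h4 := h3.1 hs
          show max (lo (A i) h.1 - h.2) (h.2 - hi (A i) h.1) ≤ 0
          exact max_le (by linarith [h4.1]) (by linarith [h4.2])
        | pos =>
          show |h.2 - hi (A i) h.1| ≤ 0
          rw [h3.2.1 hs, sub_self, abs_zero]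
        | neg =>
          show |h.2 - lo (A i) h.1| ≤ 0
          rw [h3.2.2 hs, sub_self, abs_zero]
      exact ⟨hM h fun i => (h2 i).trans zero_le_one, h2⟩
    · intro hh
      exact semi_mem hh.2
  rw [h1]
  exact hK.inter_right (semi_closed hA σ 0)

/-- Points of different components of a compact set are separated by open sets. -/
private theorem semi_sep {X : Type} [TopologicalSpace X] [T2Space X] {K : Set X}
    (hK : IsCompact K) {x y : X} (hx : x ∈ K) (hy : y ∈ K)
    (hne : connectedComponentIn K x ≠ connectedComponentIn K y) :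
    ∃ U V : Set X, IsOpen U ∧ IsOpen V ∧ Disjoint U V ∧ K ⊆ U ∪ V ∧ x ∈ U ∧ y ∈ V := by
  have : CompactSpace K := isCompact_iff_compactSpace.1 hK
  have h1 : (⟨y, hy⟩ : K) ∉ connectedComponent (⟨x, hx⟩ : K) := by
    intro h
    apply hne
    rw [connectedComponentIn_eq_image hx, connectedComponentIn_eq_image hy,
      connectedComponent_eq h]
  rw [connectedComponent_eq_iInter_isClopen, mem_iInter] at h1
  push Not at h1
  obtain ⟨⟨Z, hZ, hxZ⟩, hyZ⟩ := h1
  have hP : IsCompact ((Subtype.val : K → X) '' Z) := hZ.1.isCompact.image continuous_subtype_val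
  have hQ : IsCompact ((Subtype.val : K → X) '' Zᶜ) :=
    hZ.compl.1.isCompact.image continuous_subtype_val
  have hPQ : Disjoint ((Subtype.val : K → X) '' Z) ((Subtype.val : K → X) '' Zᶜ) :=
    (disjoint_image_iff Subtype.val_injective).2 disjoint_compl_right
  obtain ⟨U, V, hU, hV, hPU, hQV, hUV⟩ := SeparatedNhds.of_isCompact_isCompact hP hQ hPQ
  refine ⟨U, V, hU, hV, hUV, ?_, hPU ⟨_, hxZ, rfl⟩, hQV ⟨_, hyZ, rfl⟩⟩
  intro z hz
  by_cases h : (⟨z, hz⟩ : K) ∈ Z
  · exact Or.inl (hPU ⟨_, h, rfl⟩)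
  · exact Or.inr (hQV ⟨_, h, rfl⟩)

theorem Cl_thk_subset (hA : CFam A) (hn : 0 < n) (σ : Fin n → SignType)
    {V : Set (OH (m + 2))} (hV : IsOpen V) (hCV : Cl A σ ⊆ V) :
    ∃ δ : ℝ, 0 < δ ∧ ∀ ε : Fin n → ℝ, (∀ i, 0 ≤ ε i ∧ ε i ≤ δ) → Cl (thk A ε) σ ⊆ V := by
  obtain ⟨M, hM⟩ := semi_bound hA hn σ
  have hK : IsCompact ((univ ×ˢ Icc (-M) M : Set (OH (m + 2))) ∩ Vᶜ) :=
    (isCompact_univ.prod isCompact_Icc).inter_right hV.isClosed_compl
  obtain ⟨j, hj⟩ := hK.elim_directed_family_closed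
    (fun j : ℕ => {h : OH (m + 2) | ∀ i, semi_f (A i) (σ i) h ≤ 1 / ((j : ℝ) + 1)})
    (fun j => semi_closed hA σ _) (by
      rw [eq_empty_iff_forall_notMem]
      rintro h ⟨⟨-, hV'⟩, h2⟩
      rw [mem_iInter] at h2
      refine hV' (hCV (semi_mem fun i => ?_))
      refine ge_of_tendsto (tendsto_one_div_add_atTop_nhds_zero_nat (𝕜 := ℝ)) ?_
      exact Eventually.of_forall fun j => h2 j i)
    (by
      refine directed_of_isDirected_le ?_
      intro a b hab h hh i
      refine (hh i).trans ?_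
      have h1 : (a : ℝ) ≤ b := by exact_mod_cast hab
      exact one_div_le_one_div_of_le (by positivity) (by linarith))
  refine ⟨1 / ((j : ℝ) + 1), by positivity, fun ε hε h hh => ?_⟩
  by_contra hV'
  have h1 : ∀ i, semi_f (A i) (σ i) h ≤ 1 / ((j : ℝ) + 1) := fun i => semi_thk hA hε hh i
  have h2 : (1 : ℝ) / ((j : ℝ) + 1) ≤ 1 := by
    rw [div_le_one (by positivity)]
    have : (0 : ℝ) ≤ j := Nat.cast_nonneg j
    linarith
  have h3 : h ∈ ((univ ×ˢ Icc (-M) M : Set (OH (m + 2))) ∩ Vᶜ) ∩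
      {h : OH (m + 2) | ∀ i, semi_f (A i) (σ i) h ≤ 1 / ((j : ℝ) + 1)} :=
    ⟨⟨hM h fun i => (h1 i).trans h2, hV'⟩, h1⟩
  rw [hj] at h3
  exact h3

theorem separate (hA : CFam A) (hn : 0 < n) (σ : Fin n → SignType) {h h' : OH (m + 2)}
    (hh : h ∈ Cl A σ) (hh' : h' ∈ Cl A σ)
    (hne : connectedComponentIn (Cl A σ) h ≠ connectedComponentIn (Cl A σ) h') :
    ∃ δ : ℝ, 0 < δ ∧ ∃ U ∈ 𝓝 h, ∃ U' ∈ 𝓝 h', ∀ ε : Fin n → ℝ, (∀ i, 0 ≤ ε i ∧ ε i ≤ δ) →
      ∀ x ∈ U ∩ St (thk A ε) σ, ∀ x' ∈ U' ∩ St (thk A ε) σ,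
        connectedComponentIn (St (thk A ε) σ) x ≠ connectedComponentIn (St (thk A ε) σ) x' := by
  obtain ⟨U, U', hU, hU', hd, hK, hhU, hhU'⟩ := semi_sep (semi_compact hA hn σ) hh hh' hne
  obtain ⟨δ, hδ, h1⟩ := Cl_thk_subset hA hn σ (hU.union hU') hK
  refine ⟨δ, hδ, U, hU.mem_nhds hhU, U', hU'.mem_nhds hhU', fun ε hε x hx x' hx' hxx => ?_⟩
  have h2 : connectedComponentIn (St (thk A ε) σ) x ⊆ U ∪ U' :=
    (connectedComponentIn_subset _ _).trans ((St_subset_Cl _ _).trans (h1 ε hε))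
  have h3 : x ∈ connectedComponentIn (St (thk A ε) σ) x := mem_connectedComponentIn hx.2
  have h4 : x' ∈ connectedComponentIn (St (thk A ε) σ) x := by
    rw [hxx]
    exact mem_connectedComponentIn hx'.2
  rcases isPreconnected_connectedComponentIn.subset_or_subset hU hU' hd h2 with h5 | h5
  · exact disjoint_left.1 hd (h5 h4) hx'.1
  · exact disjoint_left.1 hd hx.1 (h5 h3)

end HyperplaneTransversals
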