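import Pool.Agent.Lib.MP_b2e5b9_co_D.Near
import Pool.Agent.Lib.MP_b2e5b9_co_D.Radii
import Pool.Agent.Lib.MP_b2e5b9_co_D.Semi
import Pool.Agent.Lib.MP_b2e5b9_co_D.BodyB

/-!
# The number of good components

Proof of `Gc_sum_le`. Let `N` be the right hand side. The left hand side is the cardinality of the
set `G` of the pairs `(σ, Z)` with `σ ∈ lvl n (m + 1)` and `Z` a component of `Cl A σ` that
contains a good point. It is enough that every finite subset `T` of `G` has at most `N` elements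
(otherwise `Set.exists_subset_encard_eq` gives a subset with `N + 1` elements). For
`a = (σ, Z) ∈ T` choose a good point `h a` with component `Z`. Let `δ₀` be from `CFam.exists_fam`.
For two different `a, b ∈ T` with the same `σ` apply `separate` to `h a`, `h b`. Let `δ > 0` be at
most `δ₀` and all the numbers obtained, and `U a` the intersection of all neighbourhoods of
`h a` obtained. Apply `exists_radii` to the index type `T`, `M a` = the largest element of the
support of `σ` (nonempty), and `P a ε` = there is `h' ∈ U a` with `h' ∈ St (thk A ε) σ`; the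
hypothesis is `exists_near` (`∀ i, σ i ≠ 0 → i < l` is equivalent to `M a < l`, and its negation to
`l ≤ M a`). For the resulting `ε` the family `thk A ε` is a family of bodies, and the map
`a ↦ (σ, component of h' a in St (thk A ε) σ)` is injective on `T` by `separate`. So
`T.encard ≤ ∑ σ ∈ lvl n (m + 1), ncomp (St (thk A ε) σ) ≤ N` by `body_bound`.
-/

set_option autoImplicit false

open Set Filter
open scoped RealInnerProductSpace Topology

namespace HyperplaneTransversals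

variable {m n : ℕ} {A : Fin n → Set (E (m + 2))}

/-- Sums of extended cardinalities are determined by finite subsets. -/
private theorem gcsum_enc {α β : Type} (S : Finset α) (G : α → Set β) (N : ℕ)
    (h : ∀ T : α → Finset β, (∀ a ∈ S, (T a : Set β) ⊆ G a) →
      ∑ a ∈ S, ((T a).card : ℕ∞) ≤ N) :
    ∑ a ∈ S, (G a).encard ≤ N := by
  classical
  by_cases hf : ∀ a ∈ S, (G a).Finite
  · have h1 := h (fun a => if ha : a ∈ S then (hf a ha).toFinset else ∅) (by
      intro a ha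
      simp [ha])
    refine le_trans (le_of_eq ?_) h1
    refine Finset.sum_congr rfl fun a ha => ?_
    rw [dif_pos ha, (hf a ha).encard_eq_coe_toFinset_card]
  · exfalso
    push Not at hf
    obtain ⟨a, ha, hinf⟩ := hf
    obtain ⟨t, ht, htc⟩ := Set.Infinite.exists_subset_card_eq hinf (N + 1)
    have h1 := h (fun b => if b = a then t else ∅) (by
      intro b hb
      split_ifs with hba
      · rw [hba]
        exact ht
      · simp)
    have h2 := Finset.single_le_sum (f := fun b => (((if b = a then t else ∅ : Finset β).card :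
      ℕ) : ℕ∞)) (fun _ _ => zero_le) ha
    have h3 := h2.trans h1
    rw [if_pos rfl, htc] at h3
    have h4 : N + 1 ≤ N := by exact_mod_cast h3
    omega

/-- A positive lower bound of finitely many positive numbers. -/
private theorem gcsum_min {ι : Type} [Finite ι] (η : ι → ℝ) (hη : ∀ a, 0 < η a) {δ : ℝ}
    (hδ : 0 < δ) : ∃ η₀ : ℝ, 0 < η₀ ∧ η₀ ≤ δ ∧ ∀ a, η₀ ≤ η a := by
  rcases isEmpty_or_nonempty ι with hι | hι
  · exact ⟨δ, hδ, le_rfl, fun a => isEmptyElim a⟩
  · obtain ⟨a₀, ha₀⟩ := Finite.exists_min η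
    exact ⟨min δ (η a₀), lt_min hδ (hη a₀), min_le_left _ _,
      fun a => (min_le_right _ _).trans (ha₀ a)⟩

theorem Gc_sum_le (hA : CFam A) (hn : m + 2 ≤ n) :
    ∑ σ ∈ lvl n (m + 1), Gc A σ ≤ ((lvl n m).card : ℕ∞) * (200 * n) := by
  classical
  have hN : ((lvl n m).card : ℕ∞) * (200 * n) = (((lvl n m).card * (200 * n) : ℕ) : ℕ∞) := by
    push_cast
    rfl
  have hbb : ∀ B : Fin n → Set (E (m + 2)), Fam B →
      ∑ σ ∈ lvl n (m + 1), ncomp (St B σ) ≤ (((lvl n m).card * (200 * n) : ℕ) : ℕ∞) :=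
    fun B hB => (body_bound hB hn).trans hN.le
  rw [hN]
  refine gcsum_enc _ _ _ fun T hT => ?_
  let ι : Type := {a // a ∈ (lvl n (m + 1)).sigma T}
  have hfin : Finite ι := inferInstanceAs (Finite {a // a ∈ (lvl n (m + 1)).sigma T})
  have hσ : ∀ a : ι, a.1.1 ∈ lvl n (m + 1) := fun a => (Finset.mem_sigma.1 a.2).1
  have hZ : ∀ a : ι, a.1.2 ∈ T a.1.1 := fun a => (Finset.mem_sigma.1 a.2).2
  choose hp hpG hpZ using fun a : ι => hT a.1.1 (hσ a) (hZ a)
  obtain ⟨δ₀, hδ₀, hfam⟩ := hA.exists_fam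
  have hsep : ∀ q : ι × ι, ∃ δ : ℝ, 0 < δ ∧ ∃ U ∈ 𝓝 (hp q.1), ∃ U' ∈ 𝓝 (hp q.2),
      (q.1.1.1 = q.2.1.1 → q.1 ≠ q.2 → ∀ ε : Fin n → ℝ, (∀ i, 0 ≤ ε i ∧ ε i ≤ δ) →
        ∀ x ∈ U ∩ St (thk A ε) q.1.1.1, ∀ x' ∈ U' ∩ St (thk A ε) q.1.1.1,
          connectedComponentIn (St (thk A ε) q.1.1.1) x ≠
            connectedComponentIn (St (thk A ε) q.1.1.1) x') := by
    rintro ⟨a, b⟩
    dsimp only
    by_cases hc : a.1.1 = b.1.1 ∧ a ≠ b
    · obtain ⟨hc1, hc2⟩ := hc
      have hne : connectedComponentIn (Cl A a.1.1) (hp a) ≠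
          connectedComponentIn (Cl A a.1.1) (hp b) := by
        intro h
        apply hc2
        have h1 : a.1.2 = b.1.2 := by
          rw [← hpZ a, ← hpZ b, ← hc1]
          exact h
        exact Subtype.ext (Sigma.ext hc1 (heq_of_eq h1))
      have hb : hp b ∈ Cl A a.1.1 := by
        rw [hc1]
        exact (hpG b).1
      obtain ⟨δ, hδ, U, hU, U', hU', h1⟩ := separate hA (by omega) a.1.1 (hpG a).1 hb hne
      exact ⟨δ, hδ, U, hU, U', hU', fun _ _ => h1⟩
    · exact ⟨1, one_pos, univ, univ_mem, univ, univ_mem, fun h1 h2 => absurd ⟨h1, h2⟩ hc⟩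
  choose δ₁ hδ₁ U hU U' hU' hUU using hsep
  obtain ⟨δ, hδ, hδδ₀, hδδ₁⟩ := gcsum_min δ₁ hδ₁ hδ₀
  have hδA : ∀ ε : Fin n → ℝ, (∀ i, 0 < ε i ∧ ε i ≤ δ) → Fam (thk A ε) :=
    fun ε hε => hfam ε fun i => ⟨(hε i).1, (hε i).2.trans hδδ₀⟩
  let W : ι → Set (OH (m + 2)) := fun a => (⋂ b, U (a, b)) ∩ ⋂ b, U' (b, a)
  have hW : ∀ a, W a ∈ 𝓝 (hp a) := fun a =>
    inter_mem (iInter_mem.2 fun b => hU (a, b)) (iInter_mem.2 fun b => hU' (b, a))
  have hsupp : ∀ a : ι, (supp a.1.1).Nonempty := by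
    intro a
    rw [← Finset.card_pos, mem_lvl.1 (hσ a)]
    omega
  have hmax : ∀ (a : ι) (l : Fin n), (∀ i, a.1.1 i ≠ 0 → i < l) ↔
      (supp a.1.1).max' (hsupp a) < l := by
    intro a l
    rw [Finset.max'_lt_iff]
    simp only [mem_supp]
  obtain ⟨ε, hε, hP⟩ := exists_radii hδ (fun a : ι => (supp a.1.1).max' (hsupp a))
    (fun a ε => ∃ h' ∈ W a, h' ∈ St (thk A ε) a.1.1) (by
      intro a ε₀ hε₀
      obtain ⟨η, hη, h1⟩ := exists_near hA hn (mem_lvl.1 (hσ a)) hδ hδA (hpG a) (hW a) ε₀ hε₀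
      refine ⟨η, hη, fun ε hε h2 h3 => h1 ε hε ?_ ?_⟩
      · intro l hl
        exact h2 l ((hmax a l).1 hl)
      · intro l hl
        exact h3 l (not_lt.1 fun h => hl ((hmax a l).2 h)))
  choose hq hqW hqS using hP
  refine le_trans (Finset.sum_le_sum fun σ hs => ?_) (hbb _ (hδA ε hε))
  have key : (T σ : Set (Set (OH (m + 2)))).encard ≤ ncomp (St (thk A ε) σ) := by
    unfold ncomp
    refine Set.encard_le_encard_of_injOn (f := fun Z => if h : Z ∈ T σ then
      connectedComponentIn (St (thk A ε) σ) (hq ⟨⟨σ, Z⟩, Finset.mem_sigma.2 ⟨hs, h⟩⟩)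
        else ∅) ?_ ?_
    · intro Z hZ'
      have hZ2 : Z ∈ T σ := hZ'
      dsimp only
      rw [dif_pos hZ2]
      exact ⟨_, hqS ⟨⟨σ, Z⟩, Finset.mem_sigma.2 ⟨hs, hZ2⟩⟩, rfl⟩
    · intro Z hZ' Y hY' hZY
      have hZ2 : Z ∈ T σ := hZ'
      have hY2 : Y ∈ T σ := hY'
      dsimp only at hZY
      rw [dif_pos hZ2, dif_pos hY2] at hZY
      by_contra hne
      let a : ι := ⟨⟨σ, Z⟩, Finset.mem_sigma.2 ⟨hs, hZ2⟩⟩
      let b : ι := ⟨⟨σ, Y⟩, Finset.mem_sigma.2 ⟨hs, hY2⟩⟩
      have hab : a ≠ b := by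
        intro h
        have h1 : a.1 = b.1 := congrArg Subtype.val h
        exact hne (eq_of_heq (Sigma.mk.inj_iff.1 h1).2)
      refine hUU (a, b) rfl hab ε (fun i => ⟨(hε i).1.le, (hε i).2.trans (hδδ₁ _)⟩)
        (hq a) ⟨?_, hqS a⟩ (hq b) ⟨?_, hqS b⟩ hZY
      · exact mem_iInter.1 (hqW a).1 b
      · exact mem_iInter.1 (hqW b).2 a
  rwa [Set.encard_coe_eq_coe_finsetCard] at key

end HyperplaneTransversals
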