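import Pool.Agent.Lib.MP_b2e5b9_co_D.CurveB
import Pool.Agent.Lib.MP_b2e5b9_co_D.GcSum

/-!
# The numbers of edges and vertices

Proof of `Ver_encard_le`. Let `v ∈ Ver A`, `T = tset A v`, `T.card ≥ m + 2`; let `S ⊆ T` be the
`m + 1` smallest elements of `T` (for example the image of the first `m + 1` elements of
`T.orderEmbOfFin`), and `σ i = 1` if `i ∈ S` and `v.2 = hi (A i) v.1`, `σ i = -1` for the other
`i ∈ S`, `σ i = 0` for `i ∉ S`. Then `σ ∈ lvl n (m + 1)`, `v ∈ Cl A σ` is a good point, and
`v ∉ St A σ`, because some `l ∈ T \ S` is touched although `σ l = 0`. So `Ver A` is contained in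
the union over `σ ∈ lvl n (m + 1)` and over the components `Z` of `Cl A σ` that contain a good point
of `Z \ St A σ`, and each of these sets has at most two elements (`few_outside`). Counting: a
union of sets with at most two elements over an index set `J` has at most `2 * J.encard`
elements (if `J` is infinite the right hand side is `⊤`).

`edges_sum_le`: `St_ncomp_le_Gc` and `Gc_sum_le`.
-/

set_option autoImplicit false

open Set Filter
open scoped RealInnerProductSpace Topology

namespace HyperplaneTransversals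

variable {m n : ℕ} {A : Fin n → Set (E (m + 2))}

theorem encard_biUnion_two {α β : Type} (J : Set β) (f : β → Set α)
    (hf : ∀ b ∈ J, (f b).encard ≤ 2) : (⋃ b ∈ J, f b).encard ≤ 2 * J.encard := by
  classical
  rcases J.finite_or_infinite with hJ | hJ
  · revert hf
    refine Set.Finite.induction_on (motive := fun J _ => (∀ b ∈ J, (f b).encard ≤ 2) →
      (⋃ b ∈ J, f b).encard ≤ 2 * J.encard) J hJ ?_ ?_
    · intro _
      simp
    · intro a t ha ht ih hf
      rw [Set.biUnion_insert, Set.encard_insert_of_notMem ha]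
      refine (Set.encard_union_le _ _).trans ?_
      have h1 := hf a (Set.mem_insert _ _)
      have h2 := ih fun b hb => hf b (Set.mem_insert_of_mem _ hb)
      calc (f a).encard + (⋃ b ∈ t, f b).encard ≤ 2 + 2 * t.encard := add_le_add h1 h2
        _ = 2 * (t.encard + 1) := by ring
  · rw [Set.Infinite.encard_eq hJ]
    simp

/-- The first elements of a finite set. -/
theorem verb_first {n : ℕ} (T : Finset (Fin n)) (k : ℕ) (hk : k ≤ T.card) :
    ∃ S ⊆ T, S.card = k ∧ ∀ i ∈ S, ∀ l ∈ T \ S, i < l := by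
  induction k with
  | zero => exact ⟨∅, Finset.empty_subset _, rfl, fun i hi => absurd hi (Finset.notMem_empty i)⟩
  | succ k ih =>
    obtain ⟨S, hST, hSc, hS⟩ := ih (by omega)
    have hne : (T \ S).Nonempty := by
      rw [← Finset.card_pos, Finset.card_sdiff_of_subset hST]
      omega
    have hx := Finset.min'_mem (T \ S) hne
    rw [Finset.mem_sdiff] at hx
    refine ⟨insert ((T \ S).min' hne) S, ?_, ?_, ?_⟩
    · intro y hy
      rw [Finset.mem_insert] at hy
      rcases hy with rfl | hy
      · exact hx.1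
      · exact hST hy
    · rw [Finset.card_insert_of_notMem hx.2, hSc]
    · intro i hi l hl
      rw [Finset.mem_sdiff, Finset.mem_insert, not_or] at hl
      rw [Finset.mem_insert] at hi
      have hl' : l ∈ T \ S := Finset.mem_sdiff.2 ⟨hl.1, hl.2.2⟩
      rcases hi with rfl | hi
      · exact lt_of_le_of_ne (Finset.min'_le _ _ hl') (Ne.symm hl.2.1)
      · exact hS i hi l hl'

theorem verb_encard_biUnion {α β : Type} (s : Finset β) (f : β → Set α) :
    (⋃ b ∈ s, f b).encard ≤ ∑ b ∈ s, (f b).encard := by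
  classical
  induction s using Finset.induction_on with
  | empty => simp
  | insert a s ha ih =>
    rw [Finset.set_biUnion_insert, Finset.sum_insert ha]
    exact (Set.encard_union_le _ _).trans (add_le_add le_rfl ih)

/-- A vertex lies in a component of a closed stratum, outside of the open stratum. -/
theorem verb_mem {h : OH (m + 2)} (hh : h ∈ Ver A) : ∃ σ ∈ lvl n (m + 1),
    h ∈ GoodPt A σ ∧ h ∉ St A σ := by
  classical
  obtain ⟨hT, hc⟩ := hh
  obtain ⟨S, hST, hSc, hS⟩ := verb_first (tset A h) (m + 1) (by omega)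
  have hσ : ∀ i, (if i ∈ S then (if h.2 = hi (A i) h.1 then (1 : SignType) else -1) else 0) = 0 ↔
      i ∉ S := by
    intro i
    by_cases h1 : i ∈ S
    · rw [if_pos h1]
      by_cases h2 : h.2 = hi (A i) h.1
      · rw [if_pos h2]
        simp [h1]
      · rw [if_neg h2]
        simp [h1]
    · rw [if_neg h1]
      simp [h1]
  refine ⟨fun i => if i ∈ S then (if h.2 = hi (A i) h.1 then 1 else -1) else 0, ?_, ⟨?_, ?_⟩, ?_⟩
  · rw [mem_lvl, ← hSc]
    congr 1
    ext i
    rw [mem_supp, Ne, hσ, not_not]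
  · intro i
    refine ⟨fun _ => hT i, fun h1 => ?_, fun h1 => ?_⟩
    · beta_reduce at h1
      by_cases h2 : i ∈ S
      · rw [if_pos h2] at h1
        by_contra h3
        rw [if_neg h3] at h1
        exact absurd h1 (by decide)
      · rw [if_neg h2] at h1
        exact absurd h1 (by decide)
    · beta_reduce at h1
      by_cases h2 : i ∈ S
      · rw [if_pos h2] at h1
        by_cases h3 : h.2 = hi (A i) h.1
        · rw [if_pos h3] at h1
          exact absurd h1 (by decide)
        · exact (mem_tset.1 (hST h2)).resolve_left h3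
      · rw [if_neg h2] at h1
        exact absurd h1 (by decide)
  · intro l hl ht i hi
    rw [hσ] at hl
    rw [Ne, hσ, not_not] at hi
    exact hS i hi l (Finset.mem_sdiff.2 ⟨mem_tset.2 ht, hl⟩)
  · intro hSt
    have hne : (tset A h \ S).Nonempty := by
      rw [← Finset.card_pos, Finset.card_sdiff_of_subset hST]
      omega
    obtain ⟨l, hl⟩ := hne
    rw [Finset.mem_sdiff] at hl
    have h1 := (hSt l).1 ((hσ l).2 hl.2)
    rcases mem_tset.1 hl.1 with h2 | h2
    · exact absurd h2 (ne_of_lt h1.2)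
    · exact absurd h2 (ne_of_gt h1.1)

theorem edges_sum_le (hA : CFam A) (hn : m + 2 ≤ n) :
    ∑ σ ∈ lvl n (m + 1), ncomp (St A σ) ≤ ((lvl n m).card : ℕ∞) * (200 * n) :=
  (Finset.sum_le_sum fun _ hσ => St_ncomp_le_Gc hA hn (mem_lvl.1 hσ)).trans (Gc_sum_le hA hn)

theorem Ver_encard_le (hA : CFam A) (hn : m + 2 ≤ n) :
    (Ver A).encard ≤ 2 * (((lvl n m).card : ℕ∞) * (200 * n)) := by
  classical
  have h1 : Ver A ⊆ ⋃ σ ∈ lvl n (m + 1),
      ⋃ Z ∈ (fun h => connectedComponentIn (Cl A σ) h) '' GoodPt A σ, Z \ St A σ := by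
    intro h hh
    obtain ⟨σ, hσ, hg, hs⟩ := verb_mem hh
    refine Set.mem_iUnion₂.2 ⟨σ, hσ, Set.mem_iUnion₂.2 ⟨_, ⟨h, hg, rfl⟩, ?_, hs⟩⟩
    exact mem_connectedComponentIn hg.1
  refine (Set.encard_le_encard h1).trans ((verb_encard_biUnion _ _).trans ?_)
  have h2 : ∀ σ ∈ lvl n (m + 1),
      (⋃ Z ∈ (fun h => connectedComponentIn (Cl A σ) h) '' GoodPt A σ, Z \ St A σ).encard ≤
      2 * Gc A σ := by
    intro σ hσ
    refine encard_biUnion_two _ _ ?_
    rintro Z ⟨h, hg, rfl⟩
    exact few_outside hA hn (mem_lvl.1 hσ) hg.1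
  refine (Finset.sum_le_sum h2).trans ?_
  rw [← Finset.mul_sum]
  exact mul_le_mul_right (Gc_sum_le hA hn) 2

end HyperplaneTransversals
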