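import Pool.Agent.Lib.MP_b2e5b9_co_D.Cap
import Pool.Agent.Lib.MP_b2e5b9_co_D.Adj

/-!
# The number of components of the open stratum

`St A 0` is the set of the hyperplanes that cross all members strictly.

Proof of `ncomp_zero`. `ncomp_le_of_adj` with `Y = St A 0`, index set `Finset.univ`, and
`W b = St A (update 0 b 1) \ Cont (A b)`.

Exit: let `h = (u₀, t₀) ∈ St A 0`. The set of the `u` with `(u, t₀) ∈ St A 0` is open
(`continuous_hi`, `continuous_lo`), so it contains a cap around `u₀` (`exists_cap`), which is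
preconnected; so `(u, t₀)` is in the component of `h` for all `u` in this cap. Choose `u` in it by
`exists_generic`. Let `M` be the minimum of the `hi (A i) u`, attained for exactly one `b`. Then
`t₀ < M`, and `(u, t) ∈ St A 0` for `t₀ ≤ t < M` (`lo (A i) u < t₀`). The point
`h₁ = (u, M)` is a limit of these points, satisfies `h₁.2 = hi (A b) u`, and
`lo (A i) u < M < hi (A i) u` for `i ≠ b`, and it is not in `Cont (A b)` since
`lo (A b) u < t₀ < M` (`mem_Cont_iff`).

Cell: let `h₁ = (u₁, t₁) ∈ W b`, so `t₁ = hi (A b) u₁`, `lo (A b) u₁ < hi (A b) u₁`, and the other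
members are crossed strictly. By continuity there are `η > 0` and a cap `V` around `u₁` such
that `lo (A b) u < hi (A b) u - s` and `lo (A l) u < hi (A b) u - s < hi (A l) u` for `l ≠ b`,
`u ∈ V`, `0 ≤ s < η`. `Q` is the image of `V ×ˢ Ioo 0 η` under `(u, s) ↦ (u, hi (A b) u - s)`:
preconnected, contained in `St A 0`. Every `h ∈ St A 0` near `h₁` satisfies
`h.2 < hi (A b) h.1` and `hi (A b) h.1 - h.2` is close to `0`, so it is in `Q`. And `h₁` is the
limit of `(u₁, t₁ - s)` as `s → 0`.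
-/

set_option autoImplicit false

open Set Filter
open scoped RealInnerProductSpace Topology

namespace HyperplaneTransversals

variable {m n : ℕ} {A : Fin n → Set (E (m + 2))}

theorem zero_hi (hA : CFam A) (i : Fin n) :
    Continuous fun u : Metric.sphere (0 : E (m + 2)) 1 => hi (A i) u :=
  (continuous_hi (hA.compact i) (hA.convex i) (hA.nonempty i)).comp continuous_subtype_val

theorem zero_lo (hA : CFam A) (i : Fin n) :
    Continuous fun u : Metric.sphere (0 : E (m + 2)) 1 => lo (A i) u :=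
  (continuous_lo (hA.compact i) (hA.convex i) (hA.nonempty i)).comp continuous_subtype_val

theorem zero_mem (h : OH (m + 2)) : h ∈ St A (fun _ => 0) ↔
    ∀ i, lo (A i) h.1 < h.2 ∧ h.2 < hi (A i) h.1 :=
  ⟨fun hh i => (hh i).1 rfl, fun hh i => ⟨fun _ => hh i,
    fun h1 => absurd (show (0 : SignType) = 1 from h1) (by decide),
    fun h1 => absurd (show (0 : SignType) = -1 from h1) (by decide)⟩⟩

theorem zero_exit (hA : CFam A) (hn : m + 2 ≤ n) {h : OH (m + 2)} (hh : h ∈ St A (fun _ => 0)) :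
    ∃ b : Fin n, ∃ x ∈ St A (Function.update (fun _ => 0) b 1) \ Cont (A b),
      x ∈ closure (connectedComponentIn (St A (fun _ => 0)) h) := by
  have hne : Nonempty (Fin n) := ⟨⟨0, by omega⟩⟩
  have h0 := (zero_mem h).1 hh
  -- a cap around the direction of `h`
  have hU : {u : Metric.sphere (0 : E (m + 2)) 1 |
      ∀ i, lo (A i) u < h.2 ∧ h.2 < hi (A i) u} ∈ 𝓝 h.1 := by
    refine IsOpen.mem_nhds ?_ h0
    rw [show {u : Metric.sphere (0 : E (m + 2)) 1 |
      ∀ i, lo (A i) u < h.2 ∧ h.2 < hi (A i) u} = ⋂ i, {u : Metric.sphere (0 : E (m + 2)) 1 |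
      lo (A i) u < h.2 ∧ h.2 < hi (A i) u} from by ext u; simp]
    exact isOpen_iInter_of_finite fun i =>
      (isOpen_lt (zero_lo hA i) continuous_const).inter (isOpen_lt continuous_const (zero_hi hA i))
  obtain ⟨c, hc0, hc1, hcap⟩ := exists_cap h.1 hU
  have hcapo : IsOpen {u : Metric.sphere (0 : E (m + 2)) 1 |
      c < ⟪(u : E (m + 2)), (h.1 : E (m + 2))⟫} :=
    isOpen_lt continuous_const (by fun_prop)
  have hh1 : h.1 ∈ {u : Metric.sphere (0 : E (m + 2)) 1 |
      c < ⟪(u : E (m + 2)), (h.1 : E (m + 2))⟫} := by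
    show c < ⟪(h.1 : E (m + 2)), (h.1 : E (m + 2))⟫
    rw [unit_inner_self]
    exact hc1
  obtain ⟨u, hu, hgen⟩ := exists_generic hA hn hcapo ⟨_, hh1⟩
  have hut := hcap hu
  obtain ⟨b, hb⟩ := Finite.exists_min fun i => hi (A i) (u : E (m + 2))
  have hM : ∀ i, i ≠ b → hi (A b) (u : E (m + 2)) < hi (A i) (u : E (m + 2)) := fun i hi' =>
    lt_of_le_of_ne (hb i) (hgen b i (Ne.symm hi'))
  have htM : h.2 < hi (A b) (u : E (m + 2)) := (hut b).2
  -- the connected set
  have hZ : {u : Metric.sphere (0 : E (m + 2)) 1 |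
      c < ⟪(u : E (m + 2)), (h.1 : E (m + 2))⟫} ×ˢ {h.2} ⊆
      connectedComponentIn (St A (fun _ => 0)) h := by
    refine ((cap_preconnected (h.1 : E (m + 2)) hc0).prod
      isPreconnected_singleton).subset_connectedComponentIn ⟨hh1, rfl⟩ ?_
    rintro ⟨v, t⟩ ⟨hv, ht⟩
    obtain rfl : t = h.2 := ht
    exact (zero_mem _).2 (hcap hv)
  have hS : ∀ t ∈ Ico h.2 (hi (A b) (u : E (m + 2))),
      ((u, t) : OH (m + 2)) ∈ connectedComponentIn (St A (fun _ => 0)) h := by
    have h1 : ((u, h.2) : OH (m + 2)) ∈ connectedComponentIn (St A (fun _ => 0)) h :=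
      hZ ⟨hu, mem_singleton _⟩
    have h2 : ({u} : Set (Metric.sphere (0 : E (m + 2)) 1)) ×ˢ
        Ico h.2 (hi (A b) (u : E (m + 2))) ⊆
        connectedComponentIn (St A (fun _ => 0)) ((u, h.2) : OH (m + 2)) := by
      refine (isPreconnected_singleton.prod isPreconnected_Ico).subset_connectedComponentIn
        ⟨mem_singleton u, le_rfl, htM⟩ ?_
      rintro ⟨v, t⟩ ⟨hv, ht⟩
      obtain rfl : v = u := hv
      refine (zero_mem _).2 fun i => ⟨(hut i).1.trans_le ht.1, ?_⟩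
      exact ht.2.trans_le (hb i)
    intro t ht
    have h3 := h2 (show ((u, t) : OH (m + 2)) ∈ _ from ⟨mem_singleton u, ht⟩)
    rwa [← connectedComponentIn_eq h1] at h3
  refine ⟨b, (u, hi (A b) (u : E (m + 2))), ⟨?_, ?_⟩, ?_⟩
  · intro i
    by_cases hib : i = b
    · subst hib
      rw [Function.update_self]
      exact ⟨fun h1 => absurd h1 (by decide), fun _ => rfl, fun h1 => absurd h1 (by decide)⟩
    · rw [Function.update_of_ne hib]
      exact ⟨fun _ => ⟨(hut i).1.trans htM, hM i hib⟩, fun h1 => absurd h1 (by decide),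
        fun h1 => absurd h1 (by decide)⟩
  · intro h1
    have h2 := ((mem_Cont_iff (hA.compact b) (hA.nonempty b) _).1 h1).2
    simp only at h2
    have h3 := (hut b).1
    linarith
  · have h1 : Tendsto (fun t : ℝ => ((u, t) : OH (m + 2)))
        (𝓝[<] (hi (A b) (u : E (m + 2)))) (𝓝 (u, hi (A b) (u : E (m + 2)))) := by
      have h2 : Continuous fun t : ℝ => ((u, t) : OH (m + 2)) := by fun_prop
      exact (h2.tendsto _).mono_left nhdsWithin_le_nhds
    refine mem_closure_of_tendsto h1 ?_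
    filter_upwards [Ico_mem_nhdsLT htM] with t ht
    exact hS t ht

theorem zero_cell (hA : CFam A) {b : Fin n} {x : OH (m + 2)}
    (hx : x ∈ St A (Function.update (fun _ => 0) b 1) \ Cont (A b)) :
    x ∈ closure (St A (fun _ => 0)) ∧ ∃ Q ⊆ St A (fun _ => 0), IsPreconnected Q ∧
      ∀ᶠ h in 𝓝 x, h ∈ St A (fun _ => 0) → h ∈ Q := by
  obtain ⟨hx1, hx2⟩ := hx
  have hb : x.2 = hi (A b) x.1 := by
    have := (hx1 b).2.1
    rw [Function.update_self] at this
    exact this rfl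
  have hl : ∀ l, l ≠ b → lo (A l) x.1 < x.2 ∧ x.2 < hi (A l) x.1 := by
    intro l hl
    have := (hx1 l).1
    rw [Function.update_of_ne hl] at this
    exact this rfl
  have hlo : lo (A b) x.1 < x.2 := by
    refine lt_of_le_of_ne ?_ fun h1 => ?_
    · rw [hb]
      exact lo_le_hi (hA.compact b) (hA.nonempty b) _
    · exact hx2 ((mem_Cont_iff (hA.compact b) (hA.nonempty b) x).2 ⟨hb, h1.symm⟩)
  -- the open condition
  have hopen : IsOpen {p : Metric.sphere (0 : E (m + 2)) 1 × ℝ |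
      (lo (A b) p.1 < hi (A b) p.1 - p.2) ∧
      ∀ l, l ≠ b → lo (A l) p.1 < hi (A b) p.1 - p.2 ∧ hi (A b) p.1 - p.2 < hi (A l) p.1} := by
    have c1 : ∀ i, Continuous fun p : Metric.sphere (0 : E (m + 2)) 1 × ℝ => hi (A i) p.1 :=
      fun i => (zero_hi hA i).comp continuous_fst
    have c2 : ∀ i, Continuous fun p : Metric.sphere (0 : E (m + 2)) 1 × ℝ => lo (A i) p.1 :=
      fun i => (zero_lo hA i).comp continuous_fst
    have c3 := (c1 b).sub continuous_snd
    have h2o : IsOpen {p : Metric.sphere (0 : E (m + 2)) 1 × ℝ | ∀ l, l ≠ b →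
        lo (A l) p.1 < hi (A b) p.1 - p.2 ∧ hi (A b) p.1 - p.2 < hi (A l) p.1} := by
      rw [show {p : Metric.sphere (0 : E (m + 2)) 1 × ℝ | ∀ l, l ≠ b →
        lo (A l) p.1 < hi (A b) p.1 - p.2 ∧ hi (A b) p.1 - p.2 < hi (A l) p.1} =
        ⋂ l, ⋂ (_ : l ≠ b), {p : Metric.sphere (0 : E (m + 2)) 1 × ℝ |
        lo (A l) p.1 < hi (A b) p.1 - p.2 ∧ hi (A b) p.1 - p.2 < hi (A l) p.1} from by
        ext p; simp]
      refine isOpen_iInter_of_finite fun l => isOpen_iInter_of_finite fun _ => ?_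
      exact (isOpen_lt (c2 l) c3).inter (isOpen_lt c3 (c1 l))
    exact (isOpen_lt (c2 b) c3).inter h2o
  have hmem : ((x.1, 0) : Metric.sphere (0 : E (m + 2)) 1 × ℝ) ∈
      {p : Metric.sphere (0 : E (m + 2)) 1 × ℝ |
      (lo (A b) p.1 < hi (A b) p.1 - p.2) ∧
      ∀ l, l ≠ b → lo (A l) p.1 < hi (A b) p.1 - p.2 ∧ hi (A b) p.1 - p.2 < hi (A l) p.1} := by
    show (lo (A b) x.1 < hi (A b) x.1 - 0) ∧
      ∀ l, l ≠ b → lo (A l) x.1 < hi (A b) x.1 - 0 ∧ hi (A b) x.1 - 0 < hi (A l) x.1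
    rw [sub_zero, ← hb]
    exact ⟨hlo, hl⟩
  have hnhds := hopen.mem_nhds hmem
  rw [nhds_prod_eq, mem_prod_iff] at hnhds
  obtain ⟨V, hV, T, hT, hVT⟩ := hnhds
  obtain ⟨c, hc0, hc1, hcap⟩ := exists_cap x.1 hV
  obtain ⟨η, hη, hηT⟩ := Metric.mem_nhds_iff.1 hT
  have key : ∀ u : Metric.sphere (0 : E (m + 2)) 1, c < ⟪(u : E (m + 2)), (x.1 : E (m + 2))⟫ →
      ∀ s ∈ Ioo 0 η, ((u, hi (A b) u - s) : OH (m + 2)) ∈ St A (fun _ => 0) := by
    intro u hu s hs
    have h1 : s ∈ T := hηT (by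
      rw [Metric.mem_ball, Real.dist_eq, sub_zero, abs_of_pos hs.1]
      exact hs.2)
    obtain ⟨h2, h3⟩ := hVT (show ((u, s) : Metric.sphere (0 : E (m + 2)) 1 × ℝ) ∈ V ×ˢ T from
      ⟨hcap hu, h1⟩)
    refine (zero_mem _).2 fun i => ?_
    by_cases hib : i = b
    · subst hib
      refine ⟨h2, ?_⟩
      show hi (A i) u - s < hi (A i) u
      linarith [hs.1]
    · exact h3 i hib
  have hxc : c < ⟪(x.1 : E (m + 2)), (x.1 : E (m + 2))⟫ := by
    rw [unit_inner_self]
    exact hc1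
  refine ⟨?_, (fun p : Metric.sphere (0 : E (m + 2)) 1 × ℝ =>
    ((p.1, hi (A b) p.1 - p.2) : OH (m + 2))) ''
    ({u : Metric.sphere (0 : E (m + 2)) 1 | c < ⟪(u : E (m + 2)), (x.1 : E (m + 2))⟫} ×ˢ
      Ioo 0 η), ?_, ?_, ?_⟩
  · have h1 : Tendsto (fun s : ℝ => ((x.1, hi (A b) x.1 - s) : OH (m + 2)))
        (𝓝[>] 0) (𝓝 x) := by
      have h2 : Continuous fun s : ℝ => ((x.1, hi (A b) x.1 - s) : OH (m + 2)) := by fun_prop
      have h3 := (h2.tendsto 0).mono_left (nhdsWithin_le_nhds (s := Ioi 0))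
      have h4 : ((x.1, hi (A b) x.1 - 0) : OH (m + 2)) = x := by
        rw [sub_zero, ← hb]
      rwa [h4] at h3
    refine mem_closure_of_tendsto h1 ?_
    filter_upwards [Ioo_mem_nhdsGT hη] with s hs
    exact key x.1 hxc s hs
  · rintro _ ⟨⟨u, s⟩, ⟨hu, hs⟩, rfl⟩
    exact key u hu s hs
  · refine ((cap_preconnected (x.1 : E (m + 2)) hc0).prod isPreconnected_Ioo).image _ ?_
    exact (continuous_fst.prodMk
      (((zero_hi hA b).comp continuous_fst).sub continuous_snd)).continuousOn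
  · have e1 : ∀ᶠ h : OH (m + 2) in 𝓝 x, c < ⟪(h.1 : E (m + 2)), (x.1 : E (m + 2))⟫ :=
      (continuous_fst.tendsto x).eventually (cap_mem_nhds x.1 hc1)
    have e2 : ∀ᶠ h : OH (m + 2) in 𝓝 x, hi (A b) h.1 - h.2 < η := by
      have c4 : Continuous fun h : OH (m + 2) => hi (A b) h.1 - h.2 :=
        ((zero_hi hA b).comp continuous_fst).sub continuous_snd
      refine (c4.tendsto x).eventually (gt_mem_nhds ?_)
      rw [← hb, sub_self]
      exact hη
    filter_upwards [e1, e2] with h h1 h2 hh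
    have h3 := ((zero_mem h).1 hh b).2
    refine ⟨(h.1, hi (A b) h.1 - h.2), ⟨h1, by linarith, h2⟩, ?_⟩
    refine Prod.ext rfl ?_
    show hi (A b) h.1 - (hi (A b) h.1 - h.2) = h.2
    ring

theorem ncomp_zero (hA : CFam A) (hn : m + 2 ≤ n) :
    ncomp (St A (fun _ => 0)) ≤
      ∑ b : Fin n, ncomp (St A (Function.update (fun _ => 0) b 1) \ Cont (A b)) := by
  refine ncomp_le_of_adj (St A fun _ => 0) Finset.univ
    (fun b => St A (Function.update (fun _ => 0) b 1) \ Cont (A b))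
    (fun b _ x hx => zero_cell hA hx) (fun h hh => ?_)
  obtain ⟨b, x, hx, hx'⟩ := zero_exit hA hn hh
  exact ⟨b, Finset.mem_univ _, x, hx, hx'⟩

end HyperplaneTransversals
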