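import Pool.Agent.Lib.MP_b2e5b9_co_D.Tri
import Pool.Agent.Lib.MP_b2e5b9_co_D.Zero
import Pool.Agent.Lib.MP_b2e5b9_co_D.KSum
import Pool.Agent.Lib.MP_b2e5b9_co_D.VerB

/-!
# The linear bound in the plane

`two_cut`: let `supp σ = {b₀}`. For `b ≠ b₀` in `Bs` the set `St A σ ∩ Cont (A b)` is empty
(`St_inter_Cont_zero`). So `St A σ \ ⋃ b ∈ Bs, Cont (A b)` is `St A σ` if `b₀ ∉ Bs`, and
`St A σ \ Cont (A b₀)` otherwise. In the second case: if `A b₀` is a point this is empty
(`St_subset_Cont_point`, `ncomp_empty`); otherwise `ncomp_cut` with `F = Cont (A b₀)` (`isClosed_Cont`) bounds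
it by `ncomp (St A σ) + ncomp (St A σ ∩ Cont (A b₀))`, and `Cont (A b₀)` has at most two elements
(`Cont_encard_le` with `m = 0` and `two_of_nonpoint`; `ncomp_le_encard`).

`dim_two`: `faces_le_TS`. Write `B = ∑ σ ∈ lvl n 1, ncomp (St A σ) ≤ (lvl n 0).card * (200 * n) ≤
200 * n` (`edges_sum_le`, `card_lvl_le`), `(Ver A).encard ≤ 400 * n`, and the sum over `lvl n 1` of
`ncomp (St A σ) + 2` is at most `200 * n + 2 * (2 * n) = 204 * n`. The only element of `lvl n 0` is
`0`, and `ncomp (St A 0) ≤ ∑ b, ncomp (St A (update 0 b 1) \ Cont (A b)) ≤ 204 * n` by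
`ncomp_zero` and `two_cut` with `Bs = {b}` (the vectors `update 0 b 1` are different elements of
`lvl n 1`: `sum_le_sum_inj`). For `proper = False` use `sum_improper`. For `proper = True` use
`sum_proper` with `Sm = (Np A)ᶜ` (`TT_subset_Cont_point`), so `Smᶜ = Np A`; the level `0` term is
at most `ncomp (St A 0)` (no member of an `h ∈ St A 0` is contained: `St_inter_Cont_zero`), the
level `1` terms are bounded by `two_cut`, and for `b ∈ Np A` the sets
`TS True A S ∩ Cont (A b)`, for different `S`, are disjoint (`mem_TS_iff`) subsets of a set with at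
most two elements, so the sum of their numbers of components is at most `2`. Total at most
`204 n + 204 n + 400 n + 2 n`. General `proper`: `faces_proper_cases` or `by_cases`.
-/

set_option autoImplicit false

open Set Filter
open scoped RealInnerProductSpace Topology

namespace HyperplaneTransversals

variable {n : ℕ} {A : Fin n → Set (E (0 + 2))}

private theorem dim2_two_of {K : Set (E (0 + 2))} (hne : K.Nonempty) (hK : ¬ ∃ x, K = {x}) :
    (Cont K).encard ≤ 2 := by
  obtain ⟨P, hP, hPK⟩ := two_of_nonpoint hne hK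
  exact Cont_encard_le (m := 0) hP hPK

theorem two_cut (hA : CFam A) (hn : 0 + 2 ≤ n) {σ : Fin n → SignType} (hσ : σ ∈ lvl n 1)
    (Bs : Finset (Fin n)) :
    ncomp (St A σ \ ⋃ b ∈ Bs, Cont (A b)) ≤ ncomp (St A σ) + 2 := by
  obtain ⟨b₀, hb₀⟩ := Finset.card_eq_one.1 (mem_lvl.1 hσ)
  have h0 : ∀ b, b ≠ b₀ → ∀ h ∈ St A σ, h ∉ Cont (A b) := by
    intro b hb h hh hc
    have h1 : σ b = 0 := by
      by_contra h2
      have h3 := mem_supp.2 h2
      rw [hb₀, Finset.mem_singleton] at h3
      exact hb h3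
    have h2 := St_inter_Cont_zero (hA.compact b) (hA.nonempty b) h1
    have h3 : h ∈ St A σ ∩ Cont (A b) := ⟨hh, hc⟩
    rw [h2] at h3
    exact h3
  by_cases hb : b₀ ∈ Bs
  · have e : St A σ \ ⋃ b ∈ Bs, Cont (A b) = St A σ \ Cont (A b₀) := by
      ext h
      simp only [Set.mem_sdiff, mem_iUnion, exists_prop, not_exists, not_and]
      constructor
      · rintro ⟨h1, h2⟩
        exact ⟨h1, h2 b₀ hb⟩
      · rintro ⟨h1, h2⟩
        refine ⟨h1, fun b _ => ?_⟩
        by_cases h3 : b = b₀
        · rw [h3]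
          exact h2
        · exact h0 b h3 h h1
    rw [e]
    by_cases hp : ∃ x, A b₀ = {x}
    · obtain ⟨x, hx⟩ := hp
      have h1 : σ b₀ ≠ 0 := mem_supp.1 (by rw [hb₀]; exact Finset.mem_singleton_self b₀)
      have h2 : St A σ \ Cont (A b₀) = ∅ := Set.sdiff_eq_empty.2 (St_subset_Cont_point h1 hx)
      rw [h2, ncomp_empty]
      exact zero_le
    · refine (ncomp_cut hA hn (mem_lvl.1 hσ) (isClosed_Cont (A b₀))).trans ?_
      refine add_le_add le_rfl ((ncomp_le_encard _).trans ?_)
      exact (encard_le_encard inter_subset_right).trans (dim2_two_of (hA.nonempty b₀) hp)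
  · have e : St A σ \ ⋃ b ∈ Bs, Cont (A b) = St A σ := by
      ext h
      simp only [Set.mem_sdiff, mem_iUnion, exists_prop, not_exists, not_and]
      constructor
      · exact fun h1 => h1.1
      · intro h1
        refine ⟨h1, fun b hb' => h0 b ?_ h h1⟩
        rintro rfl
        exact hb hb'
    rw [e]
    exact le_self_add

private theorem dim2_card0 (n : ℕ) : ((lvl n 0).card : ℕ∞) ≤ 1 := by
  have h := card_lvl_le n 0
  rw [pow_zero] at h
  exact_mod_cast h

theorem two_sum (hA : CFam A) (hn : 0 + 2 ≤ n) :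
    ∑ σ ∈ lvl n 1, (ncomp (St A σ) + 2) ≤ ((204 * n : ℕ) : ℕ∞) := by
  rw [Finset.sum_add_distrib, Finset.sum_const, nsmul_eq_mul]
  have h1 : ∑ σ ∈ lvl n 1, ncomp (St A σ) ≤ ((200 * n : ℕ) : ℕ∞) := by
    refine (edges_sum_le hA hn).trans ?_
    refine (mul_le_mul_left (dim2_card0 n) _).trans ?_
    rw [one_mul]
    push_cast
    exact le_rfl
  have h2 : ((lvl n 1).card : ℕ∞) * 2 ≤ ((4 * n : ℕ) : ℕ∞) := by
    have h3 := card_lvl_le n 1
    have h4 : (lvl n 1).card * 2 ≤ 4 * n := by
      rw [pow_one] at h3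
      omega
    exact_mod_cast h4
  refine (add_le_add h1 h2).trans (le_of_eq ?_)
  rw [← Nat.cast_add]
  congr 1
  ring

theorem two_zero (hA : CFam A) (hn : 0 + 2 ≤ n) :
    ncomp (St A (fun _ => 0)) ≤ ((204 * n : ℕ) : ℕ∞) := by
  classical
  refine (ncomp_zero hA hn).trans ?_
  refine (sum_le_sum_inj Finset.univ (lvl n 1) _ (fun σ => ncomp (St A σ) + 2)
    (fun b => Function.update (fun _ => 0) b 1) ?_ ?_ ?_).trans (two_sum hA hn)
  · intro b _
    rw [mem_lvl, supp_update (by decide)]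
    have h1 : supp (fun _ : Fin n => (0 : SignType)) = ∅ := by
      ext i
      rw [mem_supp]
      simp
    rw [h1]
    rfl
  · intro b _ b' _ h
    have h1 : Function.update (fun _ : Fin n => (0 : SignType)) b 1 b =
        Function.update (fun _ : Fin n => (0 : SignType)) b' 1 b := congrFun h b
    by_contra hne
    rw [Function.update_self, Function.update_of_ne hne] at h1
    exact absurd h1 (by decide)
  · intro b _
    have h1 : Function.update (fun _ : Fin n => (0 : SignType)) b 1 ∈ lvl n 1 := by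
      rw [mem_lvl, supp_update (by decide)]
      have h1 : supp (fun _ : Fin n => (0 : SignType)) = ∅ := by
        ext i
        rw [mem_supp]
        simp
      rw [h1]
      rfl
    have h2 := two_cut hA hn h1 {b}
    rwa [Finset.set_biUnion_singleton] at h2

private theorem dim2_lvl0 (n : ℕ) : lvl n 0 = {fun _ => 0} := by
  ext σ
  rw [mem_lvl, Finset.card_eq_zero, Finset.mem_singleton]
  constructor
  · intro h
    funext i
    by_contra h1
    have h2 := mem_supp.2 h1
    rw [h] at h2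
    exact absurd h2 (Finset.notMem_empty i)
  · rintro rfl
    ext i
    rw [mem_supp]
    simp

private theorem dim2_ver (hA : CFam A) (hn : 0 + 2 ≤ n) :
    (Ver A).encard ≤ ((400 * n : ℕ) : ℕ∞) := by
  refine (Ver_encard_le hA hn).trans ?_
  have h1 : ((lvl n 0).card : ℕ∞) * (200 * n) ≤ 1 * (200 * n) :=
    mul_le_mul_left (dim2_card0 n) _
  refine (mul_le_mul_right h1 2).trans (le_of_eq ?_)
  rw [one_mul]
  push_cast
  ring

private theorem dim2_levels (hA : CFam A) (hn : 0 + 2 ≤ n) (Bs : Finset (Fin n)) :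
    ∑ k ∈ Finset.range (0 + 2), ∑ σ ∈ lvl n k, ncomp (St A σ \ ⋃ b ∈ Bs, Cont (A b)) ≤
      ((408 * n : ℕ) : ℕ∞) := by
  rw [show Finset.range (0 + 2) = Finset.range 2 from rfl, Finset.sum_range_succ,
    Finset.sum_range_one, dim2_lvl0, Finset.sum_singleton]
  have e : St A (fun _ => 0) \ ⋃ b ∈ Bs, Cont (A b) = St A (fun _ => 0) := by
    ext h
    simp only [Set.mem_sdiff, mem_iUnion, exists_prop, not_exists, not_and]
    constructor
    · exact fun h1 => h1.1
    · intro h1
      refine ⟨h1, fun b _ hc => ?_⟩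
      have h2 := St_inter_Cont_zero (σ := fun _ => 0) (hA.compact b) (hA.nonempty b) rfl
      have h3 : h ∈ St A (fun _ => 0) ∩ Cont (A b) := ⟨h1, hc⟩
      rw [h2] at h3
      exact h3
  rw [e]
  refine (add_le_add (two_zero hA hn) ((Finset.sum_le_sum fun σ hσ =>
    two_cut hA hn hσ Bs).trans (two_sum hA hn))).trans (le_of_eq ?_)
  rw [← Nat.cast_add]
  congr 1
  ring

private theorem dim2_false (hA : CFam A) (hn : 0 + 2 ≤ n) :
    (faces False A).encard ≤ ((1000 * n : ℕ) : ℕ∞) := by
  refine (faces_le_TS hA False).trans ((sum_improper hA).trans ?_)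
  have h1 := dim2_levels hA hn ∅
  simp only [Finset.notMem_empty, iUnion_of_empty, iUnion_empty, sdiff_empty] at h1
  refine (add_le_add h1 (dim2_ver hA hn)).trans ?_
  rw [← Nat.cast_add]
  exact_mod_cast (by omega : 408 * n + 400 * n ≤ 1000 * n)

private theorem dim2_true (hA : CFam A) (hn : 0 + 2 ≤ n) :
    (faces True A).encard ≤ ((1000 * n : ℕ) : ℕ∞) := by
  classical
  refine (faces_le_TS hA True).trans ((sum_proper hA (Np A)ᶜ fun b hb h hh => ?_).trans ?_)
  · obtain ⟨x, hx⟩ := mem_Np_compl.1 hb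
    exact TT_subset_Cont_point hx hh
  have h1 : ∀ b ∈ ((Np A)ᶜ)ᶜ, ∑ S : Finset (Fin n),
      ncomp (TS True A (S : Set (Fin n)) ∩ Cont (A b)) ≤ 2 := by
    intro b hb
    rw [compl_compl, mem_Np] at hb
    refine (Finset.sum_le_sum fun S _ => ncomp_le_encard _).trans ?_
    rw [ksum_disj]
    · refine (encard_le_encard ?_).trans (dim2_two_of (hA.nonempty b) hb)
      exact iUnion₂_subset fun S _ => inter_subset_right
    · intro S _ S' _ hSS
      rw [Set.disjoint_left]
      rintro h ⟨hh, -⟩ ⟨hh', -⟩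
      rw [mem_TS_iff hA] at hh hh'
      refine hSS (Finset.ext fun i => ?_)
      rw [← Finset.mem_coe, ← Finset.mem_coe, ← hh.2 i, ← hh'.2 i]
  have h2 : ∑ b ∈ ((Np A)ᶜ)ᶜ, ∑ S : Finset (Fin n),
      ncomp (TS True A (S : Set (Fin n)) ∩ Cont (A b)) ≤ ((2 * n : ℕ) : ℕ∞) := by
    refine (Finset.sum_le_sum h1).trans ?_
    rw [Finset.sum_const, nsmul_eq_mul]
    have h3 : (((Np A)ᶜ)ᶜ).card ≤ n := (Finset.card_le_univ _).trans (by rw [Fintype.card_fin])
    have h4 : (((Np A)ᶜ)ᶜ).card * 2 ≤ 2 * n := by omega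
    exact_mod_cast h4
  refine (add_le_add (add_le_add (dim2_levels hA hn _) (dim2_ver hA hn)) h2).trans ?_
  rw [← Nat.cast_add, ← Nat.cast_add]
  exact_mod_cast (by omega : 408 * n + 400 * n + 2 * n ≤ 1000 * n)

/-- The number of faces in the plane. -/
theorem dim_two (hA : CFam A) (hn : 0 + 2 ≤ n) (proper : Prop) :
    (faces proper A).encard ≤ ((1000 * n : ℕ) : ℕ∞) := by
  rcases faces_proper_cases A proper with h | h
  · rw [h]
    exact dim2_true hA hn
  · rw [h]
    exact dim2_false hA hn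

end HyperplaneTransversals
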