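import Pool.Agent.Lib.MP_b2e5b9_co_D.Cap
import Pool.Agent.Lib.MP_b2e5b9_co_D.Adj

/-!
# Cutting the stratum of a segment

Setting: `σ` has the single nonzero entry `σ b`, and `A b` is a segment: it contains two different
points `p, q` and is contained in the line through them. Let `Y = St A σ`, `W = Y ∩ Cont (A b)`,
`v = q - p`.

Facts. Put `F = hi (A b)` if `σ b = 1` and `F = lo (A b)` if `σ b = -1`. `Y` is the graph of `F` over
the open set `O` of the `u` with `lo (A l) u < F u < hi (A l) u` for all `l ≠ b`. A point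
`h = (u, F u) ∈ Y` is in `Cont (A b)` if and only if `⟪u, v⟫ = 0`.

`ncomp_le_of_adj'`: as `ncomp_le_of_adj` (see the proof of `CubeSys.ncomp_step` in
`Fat/Rec.lean`): the components of `Y₁` whose closure meets `W` are values of the locally
constant function `ψ` on `W`; the other ones are components of `Y`.

`half_bound`: `Y₁ = {h ∈ Y | 0 < ⟪h.1, v⟫}`. Cell at `e = (u₁, F u₁) ∈ W`: choose a cap `V` around
`u₁` inside `O` (`exists_cap`); `Q` is the image of the half cap `{u ∈ V | 0 < ⟪u, v⟫}` under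
`u ↦ (u, F u)` (`half_cap_preconnected`). `e ∈ closure Y₁`: the normalisations of `u₁ + s • v`,
`s → 0+`, have positive inner product with `v` (`⟪u₁, v⟫ = 0`, `v ≠ 0`). Alternative: let
`h ∈ Y₁` and `C` its component in `Y₁`, and suppose `closure C` does not meet `W`. `C` is relatively
closed in `Y`: a point `y ∈ closure C ∩ Y` satisfies `0 ≤ ⟪y.1, v⟫`, it is not in `W`, so
`y ∈ Y₁`, and `C` is relatively closed in `Y₁`. `C` is relatively open in `Y`: around
`y = (u, F u) ∈ C` there is a cap in `O` on which `0 < ⟪u, v⟫`, whose image in `Y₁` is preconnected,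
contains `y`, and is a neighbourhood of `y` in `Y`. As `C` is connected and clopen in `Y`, it is the
component of `h` in `Y` (`IsPreconnected.subset_isClopen` in the subtype `Y`, or directly).

`seg_cut`: `Y \ Cont (A b)` is the union of the two sets for `v` and `-v` (`ncomp_union_le`).
-/

set_option autoImplicit false

open Set Filter
open scoped RealInnerProductSpace Topology

namespace HyperplaneTransversals

theorem ncomp_le_of_adj' {X : Type} [TopologicalSpace X] (Y₁ Y W : Set X)
    (hcell : ∀ x ∈ W, x ∈ closure Y₁ ∧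
      ∃ Q ⊆ Y₁, IsPreconnected Q ∧ ∀ᶠ h in 𝓝 x, h ∈ Y₁ → h ∈ Q)
    (hY : Y₁ ⊆ Y)
    (halt : ∀ h ∈ Y₁, (∃ x ∈ W, x ∈ closure (connectedComponentIn Y₁ h)) ∨
      connectedComponentIn Y₁ h = connectedComponentIn Y h) :
    ncomp Y₁ ≤ ncomp W + ncomp Y := by
  classical
  set cc : X → Set X := fun x => connectedComponentIn Y₁ x with hcc
  set P : X → Set X → Prop := fun x K => ∀ᶠ h in 𝓝 x, h ∈ Y₁ → cc h = K with hP
  set ψ : X → Set X := fun x => if hx : ∃ K, P x K then hx.choose else ∅ with hψ
  have hPuniq : ∀ x ∈ closure Y₁, ∀ K L, P x K → P x L → K = L := by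
    intro x hx K L hK hL
    have hfr : ∃ᶠ h in 𝓝 x, h ∈ Y₁ := mem_closure_iff_frequently.1 hx
    obtain ⟨h, hh, hKL⟩ := (hfr.and_eventually (hK.and hL)).exists
    rw [← hKL.1 hh, ← hKL.2 hh]
  have hψP : ∀ x ∈ closure Y₁, ∀ K, P x K → ψ x = K := by
    intro x hx K hK
    have hex : ∃ K, P x K := ⟨K, hK⟩
    have h1 : ψ x = hex.choose := by simp only [hψ, hex, dif_pos]
    rw [h1]
    exact hPuniq x hx _ _ hex.choose_spec hK
  have hcell' : ∀ x ∈ W, x ∈ closure Y₁ ∧ ∃ K, P x K := by
    intro x hx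
    obtain ⟨h1, Q, hQ, hQc, hev⟩ := hcell x hx
    refine ⟨h1, ?_⟩
    obtain ⟨y, hyU, hy⟩ := (mem_closure_iff_frequently.1 h1).and_eventually hev |>.exists
    refine ⟨cc y, ?_⟩
    filter_upwards [hev] with h hh hhs
    have hyQ := hy hyU
    have hhQ := hh hhs
    exact (connectedComponentIn_eq
      (hQc.subset_connectedComponentIn hyQ hQ hhQ)).symm
  have hconst : ∀ x ∈ W, ∀ y ∈ W,
      connectedComponentIn W x = connectedComponentIn W y → ψ x = ψ y := by
    intro x hx y hy hxy
    let _ : TopologicalSpace (Set X) := ⊥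
    have _ : DiscreteTopology (Set X) := ⟨rfl⟩
    have hpre : IsPreconnected (connectedComponentIn W x) :=
      isPreconnected_connectedComponentIn
    have hsub := connectedComponentIn_subset W x
    have hc : ContinuousOn ψ (connectedComponentIn W x) := by
      intro z hz
      obtain ⟨hz1, K, hK⟩ := hcell' z (hsub hz)
      have h1 : ∀ᶠ w in 𝓝[connectedComponentIn W x] z, ψ w = ψ z := by
        rw [eventually_nhdsWithin_iff]
        filter_upwards [eventually_eventually_nhds.2 hK] with w hw hwF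
        have hw1 := (hcell' w (hsub hwF)).1
        rw [hψP w hw1 K hw, hψP z hz1 K hK]
      exact (continuousWithinAt_const (b := ψ z)).congr_of_eventuallyEq h1 rfl
    apply hpre.constant hc (mem_connectedComponentIn hx)
    rw [hxy]
    exact mem_connectedComponentIn hy
  have hcover : cc '' Y₁ ⊆ ψ '' W ∪ (fun x => connectedComponentIn Y x) '' Y := by
    rintro _ ⟨h, hh, rfl⟩
    rcases halt h hh with ⟨x, hx, hcl⟩ | heq
    · left
      obtain ⟨hx1, K, hK⟩ := hcell' x hx
      have hKeq : K = cc h := by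
        obtain ⟨y, hyF, hy⟩ := ((mem_closure_iff_frequently.1 hcl).and_eventually hK).exists
        rw [← hy (connectedComponentIn_subset _ _ hyF)]
        exact (connectedComponentIn_eq hyF).symm
      exact ⟨x, hx, by rw [hψP x hx1 K hK, hKeq]⟩
    · right
      exact ⟨h, hY hh, heq.symm⟩
  calc ncomp Y₁ = (cc '' Y₁).encard := rfl
    _ ≤ _ := Set.encard_le_encard hcover
    _ ≤ _ := Set.encard_union_le _ _
    _ ≤ ncomp W + ncomp Y :=
        add_le_add (encard_image_le_of_factor _ _ _ hconst) le_rfl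

/-- A connected component which is relatively open and closed in a larger set. -/
theorem seg_clopen {X : Type} [TopologicalSpace X] {C Y : Set X} {h : X} (hh : h ∈ C)
    (hcl : ∀ y ∈ Y, y ∈ closure C → y ∈ C) (hop : ∀ y ∈ C, ∀ᶠ z in 𝓝 y, z ∈ Y → z ∈ C)
    (hhY : h ∈ Y) : connectedComponentIn Y h ⊆ C := by
  have hpre : IsPreconnected (connectedComponentIn Y h) := isPreconnected_connectedComponentIn
  have hsub := connectedComponentIn_subset Y h
  have hCu : C ⊆ interior (C ∪ Yᶜ) := by
    intro y hy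
    rw [mem_interior_iff_mem_nhds]
    filter_upwards [hop y hy] with z hz
    by_cases hzY : z ∈ Y
    · exact Or.inl (hz hzY)
    · exact Or.inr hzY
  have huC : ∀ y ∈ Y, y ∈ interior (C ∪ Yᶜ) → y ∈ C := by
    intro y hy hyi
    rcases interior_subset hyi with h1 | h1
    · exact h1
    · exact absurd hy h1
  have e1 : connectedComponentIn Y h ⊆ interior (C ∪ Yᶜ) ∪ (closure C)ᶜ := by
    intro y hy
    by_cases hyc : y ∈ closure C
    · exact Or.inl (hCu (hcl y (hsub hy) hyc))
    · exact Or.inr hyc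
  have e2 : connectedComponentIn Y h ∩ (interior (C ∪ Yᶜ) ∩ (closure C)ᶜ) = ∅ := by
    rw [eq_empty_iff_forall_notMem]
    rintro y ⟨hy, hy1, hy2⟩
    exact hy2 (subset_closure (huC y (hsub hy) hy1))
  rcases isPreconnected_iff_subset_of_disjoint.1 hpre (interior (C ∪ Yᶜ)) (closure C)ᶜ
    isOpen_interior isClosed_closure.isOpen_compl e1 e2 with h1 | h1
  · exact fun y hy => huC y (hsub hy) (h1 hy)
  · exact absurd (subset_closure hh) (h1 (mem_connectedComponentIn hhY))

/-- Graphs over open sets of directions, cut by the equator orthogonal to `v`. -/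
theorem seg_half {d : ℕ} (v : E d) (hv : v ≠ 0) (F : Metric.sphere (0 : E d) 1 → ℝ)
    (hF : Continuous F) (O : Set (Metric.sphere (0 : E d) 1)) (hO : IsOpen O)
    (Y W : Set (OH d)) (hY : ∀ h, h ∈ Y ↔ h.2 = F h.1 ∧ h.1 ∈ O)
    (hW : ∀ h, h ∈ W ↔ h ∈ Y ∧ ⟪(h.1 : E d), v⟫ = 0) :
    ncomp {h | h ∈ Y ∧ 0 < ⟪(h.1 : E d), v⟫} ≤ ncomp W + ncomp Y := by
  have hgr : Continuous (fun u : Metric.sphere (0 : E d) 1 => ((u, F u) : OH d)) :=
    continuous_id.prodMk hF
  have hiv : Continuous (fun u : Metric.sphere (0 : E d) 1 => ⟪(u : E d), v⟫) := by fun_prop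
  refine ncomp_le_of_adj' _ Y W ?_ (fun h hh => hh.1) ?_
  · intro x hx
    obtain ⟨hxY, hx0⟩ := (hW x).1 hx
    obtain ⟨hx2, hxO⟩ := (hY x).1 hxY
    constructor
    · -- the point is in the closure
      have hn : ∀ s : ℝ, ‖(x.1 : E d) + s • v‖ ≠ 0 := by
        intro s h
        have h1 : ‖(x.1 : E d) + s • v‖ ^ 2 = 1 + s ^ 2 * ‖v‖ ^ 2 := by
          rw [norm_add_sq_real, inner_smul_right, hx0, norm_smul, mul_pow, Real.norm_eq_abs,
            sq_abs]
          have : ‖(x.1 : E d)‖ = 1 := by simp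
          rw [this]
          ring
        rw [h] at h1
        have : 0 ≤ s ^ 2 * ‖v‖ ^ 2 := by positivity
        norm_num at h1
        linarith
      have hmem : ∀ s : ℝ, ‖(x.1 : E d) + s • v‖⁻¹ • ((x.1 : E d) + s • v) ∈
          Metric.sphere (0 : E d) 1 := by
        intro s
        rw [mem_sphere_zero_iff_norm, norm_smul, norm_inv, norm_norm, inv_mul_cancel₀ (hn s)]
      let g : ℝ → Metric.sphere (0 : E d) 1 := fun s => ⟨_, hmem s⟩
      have hg : Continuous g := by
        refine Continuous.subtype_mk ?_ _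
        have h1 : Continuous (fun s : ℝ => (x.1 : E d) + s • v) := by fun_prop
        exact (h1.norm.inv₀ hn).smul h1
      have hg0 : g 0 = x.1 := by
        apply Subtype.ext
        show ‖(x.1 : E d) + (0 : ℝ) • v‖⁻¹ • ((x.1 : E d) + (0 : ℝ) • v) = x.1
        have : ‖(x.1 : E d)‖ = 1 := by simp
        rw [zero_smul, add_zero, this, inv_one, one_smul]
      have ht : Tendsto g (𝓝[>] 0) (𝓝 x.1) := by
        have := hg.tendsto 0
        rw [hg0] at this
        exact this.mono_left nhdsWithin_le_nhds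
      have ht2 : Tendsto (fun s => ((g s, F (g s)) : OH d)) (𝓝[>] 0) (𝓝 x) := by
        have h1 := (hgr.tendsto x.1).comp ht
        have h2 : ((x.1, F x.1) : OH d) = x := Prod.ext rfl hx2.symm
        rw [h2] at h1
        exact h1
      refine mem_closure_of_tendsto ht2 ?_
      filter_upwards [ht (hO.mem_nhds hxO), self_mem_nhdsWithin] with s hs hs0
      refine ⟨(hY _).2 ⟨rfl, hs⟩, ?_⟩
      show 0 < ⟪‖(x.1 : E d) + s • v‖⁻¹ • ((x.1 : E d) + s • v), v⟫
      rw [real_inner_smul_left, inner_add_left, hx0, real_inner_smul_left,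
        real_inner_self_eq_norm_sq, zero_add]
      have h3 : 0 < ‖(x.1 : E d) + s • v‖ := lt_of_le_of_ne (norm_nonneg _) (hn s).symm
      have h4 : 0 < ‖v‖ := norm_pos_iff.2 hv
      have h5 : (0 : ℝ) < s := hs0
      positivity
    · obtain ⟨c, hc0, hc1, hcO⟩ := exists_cap x.1 (hO.mem_nhds hxO)
      refine ⟨(fun u : Metric.sphere (0 : E d) 1 => ((u, F u) : OH d)) ''
        {u : Metric.sphere (0 : E d) 1 | c < ⟪(u : E d), (x.1 : E d)⟫ ∧ 0 < ⟪(u : E d), v⟫},
        ?_, (half_cap_preconnected _ _ hc0).image _ hgr.continuousOn, ?_⟩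
      · rintro _ ⟨u, ⟨hu1, hu2⟩, rfl⟩
        exact ⟨(hY _).2 ⟨rfl, hcO hu1⟩, hu2⟩
      · have h1 := continuous_fst.continuousAt.preimage_mem_nhds
          (cap_mem_nhds x.1 hc1 : _ ∈ 𝓝 (Prod.fst x))
        filter_upwards [h1] with h hh hhY
        obtain ⟨hhY1, hhv⟩ := hhY
        obtain ⟨hh2, -⟩ := (hY h).1 hhY1
        exact ⟨h.1, ⟨hh, hhv⟩, Prod.ext rfl hh2.symm⟩
  · intro h hh
    by_cases hcase : ∃ x ∈ W, x ∈ closure (connectedComponentIn
        {h | h ∈ Y ∧ 0 < ⟪(h.1 : E d), v⟫} h)
    · exact Or.inl hcase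
    · right
      push Not at hcase
      set Y₁ : Set (OH d) := {h | h ∈ Y ∧ 0 < ⟪(h.1 : E d), v⟫} with hY₁
      set C := connectedComponentIn Y₁ h with hC
      have hCY : C ⊆ Y₁ := connectedComponentIn_subset Y₁ h
      have hCpre : IsPreconnected C := isPreconnected_connectedComponentIn
      have hhC : h ∈ C := mem_connectedComponentIn hh
      apply Subset.antisymm
      · exact hCpre.subset_connectedComponentIn hhC (fun z hz => (hCY hz).1)
      · refine seg_clopen hhC ?_ ?_ hh.1
        · intro y hy hyc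
          have h0 : 0 ≤ ⟪(y.1 : E d), v⟫ := by
            refine closure_minimal (s := C) (t := {z : OH d | 0 ≤ ⟪(z.1 : E d), v⟫})
              (fun z hz => (hCY hz).2.le) ?_ hyc
            exact isClosed_le continuous_const (hiv.comp continuous_fst)
          have h1 : 0 < ⟪(y.1 : E d), v⟫ := by
            rcases h0.eq_or_lt with h2 | h2
            · exact absurd hyc (hcase y ((hW y).2 ⟨hy, h2.symm⟩))
            · exact h2
          have hyY : y ∈ Y₁ := ⟨hy, h1⟩
          have h3 : IsPreconnected (insert y C) :=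
            hCpre.subset_closure (subset_insert y C) (insert_subset hyc subset_closure)
          exact h3.subset_connectedComponentIn (mem_insert_of_mem y hhC)
            (insert_subset hyY hCY) (mem_insert y C)
        · intro y hy
          obtain ⟨hyY, hyv⟩ := hCY hy
          obtain ⟨hy2, hyO⟩ := (hY y).1 hyY
          have hO' : O ∩ {u : Metric.sphere (0 : E d) 1 | 0 < ⟪(u : E d), v⟫} ∈ 𝓝 y.1 :=
            inter_mem (hO.mem_nhds hyO) ((isOpen_lt continuous_const hiv).mem_nhds hyv)
          obtain ⟨c, hc0, hc1, hcO⟩ := exists_cap y.1 hO'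
          have hQ : (fun u : Metric.sphere (0 : E d) 1 => ((u, F u) : OH d)) ''
              {u : Metric.sphere (0 : E d) 1 | c < ⟪(u : E d), (y.1 : E d)⟫} ⊆
                connectedComponentIn Y₁ y := by
            refine ((cap_preconnected _ hc0).image _ hgr.continuousOn).subset_connectedComponentIn
              ?_ ?_
            · refine ⟨y.1, ?_, Prod.ext rfl hy2.symm⟩
              show c < ⟪(y.1 : E d), (y.1 : E d)⟫
              rw [unit_inner_self]
              exact hc1
            · rintro _ ⟨u, hu, rfl⟩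
              exact ⟨(hY _).2 ⟨rfl, (hcO hu).1⟩, (hcO hu).2⟩
          have hyC : connectedComponentIn Y₁ y = C := (connectedComponentIn_eq hy).symm
          rw [hyC] at hQ
          have h1 := continuous_fst.continuousAt.preimage_mem_nhds
            (cap_mem_nhds y.1 hc1 : _ ∈ 𝓝 (Prod.fst y))
          filter_upwards [h1] with z hz hzY
          obtain ⟨hz2, -⟩ := (hY z).1 hzY
          exact hQ ⟨z.1, hz, Prod.ext rfl hz2.symm⟩

variable {m n : ℕ} {A : Fin n → Set (E (m + 2))}

theorem half_bound (hA : CFam A) {σ : Fin n → SignType} {b : Fin n} (hσ : supp σ = {b})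
    {p q : E (m + 2)} (hp : p ∈ A b) (hq : q ∈ A b) (hpq : p ≠ q)
    (hline : ∀ x ∈ A b, ∃ r : ℝ, x = p + r • (q - p)) :
    ncomp {h | h ∈ St A σ ∧ 0 < ⟪(h.1 : E (m + 2)), q - p⟫} ≤
      ncomp (St A σ ∩ Cont (A b)) + ncomp (St A σ) := by
  have hb : σ b ≠ 0 := by
    have : b ∈ supp σ := by
      rw [hσ]
      exact Finset.mem_singleton_self b
    exact mem_supp.1 this
  have h0 : ∀ i, i ≠ b → σ i = 0 := by
    intro i hi
    by_contra hne
    have : i ∈ supp σ := mem_supp.2 hne
    rw [hσ, Finset.mem_singleton] at this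
    exact hi this
  have hv : q - p ≠ 0 := sub_ne_zero.2 hpq.symm
  have ch : ∀ i, Continuous (fun u : Metric.sphere (0 : E (m + 2)) 1 => hi (A i) u) := fun i =>
    (continuous_hi (hA.compact i) (hA.convex i) (hA.nonempty i)).comp continuous_subtype_val
  have cl : ∀ i, Continuous (fun u : Metric.sphere (0 : E (m + 2)) 1 => lo (A i) u) := fun i =>
    (continuous_lo (hA.compact i) (hA.convex i) (hA.nonempty i)).comp continuous_subtype_val
  set F : Metric.sphere (0 : E (m + 2)) 1 → ℝ := fun u =>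
    if σ b = 1 then hi (A b) u else lo (A b) u with hFdef
  have hF : Continuous F := by
    by_cases h : σ b = 1
    · simp only [hFdef, h, if_true]
      exact ch b
    · simp only [hFdef, h, if_false]
      exact cl b
  have hbF : ∀ h : OH (m + 2), ((σ b = 0 → lo (A b) h.1 < h.2 ∧ h.2 < hi (A b) h.1) ∧
      (σ b = 1 → h.2 = hi (A b) h.1) ∧ (σ b = -1 → h.2 = lo (A b) h.1)) ↔ h.2 = F h.1 := by
    intro h
    rcases SignType.trichotomy (σ b) with hs | hs | hs
    · rw [hFdef, hs]
      constructor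
      · intro h1
        exact h1.2.2 rfl
      · intro h1
        exact ⟨fun h2 => absurd h2 (by decide), fun h2 => absurd h2 (by decide), fun _ => h1⟩
    · exact absurd hs hb
    · rw [hFdef, hs]
      constructor
      · intro h1
        exact h1.2.1 rfl
      · intro h1
        exact ⟨fun h2 => absurd h2 (by decide), fun _ => h1, fun h2 => absurd h2 (by decide)⟩
  refine seg_half (q - p) hv F hF
    {u | ∀ l, l ≠ b → lo (A l) u < F u ∧ F u < hi (A l) u} ?_ (St A σ) _ ?_ ?_
  · have : {u : Metric.sphere (0 : E (m + 2)) 1 | ∀ l, l ≠ b → lo (A l) u < F u ∧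
        F u < hi (A l) u} = ⋂ l, {u : Metric.sphere (0 : E (m + 2)) 1 | l ≠ b →
          lo (A l) u < F u ∧ F u < hi (A l) u} := by
      ext u
      simp only [mem_iInter, mem_ofPred_eq]
    rw [this]
    refine isOpen_iInter_of_finite fun l => ?_
    by_cases hl : l = b
    · simp [hl]
    · have e : {u : Metric.sphere (0 : E (m + 2)) 1 | l ≠ b → lo (A l) u < F u ∧
          F u < hi (A l) u} = {u : Metric.sphere (0 : E (m + 2)) 1 | lo (A l) u < F u} ∩
            {u : Metric.sphere (0 : E (m + 2)) 1 | F u < hi (A l) u} := by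
        ext u
        simp only [mem_inter_iff, mem_ofPred_eq]
        exact ⟨fun h => h hl, fun h _ => h⟩
      rw [e]
      exact (isOpen_lt (cl l) hF).inter (isOpen_lt hF (ch l))
  · intro h
    constructor
    · intro hh
      have h1 := (hbF h).1 (hh b)
      refine ⟨h1, fun l hl => ?_⟩
      have h2 := (hh l).1 (h0 l hl)
      rw [← h1]
      exact h2
    · rintro ⟨h1, h2⟩ i
      by_cases hi' : i = b
      · rw [hi']
        exact (hbF h).2 h1
      · have h3 := h2 i hi'
        rw [← h1] at h3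
        rw [h0 i hi']
        exact ⟨fun _ => h3, fun h4 => absurd h4 (by decide), fun h4 => absurd h4 (by decide)⟩
  · intro h
    constructor
    · rintro ⟨h1, h2⟩
      refine ⟨h1, ?_⟩
      rw [inner_sub_right, h2 q hq, h2 p hp, sub_self]
    · rintro ⟨h1, h2⟩
      refine ⟨h1, ?_⟩
      have h3 : ∀ x ∈ A b, ⟪(h.1 : E (m + 2)), x⟫ = ⟪(h.1 : E (m + 2)), p⟫ := by
        intro x hx
        obtain ⟨r, rfl⟩ := hline x hx
        rw [inner_add_right, inner_smul_right, h2, mul_zero, add_zero]
      have h4 : h.2 = ⟪(h.1 : E (m + 2)), p⟫ := by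
        have h5 := (hbF h).1 (h1 b)
        rw [h5, hFdef]
        dsimp only
        split_ifs
        · obtain ⟨x, hx, hx'⟩ := exists_hi (hA.compact b) (hA.nonempty b) (h.1 : E (m + 2))
          rw [← hx', h3 x hx]
        · obtain ⟨x, hx, hx'⟩ := exists_lo (hA.compact b) (hA.nonempty b) (h.1 : E (m + 2))
          rw [← hx', h3 x hx]
      intro x hx
      rw [h3 x hx, h4]

theorem seg_cut (hA : CFam A) {σ : Fin n → SignType} {b : Fin n} (hσ : supp σ = {b})
    {p q : E (m + 2)} (hp : p ∈ A b) (hq : q ∈ A b) (hpq : p ≠ q)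
    (hline : ∀ x ∈ A b, ∃ r : ℝ, x = p + r • (q - p)) :
    ncomp (St A σ \ Cont (A b)) ≤
      2 * ncomp (St A σ ∩ Cont (A b)) + 2 * ncomp (St A σ) := by
  have hline' : ∀ x ∈ A b, ∃ r : ℝ, x = q + r • (p - q) := by
    intro x hx
    obtain ⟨r, hr⟩ := hline x hx
    refine ⟨1 - r, ?_⟩
    rw [hr]
    module
  have h1 := half_bound hA hσ hp hq hpq hline
  have h2 := half_bound hA hσ hq hp hpq.symm hline'
  have hb : σ b ≠ 0 := by
    have : b ∈ supp σ := by
      rw [hσ]
      exact Finset.mem_singleton_self b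
    exact mem_supp.1 this
  have hsub : St A σ \ Cont (A b) = {h | h ∈ St A σ ∧ 0 < ⟪(h.1 : E (m + 2)), q - p⟫} ∪
      {h | h ∈ St A σ ∧ 0 < ⟪(h.1 : E (m + 2)), p - q⟫} := by
    ext h
    constructor
    · rintro ⟨h3, h4⟩
      rcases lt_trichotomy 0 ⟪(h.1 : E (m + 2)), q - p⟫ with h5 | h5 | h5
      · exact Or.inl ⟨h3, h5⟩
      · exfalso
        apply h4
        have h6 : ∀ x ∈ A b, ⟪(h.1 : E (m + 2)), x⟫ = ⟪(h.1 : E (m + 2)), p⟫ := by
          intro x hx
          obtain ⟨r, rfl⟩ := hline x hx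
          rw [inner_add_right, inner_smul_right, ← h5, mul_zero, add_zero]
        have h7 : h.2 = ⟪(h.1 : E (m + 2)), p⟫ := by
          rcases SignType.trichotomy (σ b) with hs | hs | hs
          · obtain ⟨x, hx, hx'⟩ := exists_lo (hA.compact b) (hA.nonempty b) (h.1 : E (m + 2))
            rw [(h3 b).2.2 hs, ← hx', h6 x hx]
          · exact absurd hs hb
          · obtain ⟨x, hx, hx'⟩ := exists_hi (hA.compact b) (hA.nonempty b) (h.1 : E (m + 2))
            rw [(h3 b).2.1 hs, ← hx', h6 x hx]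
        intro x hx
        rw [h6 x hx, h7]
      · refine Or.inr ⟨h3, ?_⟩
        rw [← neg_sub, inner_neg_right]
        linarith
    · rintro (⟨h3, h4⟩ | ⟨h3, h4⟩)
      · refine ⟨h3, fun h5 => ?_⟩
        rw [inner_sub_right, h5 q hq, h5 p hp, sub_self] at h4
        exact lt_irrefl _ h4
      · refine ⟨h3, fun h5 => ?_⟩
        rw [inner_sub_right, h5 q hq, h5 p hp, sub_self] at h4
        exact lt_irrefl _ h4
  rw [hsub]
  refine (ncomp_union_le _ _).trans ((add_le_add h1 h2).trans (le_of_eq ?_))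
  ring

end HyperplaneTransversals
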