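import Pool.Agent.Lib.MP_b2e5b9_co_D.Thk2
import Pool.Agent.Lib.MP_b2e5b9_co_D.Sol1

/-!
# Leaving a two-dimensional stratum through a nondegenerate edge point

The model is `CubeSys.exists_exit` (file `Fat/Rec.lean`).

Proof. Let `B = thk A (fun _ => δ₀)` be the bodies of `CFam.exists_fam`. Let `e` be an enumeration
of the support of `σ` (`m` elements, `exists_enum`), `G ≠ H` two indices with
`σ G = σ H = 0` (`m + 2 ≤ n`), `I = tup e G H`, `ω = orient B I h`. For `x, s ∈ [-1, 1]` let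
`γ x s` be the solution (`sol_exists`) with orientation `ω` of the functions
`lev (A (e j)) (σ (e j))`, `lev (B G) x`, `lev (B H) s` (the thickened members for `G` and `H`!);
`tanSys_lev`, continuous on the square by `sol_continuousOn`. With `x₀ = pos (B G) h`,
`s₀ = pos (B H) h` we have `|x₀| < 1`, `|s₀| < 1` (`h` meets `A G`, and by `hi_cthickening`,
`lo_cthickening` it crosses `B G` strictly) and `γ x₀ s₀ = h` (`sol_unique`, `pos_eq_iff`).

Let `Y = St A σ \ F`. All hyperplanes `γ x s` are tangent to the members of the support of `σ`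
in the prescribed way, so `γ x s ∈ Y` is the condition that the members `l` with `σ l = 0` are
crossed strictly and `γ x s ∉ F`, which is open in `(x, s)`. So there is `η > 0` with `γ x s₀` in
the component `C` of `h` in `Y` for `|x - x₀| < η` (image of an interval).

Bad values of `x`: the values `pos (B G) h'` for `h'` in the finite set
`(F ∩ closure (St A σ)) ∪ ⋃ l, closure (St A σ) ∩ Cont (A l)` (union over `σ l = 0`), and the values
`pos (B G) h'` for the solutions `h'` of the systems `lev (A (e j)) (σ (e j))`, `lev (A b) β`,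
`lev (A c) β'` with `b ≠ c`, `σ b = σ c = 0`, `β, β' ∈ {1, -1}` and orientation `1` or `-1` with
respect to `tup e b c`: finitely many hyperplanes by `sol_unique`. Choose `x ∈ (x₀, x₀ + η)` not bad.

Along `s ∈ [s₀, 1]`: `γ x s₀ ∈ Y`; `γ x 1` is not in `Y`, since it is the upper tangent of `B H`,
so its offset is `hi (A H) + δ₀ > hi (A H)`. Let `t` be the smallest `s ∈ [s₀, 1]` with
`γ x s ∉ Y` (the set of these `s` is closed), `h₁ = γ x t`. Then `γ x s ∈ C` for `s₀ ≤ s < t`, and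
`h₁ ∈ closure C ⊆ closure (St A σ)`. So `h₁` satisfies `lo (A l) ≤ t ≤ hi (A l)` for all `l`
(closed conditions) and is tangent to the support as prescribed. As `x` is not bad, `h₁ ∉ F` and
`h₁ ∉ Cont (A l)` for `σ l = 0`. As `h₁ ∉ Y`, some `b` with `σ b = 0` is touched; by the choice of
`x` exactly one. So `h₁ ∈ St A (update σ b δ)` with `δ = 1` if `t = hi (A b)` and `δ = -1` otherwise.
-/

set_option autoImplicit false

open Set Filter
open scoped RealInnerProductSpace Topology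

namespace HyperplaneTransversals

variable {m n : ℕ} {A : Fin n → Set (E (m + 2))} {σ : Fin n → SignType}

open CubeSys (tup tup_last tup_prev tup_init tup_forall tup_injective)

private theorem exit2_one {d : ℕ} (K : Set (E d)) (u : E d) : lev K 1 u = hi K u := by
  unfold lev
  ring

private theorem exit2_neg {d : ℕ} (K : Set (E d)) (u : E d) : lev K (-1) u = lo K u := by
  unfold lev
  ring

private theorem exit2_sign (s : SignType) (hs : s ≠ 0) : s = 1 ∨ s = -1 := by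
  revert s
  decide

private theorem exit2_lev {d : ℕ} {K : Set (E d)} {u : E d} {t : ℝ} {s : SignType} (hs : s ≠ 0)
    (h1 : s = 1 → t = hi K u) (h2 : s = -1 → t = lo K u) : lev K (s : ℝ) u = t := by
  rcases exit2_sign s hs with rfl | rfl
  · rw [SignType.coe_one, exit2_one, h1 rfl]
  · rw [SignType.coe_neg_one, exit2_neg, h2 rfl]

private theorem exit2_lev' {d : ℕ} {K : Set (E d)} {u : E d} {t : ℝ} {s : SignType}
    (h : lev K (s : ℝ) u = t) : (s = 1 → t = hi K u) ∧ (s = -1 → t = lo K u) := by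
  constructor
  · rintro rfl
    rw [← h, SignType.coe_one, exit2_one]
  · rintro rfl
    rw [← h, SignType.coe_neg_one, exit2_neg]

private theorem exit2_B (hA : CFam A) {δ : ℝ} (hδ : 0 < δ) (i : Fin n) (g : OH (m + 2)) :
    hi (thk A (fun _ => δ) i) g.1 = hi (A i) g.1 + δ ∧
      lo (thk A (fun _ => δ) i) g.1 = lo (A i) g.1 - δ := by
  have hn : ‖(g.1 : E (m + 2))‖ = 1 := mem_sphere_zero_iff_norm.1 g.1.2
  unfold thk
  rw [hi_cthickening (hA.compact i) (hA.nonempty i) hδ.le,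
    lo_cthickening (hA.compact i) (hA.nonempty i) hδ.le, hn, mul_one]
  exact ⟨rfl, rfl⟩

private theorem exit2_tan (hA : CFam A) {δ : ℝ} (hB : Fam (thk A fun _ => δ))
    {e : Fin m → Fin n} (hei : Function.Injective e) {b c : Fin n} (hb : ∀ j, e j ≠ b)
    (hc : ∀ j, e j ≠ c) (hbc : b ≠ c) {Kb Kc : Set (E (m + 2))}
    (hKb : IsCompact Kb ∧ Convex ℝ Kb ∧ Kb.Nonempty ∧ Kb ⊆ thk A (fun _ => δ) b)
    (hKc : IsCompact Kc ∧ Convex ℝ Kc ∧ Kc.Nonempty ∧ Kc ⊆ thk A (fun _ => δ) c)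
    {ρ : Fin m → ℝ} (hρ : ∀ j, |ρ j| ≤ 1) {x s : ℝ} (hx : |x| ≤ 1) (hs : |s| ≤ 1) :
    TanSys (fun j => thk A (fun _ => δ) (tup e b c j))
      (fun j => lev (tup (fun j => A (e j)) Kb Kc j) (tup ρ x s j)) := by
  refine tanSys_lev hB (tup_injective hei hb hc hbc) ?_ ?_
  · apply tup_forall
    · intro j
      rw [tup_init, tup_init]
      exact ⟨hA.compact _, hA.convex _, hA.nonempty _, Metric.self_subset_cthickening _⟩
    · rw [tup_prev, tup_prev]
      exact hKb
    · rw [tup_last, tup_last]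
      exact hKc
  · apply tup_forall
    · intro j
      rw [tup_init]
      exact hρ j
    · rw [tup_prev]
      exact hx
    · rw [tup_last]
      exact hs

private theorem exit2_cl (hA : CFam A) {g : OH (m + 2)} (hg : g ∈ closure (St A σ)) (i : Fin n) :
    lo (A i) g.1 ≤ g.2 ∧ g.2 ≤ hi (A i) g.1 := by
  have h1 : Continuous (fun g : OH (m + 2) => hi (A i) g.1) :=
    (continuous_hi (hA.compact i) (hA.convex i) (hA.nonempty i)).comp (by fun_prop)
  have h2 : Continuous (fun g : OH (m + 2) => lo (A i) g.1) :=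
    (continuous_lo (hA.compact i) (hA.convex i) (hA.nonempty i)).comp (by fun_prop)
  have h3 : IsClosed {g : OH (m + 2) | lo (A i) g.1 ≤ g.2 ∧ g.2 ≤ hi (A i) g.1} :=
    (isClosed_le h2 continuous_snd).inter (isClosed_le continuous_snd h1)
  refine closure_minimal (fun g hg => ?_) h3 hg
  have h4 := lo_le_hi (hA.compact i) (hA.nonempty i) (g.1 : E (m + 2))
  by_cases h0 : σ i = 0
  · exact ⟨((hg i).1 h0).1.le, ((hg i).1 h0).2.le⟩
  · rcases exit2_sign _ h0 with h5 | h5
    · have h6 := (hg i).2.1 h5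
      exact ⟨h6 ▸ h4, h6.le⟩
    · have h6 := (hg i).2.2 h5
      exact ⟨h6.ge, h6.trans_le h4⟩

theorem exit_two (hA : CFam A) (hn : m + 2 ≤ n) (hσ : (supp σ).card = m)
    {F : Set (OH (m + 2))} (hF : IsClosed F) (hFfin : (F ∩ closure (St A σ)).Finite)
    (hbad : ∀ l, σ l = 0 → (closure (St A σ) ∩ Cont (A l)).Finite)
    {h : OH (m + 2)} (hh : h ∈ St A σ) (hhF : h ∉ F) :
    ∃ b, σ b = 0 ∧ ∃ δ : SignType, δ ≠ 0 ∧ ∃ h₁ ∈ St A (Function.update σ b δ),
      h₁ ∉ Cont (A b) ∧ h₁ ∉ F ∧ h₁ ∈ closure (connectedComponentIn (St A σ \ F) h) := by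
  classical
  obtain ⟨δ₀, hδ₀, hfam⟩ := hA.exists_fam
  have hB : Fam (thk A fun _ => δ₀) := hfam (fun _ => δ₀) fun _ => ⟨hδ₀, le_rfl⟩
  have hBf := exit2_B hA hδ₀
  set B : Fin n → Set (E (m + 2)) := thk A fun _ => δ₀ with hBdef
  obtain ⟨e, hei, he0, her⟩ := exists_enum hσ
  -- two members outside of the support
  obtain ⟨G, hG⟩ : ∃ G, G ∉ supp σ := by
    by_contra hcon
    push Not at hcon
    have : supp σ = Finset.univ := by ext; simp [hcon]
    rw [this] at hσ
    simp at hσ; omega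
  obtain ⟨H, hH⟩ : ∃ H, H ∉ insert G (supp σ) := by
    by_contra hcon
    push Not at hcon
    have : insert G (supp σ) = Finset.univ := by ext x; simp [hcon x]
    have h2 : (insert G (supp σ)).card = m + 1 := by rw [Finset.card_insert_of_notMem hG, hσ]
    rw [this] at h2
    simp at h2; omega
  have hGH : G ≠ H := fun h => hH (by simp [h])
  have hG0 : σ G = 0 := by
    by_contra hc
    exact hG (mem_supp.2 hc)
  have hH0 : σ H = 0 := by
    by_contra hc
    exact hH (Finset.mem_insert_of_mem (mem_supp.2 hc))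
  have hene : ∀ c, σ c = 0 → ∀ j, e j ≠ c := fun c hc j hj => he0 j (hj ▸ hc)
  set ρ : Fin m → ℝ := fun j => (σ (e j) : ℝ) with hρdef
  have hρ : ∀ j, |ρ j| ≤ 1 := fun j => (SignType.abs_cast_eq_one (he0 j)).le
  have hBody : ∀ i, IsCompact (B i) ∧ Convex ℝ (B i) ∧ (B i).Nonempty ∧ B i ⊆ B i := fun i =>
    ⟨hB.compact i, hB.convex i, hB.nonempty i, Subset.rfl⟩
  have hAB : ∀ i, IsCompact (A i) ∧ Convex ℝ (A i) ∧ (A i).Nonempty ∧ A i ⊆ B i := fun i =>
    ⟨hA.compact i, hA.convex i, hA.nonempty i, Metric.self_subset_cthickening _⟩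
  set I : Fin (m + 2) → Fin n := tup e G H with hIdef
  have hI : Function.Injective I := tup_injective hei (hene G hG0) (hene H hH0) hGH
  set K : Fin (m + 2) → Set (E (m + 2)) := tup (fun j => A (e j)) (B G) (B H) with hKdef
  set ω := orient B I h with hωdef
  have hω : ω = 1 ∨ ω = -1 := orient_mem B I h
  have hT : ∀ x s : ℝ, |x| ≤ 1 → |s| ≤ 1 →
      TanSys (fun j => B (I j)) (fun j => lev (K j) (tup ρ x s j)) := fun x s hx hs =>
    exit2_tan hA hB hei (hene G hG0) (hene H hH0) hGH (hBody G) (hBody H) hρ hx hs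
  have hex : ∀ p : ℝ × ℝ, ∃ g : OH (m + 2), (|p.1| ≤ 1 ∧ |p.2| ≤ 1) →
      (∀ j, lev (K j) (tup ρ p.1 p.2 j) g.1 = g.2) ∧ orient B I g = ω := by
    intro p
    by_cases hp : |p.1| ≤ 1 ∧ |p.2| ≤ 1
    · obtain ⟨g, hg⟩ := sol_exists hB hI (hT p.1 p.2 hp.1 hp.2) hω
      exact ⟨g, fun _ => hg⟩
    · exact ⟨h, fun h' => absurd h' hp⟩
  choose γ hγ using hex
  set sq : Set (ℝ × ℝ) := {p | |p.1| ≤ 1 ∧ |p.2| ≤ 1} with hsq
  have hKc : ∀ j, Continuous (hi (K j)) ∧ Continuous (lo (K j)) := by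
    apply tup_forall
    · intro j
      rw [hKdef, tup_init]
      exact ⟨continuous_hi (hA.compact _) (hA.convex _) (hA.nonempty _),
        continuous_lo (hA.compact _) (hA.convex _) (hA.nonempty _)⟩
    · rw [hKdef, tup_prev]
      exact ⟨continuous_hi (hB.compact _) (hB.convex _) (hB.nonempty _),
        continuous_lo (hB.compact _) (hB.convex _) (hB.nonempty _)⟩
    · rw [hKdef, tup_last]
      exact ⟨continuous_hi (hB.compact _) (hB.convex _) (hB.nonempty _),
        continuous_lo (hB.compact _) (hB.convex _) (hB.nonempty _)⟩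
  have hqc : ∀ j, Continuous fun p : ℝ × ℝ => tup ρ p.1 p.2 j := by
    apply tup_forall
    · intro j
      simp only [tup_init]
      fun_prop
    · simp only [tup_prev]
      fun_prop
    · simp only [tup_last]
      fun_prop
  have hγc : ContinuousOn γ sq := by
    refine sol_continuousOn hB hI (F := fun p j => lev (K j) (tup ρ p.1 p.2 j)) (ε := ω)
      (fun p hp => hT p.1 p.2 hp.1 hp.2) (fun j => ?_) (fun p hp => hγ p hp)
    apply Continuous.continuousOn
    have h1 : Continuous fun z : (ℝ × ℝ) × E (m + 2) => tup ρ z.1.1 z.1.2 j :=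
      (hqc j).comp continuous_fst
    have h2 : Continuous fun z : (ℝ × ℝ) × E (m + 2) => hi (K j) z.2 :=
      (hKc j).1.comp continuous_snd
    have h3 : Continuous fun z : (ℝ × ℝ) × E (m + 2) => lo (K j) z.2 :=
      (hKc j).2.comp continuous_snd
    unfold lev
    fun_prop
  -- the points of the square
  have hγe : ∀ p ∈ sq, ∀ i, σ i ≠ 0 →
      (σ i = 1 → (γ p).2 = hi (A i) (γ p).1) ∧ (σ i = -1 → (γ p).2 = lo (A i) (γ p).1) := by
    intro p hp i hi
    obtain ⟨j, rfl⟩ := her i hi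
    have := (hγ p hp).1 j.castSucc.castSucc
    rw [hKdef, tup_init, tup_init] at this
    exact exit2_lev' this
  have hγG : ∀ p ∈ sq, pos (B G) (γ p) = p.1 := by
    intro p hp
    have := (hγ p hp).1 (Fin.last m).castSucc
    rw [hKdef, tup_prev, tup_prev] at this
    exact (pos_eq_iff (hB.compact G) (hB.body G) (γ p) p.1).2 this
  have hγH : ∀ p ∈ sq, lev (B H) p.2 (γ p).1 = (γ p).2 := by
    intro p hp
    have := (hγ p hp).1 (Fin.last (m + 1))
    rw [hKdef, tup_last, tup_last] at this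
    exact this
  -- the open condition
  have hcr : ∀ i, IsOpen {g : OH (m + 2) | lo (A i) g.1 < g.2 ∧ g.2 < hi (A i) g.1} := by
    intro i
    have h1 : Continuous (fun g : OH (m + 2) => hi (A i) g.1) :=
      (continuous_hi (hA.compact i) (hA.convex i) (hA.nonempty i)).comp (by fun_prop)
    have h2 : Continuous (fun g : OH (m + 2) => lo (A i) g.1) :=
      (continuous_lo (hA.compact i) (hA.convex i) (hA.nonempty i)).comp (by fun_prop)
    exact (isOpen_lt h2 continuous_snd).inter (isOpen_lt continuous_snd h1)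
  set O : Set (OH (m + 2)) :=
    {g | ∀ i, σ i = 0 → lo (A i) g.1 < g.2 ∧ g.2 < hi (A i) g.1} \ F with hO
  have hOo : IsOpen O := by
    refine IsOpen.sdiff ?_ hF
    have : {g : OH (m + 2) | ∀ i, σ i = 0 → lo (A i) g.1 < g.2 ∧ g.2 < hi (A i) g.1} =
        ⋂ i ∈ {i | σ i = 0}, {g | lo (A i) g.1 < g.2 ∧ g.2 < hi (A i) g.1} := by
      ext g
      simp
    rw [this]
    exact (Set.toFinite _).isOpen_biInter fun i _ => hcr i
  have hOY : ∀ p ∈ sq, γ p ∈ O → γ p ∈ St A σ \ F := by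
    rintro p hp ⟨h1, h2⟩
    refine ⟨fun i => ⟨h1 i, ?_, ?_⟩, h2⟩
    · intro hi
      exact (hγe p hp i (by rw [hi]; decide)).1 hi
    · intro hi
      exact (hγe p hp i (by rw [hi]; decide)).2 hi
  have hYO : ∀ g ∈ St A σ \ F, g ∈ O := fun g hg => ⟨fun i hi => (hg.1 i).1 hi, hg.2⟩
  -- the base point
  set x₀ := pos (B G) h with hx₀
  set s₀ := pos (B H) h with hs₀
  have hbase1 : ∀ i, σ i = 0 → |pos (B i) h| < 1 := by
    intro i hi
    have h1 := (hh i).1 hi
    have h2 := hBf i h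
    have h3 := lev_pos (hB.compact i) (hB.body i) h
    refine abs_lt_one_of_lev (K := B i) (u := (h.1 : E (m + 2))) ?_ ?_
    · rw [h3, h2.2]
      linarith [h1.1]
    · rw [h3, h2.1]
      linarith [h1.2]
  have hx₀1 : |x₀| < 1 := hbase1 G hG0
  have hs₀1 : |s₀| < 1 := hbase1 H hH0
  have hbase : γ (x₀, s₀) = h := by
    refine sol_unique hB hI (hT x₀ s₀ hx₀1.le hs₀1.le)
      (hγ (x₀, s₀) ⟨hx₀1.le, hs₀1.le⟩).1 ?_ (hγ (x₀, s₀) ⟨hx₀1.le, hs₀1.le⟩).2
    apply tup_forall
    · intro j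
      rw [hKdef, tup_init, tup_init]
      exact exit2_lev (he0 j) (hh (e j)).2.1 (hh (e j)).2.2
    · rw [hKdef, tup_prev, tup_prev]
      exact lev_pos (hB.compact G) (hB.body G) h
    · rw [hKdef, tup_last, tup_last]
      exact lev_pos (hB.compact H) (hB.body H) h
  set C := connectedComponentIn (St A σ \ F) h with hC
  have hhC : h ∈ C := mem_connectedComponentIn ⟨hh, hhF⟩
  -- nearby points on the x-line
  obtain ⟨η, hη, hηC⟩ : ∃ η > 0, ∀ x, |x - x₀| < η → |x| ≤ 1 ∧ γ (x, s₀) ∈ C := by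
    have hfc : ContinuousOn (fun x => γ (x, s₀)) {x | |x| ≤ 1} :=
      hγc.comp (f := fun x : ℝ => (x, s₀)) (by fun_prop) fun x hx => ⟨hx, hs₀1.le⟩
    have hnb : {x : ℝ | |x| ≤ 1} ∈ 𝓝 x₀ := by
      have : {x : ℝ | |x| < 1} ∈ 𝓝 x₀ := (isOpen_lt continuous_abs continuous_const).mem_nhds hx₀1
      exact Filter.mem_of_superset this fun x (hx : |x| < 1) => show |x| ≤ 1 from hx.le
    have hca : ContinuousAt (fun x => γ (x, s₀)) x₀ := hfc.continuousAt hnb
    have hev : ∀ᶠ x in 𝓝 x₀, γ (x, s₀) ∈ O := by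
      apply hca.eventually_mem
      apply hOo.mem_nhds
      rw [hbase]
      exact hYO h ⟨hh, hhF⟩
    obtain ⟨η, hη, hball⟩ := Metric.eventually_nhds_iff.1 (hev.and hnb)
    refine ⟨η, hη, fun x hx => ⟨(hball (y := x) hx).2, ?_⟩⟩
    have hpre : IsPreconnected ((fun x => γ (x, s₀)) '' Metric.ball x₀ η) := by
      apply (convex_ball x₀ η).isPreconnected.image
      exact hfc.mono fun y hy => (hball hy).2
    have hsub : (fun x => γ (x, s₀)) '' Metric.ball x₀ η ⊆ St A σ \ F := by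
      rintro _ ⟨y, hy, rfl⟩
      exact hOY (y, s₀) ⟨(hball hy).2, hs₀1.le⟩ (hball hy).1
    exact hpre.subset_connectedComponentIn ⟨x₀, Metric.mem_ball_self hη, hbase⟩ hsub
      ⟨x, hx, rfl⟩
  -- the finite set of bad values
  set pm : Set ℝ := {1, -1} with hpm
  have hpmfin : pm.Finite := Set.toFinite _
  have hpmabs : ∀ y ∈ pm, |y| ≤ 1 := by
    rintro y (rfl | rfl) <;> norm_num
  set S3 : (Fin n × Fin n) × ℝ × ℝ × ℝ → Set (OH (m + 2)) := fun p =>
    {g | p.1.1 ≠ p.1.2 ∧ σ p.1.1 = 0 ∧ σ p.1.2 = 0 ∧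
      (∀ j, lev (tup (fun j => A (e j)) (A p.1.1) (A p.1.2) j) (tup ρ p.2.1 p.2.2.1 j) g.1 = g.2) ∧
      orient B (tup e p.1.1 p.1.2) g = p.2.2.2} with hS3
  set bad3 : Set ℝ := ⋃ p ∈ (Set.univ : Set (Fin n × Fin n)) ×ˢ (pm ×ˢ (pm ×ˢ pm)),
    pos (B G) '' S3 p with hbad3
  have hbad3fin : bad3.Finite := by
    refine Set.Finite.biUnion (Set.finite_univ.prod (hpmfin.prod (hpmfin.prod hpmfin)))
      fun p hp => Set.Finite.image _ (Set.Subsingleton.finite ?_)
    rintro g ⟨g1, g2, g3, g4, g5⟩ g' ⟨-, -, -, g4', g5'⟩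
    exact sol_unique hB (tup_injective hei (hene _ g2) (hene _ g3) g1)
      (exit2_tan hA hB hei (hene _ g2) (hene _ g3) g1 (hAB _) (hAB _) hρ
        (hpmabs _ hp.2.1) (hpmabs _ hp.2.2.1)) g4 g4' (g5.trans g5'.symm)
  set bad : Set ℝ := (pos (B G) '' (F ∩ closure (St A σ)) ∪
    ⋃ l ∈ {l | σ l = 0}, pos (B G) '' (closure (St A σ) ∩ Cont (A l))) ∪ bad3 with hbaddef
  have hbadfin : bad.Finite := by
    refine ((hFfin.image _).union ?_).union hbad3fin
    exact Set.Finite.biUnion (Set.toFinite _) fun l hl => (hbad l hl).image _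
  obtain ⟨x, hxI, hxbad⟩ : ∃ x ∈ Set.Ioo x₀ (x₀ + η), x ∉ bad := by
    have : (Set.Ioo x₀ (x₀ + η)).Infinite := Set.Ioo_infinite (by linarith)
    exact this.exists_notMem_finite hbadfin
  have hxη : |x - x₀| < η := by
    rw [abs_of_pos (by linarith [hxI.1])]
    linarith [hxI.2]
  obtain ⟨hx1, hxC⟩ := hηC x hxη
  -- the s-line
  have hgc : ContinuousOn (fun s => γ (x, s)) {s | |s| ≤ 1} :=
    hγc.comp (f := fun s : ℝ => (x, s)) (by fun_prop) fun s hs => ⟨hx1, hs⟩
  have hIcc : ∀ s ∈ Set.Icc s₀ 1, |s| ≤ 1 := by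
    intro s hs
    rw [abs_le]
    exact ⟨by linarith [hs.1, (abs_lt.1 hs₀1).1], hs.2⟩
  set Z : Set ℝ := Set.Icc s₀ 1 ∩ (fun s => γ (x, s)) ⁻¹' Oᶜ with hZ
  have hZc : IsCompact Z := by
    apply IsCompact.of_isClosed_subset isCompact_Icc _ Set.inter_subset_left
    exact ContinuousOn.preimage_isClosed_of_isClosed (hgc.mono hIcc) isClosed_Icc
      hOo.isClosed_compl
  have hZne : Z.Nonempty := by
    refine ⟨1, ⟨(abs_lt.1 hs₀1).2.le, le_rfl⟩, fun hcon => ?_⟩
    have h1 := hγH (x, 1) ⟨hx1, by norm_num⟩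
    rw [exit2_one, (hBf H _).1] at h1
    have h2 := (hcon.1 H hH0).2
    linarith
  obtain ⟨t, htZ, htmin⟩ := hZc.exists_isLeast hZne
  have hts₀ : s₀ < t := by
    rcases lt_or_eq_of_le htZ.1.1 with h1 | h1
    · exact h1
    · exfalso
      have h2 : γ (x, t) ∉ O := htZ.2
      rw [← h1] at h2
      exact h2 (hYO _ (connectedComponentIn_subset _ _ hxC))
  have hbefore : ∀ s ∈ Set.Ico s₀ t, γ (x, s) ∈ St A σ \ F := by
    intro s hs
    have hs1 : s ∈ Set.Icc s₀ 1 := ⟨hs.1, hs.2.le.trans htZ.1.2⟩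
    refine hOY (x, s) ⟨hx1, hIcc s hs1⟩ ?_
    by_contra hcon
    have : s ∈ Z := ⟨hs1, hcon⟩
    exact absurd (htmin this) (not_le.2 hs.2)
  have hbeforeC : ∀ s ∈ Set.Ico s₀ t, γ (x, s) ∈ C := by
    intro s hs
    have hpre : IsPreconnected ((fun s => γ (x, s)) '' Set.Ico s₀ t) := by
      apply isPreconnected_Ico.image
      exact hgc.mono fun s hs => hIcc s ⟨hs.1, hs.2.le.trans htZ.1.2⟩
    have hsub : (fun s => γ (x, s)) '' Set.Ico s₀ t ⊆ St A σ \ F := by
      rintro _ ⟨s, hs, rfl⟩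
      exact hbefore s hs
    have := hpre.subset_connectedComponentIn ⟨s₀, ⟨le_rfl, hts₀⟩, rfl⟩ hsub ⟨s, hs, rfl⟩
    rw [hC, connectedComponentIn_eq hxC]
    exact this
  have ht1 : |t| ≤ 1 := hIcc t htZ.1
  have hclos : γ (x, t) ∈ closure C := by
    have h1 : t ∈ closure (Set.Ico s₀ t) := by
      rw [closure_Ico hts₀.ne]
      exact ⟨hts₀.le, le_rfl⟩
    have h2 : ContinuousWithinAt (fun s => γ (x, s)) (Set.Ico s₀ t) t :=
      (hgc t ht1).mono fun s hs => hIcc s ⟨hs.1, hs.2.le.trans htZ.1.2⟩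
    have h3 := h2.mem_closure_image h1
    apply closure_mono _ h3
    rintro _ ⟨s, hs, rfl⟩
    exact hbeforeC s hs
  have hxt : (x, t) ∈ sq := ⟨hx1, ht1⟩
  have hxG := hγG (x, t) hxt
  have hγt := hγe (x, t) hxt
  have hγl := (hγ (x, t) hxt).1
  have htO : γ (x, t) ∉ O := htZ.2
  set h₁ := γ (x, t) with hh₁
  have hclS : h₁ ∈ closure (St A σ) :=
    closure_mono ((connectedComponentIn_subset _ _).trans Set.sdiff_subset) hclos
  have hle := exit2_cl hA hclS
  have hnF : h₁ ∉ F := by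
    intro hcon
    exact hxbad (Or.inl (Or.inl ⟨h₁, ⟨hcon, hclS⟩, hxG⟩))
  have hnC : ∀ l, σ l = 0 → h₁ ∉ Cont (A l) := by
    intro l hl hcon
    refine hxbad (Or.inl (Or.inr ?_))
    simp only [Set.mem_iUnion]
    exact ⟨l, hl, h₁, ⟨hclS, hcon⟩, hxG⟩
  obtain ⟨b, hb0, hb1⟩ : ∃ b, σ b = 0 ∧ ¬ (lo (A b) h₁.1 < h₁.2 ∧ h₁.2 < hi (A b) h₁.1) := by
    by_contra hcon
    push Not at hcon
    exact htO ⟨fun i hi => by
      by_contra hc
      exact absurd (hcon i hi) (by
        intro hcc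
        exact hc hcc), hnF⟩
  have htouch : ∀ c, ¬ (lo (A c) h₁.1 < h₁.2 ∧ h₁.2 < hi (A c) h₁.1) →
      ∃ β ∈ pm, lev (A c) β h₁.1 = h₁.2 := by
    intro c hc
    by_cases h1 : lo (A c) h₁.1 < h₁.2
    · have h2 : h₁.2 = hi (A c) h₁.1 := le_antisymm (hle c).2 (by
        by_contra h3
        exact hc ⟨h1, not_le.1 h3⟩)
      exact ⟨1, Or.inl rfl, by rw [exit2_one, h2]⟩
    · have h2 : h₁.2 = lo (A c) h₁.1 := le_antisymm (not_lt.1 h1) (hle c).1
      exact ⟨-1, Or.inr rfl, by rw [exit2_neg, h2]⟩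
  have huniq : ∀ c, σ c = 0 → c ≠ b → lo (A c) h₁.1 < h₁.2 ∧ h₁.2 < hi (A c) h₁.1 := by
    intro c hc hcb
    by_contra hcon
    obtain ⟨β, hβ, hβl⟩ := htouch b hb1
    obtain ⟨β', hβ', hβl'⟩ := htouch c hcon
    apply hxbad
    right
    rw [hbad3]
    simp only [Set.mem_iUnion]
    refine ⟨((b, c), (β, (β', orient B (tup e b c) h₁))), ⟨Set.mem_univ _, hβ, hβ', ?_⟩, h₁,
      ⟨Ne.symm hcb, hb0, hc, ?_, rfl⟩, hxG⟩
    · exact orient_mem B _ h₁
    · apply tup_forall
      · intro j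
        have := hγl j.castSucc.castSucc
        rw [hKdef, tup_init, tup_init] at this
        rw [tup_init, tup_init]
        exact this
      · rw [tup_prev, tup_prev]
        exact hβl
      · rw [tup_last, tup_last]
        exact hβl'
  have hstr : ∀ δ : SignType, δ ≠ 0 → (δ = 1 → h₁.2 = hi (A b) h₁.1) →
      (δ = -1 → h₁.2 = lo (A b) h₁.1) → h₁ ∈ St A (Function.update σ b δ) := by
    intro δ hδ hd1 hd2 i
    by_cases hib : i = b
    · subst hib
      rw [Function.update_self]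
      exact ⟨fun h0 => absurd h0 hδ, hd1, hd2⟩
    · rw [Function.update_of_ne hib]
      refine ⟨fun h0 => huniq i h0 hib, fun h1 => ?_, fun h1 => ?_⟩
      · exact (hγt i (by rw [h1]; decide)).1 h1
      · exact (hγt i (by rw [h1]; decide)).2 h1
  by_cases hbhi : h₁.2 = hi (A b) h₁.1
  · exact ⟨b, hb0, 1, by decide, h₁, hstr 1 (by decide) (fun _ => hbhi)
      (fun h0 => absurd h0 (by decide)), hnC b hb0, hnF, hclos⟩
  · have hblo : h₁.2 = lo (A b) h₁.1 := by
      refine le_antisymm ?_ (hle b).1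
      by_contra hcon
      exact hb1 ⟨not_le.1 hcon, lt_of_le_of_ne (hle b).2 hbhi⟩
    exact ⟨b, hb0, -1, by decide, h₁, hstr (-1) (by decide)
      (fun h0 => absurd h0 (by decide)) (fun _ => hblo), hnC b hb0, hnF, hclos⟩

end HyperplaneTransversals
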