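import Pool.Agent.Lib.MP_b2e5b9_co_D.Cell2
import Pool.Agent.Lib.MP_b2e5b9_co_D.Exit2
import Pool.Agent.Lib.MP_b2e5b9_co_D.Adj

/-!
# The number of components of a two-dimensional stratum

Proof. `ncomp_le_of_adj` with `Y = St A σ \ F`, index set `zers σ ×ˢ {1, -1}` and
`W (b, δ) = (St A (update σ b δ) \ Cont (A b)) \ F`; the cells are `cell_two`, the exits are
`exit_two` (a nonzero `δ : SignType` is `1` or `-1`).
-/

set_option autoImplicit false

open Set Filter
open scoped RealInnerProductSpace Topology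

namespace HyperplaneTransversals

variable {m n : ℕ} {A : Fin n → Set (E (m + 2))} {σ : Fin n → SignType}

theorem ncomp_two (hA : CFam A) (hn : m + 2 ≤ n) (hσ : (supp σ).card = m)
    {F : Set (OH (m + 2))} (hF : IsClosed F) (hFfin : (F ∩ closure (St A σ)).Finite)
    (hbad : ∀ l, σ l = 0 → (closure (St A σ) ∩ Cont (A l)).Finite) :
    ncomp (St A σ \ F) ≤ ∑ b ∈ zers σ,
      (ncomp ((St A (Function.update σ b 1) \ Cont (A b)) \ F) +
        ncomp ((St A (Function.update σ b (-1)) \ Cont (A b)) \ F)) := by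
  have hd : ∀ δ : SignType, δ ∈ ({1, -1} : Finset SignType) ↔ δ ≠ 0 := by decide
  have key := ncomp_le_of_adj (St A σ \ F) (zers σ ×ˢ ({1, -1} : Finset SignType))
    (fun j => (St A (Function.update σ j.1 j.2) \ Cont (A j.1)) \ F)
    (fun j hj x hx => by
      obtain ⟨h1, h2⟩ := Finset.mem_product.1 hj
      exact cell_two hA hn hσ hF (mem_zers.1 h1) ((hd _).1 h2) hx.1.1 hx.1.2 hx.2)
    (fun h hh => by
      obtain ⟨b, hb, δ, hδ, h₁, hh₁, hc, hF₁, hcl⟩ := exit_two hA hn hσ hF hFfin hbad hh.1 hh.2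
      exact ⟨(b, δ), Finset.mem_product.2 ⟨mem_zers.2 hb, (hd _).2 hδ⟩, h₁,
        ⟨⟨hh₁, hc⟩, hF₁⟩, hcl⟩)
  refine key.trans_eq ?_
  rw [Finset.sum_product]
  exact Finset.sum_congr rfl fun b _ => Finset.sum_pair (by decide)

end HyperplaneTransversals
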