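import Pool.Agent.Lib.MP_b2e5b9_co_D.Tri
import Pool.Agent.Lib.MP_b2e5b9_co_D.Seg
import Pool.Agent.Lib.MP_b2e5b9_co_D.Zero
import Pool.Agent.Lib.MP_b2e5b9_co_D.Two
import Pool.Agent.Lib.MP_b2e5b9_co_D.BadF
import Pool.Agent.Lib.MP_b2e5b9_co_D.KSum
import Pool.Agent.Lib.MP_b2e5b9_co_D.VerB

/-!
# The quadratic bound in space

`cut_two`: `ncomp_cut` with `F = ⋃ b ∈ Bs, Cont (A b)` (a finite union of closed sets),
`St A σ ∩ F = ⋃ b ∈ Bs, (St A σ ∩ Cont (A b))`, `ncomp_biUnion_le`, `Finset.sum_le_sum_of_subset`.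

`sum_WW`: `edges_sum_le` (with `(lvl n 1).card ≤ 2 * n`, `card_lvl_le`) bounds the first part by
`400 * n ^ 2`. For `b ∈ Np A`, `cont_edges` with `k = 2` (`two_of_nonpoint`) bounds
`∑ σ ∈ lvl n 2, ncomp (St A σ ∩ Cont (A b))` by `4 * (48 * n + 3)`; exchange the sums
(`Finset.sum_comm`). Total `400 n² + 192 n² + 12 n ≤ 604 n²`.

`bad_one`: by `two_of_nonpoint` and `closure_cont_finite`.

`one_le`: if some member `l` with `σ l = 0` is a point, then `St A σ = ∅` (`St_empty_point`).
Otherwise `bad_one` is the assumption `hbad` of `ncomp_two`, which is applied with `F = ∅`. Each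
term on the right hand side is bounded by `cut_two` with `Bs = {b}`; here `b ∈ Np A`.

`one_cut`: let `supp σ = {b₀}`. For `b ≠ b₀` the set `St A σ ∩ Cont (A b)` is empty
(`St_inter_Cont_zero`). So the set is `St A σ` if `b₀ ∉ Bs` (then use `one_le`), and
`St A σ \ Cont (A b₀)` otherwise. In the second case, by `tri_cases`: if `A b₀` is a point this is
empty (`St_subset_Cont_point`, `ncomp_empty`); if `A b₀` is a segment use `seg_cut` and `one_le`
(and
`b₀ ∈ Np A`); if `A b₀` contains three affinely independent points, then `Cont (A b₀)` is finite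
(`Cont_encard_le` with `m = 1`), and `ncomp_two` with `F = Cont (A b₀)` (`isClosed_Cont`) applies as
in `one_le`
(again `St A σ = ∅` if some member `l` with `σ l = 0` is a point); its terms
`(St A τ \ Cont (A b)) \ Cont (A b₀)`, `τ = update σ b δ`, are `St A τ \ ⋃ b' ∈ {b, b₀}, Cont (A
b')`,
bounded by `cut_two`.

`sum_VV`: the first part of `VV` is bounded by `2 * n * (2 * (48 * n + 3)) ≤ 204 * n ^ 2`
(`cont_edges`
with `k = 1`), the second by `double_sum` and `sum_WW`: `2 * 4 * 604 * n ^ 2 = 4832 * n ^ 2`.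

`zero_le`: `ncomp_zero`, `one_cut` with `Bs = {b}`, and `sum_le_sum_inj` for the injection
`b ↦ update 0 b 1` into `lvl n 1`.

`dim_three`: `faces_le_TS`. For `proper = False`: `sum_improper`; the levels are bounded by
`zero_le`,
by `one_le` and `sum_VV`, by `sum_WW`; `(Ver A).encard ≤ 800 * n ^ 2` (`Ver_encard_le`). For
`proper = True`: `sum_proper` with `Sm = (Np A)ᶜ` (`TT_subset_Cont_point`), so `Smᶜ = Np A`; the
level `0` term is at most `ncomp (St A 0)` (in fact the same set, `St_inter_Cont_zero`), level `1`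
is bounded by `one_cut`, level `2` by `cut_two`, and the last sum by `n * (48 * n + 3) ≤ 51 * n ^ 2`
(`cont_faces`). General `proper`: `faces_proper_cases` or `by_cases`.
-/

set_option autoImplicit false

open Set Filter
open scoped RealInnerProductSpace Topology

namespace HyperplaneTransversals

variable {n : ℕ} {A : Fin n → Set (E (1 + 2))} {σ : Fin n → SignType}

/-- A bound for the components of a one-dimensional stratum after cutting. -/
noncomputable def WW (A : Fin n → Set (E (1 + 2))) (σ : Fin n → SignType) : ℕ∞ :=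
  ncomp (St A σ) + ∑ b ∈ Np A, ncomp (St A σ ∩ Cont (A b))

/-- A bound for the components of a two-dimensional stratum after cutting. -/
noncomputable def VV (A : Fin n → Set (E (1 + 2))) (σ : Fin n → SignType) : ℕ∞ :=
  2 * ∑ b ∈ Np A, ncomp (St A σ ∩ Cont (A b)) +
    2 * ∑ b ∈ zers σ, (WW A (Function.update σ b 1) + WW A (Function.update σ b (-1)))

theorem dim3_empty (B : Set (OH (1 + 2))) :
    B \ ⋃ b ∈ (∅ : Finset (Fin n)), Cont (A b) = B := by
  simp

theorem dim3_single (B : Set (OH (1 + 2))) (c : Fin n) :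
    B \ ⋃ b ∈ ({c} : Finset (Fin n)), Cont (A b) = B \ Cont (A c) := by
  simp

theorem dim3_up (hσ : σ ∈ lvl n 1) {b : Fin n} (hb : b ∈ zers σ) {δ : SignType} (hδ : δ ≠ 0) :
    Function.update σ b δ ∈ lvl n 2 := by
  rw [mem_lvl, card_supp_update (mem_zers.1 hb) hδ, mem_lvl.1 hσ]

theorem dim3_point {l : Fin n} (hl : l ∉ Np A) : ∃ x, A l = {x} := by
  rw [mem_Np, not_not] at hl
  exact hl

theorem cut_two (hA : CFam A) (hn : 1 + 2 ≤ n) (hσ : σ ∈ lvl n 2) {Bs : Finset (Fin n)}
    (hB : Bs ⊆ Np A) : ncomp (St A σ \ ⋃ b ∈ Bs, Cont (A b)) ≤ WW A σ := by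
  have hF : IsClosed (⋃ b ∈ Bs, Cont (A b)) :=
    Set.Finite.isClosed_biUnion Bs.finite_toSet fun b _ => isClosed_Cont (A b)
  have h1 := ncomp_cut hA hn (mem_lvl.1 hσ) hF
  refine h1.trans ?_
  unfold WW
  refine add_le_add le_rfl ?_
  have h2 : St A σ ∩ ⋃ b ∈ Bs, Cont (A b) = ⋃ b ∈ Bs, (St A σ ∩ Cont (A b)) := by
    rw [Set.inter_iUnion₂]
  rw [h2]
  refine (ncomp_biUnion_le Bs fun b => St A σ ∩ Cont (A b)).trans ?_
  exact Finset.sum_le_sum_of_subset hB

theorem sum_WW (hA : CFam A) (hn : 1 + 2 ≤ n) :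
    ∑ σ ∈ lvl n 2, WW A σ ≤ ((604 * n ^ 2 : ℕ) : ℕ∞) := by
  have h1 : ∑ σ ∈ lvl n 2, ncomp (St A σ) ≤ ((400 * n ^ 2 : ℕ) : ℕ∞) := by
    refine (edges_sum_le (m := 1) hA hn).trans ?_
    have hc := card_lvl_le n 1
    have hc2 : (lvl n 1).card * (200 * n) ≤ 400 * n ^ 2 := by
      rw [pow_one] at hc
      calc (lvl n 1).card * (200 * n) ≤ (2 * n) * (200 * n) := Nat.mul_le_mul_right _ hc
        _ = 400 * n ^ 2 := by ring
    exact_mod_cast hc2
  have h2 : ∑ σ ∈ lvl n 2, ∑ b ∈ Np A, ncomp (St A σ ∩ Cont (A b)) ≤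
      ((204 * n ^ 2 : ℕ) : ℕ∞) := by
    rw [Finset.sum_comm]
    have h3 : ∑ b ∈ Np A, ∑ σ ∈ lvl n 2, ncomp (St A σ ∩ Cont (A b)) ≤
        ∑ _b ∈ Np A, ((2 ^ 2 * (48 * n + 3) : ℕ) : ℕ∞) :=
      Finset.sum_le_sum fun b hb =>
        cont_edges hA 2 b (two_of_nonpoint (hA.nonempty b) (mem_Np.1 hb))
    refine h3.trans ?_
    rw [Finset.sum_const, nsmul_eq_mul]
    have hc : (Np A).card ≤ n := by
      have := Finset.card_le_univ (Np A)
      rwa [Fintype.card_fin] at this
    have hc2 : (Np A).card * (2 ^ 2 * (48 * n + 3)) ≤ 204 * n ^ 2 := by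
      calc (Np A).card * (2 ^ 2 * (48 * n + 3)) ≤ n * (2 ^ 2 * (48 * n + 3)) :=
            Nat.mul_le_mul_right _ hc
        _ ≤ 204 * n ^ 2 := by nlinarith
    exact_mod_cast hc2
  unfold WW
  rw [Finset.sum_add_distrib]
  refine (add_le_add h1 h2).trans ?_
  rw [← Nat.cast_add, Nat.cast_le]
  linarith

theorem bad_one (hA : CFam A) (hn : 1 + 2 ≤ n) (hσ : σ ∈ lvl n 1)
    (hp : ∀ l, σ l = 0 → l ∈ Np A) :
    ∀ l, σ l = 0 → (closure (St A σ) ∩ Cont (A l)).Finite := by
  intro l hl
  exact closure_cont_finite hA hn (mem_lvl.1 hσ) hl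
    (two_of_nonpoint (hA.nonempty l) (mem_Np.1 (hp l hl)))

theorem one_le (hA : CFam A) (hn : 1 + 2 ≤ n) (hσ : σ ∈ lvl n 1) :
    ncomp (St A σ) ≤
      ∑ b ∈ zers σ, (WW A (Function.update σ b 1) + WW A (Function.update σ b (-1))) := by
  by_cases hp : ∀ l, σ l = 0 → l ∈ Np A
  · have h := ncomp_two hA hn (mem_lvl.1 hσ) (F := ∅) isClosed_empty (by simp)
      (bad_one hA hn hσ hp)
    simp only [sdiff_empty] at h
    refine h.trans (Finset.sum_le_sum fun b hb => add_le_add ?_ ?_)
    · rw [← dim3_single (A := A) _ b]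
      exact cut_two hA hn (dim3_up hσ hb (by decide))
        (Finset.singleton_subset_iff.2 (hp b (mem_zers.1 hb)))
    · rw [← dim3_single (A := A) _ b]
      exact cut_two hA hn (dim3_up hσ hb (by decide))
        (Finset.singleton_subset_iff.2 (hp b (mem_zers.1 hb)))
  · push Not at hp
    obtain ⟨l, hl, hlN⟩ := hp
    obtain ⟨x, hx⟩ := dim3_point hlN
    rw [St_empty_point hl hx, ncomp_empty]
    exact zero_le

theorem one_cut (hA : CFam A) (hn : 1 + 2 ≤ n) (hσ : σ ∈ lvl n 1) (Bs : Finset (Fin n)) :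
    ncomp (St A σ \ ⋃ b ∈ Bs, Cont (A b)) ≤ VV A σ := by
  obtain ⟨b₀, hb₀⟩ := Finset.card_eq_one.1 (mem_lvl.1 hσ)
  have hz : ∀ b, b ≠ b₀ → σ b = 0 := by
    intro b hb
    by_contra h
    have h1 : b ∈ supp σ := mem_supp.2 h
    rw [hb₀, Finset.mem_singleton] at h1
    exact hb h1
  have hs0 : σ b₀ ≠ 0 := by
    rw [← mem_supp, hb₀]
    exact Finset.mem_singleton_self b₀
  have hdis : ∀ b, b ≠ b₀ → St A σ ∩ Cont (A b) = ∅ := fun b hb =>
    St_inter_Cont_zero (hA.compact b) (hA.nonempty b) (hz b hb)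
  have hle := one_le hA hn hσ
  set Y := ∑ b ∈ zers σ, (WW A (Function.update σ b 1) + WW A (Function.update σ b (-1))) with hY
  have h2Y : Y ≤ 2 * Y := by
    rw [two_mul]
    exact le_add_of_nonneg_right zero_le
  have hYV : Y ≤ VV A σ := by
    unfold VV
    rw [← hY]
    exact h2Y.trans (le_add_of_nonneg_left zero_le)
  by_cases hb : b₀ ∈ Bs
  · have hset : St A σ \ ⋃ b ∈ Bs, Cont (A b) = St A σ \ Cont (A b₀) := by
      ext h
      simp only [Set.mem_sdiff, mem_iUnion, exists_prop, not_exists, not_and]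
      constructor
      · rintro ⟨h1, h2⟩
        exact ⟨h1, h2 b₀ hb⟩
      · rintro ⟨h1, h2⟩
        refine ⟨h1, fun b _ h3 => ?_⟩
        by_cases hbb : b = b₀
        · rw [hbb] at h3
          exact h2 h3
        · have h4 : h ∈ St A σ ∩ Cont (A b) := ⟨h1, h3⟩
          rw [hdis b hbb] at h4
          exact h4
    rw [hset]
    rcases tri_cases (hA.nonempty b₀) with ⟨x, hx⟩ | ⟨p, hp, q, hq, hpq, hline⟩ | ⟨P, hP, hPK⟩
    · rw [sdiff_eq_empty.2 (St_subset_Cont_point hs0 hx), ncomp_empty]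
      exact zero_le
    · have hN : b₀ ∈ Np A := by
        rw [mem_Np]
        rintro ⟨x, hx⟩
        rw [hx, mem_singleton_iff] at hp hq
        exact hpq (hp.trans hq.symm)
      refine (seg_cut hA hb₀ hp hq hpq hline).trans ?_
      unfold VV
      rw [← hY]
      refine add_le_add ?_ (mul_le_mul_right hle 2)
      refine mul_le_mul_right ?_ 2
      exact Finset.single_le_sum (f := fun b => ncomp (St A σ ∩ Cont (A b)))
        (fun _ _ => zero_le) hN
    · refine le_trans ?_ hYV
      by_cases hp : ∀ l, σ l = 0 → l ∈ Np A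
      · have hN : b₀ ∈ Np A := by
          rw [mem_Np]
          rintro ⟨x, hx⟩
          have h0 := hPK 0
          have h1 := hPK 1
          rw [hx, mem_singleton_iff] at h0 h1
          have h2 : (0 : Fin 3) = 1 := hP.injective (h0.trans h1.symm)
          exact absurd h2 (by decide)
        have hfin : (Cont (A b₀)).Finite := by
          have h1 := Cont_encard_le (m := 1) hP hPK
          exact Set.finite_of_encard_le_coe (k := 2) (by exact_mod_cast h1)
        have h := ncomp_two hA hn (mem_lvl.1 hσ) (F := Cont (A b₀)) (isClosed_Cont _)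
          (hfin.subset inter_subset_left) (bad_one hA hn hσ hp)
        refine h.trans (Finset.sum_le_sum fun b hb' => ?_)
        have key : ∀ δ : SignType, δ ≠ 0 →
            ncomp ((St A (Function.update σ b δ) \ Cont (A b)) \ Cont (A b₀)) ≤
              WW A (Function.update σ b δ) := by
          intro δ hδ
          have h1 := cut_two hA hn (dim3_up hσ hb' hδ) (Bs := {b, b₀}) (by
            intro c hc
            rw [Finset.mem_insert, Finset.mem_singleton] at hc
            rcases hc with rfl | rfl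
            · exact hp _ (mem_zers.1 hb')
            · exact hN)
          have h2 : (⋃ c ∈ ({b, b₀} : Finset (Fin n)), Cont (A c)) =
              Cont (A b) ∪ Cont (A b₀) := by
            ext h
            simp
          rw [h2, ← Set.sdiff_sdiff] at h1
          exact h1
        exact add_le_add (key 1 (by decide)) (key (-1) (by decide))
      · push Not at hp
        obtain ⟨l, hl, hlN⟩ := hp
        obtain ⟨x, hx⟩ := dim3_point hlN
        rw [St_empty_point hl hx, empty_sdiff, ncomp_empty]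
        exact zero_le
  · have hset : St A σ \ ⋃ b ∈ Bs, Cont (A b) = St A σ := by
      rw [sdiff_eq_left, disjoint_iff_inter_eq_empty, inter_iUnion₂]
      simp only [iUnion_eq_empty]
      intro b hbB
      exact hdis b fun h => hb (h ▸ hbB)
    rw [hset]
    exact hle.trans hYV

theorem sum_VV (hA : CFam A) (hn : 1 + 2 ≤ n) :
    ∑ σ ∈ lvl n 1, VV A σ ≤ ((5036 * n ^ 2 : ℕ) : ℕ∞) := by
  have h1 : ∑ σ ∈ lvl n 1, ∑ b ∈ Np A, ncomp (St A σ ∩ Cont (A b)) ≤
      ((102 * n ^ 2 : ℕ) : ℕ∞) := by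
    rw [Finset.sum_comm]
    have h3 : ∑ b ∈ Np A, ∑ σ ∈ lvl n 1, ncomp (St A σ ∩ Cont (A b)) ≤
        ∑ _b ∈ Np A, ((2 ^ 1 * (48 * n + 3) : ℕ) : ℕ∞) :=
      Finset.sum_le_sum fun b hb =>
        cont_edges hA 1 b (two_of_nonpoint (hA.nonempty b) (mem_Np.1 hb))
    refine h3.trans ?_
    rw [Finset.sum_const, nsmul_eq_mul]
    have hc : (Np A).card ≤ n := by
      have := Finset.card_le_univ (Np A)
      rwa [Fintype.card_fin] at this
    have hc2 : (Np A).card * (2 ^ 1 * (48 * n + 3)) ≤ 102 * n ^ 2 := by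
      calc (Np A).card * (2 ^ 1 * (48 * n + 3)) ≤ n * (2 ^ 1 * (48 * n + 3)) :=
            Nat.mul_le_mul_right _ hc
        _ ≤ 102 * n ^ 2 := by nlinarith
    exact_mod_cast hc2
  have h2 : ∑ σ ∈ lvl n 1, ∑ b ∈ zers σ,
      (WW A (Function.update σ b 1) + WW A (Function.update σ b (-1))) ≤
        ((2416 * n ^ 2 : ℕ) : ℕ∞) := by
    refine (double_sum 1 (WW A)).trans ?_
    refine (mul_le_mul_right (sum_WW hA hn) _).trans ?_
    rw [← Nat.cast_mul, Nat.cast_le]
    linarith
  unfold VV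
  rw [Finset.sum_add_distrib, ← Finset.mul_sum, ← Finset.mul_sum]
  refine (add_le_add (mul_le_mul_right h1 2) (mul_le_mul_right h2 2)).trans ?_
  have h3 : 2 * (102 * n ^ 2) + 2 * (2416 * n ^ 2) ≤ 5036 * n ^ 2 := by linarith
  exact_mod_cast h3

theorem zero_le_VV (hA : CFam A) (hn : 1 + 2 ≤ n) :
    ncomp (St A (fun _ => 0)) ≤ ((5036 * n ^ 2 : ℕ) : ℕ∞) := by
  refine (ncomp_zero hA hn).trans (le_trans ?_ (sum_VV hA hn))
  have hmem : ∀ b : Fin n, Function.update (fun _ => (0 : SignType)) b 1 ∈ lvl n 1 := by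
    intro b
    rw [mem_lvl, card_supp_update rfl (by decide)]
    simp [supp]
  refine sum_le_sum_inj Finset.univ (lvl n 1) _ (VV A)
    (fun b => Function.update (fun _ => (0 : SignType)) b 1) (fun b _ => hmem b) ?_ ?_
  · intro b _ c _ hbc
    by_contra hne
    have h1 := congrFun hbc b
    dsimp only at h1
    rw [Function.update_self, Function.update_of_ne hne] at h1
    exact absurd h1 (by decide)
  · intro b _
    rw [← dim3_single (A := A) _ b]
    exact one_cut hA hn (hmem b) {b}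

/-- The number of faces in space. -/
theorem dim_three (hA : CFam A) (hn : 1 + 2 ≤ n) (proper : Prop) :
    (faces proper A).encard ≤ ((20000 * n ^ 2 : ℕ) : ℕ∞) := by
  have hV : (Ver A).encard ≤ ((800 * n ^ 2 : ℕ) : ℕ∞) := by
    refine (Ver_encard_le (m := 1) hA hn).trans ?_
    have hc := card_lvl_le n 1
    have hc2 : 2 * ((lvl n 1).card * (200 * n)) ≤ 800 * n ^ 2 := by
      rw [pow_one] at hc
      calc 2 * ((lvl n 1).card * (200 * n)) ≤ 2 * ((2 * n) * (200 * n)) :=
            Nat.mul_le_mul_left _ (Nat.mul_le_mul_right _ hc)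
        _ = 800 * n ^ 2 := by ring
    exact_mod_cast hc2
  have h0 := zero_le_VV hA hn
  have h1 := sum_VV hA hn
  have h2 := sum_WW hA hn
  have hl0 : lvl n 0 = {fun _ => 0} := by
    ext τ
    rw [mem_lvl, Finset.card_eq_zero, Finset.mem_singleton]
    constructor
    · intro h
      funext i
      by_contra hi
      have h3 : i ∈ supp τ := mem_supp.2 hi
      rw [h] at h3
      exact absurd h3 (Finset.notMem_empty i)
    · rintro rfl
      simp [supp]
  -- the levels after cutting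
  have hlev : ∀ Bs : Finset (Fin n), Bs ⊆ Np A →
      ∑ k ∈ Finset.range (1 + 2), ∑ σ ∈ lvl n k, ncomp (St A σ \ ⋃ b ∈ Bs, Cont (A b)) ≤
        ((10676 * n ^ 2 : ℕ) : ℕ∞) := by
    intro Bs hBs
    rw [Finset.sum_range_succ, Finset.sum_range_succ, Finset.sum_range_one, hl0,
      Finset.sum_singleton]
    have e0 : St A (fun _ => 0) \ ⋃ b ∈ Bs, Cont (A b) = St A (fun _ => 0) := by
      rw [sdiff_eq_left, disjoint_iff_inter_eq_empty, inter_iUnion₂]
      simp only [iUnion_eq_empty]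
      intro b _
      exact St_inter_Cont_zero (hA.compact b) (hA.nonempty b) rfl
    rw [e0]
    have e1 : ∑ σ ∈ lvl n 1, ncomp (St A σ \ ⋃ b ∈ Bs, Cont (A b)) ≤
        ((5036 * n ^ 2 : ℕ) : ℕ∞) :=
      (Finset.sum_le_sum fun σ hσ => one_cut hA hn hσ Bs).trans h1
    have e2 : ∑ σ ∈ lvl n 2, ncomp (St A σ \ ⋃ b ∈ Bs, Cont (A b)) ≤
        ((604 * n ^ 2 : ℕ) : ℕ∞) :=
      (Finset.sum_le_sum fun σ hσ => cut_two hA hn hσ hBs).trans h2
    refine (add_le_add (add_le_add h0 e1) e2).trans ?_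
    rw [← Nat.cast_add, ← Nat.cast_add, Nat.cast_le]
    linarith
  rcases faces_proper_cases A proper with h | h
  · rw [h]
    refine (faces_le_TS hA True).trans ?_
    refine (sum_proper hA (Np A)ᶜ ?_).trans ?_
    · intro b hb h' hh'
      obtain ⟨x, hx⟩ := mem_Np_compl.1 hb
      exact TT_subset_Cont_point hx hh'
    · rw [compl_compl]
      have e3 : ∑ b ∈ Np A, ∑ S : Finset (Fin n),
          ncomp (TS True A (S : Set (Fin n)) ∩ Cont (A b)) ≤ ((51 * n ^ 2 : ℕ) : ℕ∞) := by
        have h3 : ∑ b ∈ Np A, ∑ S : Finset (Fin n),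
            ncomp (TS True A (S : Set (Fin n)) ∩ Cont (A b)) ≤
            ∑ _b ∈ Np A, ((48 * n + 3 : ℕ) : ℕ∞) :=
          Finset.sum_le_sum fun b hb =>
            cont_faces hA True b (two_of_nonpoint (hA.nonempty b) (mem_Np.1 hb))
        refine h3.trans ?_
        rw [Finset.sum_const, nsmul_eq_mul]
        have hc : (Np A).card ≤ n := by
          have := Finset.card_le_univ (Np A)
          rwa [Fintype.card_fin] at this
        have hc2 : (Np A).card * (48 * n + 3) ≤ 51 * n ^ 2 := by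
          calc (Np A).card * (48 * n + 3) ≤ n * (48 * n + 3) := Nat.mul_le_mul_right _ hc
            _ ≤ 51 * n ^ 2 := by nlinarith
        exact_mod_cast hc2
      refine (add_le_add (add_le_add (hlev (Np A) subset_rfl) hV) e3).trans ?_
      rw [← Nat.cast_add, ← Nat.cast_add, Nat.cast_le]
      linarith [Nat.zero_le (n ^ 2)]
  · rw [h]
    refine (faces_le_TS hA False).trans ((sum_improper hA).trans ?_)
    have e4 := hlev ∅ (Finset.empty_subset _)
    simp only [dim3_empty] at e4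
    refine (add_le_add e4 hV).trans ?_
    rw [← Nat.cast_add, Nat.cast_le]
    linarith [Nat.zero_le (n ^ 2)]

end HyperplaneTransversals
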