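import Pool.Agent.Lib.MP_b2e5b9_co_D.PenD

/-!
# Strata and labels

Plan. `mem_TS_iff`: as `supports_iff` and `mem_transversals_iff` in `Fat/Final.lean`, without the
assumption on interiors: `h` meets `A i` iff `lo ≤ t ≤ hi` (`exists_meet` in `Fat/Geom.lean`), it
supports `A i` (without `proper`) iff it meets it and `t = hi` or `t = lo`, and
`A i ⊆ hyperplane h` iff `h ∈ Cont (A i)` (`mem_hyperplane`). Note
`mem_tset`.

`St_lab`, `TS_lab`: all conditions are conditions on the signs of `t - hi` and `t - lo`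
(`sign_eq_zero_iff`, `sign_pos`, ...); for `h ∈ Cont (A i)` use `mem_Cont_iff`.

`St_mult`: if `h ∈ St A σ` then `supp σ = tset A h` (members with `σ i = 0` are crossed strictly),
so `σ` is determined by its values on this set of `k` elements, which are `1` or `-1`: at most
`2 ^ k` choices (for example map `σ` to the subset of `tset A h` where `σ i = 1`,
`Finset.card_powerset`).

`cont_edges`: `cont_sum` with `Y σ = St A σ`, `μ = 2 ^ k`. `cont_faces`: `cont_sum` with
`Y S = TS proper A S`, pairwise disjoint, `μ = 1`. `pencil_faces`: `pencil_sum` in the same way.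
-/

set_option autoImplicit false

open Set Filter
open scoped RealInnerProductSpace Topology

namespace HyperplaneTransversals

variable {m n : ℕ} {A : Fin n → Set (E (m + 2))}

theorem laba_meet (hA : CFam A) (i : Fin n) (h : OH (m + 2)) :
    (((Hyp.of h).flat : Set (E (m + 2))) ∩ A i).Nonempty ↔
      lo (A i) h.1 ≤ h.2 ∧ h.2 ≤ hi (A i) h.1 := by
  rw [← exists_meet (hA.compact i) (hA.convex i) (hA.nonempty i)]
  constructor
  · rintro ⟨x, hx1, hx2⟩
    exact ⟨x, hx2, (mem_hyperplane h x).1 hx1⟩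
  · rintro ⟨x, hx2, hx1⟩
    exact ⟨x, (mem_hyperplane h x).2 hx1, hx2⟩

theorem laba_sub (i : Fin n) (h : OH (m + 2)) :
    A i ⊆ ((Hyp.of h).flat : Set (E (m + 2))) ↔ h ∈ Cont (A i) := by
  constructor
  · intro h1 x hx
    exact (mem_hyperplane h x).1 (h1 hx)
  · intro h1 x hx
    exact (mem_hyperplane h x).2 (h1 x hx)

theorem laba_supp (hA : CFam A) (i : Fin n) {h : OH (m + 2)}
    (hm : lo (A i) h.1 ≤ h.2 ∧ h.2 ≤ hi (A i) h.1) :
    (∃ p : Metric.sphere (0 : E (m + 2)) 1 × ℝ, hyperplane p = (Hyp.of h).flat ∧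
      ∀ x ∈ A i, ⟪(p.1 : E (m + 2)), x⟫ ≤ p.2) ↔
      (h.2 = hi (A i) h.1 ∨ h.2 = lo (A i) h.1) := by
  constructor
  · rintro ⟨p, hp1, hp2⟩
    rcases hyperplane_eq_iff p h hp1 with ⟨h1, h2⟩ | ⟨h1, h2⟩
    · left
      obtain ⟨x, hx, hx'⟩ := exists_hi (hA.compact i) (hA.nonempty i) (h.1 : E (m + 2))
      refine le_antisymm hm.2 ?_
      rw [← hx', h1, h2]
      exact hp2 x hx
    · right
      obtain ⟨x, hx, hx'⟩ := exists_lo (hA.compact i) (hA.nonempty i) (h.1 : E (m + 2))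
      refine le_antisymm ?_ hm.1
      rw [← hx', h1, h2, inner_neg_left]
      exact neg_le_neg (hp2 x hx)
  · rintro (h1 | h1)
    · refine ⟨h, rfl, fun x hx => ?_⟩
      rw [h1]
      exact le_hi (hA.compact i) _ hx
    · refine ⟨(-h.1, -h.2), ?_, fun x hx => ?_⟩
      · ext y
        rw [mem_hyperplane]
        change ⟪-(h.1 : E (m + 2)), y⟫ = -h.2 ↔ y ∈ hyperplane h
        rw [inner_neg_left, neg_inj, mem_hyperplane]
      · change ⟪-(h.1 : E (m + 2)), x⟫ ≤ -h.2
        rw [inner_neg_left, h1]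
        exact neg_le_neg (lo_le (hA.compact i) _ hx)

theorem mem_TS_iff (hA : CFam A) (proper : Prop) (S : Set (Fin n)) (h : OH (m + 2)) :
    h ∈ TS proper A S ↔
      h ∈ TT A ∧ ∀ i, ((i ∈ tset A h ∧ (proper → h ∉ Cont (A i))) ↔ i ∈ S) := by
  have h1 : Hyp.of h ∈ transversals A ↔ h ∈ TT A :=
    forall_congr' fun i => laba_meet hA i h
  have h2 : h ∈ TT A → ∀ i, (Supports proper (Hyp.of h).flat (A i) ↔
      (i ∈ tset A h ∧ (proper → h ∉ Cont (A i)))) := by
    intro hT i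
    unfold Supports
    rw [laba_meet hA i h, laba_supp hA i (hT i), laba_sub i h, mem_tset]
    exact ⟨fun g => g.2, fun g => ⟨hT i, g⟩⟩
  constructor
  · rintro ⟨g1, g2⟩
    have g3 := h1.1 g1
    exact ⟨g3, fun i => (h2 g3 i).symm.trans (g2 i)⟩
  · rintro ⟨g1, g2⟩
    exact ⟨h1.2 g1, fun i => (h2 g1 i).trans (g2 i)⟩

theorem laba_sign {a b c d : ℝ} (h : SignType.sign (a - b) = SignType.sign (c - d)) :
    (a = b ↔ c = d) ∧ (a < b ↔ c < d) ∧ (b < a ↔ d < c) := by
  refine ⟨?_, ?_, ?_⟩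
  · rw [← sub_eq_zero (a := a), ← sub_eq_zero (a := c), ← sign_eq_zero_iff, h, sign_eq_zero_iff]
  · rw [← sub_neg (a := a), ← sub_neg (a := c), ← sign_eq_neg_one_iff, h, sign_eq_neg_one_iff]
  · rw [← sub_pos (a := a), ← sub_pos (a := c), ← sign_eq_one_iff, h, sign_eq_one_iff]

theorem laba_lab {h h' : OH (m + 2)} (hl : lab A h = lab A h') (i : Fin n) :
    ((h.2 = hi (A i) h.1 ↔ h'.2 = hi (A i) h'.1) ∧ (h.2 < hi (A i) h.1 ↔ h'.2 < hi (A i) h'.1) ∧
      (hi (A i) h.1 < h.2 ↔ hi (A i) h'.1 < h'.2)) ∧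
    ((h.2 = lo (A i) h.1 ↔ h'.2 = lo (A i) h'.1) ∧ (h.2 < lo (A i) h.1 ↔ h'.2 < lo (A i) h'.1) ∧
      (lo (A i) h.1 < h.2 ↔ lo (A i) h'.1 < h'.2)) := by
  have h1 := congrFun hl i
  have h2 : SignType.sign (h.2 - hi (A i) h.1) = SignType.sign (h'.2 - hi (A i) h'.1) :=
    congrArg Prod.fst h1
  have h3 : SignType.sign (h.2 - lo (A i) h.1) = SignType.sign (h'.2 - lo (A i) h'.1) :=
    congrArg Prod.snd h1
  exact ⟨laba_sign h2, laba_sign h3⟩

theorem St_lab (σ : Fin n → SignType) {h h' : OH (m + 2)} (hl : lab A h = lab A h') :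
    h ∈ St A σ ↔ h' ∈ St A σ := by
  refine forall_congr' fun i => ?_
  obtain ⟨⟨h1, h2, -⟩, h3, -, h4⟩ := laba_lab hl i
  rw [h1, h2, h3, h4]

theorem laba_TT {h h' : OH (m + 2)} (hl : lab A h = lab A h') : h ∈ TT A ↔ h' ∈ TT A := by
  refine forall_congr' fun i => ?_
  obtain ⟨⟨-, -, h1⟩, -, h2, -⟩ := laba_lab hl i
  rw [← not_lt, ← not_lt, ← not_lt (a := h'.2), ← not_lt (b := h'.2), h1, h2]

theorem TS_lab (hA : CFam A) (proper : Prop) (S : Set (Fin n)) {h h' : OH (m + 2)}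
    (hl : lab A h = lab A h') : h ∈ TS proper A S ↔ h' ∈ TS proper A S := by
  rw [mem_TS_iff hA, mem_TS_iff hA, laba_TT hl]
  refine and_congr Iff.rfl (forall_congr' fun i => ?_)
  obtain ⟨⟨h1, -, -⟩, h2, -, -⟩ := laba_lab hl i
  rw [mem_tset, mem_tset, mem_Cont_iff (hA.compact i) (hA.nonempty i),
    mem_Cont_iff (hA.compact i) (hA.nonempty i), h1, h2]

theorem laba_supp_eq {σ : Fin n → SignType} {h : OH (m + 2)} (hh : h ∈ St A σ) :
    supp σ = tset A h := by
  ext i
  rw [mem_supp, mem_tset]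
  obtain ⟨h0, h1, h2⟩ := hh i
  constructor
  · intro hne
    rcases SignType.trichotomy (σ i) with h3 | h3 | h3
    · exact Or.inr (h2 h3)
    · exact absurd h3 hne
    · exact Or.inl (h1 h3)
  · intro h3 h4
    obtain ⟨h5, h6⟩ := h0 h4
    rcases h3 with h3 | h3
    · rw [h3] at h6
      exact lt_irrefl _ h6
    · rw [h3] at h5
      exact lt_irrefl _ h5

open Classical in
theorem St_mult (k : ℕ) (h : OH (m + 2)) :
    ((lvl n k).filter (fun σ => h ∈ St A σ)).card ≤ 2 ^ k := by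
  rcases ((lvl n k).filter (fun σ => h ∈ St A σ)).eq_empty_or_nonempty with h0 | ⟨σ₀, h0⟩
  · rw [h0, Finset.card_empty]
    exact Nat.zero_le _
  · rw [Finset.mem_filter, mem_lvl] at h0
    have h1 : (tset A h).card = k := by rw [← laba_supp_eq h0.2, h0.1]
    have h2 : ((tset A h).powerset).card = 2 ^ k := by rw [Finset.card_powerset, h1]
    rw [← h2]
    refine Finset.card_le_card_of_injOn (fun σ => (tset A h).filter fun i => σ i = 1)
      (fun σ _ => Finset.mem_coe.2 (Finset.mem_powerset.2 (Finset.filter_subset _ _))) ?_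
    intro σ hσ σ' hσ' he
    rw [Finset.mem_coe, Finset.mem_filter] at hσ hσ'
    have e1 := laba_supp_eq hσ.2
    have e2 := laba_supp_eq hσ'.2
    funext i
    by_cases hi : i ∈ tset A h
    · have h3 : i ∈ ((tset A h).filter fun i => σ i = 1) ↔
          i ∈ ((tset A h).filter fun i => σ' i = 1) := by
        have := he
        simp only at this
        rw [this]
      rw [Finset.mem_filter, Finset.mem_filter] at h3
      have h4 : σ i = 1 ↔ σ' i = 1 :=
        ⟨fun e => (h3.1 ⟨hi, e⟩).2, fun e => (h3.2 ⟨hi, e⟩).2⟩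
      have h5 : σ i ≠ 0 := mem_supp.1 (e1 ▸ hi)
      have h6 : σ' i ≠ 0 := mem_supp.1 (e2 ▸ hi)
      rcases SignType.trichotomy (σ i) with h7 | h7 | h7
      · rcases SignType.trichotomy (σ' i) with h8 | h8 | h8
        · rw [h7, h8]
        · exact absurd h8 h6
        · rw [h4.2 h8] at h7
          exact absurd h7 (by decide)
      · exact absurd h7 h5
      · rw [h7, h4.1 h7]
    · have h5 : σ i = 0 := by
        by_contra hc
        exact hi (e1 ▸ mem_supp.2 hc)
      have h6 : σ' i = 0 := by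
        by_contra hc
        exact hi (e2 ▸ mem_supp.2 hc)
      rw [h5, h6]

/-- The tangency pattern of a hyperplane in a stratum. -/
theorem supp_eq_tset {σ : Fin n → SignType} {h : OH (m + 2)} (hh : h ∈ St A σ) :
    supp σ = tset A h := laba_supp_eq hh

theorem cont_edges (hA : CFam A) (k : ℕ) (b : Fin n)
    (hP : ∃ P : Fin (m + 1) → E (m + 2), AffineIndependent ℝ P ∧ ∀ j, P j ∈ A b) :
    ∑ σ ∈ lvl n k, ncomp (St A σ ∩ Cont (A b)) ≤ ((2 ^ k * (48 * n + 3) : ℕ) : ℕ∞) :=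
  cont_sum A (fun i => ⟨hA.compact i, hA.nonempty i⟩) b hP (lvl n k) (fun σ => St A σ)
    (fun σ _ _ _ hl => St_lab σ hl) (2 ^ k) (fun h => St_mult k h)

open Classical in
theorem laba_one (hA : CFam A) (proper : Prop) (h : OH (m + 2)) :
    ((Finset.univ : Finset (Finset (Fin n))).filter
      (fun S : Finset (Fin n) => h ∈ TS proper A (S : Set (Fin n)))).card ≤ 1 := by
  rw [Finset.card_le_one]
  intro S hS S' hS'
  rw [Finset.mem_filter, mem_TS_iff hA] at hS hS'
  ext i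
  have h1 := (hS.2.2 i).symm.trans (hS'.2.2 i)
  simpa using h1

theorem cont_faces (hA : CFam A) (proper : Prop) (b : Fin n)
    (hP : ∃ P : Fin (m + 1) → E (m + 2), AffineIndependent ℝ P ∧ ∀ j, P j ∈ A b) :
    ∑ S : Finset (Fin n), ncomp (TS proper A (S : Set (Fin n)) ∩ Cont (A b)) ≤
      ((48 * n + 3 : ℕ) : ℕ∞) := by
  have h1 := cont_sum A (fun i => ⟨hA.compact i, hA.nonempty i⟩) b hP
    (Finset.univ : Finset (Finset (Fin n))) (fun S => TS proper A (S : Set (Fin n)))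
    (fun S _ _ _ hl => TS_lab hA proper _ hl) 1 (fun h => laba_one hA proper h)
  rw [one_mul] at h1
  exact h1

/-- If all transversals lie in one pencil. -/
theorem pencil_faces (hA : CFam A) (proper : Prop) (D : Pencil (m + 2))
    (hD : TT A ⊆ D.h '' Icc 0 (2 * Real.pi)) :
    ∑ S : Finset (Fin n), ncomp (TS proper A (S : Set (Fin n))) ≤ ((48 * n + 3 : ℕ) : ℕ∞) := by
  have h1 := pencil_sum D A (fun i => ⟨hA.compact i, hA.nonempty i⟩)
    (Finset.univ : Finset (Finset (Fin n))) (fun S => TS proper A (S : Set (Fin n)))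
    (fun S _ _ _ hl => TS_lab hA proper _ hl) 1 (fun h => laba_one hA proper h)
  rw [one_mul] at h1
  refine le_trans (le_of_eq (Finset.sum_congr rfl fun S _ => ?_)) h1
  have h2 : TS proper A (S : Set (Fin n)) ⊆ D.h '' Icc 0 (2 * Real.pi) := fun h hh =>
    hD ((mem_TS_iff hA proper _ h).1 hh).1
  rw [inter_eq_left.2 h2]

end HyperplaneTransversals
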