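import Pool.Agent.Lib.MP_b2e5b9_co.Main

/-!
# Infinitely many faces in every dimension at least four: definitions

The dimension is `k + 4`. The model is the four-dimensional construction in the files
`MP_b2e5b9_co/Family.lean`, `Separated.lean`, `Faces.lean`, `Main.lean`.
-/

set_option autoImplicit false

open scoped RealInnerProductSpace

namespace HyperplaneTransversals

/-- the vertical unit vector -/
noncomputable def vert (k : ℕ) : E (k + 4) := EuclideanSpace.single 0 1

/-- the moment curve in the horizontal hyperplane: coordinate `0` is zero, coordinate `j ≥ 1` is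
`τ ^ j` -/
noncomputable def mom (k : ℕ) (τ : ℝ) : E (k + 4) :=
  WithLp.toLp 2 (fun j : Fin (k + 4) => if j.val = 0 then 0 else τ ^ j.val)

/-- the horizontal direction in which the first two members are extended -/
noncomputable def ndx (k : ℕ) : E (k + 4) := mom k 3 - mom k 0

/-- the direction of the third member -/
noncomputable def gg (k : ℕ) : E (k + 4) := mom k 1 - (2 : ℝ) • mom k 0 + mom k 2

/-- the nodes `0` and `δ / (j + 1)` -/
def nodesD (δ : ℝ) : Set ℝ := insert 0 (Set.range fun j : ℕ => δ / ((j : ℝ) + 1))

/-- the generating points of the first member -/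
noncomputable def ptP (k : ℕ) (r : ℝ) : E (k + 4) :=
  mom k 0 + (-(2 * r)) • ndx k + (-(r ^ 2)) • vert k

/-- the generating points of the second member -/
noncomputable def ptQ (k : ℕ) (r : ℝ) : E (k + 4) :=
  mom k 1 + (-(4 * r)) • ndx k + (-(2 * r ^ 2)) • vert k

/-- the first member -/
noncomputable def gP (k : ℕ) (δ : ℝ) : Set (E (k + 4)) :=
  closure (convexHull ℝ (ptP k '' nodesD δ))

/-- the second member -/
noncomputable def gQ (k : ℕ) (δ : ℝ) : Set (E (k + 4)) :=
  closure (convexHull ℝ (ptQ k '' Set.Icc 0 δ))

/-- the third member, a segment -/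
noncomputable def gB (k : ℕ) (β : ℝ) : Set (E (k + 4)) :=
  closure (convexHull ℝ {mom k 2 - β • gg k, mom k 2 + β • gg k})

/-- the other members, vertical segments -/
noncomputable def gC (k : ℕ) (i : ℕ) : Set (E (k + 4)) :=
  closure (convexHull ℝ {mom k i - vert k, mom k i + vert k})

/-- the family -/
noncomputable def famD (k n : ℕ) (δ β : ℝ) (i : Fin n) : Set (E (k + 4)) :=
  if i.val = 0 then gP k δ else if i.val = 1 then gQ k δ else if i.val = 2 then gB k β
  else gC k i.val

end HyperplaneTransversals
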