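import Pool.Agent.Lib.MP_b2e5b9_co_D.NDef

/-!
# General position of the points of the moment curve

Plan. `mom_indep`: by `affineIndependent_iff` or its definition through weights: if the weights
`w` have sum zero and `∑ j, w j • mom k (τ j) = 0`, then `∑ j, w j * τ j ^ l = 0` for
`l = 0, …, k + 3` (`l = 0` is the sum of the weights, `l ≥ 1` is coordinate `l`), so `w = 0` by the
Vandermonde determinant (`Matrix.det_vandermonde_ne_zero_iff`, or
`Matrix.eq_zero_of_forall_index_sum_pow_mul_eq_zero` and relatives in
`Mathlib/LinearAlgebra/Vandermonde.lean`).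

`exists_rho`: the set of affinely independent tuples is open
(`isOpen_setOfPred_affineIndependent`), for each of the finitely many injective `I` a ball (closed
ball of positive radius, supremum distance on tuples) around the tuple
`fun j => mom k (I j).val` is contained in it; take the minimum of the radii.
-/

set_option autoImplicit false

open scoped RealInnerProductSpace

namespace HyperplaneTransversals

theorem mom_indep (k : ℕ) {τ : Fin (k + 4) → ℝ} (hτ : Function.Injective τ) :
    AffineIndependent ℝ (fun j => mom k (τ j)) := by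
  rw [affineIndependent_iff]
  intro s w hw0 hw1
  set v : Fin (k + 4) → ℝ := fun j => if j ∈ s then w j else 0 with hv
  have hz : v = 0 := by
    refine Matrix.eq_zero_of_forall_pow_sum_mul_pow_eq_zero (f := τ) hτ ?_
    intro i
    have e : ∑ j, v j * τ j ^ (i : ℕ) = ∑ j ∈ s, w j * τ j ^ (i : ℕ) := by
      rw [← Finset.sum_filter_add_sum_filter_not Finset.univ (fun j => j ∈ s)]
      have h2 : ∑ x ∈ Finset.univ.filter (fun j => j ∉ s), v x * τ x ^ (i : ℕ) = 0 := by
        refine Finset.sum_eq_zero fun j hj => ?_
        have := (Finset.mem_filter.1 hj).2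
        simp [hv, this]
      rw [h2, add_zero]
      have h3 : Finset.univ.filter (fun j => j ∈ s) = s := by
        ext j
        simp
      rw [h3]
      refine Finset.sum_congr rfl fun j hj => ?_
      simp [hv, hj]
    rw [e]
    by_cases hi : (i : ℕ) = 0
    · rw [hi]
      simpa using hw0
    · have h4 := congrArg (fun x : E (k + 4) => x i) hw1
      simp only at h4
      have h5 : (∑ j ∈ s, w j • mom k (τ j) : E (k + 4)) i = ∑ j ∈ s, w j * τ j ^ (i : ℕ) := by
        rw [WithLp.ofLp_sum, Finset.sum_apply]
        refine Finset.sum_congr rfl fun j _ => ?_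
        have hi' : i ≠ 0 := fun h => hi (by rw [h]; rfl)
        simp [mom, hi']
      rw [h5] at h4
      rw [h4]
      rfl
  intro j hj
  have := congrFun hz j
  simpa [hv, hj] using this

theorem exists_rho (k n : ℕ) : ∃ ρ : ℝ, 0 < ρ ∧ ∀ I : Fin (k + 4) → Fin n,
    Function.Injective I → ∀ a : Fin (k + 4) → E (k + 4),
      (∀ j, ‖a j - mom k ((I j).val : ℝ)‖ ≤ ρ) → AffineIndependent ℝ a := by
  classical
  have h1 : ∀ I : Fin (k + 4) → Fin n, ∃ ρ : ℝ, 0 < ρ ∧ (Function.Injective I →
      ∀ a : Fin (k + 4) → E (k + 4),
      (∀ j, ‖a j - mom k ((I j).val : ℝ)‖ ≤ ρ) → AffineIndependent ℝ a) := by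
    intro I
    by_cases hI : Function.Injective I
    · have hind : AffineIndependent ℝ (fun j => mom k ((I j).val : ℝ)) := by
        refine mom_indep k (τ := fun j => ((I j).val : ℝ)) fun i j hij => ?_
        have : ((I i).val : ℝ) = ((I j).val : ℝ) := hij
        exact hI (Fin.ext (by exact_mod_cast this))
      have hopen : IsOpen {a : Fin (k + 4) → E (k + 4) | AffineIndependent ℝ a} :=
        isOpen_setOfPred_affineIndependent
      obtain ⟨r, hr, hb⟩ := Metric.isOpen_iff.1 hopen _ hind
      refine ⟨r / 2, by linarith, fun _ a ha => ?_⟩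
      refine hb ?_
      rw [Metric.mem_ball]
      refine lt_of_le_of_lt ?_ (half_lt_self hr)
      refine (dist_pi_le_iff (by linarith)).2 fun j => ?_
      rw [dist_eq_norm]
      exact ha j
    · exact ⟨1, one_pos, fun h => absurd h hI⟩
  choose ρ hρ h using h1
  rcases isEmpty_or_nonempty (Fin (k + 4) → Fin n) with he | hne
  · exact ⟨1, one_pos, fun I => (he.false I).elim⟩
  · obtain ⟨I₀, hI₀⟩ := Finite.exists_min ρ
    refine ⟨ρ I₀, hρ I₀, fun I hI a ha => h I hI a fun j => (ha j).trans (hI₀ I)⟩

end HyperplaneTransversals
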