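import Pool.Agent.Lib.MP_b2e5b9_co_D.NPoint

/-!
# Infinitely many faces in every dimension at least four

Proof. Let `δ₀` be from `famD_separated`, `β = min δ₀ (1 / 2)`, `δ = min δ₀ (1 / (100 n ^ 3))`. The
family `famD k n δ β` is good (`famD_good`) and separated. For the faces copy the proof of
`faces_infinite` (`MP_b2e5b9_co/Main.lean`): the components of the points `H j` of
`exists_pointD` are pairwise different by `separated_facesD` with `q = δ / (j + 2)`, the node between
`midD δ j` and `midD δ l` for `j < l`; `goodS` gives `GoodS proper (theS proper n)`. Note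
`k + 4 - 2 = k + 2`.
-/

set_option autoImplicit false

open scoped RealInnerProductSpace

namespace HyperplaneTransversals

private theorem ninf_div_le {δ : ℝ} (hδ : 0 < δ) {a b : ℝ} (ha : 0 < a) (hab : a ≤ b) :
    δ / b ≤ δ / a :=
  div_le_div_of_nonneg_left hδ.le ha hab

/-- The components of the points between different nodes are different. -/
private theorem ninf_faces (k n : ℕ) (hn : 3 ≤ n) (proper : Prop) {δ β : ℝ} (hδ : 0 < δ)
    (hδn : δ * (100 * (n : ℝ) ^ 3) ≤ 1) (hβ : 0 < β) (hβ1 : β < 1) :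
    (faces proper (famD k n δ β)).Infinite := by
  choose H hH p hp hP hQ hpos hslope using exists_pointD k n hn proper hδ hδn hβ hβ1
  have key : ∀ j l : ℕ, j < l →
      connectedComponentIn (stratum proper (famD k n δ β) (theS proper n)) (H l) ≠
        connectedComponentIn (stratum proper (famD k n δ β) (theS proper n)) (H j) := by
    intro j l hjl
    have hjl' : (j : ℝ) + 1 ≤ l := by exact_mod_cast hjl
    have hj0 : (0 : ℝ) ≤ j := Nat.cast_nonneg j
    have hl : midD δ l ≤ δ / ((j : ℝ) + 2) := by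
      have h1 := ninf_div_le hδ (show (0 : ℝ) < (j : ℝ) + 2 by linarith)
        (show (j : ℝ) + 2 ≤ (l : ℝ) + 1 by linarith)
      have h2 := ninf_div_le hδ (show (0 : ℝ) < (l : ℝ) + 1 by linarith)
        (show (l : ℝ) + 1 ≤ (l : ℝ) + 2 by linarith)
      unfold midD
      linarith
    have hj : δ / ((j : ℝ) + 2) ≤ midD δ j := by
      have h2 := ninf_div_le hδ (show (0 : ℝ) < (j : ℝ) + 1 by linarith)
        (show (j : ℝ) + 1 ≤ (j : ℝ) + 2 by linarith)
      unfold midD
      linarith
    have hq : δ / ((j : ℝ) + 2) ∈ nodesD δ := by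
      refine Or.inr ⟨j + 1, ?_⟩
      push_cast
      ring
    have hq0 : 0 < δ / ((j : ℝ) + 2) := by positivity
    refine separated_facesD hn hδ hβ.le hβ1 (goodS proper n) (hH l) (hH j) (δ / ((j : ℝ) + 2))
      hq hq0 ⟨p l, ⟨⟨hP l, hQ l⟩, ?_, ?_⟩, hp l⟩
      ⟨p j, Or.inl ⟨⟨hP j, hQ j⟩, Or.inr ?_⟩, hp j⟩
    · simp only [Set.mem_ofPred_eq]
      rw [hslope l]
      have h1 := gapD_facts hδ l
      have h2 := hpos l
      have h3 : 0 < midD δ l := h1.1.trans h1.2.1
      nlinarith
    · simp only [Set.mem_ofPred_eq]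
      rw [hslope l]
      have h2 := hpos l
      nlinarith
    · simp only [Set.mem_ofPred_eq]
      rw [hslope j]
      have h2 := hpos j
      nlinarith
  refine Set.infinite_of_injective_forall_mem
    (f := fun j : ℕ =>
      connectedComponentIn (stratum proper (famD k n δ β) (theS proper n)) (H j)) ?_ ?_
  · intro j l hjl
    rcases lt_trichotomy j l with h | h | h
    · exact absurd hjl.symm (key j l h)
    · exact h
    · exact absurd hjl (key l j h)
  · intro j
    exact ⟨theS proper n, H j, hH j, rfl⟩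

theorem infinite_faces (d n : ℕ) (hd : 4 ≤ d) (hn : 3 ≤ n) :
    ∃ A : Fin n → Set (E d), (∀ i, (A i).Nonempty ∧ IsCompact (A i) ∧ Convex ℝ (A i)) ∧
      Separated (d - 2) A ∧ ∀ proper : Prop, (faces proper A).Infinite := by
  obtain ⟨k, rfl⟩ : ∃ k, d = k + 4 := ⟨d - 4, by omega⟩
  obtain ⟨δ₀, hδ₀, hsep⟩ := famD_separated k n
  have hn0 : (0 : ℝ) < n := by
    have : 0 < n := by omega
    exact_mod_cast this
  have hc : (0 : ℝ) < 100 * (n : ℝ) ^ 3 := by positivity
  have hβ : 0 < min δ₀ (1 / 2 : ℝ) := lt_min hδ₀ (by norm_num)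
  have hβ1 : min δ₀ (1 / 2 : ℝ) < 1 := (min_le_right _ _).trans_lt (by norm_num)
  have hδ : 0 < min δ₀ (1 / (100 * (n : ℝ) ^ 3)) := lt_min hδ₀ (by positivity)
  have hδn : min δ₀ (1 / (100 * (n : ℝ) ^ 3)) * (100 * (n : ℝ) ^ 3) ≤ 1 := by
    have h1 := mul_le_mul_of_nonneg_right (min_le_right δ₀ (1 / (100 * (n : ℝ) ^ 3))) hc.le
    rwa [one_div, inv_mul_cancel₀ hc.ne', ← one_div] at h1
  exact ⟨famD k n (min δ₀ (1 / (100 * (n : ℝ) ^ 3))) (min δ₀ (1 / 2)),
    fun i => famD_good k n _ _ i hδ.le,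
    hsep _ _ hδ.le (min_le_left _ _) hβ.le (min_le_left _ _),
    fun proper => ninf_faces k n hn proper hδ hδn hβ hβ1⟩

end HyperplaneTransversals
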