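import Pool.Agent.Lib.MP_b2e5b9_co_D.NSep

/-!
# Hyperplanes whose slope is a node

For a unit vector `u` write `α = ⟪u, ndx k⟫`, `υ = ⟪u, vert k⟫`.

`keyD` (model: `key` in `MP_b2e5b9_co/Faces.lean`). Let `α = -(q * υ)`, `υ ≥ 0`, `q` a node, let
`gP`
and `gQ` lie below the hyperplane `(u, t)` and touch it. Then
`⟪u, ptP k r⟫ = ⟪u, mom k 0⟫ + υ (2 q r - r ^ 2)`, with maximum at `r = q`, so
`t = ⟪u, mom k 0⟫ + υ q ^ 2`, and in the same way `t = ⟪u, mom k 1⟫ + 2 υ q ^ 2` (`q ∈ [0, δ]`). So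
`⟪u, gg k⟫ = ⟪u, mom k 1⟫ - 2 ⟪u, mom k 0⟫ + ⟪u, mom k 2⟫ = ⟪u, mom k 2⟫ - t =: s`. If the
hyperplane
meets `gB k β` in `mom k 2 + (c β) • gg k`, `|c| ≤ 1` (`mem_gB`) then
`t = ⟪u, mom k 2⟫ + c β s`, that is `s (1 + c β) = 0`, so `s = 0` (`β < 1`), and the hyperplane
contains `gB`.

`coordP`, `coordQ`: the values at `r = 0, δ, δ / 2` (these are nodes) give `α = υ = 0`.

The remaining lemmas are word for word those of `Main.lean`: replace `(p.1 : E 4) 0` by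
`⟪(p.1 : E _), ndx k⟫` and `(p.1 : E 4) 1` by `⟪(p.1 : E _), vert k⟫`.
-/

set_option autoImplicit false

open scoped RealInnerProductSpace

namespace HyperplaneTransversals

variable {k n : ℕ} {δ β : ℝ}

theorem nodesD_bounds (hδ : 0 < δ) {q : ℝ} (hq : q ∈ nodesD δ) : 0 ≤ q ∧ q ≤ δ := by
  rcases hq with rfl | ⟨j, rfl⟩
  · exact ⟨le_rfl, hδ.le⟩
  · have hj : (1 : ℝ) ≤ (j : ℝ) + 1 := by
      have : (0 : ℝ) ≤ (j : ℝ) := by positivity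
      linarith
    constructor
    · positivity
    · exact div_le_self hδ.le hj

theorem nkey_inner_ptP (u : E (k + 4)) (r : ℝ) :
    ⟪u, ptP k r⟫ = ⟪u, mom k 0⟫ - 2 * r * ⟪u, ndx k⟫ - r ^ 2 * ⟪u, vert k⟫ := by
  unfold ptP
  rw [inner_add_right, inner_add_right, inner_smul_right, inner_smul_right]
  ring

theorem nkey_inner_ptQ (u : E (k + 4)) (r : ℝ) :
    ⟪u, ptQ k r⟫ = ⟪u, mom k 1⟫ - 4 * r * ⟪u, ndx k⟫ - 2 * r ^ 2 * ⟪u, vert k⟫ := by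
  unfold ptQ
  rw [inner_add_right, inner_add_right, inner_smul_right, inner_smul_right]
  ring

theorem nkey_inner_gg (u : E (k + 4)) :
    ⟪u, gg k⟫ = ⟪u, mom k 1⟫ - 2 * ⟪u, mom k 0⟫ + ⟪u, mom k 2⟫ := by
  unfold gg
  rw [inner_add_right, inner_sub_right, inner_smul_right]

theorem keyD (hδ : 0 < δ) (hβ : 0 ≤ β) (hβ1 : β < 1) (p : Metric.sphere (0 : E (k + 4)) 1 × ℝ)
    (q : ℝ) (hq : q ∈ nodesD δ)
    (hP : ∀ x ∈ gP k δ, ⟪(p.1 : E (k + 4)), x⟫ ≤ p.2)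
    (hQ : ∀ x ∈ gQ k δ, ⟪(p.1 : E (k + 4)), x⟫ ≤ p.2)
    (mP : ∃ x ∈ gP k δ, ⟪(p.1 : E (k + 4)), x⟫ = p.2)
    (mQ : ∃ x ∈ gQ k δ, ⟪(p.1 : E (k + 4)), x⟫ = p.2)
    (mB : ∃ x ∈ gB k β, ⟪(p.1 : E (k + 4)), x⟫ = p.2)
    (h0 : ⟪(p.1 : E (k + 4)), ndx k⟫ = -q * ⟪(p.1 : E (k + 4)), vert k⟫)
    (h1 : 0 ≤ ⟪(p.1 : E (k + 4)), vert k⟫) :
    ∀ x ∈ gB k β, ⟪(p.1 : E (k + 4)), x⟫ = p.2 := by
  obtain ⟨hq0, hq1⟩ := nodesD_bounds hδ hq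
  set u : E (k + 4) := (p.1 : E (k + 4)) with hu
  set υ : ℝ := ⟪u, vert k⟫ with hυ
  have e1 : p.2 = ⟪u, mom k 0⟫ + υ * q ^ 2 := by
    apply le_antisymm
    · obtain ⟨x, hx, hxe⟩ := mP
      rw [← hxe]
      refine hull_leD u _ ?_ x hx
      rintro _ ⟨r, hr, rfl⟩
      rw [nkey_inner_ptP, h0]
      nlinarith [mul_nonneg (sq_nonneg (q - r)) h1]
    · have := hP _ (subset_hullD ⟨q, hq, rfl⟩)
      rw [nkey_inner_ptP, h0] at this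
      nlinarith
  have e2 : p.2 = ⟪u, mom k 1⟫ + 2 * υ * q ^ 2 := by
    apply le_antisymm
    · obtain ⟨x, hx, hxe⟩ := mQ
      rw [← hxe]
      refine hull_leD u _ ?_ x hx
      rintro _ ⟨r, hr, rfl⟩
      rw [nkey_inner_ptQ, h0]
      nlinarith [mul_nonneg (sq_nonneg (q - r)) h1]
    · have := hQ _ (subset_hullD ⟨q, ⟨hq0, hq1⟩, rfl⟩)
      rw [nkey_inner_ptQ, h0] at this
      nlinarith
  have e3 : ⟪u, gg k⟫ = ⟪u, mom k 2⟫ - p.2 := by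
    rw [nkey_inner_gg]
    linarith
  have hin : ∀ c : ℝ, ⟪u, mom k 2 + (c * β) • gg k⟫ = ⟪u, mom k 2⟫ + c * β * ⟪u, gg k⟫ := by
    intro c
    rw [inner_add_right, inner_smul_right]
  obtain ⟨y, hy, hye⟩ := mB
  obtain ⟨c, hc, rfl⟩ := mem_gB hy
  rw [hin] at hye
  have hcb : |c * β| < 1 := by
    rw [abs_mul, abs_of_nonneg hβ]
    calc |c| * β ≤ 1 * β := mul_le_mul_of_nonneg_right hc hβ
      _ < 1 := by linarith
  have hcb' := (abs_lt.1 hcb).1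
  have e4 : ⟪u, gg k⟫ = 0 := by
    have h : ⟪u, gg k⟫ * (1 + c * β) = 0 := by linarith
    exact (mul_eq_zero.1 h).resolve_right (by linarith)
  intro x hx
  obtain ⟨c', -, rfl⟩ := mem_gB hx
  rw [hin, e4]
  linarith

theorem coordP (hδ : 0 < δ) (p : Metric.sphere (0 : E (k + 4)) 1 × ℝ)
    (h : ∀ x ∈ gP k δ, ⟪(p.1 : E (k + 4)), x⟫ = p.2) :
    ⟪(p.1 : E (k + 4)), ndx k⟫ = 0 ∧ ⟪(p.1 : E (k + 4)), vert k⟫ = 0 := by
  have a0 := h _ (subset_hullD ⟨0, Or.inl rfl, rfl⟩)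
  have a1 := h _ (subset_hullD ⟨δ / (((0 : ℕ) : ℝ) + 1), Or.inr ⟨0, rfl⟩, rfl⟩)
  have a2 := h _ (subset_hullD ⟨δ / (((1 : ℕ) : ℝ) + 1), Or.inr ⟨1, rfl⟩, rfl⟩)
  rw [nkey_inner_ptP] at a0 a1 a2
  set α : ℝ := ⟪(p.1 : E (k + 4)), ndx k⟫
  set υ : ℝ := ⟪(p.1 : E (k + 4)), vert k⟫
  set b : ℝ := ⟪(p.1 : E (k + 4)), mom k 0⟫
  have d1 : δ / (((0 : ℕ) : ℝ) + 1) = δ := by simp
  have d2 : δ / (((1 : ℕ) : ℝ) + 1) = δ / 2 := by norm_num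
  rw [d1] at a1
  rw [d2] at a2
  have f1 : δ * (2 * α + δ * υ) = 0 := by linarith
  have f2 : δ * (α + δ / 4 * υ) = 0 := by linarith
  have g1 := (mul_eq_zero.1 f1).resolve_left hδ.ne'
  have g2 := (mul_eq_zero.1 f2).resolve_left hδ.ne'
  have g3 : δ * υ = 0 := by linarith
  have g4 := (mul_eq_zero.1 g3).resolve_left hδ.ne'
  refine ⟨?_, g4⟩
  rw [g4] at g2
  linarith

theorem coordQ (hδ : 0 < δ) (p : Metric.sphere (0 : E (k + 4)) 1 × ℝ)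
    (h : ∀ x ∈ gQ k δ, ⟪(p.1 : E (k + 4)), x⟫ = p.2) :
    ⟪(p.1 : E (k + 4)), ndx k⟫ = 0 ∧ ⟪(p.1 : E (k + 4)), vert k⟫ = 0 := by
  have a0 := h _ (subset_hullD ⟨0, ⟨le_rfl, hδ.le⟩, rfl⟩)
  have a1 := h _ (subset_hullD ⟨δ, ⟨hδ.le, le_rfl⟩, rfl⟩)
  have a2 := h _ (subset_hullD ⟨δ / 2, ⟨by linarith, by linarith⟩, rfl⟩)
  rw [nkey_inner_ptQ] at a0 a1 a2
  set α : ℝ := ⟪(p.1 : E (k + 4)), ndx k⟫
  set υ : ℝ := ⟪(p.1 : E (k + 4)), vert k⟫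
  set b : ℝ := ⟪(p.1 : E (k + 4)), mom k 1⟫
  have f1 : δ * (2 * α + δ * υ) = 0 := by linarith
  have f2 : δ * (α + δ / 4 * υ) = 0 := by linarith
  have g1 := (mul_eq_zero.1 f1).resolve_left hδ.ne'
  have g2 := (mul_eq_zero.1 f2).resolve_left hδ.ne'
  have g3 : δ * υ = 0 := by linarith
  have g4 := (mul_eq_zero.1 g3).resolve_left hδ.ne'
  refine ⟨?_, g4⟩
  rw [g4] at g2
  linarith

/-- a hyperplane with slope in `[0, q]` which lies above the first two members -/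
def R1D (k : ℕ) (δ q : ℝ) : Set (Metric.sphere (0 : E (k + 4)) 1 × ℝ) :=
  ({p | ∀ x ∈ gP k δ, ⟪(p.1 : E (k + 4)), x⟫ ≤ p.2} ∩
      {p | ∀ x ∈ gQ k δ, ⟪(p.1 : E (k + 4)), x⟫ ≤ p.2}) ∩
    ({p | ⟪(p.1 : E (k + 4)), ndx k⟫ ≤ 0} ∩
      {p | 0 ≤ ⟪(p.1 : E (k + 4)), ndx k⟫ + q * ⟪(p.1 : E (k + 4)), vert k⟫})

/-- the complementary cases -/
def R2D (k : ℕ) (δ q : ℝ) : Set (Metric.sphere (0 : E (k + 4)) 1 × ℝ) :=
  (({p | ∀ x ∈ gP k δ, ⟪(p.1 : E (k + 4)), x⟫ ≤ p.2} ∩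
      {p | ∀ x ∈ gQ k δ, ⟪(p.1 : E (k + 4)), x⟫ ≤ p.2}) ∩
    ({p | 0 ≤ ⟪(p.1 : E (k + 4)), ndx k⟫} ∪
      {p | ⟪(p.1 : E (k + 4)), ndx k⟫ + q * ⟪(p.1 : E (k + 4)), vert k⟫ ≤ 0})) ∪
  ({p | ∀ x ∈ gP k δ, ⟪(p.1 : E (k + 4)), x⟫ ≤ p.2} ∩
    {p | ∀ x ∈ gQ k δ, p.2 ≤ ⟪(p.1 : E (k + 4)), x⟫})

theorem nkey_continuous (v : E (k + 4)) :
    Continuous fun p : Metric.sphere (0 : E (k + 4)) 1 × ℝ => ⟪(p.1 : E (k + 4)), v⟫ :=
  (continuous_subtype_val.comp continuous_fst).inner continuous_const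

theorem nkey_isClosed_le_side (A : Set (E (k + 4))) :
    IsClosed {p : Metric.sphere (0 : E (k + 4)) 1 × ℝ | ∀ x ∈ A, ⟪(p.1 : E (k + 4)), x⟫ ≤ p.2} := by
  have : {p : Metric.sphere (0 : E (k + 4)) 1 × ℝ | ∀ x ∈ A, ⟪(p.1 : E (k + 4)), x⟫ ≤ p.2} =
      ⋂ x ∈ A, {p : Metric.sphere (0 : E (k + 4)) 1 × ℝ | ⟪(p.1 : E (k + 4)), x⟫ ≤ p.2} := by
    ext p
    simp
  rw [this]
  exact isClosed_biInter fun x _ => isClosed_le (nkey_continuous x) continuous_snd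

theorem nkey_isClosed_ge_side (A : Set (E (k + 4))) :
    IsClosed {p : Metric.sphere (0 : E (k + 4)) 1 × ℝ | ∀ x ∈ A, p.2 ≤ ⟪(p.1 : E (k + 4)), x⟫} := by
  have : {p : Metric.sphere (0 : E (k + 4)) 1 × ℝ | ∀ x ∈ A, p.2 ≤ ⟪(p.1 : E (k + 4)), x⟫} =
      ⋂ x ∈ A, {p : Metric.sphere (0 : E (k + 4)) 1 × ℝ | p.2 ≤ ⟪(p.1 : E (k + 4)), x⟫} := by
    ext p
    simp
  rw [this]
  exact isClosed_biInter fun x _ => isClosed_le continuous_snd (nkey_continuous x)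

theorem isClosed_R1D (q : ℝ) : IsClosed (R1D k δ q) := by
  refine ((nkey_isClosed_le_side _).inter (nkey_isClosed_le_side _)).inter (IsClosed.inter ?_ ?_)
  · exact isClosed_le (nkey_continuous _) continuous_const
  · exact isClosed_le continuous_const
      ((nkey_continuous _).add (continuous_const.mul (nkey_continuous _)))

theorem isClosed_R2D (q : ℝ) : IsClosed (R2D k δ q) := by
  refine IsClosed.union (((nkey_isClosed_le_side _).inter (nkey_isClosed_le_side _)).inter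
    (IsClosed.union ?_ ?_)) ((nkey_isClosed_le_side _).inter (nkey_isClosed_ge_side _))
  · exact isClosed_le continuous_const (nkey_continuous _)
  · exact isClosed_le
      ((nkey_continuous _).add (continuous_const.mul (nkey_continuous _))) continuous_const

theorem nkey_zero {i : Fin n} (h : i.val = 0) : famD k n δ β i = gP k δ := by simp [famD, h]
theorem nkey_one {i : Fin n} (h : i.val = 1) : famD k n δ β i = gQ k δ := by simp [famD, h]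
theorem nkey_two {i : Fin n} (h : i.val = 2) : famD k n δ β i = gB k β := by simp [famD, h]

/-- In a stratum, a hyperplane cannot have its slope in a node. -/
theorem nkey_no_node (hn : 3 ≤ n) (hδ : 0 < δ) (hβ : 0 ≤ β) (hβ1 : β < 1) {proper : Prop}
    {S : Set (Fin n)} (hS : GoodS proper S) {H : Hyp (k + 4)}
    (hH : H ∈ stratum proper (famD k n δ β) S) (p : Metric.sphere (0 : E (k + 4)) 1 × ℝ)
    (hp : hyperplane p = H.flat) (q : ℝ) (hq : q ∈ nodesD δ)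
    (hP : ∀ x ∈ gP k δ, ⟪(p.1 : E (k + 4)), x⟫ ≤ p.2)
    (hQ : ∀ x ∈ gQ k δ, ⟪(p.1 : E (k + 4)), x⟫ ≤ p.2)
    (h0 : ⟪(p.1 : E (k + 4)), ndx k⟫ = -q * ⟪(p.1 : E (k + 4)), vert k⟫)
    (h1 : 0 ≤ ⟪(p.1 : E (k + 4)), vert k⟫) : False := by
  obtain ⟨hT, hSup⟩ := hH
  have m0 := hT ⟨0, by omega⟩
  have m1 := hT ⟨1, by omega⟩
  have m2 := hT ⟨2, by omega⟩
  rw [nkey_zero rfl, ← hp] at m0
  rw [nkey_one rfl, ← hp] at m1
  rw [nkey_two rfl, ← hp] at m2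
  have mP : ∃ x ∈ gP k δ, ⟪(p.1 : E (k + 4)), x⟫ = p.2 := by
    obtain ⟨x, hx, hx'⟩ := m0
    exact ⟨x, hx', (mem_hyperplane p x).1 hx⟩
  have mQ : ∃ x ∈ gQ k δ, ⟪(p.1 : E (k + 4)), x⟫ = p.2 := by
    obtain ⟨x, hx, hx'⟩ := m1
    exact ⟨x, hx', (mem_hyperplane p x).1 hx⟩
  have mB : ∃ x ∈ gB k β, ⟪(p.1 : E (k + 4)), x⟫ = p.2 := by
    obtain ⟨x, hx, hx'⟩ := m2
    exact ⟨x, hx', (mem_hyperplane p x).1 hx⟩
  have hk := keyD hδ hβ hβ1 p q hq hP hQ mP mQ mB h0 h1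
  have hc : gB k β ⊆ (hyperplane p : Set (E (k + 4))) :=
    fun x hx => (mem_hyperplane p x).2 (hk x hx)
  have h2 := hSup ⟨2, by omega⟩
  rw [(hS ⟨2, by omega⟩).2.2 rfl, nkey_two rfl, ← hp] at h2
  by_cases hpr : proper
  · exact (h2.2 hpr).2.2 hpr hc
  · exact hpr (h2.1 ⟨m2, ⟨p, rfl, fun x hx => (hk x hx).le⟩, fun h => absurd h hpr⟩)

/-- The two closed sets do not meet inside a stratum. -/
theorem nkey_no_both (hn : 3 ≤ n) (hδ : 0 < δ) (hβ : 0 ≤ β) (hβ1 : β < 1) {proper : Prop}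
    {S : Set (Fin n)} (hS : GoodS proper S) {H : Hyp (k + 4)}
    (hH : H ∈ stratum proper (famD k n δ β) S) (q : ℝ) (hq : q ∈ nodesD δ) (hqpos : 0 < q)
    (h1 : ∃ p ∈ R1D k δ q, hyperplane p = H.flat)
    (h2 : ∃ p ∈ R2D k δ q, hyperplane p = H.flat) : False := by
  obtain ⟨p, ⟨⟨hP, hQ⟩, hs0, hs1⟩, hp⟩ := h1
  obtain ⟨p', hp'R, hp'⟩ := h2
  simp only [Set.mem_ofPred_eq] at hP hQ hs0 hs1
  have hz : ⟪(p.1 : E (k + 4)), ndx k⟫ = 0 ∧ ⟪(p.1 : E (k + 4)), vert k⟫ = 0 → False := by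
    rintro ⟨z0, z1⟩
    exact nkey_no_node hn hδ hβ hβ1 hS hH p hp 0 (Or.inl rfl) hP hQ (by rw [z0]; ring) z1.ge
  have h : 0 ≤ ⟪(p.1 : E (k + 4)), vert k⟫ := by
    apply nonneg_of_mul_nonneg_right (a := q) _ hqpos
    linarith
  rcases hyperplane_eq_iff p p' (hp.trans hp'.symm) with ⟨e1, e2⟩ | ⟨e1, e2⟩
  · rcases hp'R with ⟨-, hs | hs⟩ | ⟨-, hQ'⟩
    · simp only [Set.mem_ofPred_eq, e1] at hs
      have z0 : ⟪(p.1 : E (k + 4)), ndx k⟫ = 0 := le_antisymm hs0 hs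
      exact nkey_no_node hn hδ hβ hβ1 hS hH p hp 0 (Or.inl rfl) hP hQ (by rw [z0]; ring) h
    · simp only [Set.mem_ofPred_eq, e1] at hs
      exact nkey_no_node hn hδ hβ hβ1 hS hH p hp q hq hP hQ (by linarith) h
    · simp only [Set.mem_ofPred_eq, e1, e2] at hQ'
      exact hz (coordQ hδ p fun x hx => le_antisymm (hQ x hx) (hQ' x hx))
  · rcases hp'R with ⟨⟨hP', -⟩, -⟩ | ⟨hP', -⟩
    · simp only [Set.mem_ofPred_eq, e1, e2, inner_neg_left, neg_le_neg_iff] at hP'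
      exact hz (coordP hδ p fun x hx => le_antisymm (hP x hx) (hP' x hx))
    · simp only [Set.mem_ofPred_eq, e1, e2, inner_neg_left, neg_le_neg_iff] at hP'
      exact hz (coordP hδ p fun x hx => le_antisymm (hP x hx) (hP' x hx))

/-- Every hyperplane of the stratum lies in one of the two closed sets. -/
theorem nkey_covered (hn : 3 ≤ n) {proper : Prop} {S : Set (Fin n)} (hS : GoodS proper S)
    {H : Hyp (k + 4)} (hH : H ∈ stratum proper (famD k n δ β) S) (q : ℝ) :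
    (∃ p ∈ R1D k δ q, hyperplane p = H.flat) ∨ (∃ p ∈ R2D k δ q, hyperplane p = H.flat) := by
  obtain ⟨-, hSup⟩ := hH
  have s0 := (hSup ⟨0, by omega⟩).2 ((hS ⟨0, by omega⟩).1 rfl)
  have s1 := (hSup ⟨1, by omega⟩).2 ((hS ⟨1, by omega⟩).2.1 rfl)
  rw [nkey_zero rfl] at s0
  rw [nkey_one rfl] at s1
  obtain ⟨-, ⟨p, hp, hP⟩, -⟩ := s0
  obtain ⟨-, ⟨p', hp', hQ⟩, -⟩ := s1
  rcases hyperplane_eq_iff p p' (hp.trans hp'.symm) with ⟨e1, e2⟩ | ⟨e1, e2⟩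
  · rw [e1, e2] at hQ
    by_cases c1 : 0 ≤ ⟪(p.1 : E (k + 4)), ndx k⟫
    · exact Or.inr ⟨p, Or.inl ⟨⟨hP, hQ⟩, Or.inl c1⟩, hp⟩
    · by_cases c2 : ⟪(p.1 : E (k + 4)), ndx k⟫ + q * ⟪(p.1 : E (k + 4)), vert k⟫ ≤ 0
      · exact Or.inr ⟨p, Or.inl ⟨⟨hP, hQ⟩, Or.inr c2⟩, hp⟩
      · exact Or.inl ⟨p, ⟨⟨hP, hQ⟩, (not_le.1 c1).le, (not_le.1 c2).le⟩, hp⟩
  · refine Or.inr ⟨p, Or.inr ⟨hP, ?_⟩, hp⟩
    intro x hx
    have := hQ x hx
    rw [e1, e2, inner_neg_left, neg_le_neg_iff] at this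
    exact this

/-- Two points of a stratum on different sides of a node lie in different faces. -/
theorem separated_facesD (hn : 3 ≤ n) (hδ : 0 < δ) (hβ : 0 ≤ β) (hβ1 : β < 1) {proper : Prop}
    {S : Set (Fin n)} (hS : GoodS proper S) {H H' : Hyp (k + 4)}
    (hH : H ∈ stratum proper (famD k n δ β) S) (hH' : H' ∈ stratum proper (famD k n δ β) S)
    (q : ℝ) (hq : q ∈ nodesD δ) (hqpos : 0 < q)
    (h1 : ∃ p ∈ R1D k δ q, hyperplane p = H.flat)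
    (h2 : ∃ p ∈ R2D k δ q, hyperplane p = H'.flat) :
    connectedComponentIn (stratum proper (famD k n δ β) S) H ≠
      connectedComponentIn (stratum proper (famD k n δ β) S) H' := by
  intro he
  have hpre : IsPreconnected (connectedComponentIn (stratum proper (famD k n δ β) S) H) :=
    isPreconnected_connectedComponentIn
  have hsub : connectedComponentIn (stratum proper (famD k n δ β) S) H ⊆
      stratum proper (famD k n δ β) S := connectedComponentIn_subset _ _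
  rw [isPreconnected_closed_iff] at hpre
  obtain ⟨K, hK, hK1, hK2⟩ := hpre _ _ (isClosed_image _ (isClosed_R1D q))
    (isClosed_image _ (isClosed_R2D q)) (fun K hK => nkey_covered hn hS (hsub hK) q)
    ⟨H, mem_connectedComponentIn hH, h1⟩ ⟨H', by rw [he]; exact mem_connectedComponentIn hH', h2⟩
  exact nkey_no_both hn hδ hβ hβ1 hS (hsub hK) q hq hqpos hK1 hK2

end HyperplaneTransversals
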