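import Pool.Agent.Lib.MP_b2e5b9_co_D.NKey

/-!
# Hyperplanes with slope between two nodes

Notation: nodes `δ / (j + 1)`, `a = midD δ j` the midpoint of the nodes number `j` and `j + 1`,
`g = gapD δ j` half of their distance, `0 < g ≤ a ≤ δ`, `g ≤ δ`, and `g ^ 2 ≤ (a - r) ^ 2` for all
nodes `r` (model: `gap_sq_le` in `MP_b2e5b9_co/Faces.lean`).

`exists_vector`: for prescribed numbers `f0, f1, f2, f3` there are a vector `v` and `t` with
`⟪v, vert k⟫ = 1` and `⟪v, mom k τ⟫ - t = f τ` for all real `τ`, where `f` is the cubic polynomial in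
Newton form `f τ = f0 + (f1 - f0) τ + (f2 - 2 f1 + f0) τ (τ - 1) / 2 +
(f3 - 3 f2 + 3 f1 - f0) τ (τ - 1) (τ - 2) / 6`: write `f τ = c0 + c1 τ + c2 τ² + c3 τ³` and take
`v = (1, c1, c2, c3, 0, …, 0)` (coordinates `0, 1, 2, 3` of `E (k + 4)`), `t = -c0`.

`exists_pointD` (model: `exists_point` in `Main.lean`). Let `s = 0` if `proper` is false and
`s = 2 β g² / (1 + β)` if it is true. Take `f0 = -a² + g²`, `f1 = -2 a²`, `f2 = s`, `f3 = f0 - a`, so
`⟪v, ndx k⟫ = f3 - f0 = -a`, and for `τ = i`, `3 ≤ i ≤ n`: all `|f j| ≤ 2 δ` and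
`|f i| ≤ 2 δ (1 + 2 n + 4 n² + 8 n³) < 1`. With `⟪v, ptP k r⟫ - t = f0 + 2 a r - r² =
g² - (a - r)² ≤ 0` for all nodes `r`, with equality for `r = δ / (j + 1) = a + g`; strict for
`r = 0` (`g < a`). `⟪v, ptQ k r⟫ - t = -2 a² + 4 a r - 2 r² = -2 (a - r)² ≤ 0`, equality at
`r = a ∈ [0, δ]`, strict at `r = 0`. `⟪v, gg k⟫ = f1 - 2 f0 + f2 = s - 2 g²` (the `t` cancel:
`1 - 2 + 1 = 0`), so the end points of `gB` have the values `s ± β (s - 2 g²)` relative to `t`: for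
`s = 0` they are `∓ 2 β g²`, strictly on both sides (`β > 0`); for `s = 2 β g² / (1 + β)` the one
with `+` is `s (1 + β) - 2 β g² = 0`, the other one is `s (1 - β) + 2 β g² > 0`: the hyperplane
touches `gB` and does not contain it. The members `gC` have the values `f i ∓ 1`: crossed
strictly. Normalise with `exists_hyperplane` (`Basic.lean`).
-/

set_option autoImplicit false

open scoped RealInnerProductSpace

namespace HyperplaneTransversals

/-- the midpoint between two nodes -/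
noncomputable def midD (δ : ℝ) (j : ℕ) : ℝ := (δ / ((j : ℝ) + 1) + δ / ((j : ℝ) + 2)) / 2

/-- half the distance of two nodes -/
noncomputable def gapD (δ : ℝ) (j : ℕ) : ℝ := (δ / ((j : ℝ) + 1) - δ / ((j : ℝ) + 2)) / 2

theorem gapD_facts {δ : ℝ} (hδ : 0 < δ) (j : ℕ) :
    0 < gapD δ j ∧ gapD δ j < midD δ j ∧ midD δ j ≤ δ ∧
      ∀ r ∈ nodesD δ, gapD δ j ^ 2 ≤ (midD δ j - r) ^ 2 := by
  have hj : (0 : ℝ) ≤ (j : ℝ) := Nat.cast_nonneg j
  have hx0 : δ / ((j : ℝ) + 2) < δ / ((j : ℝ) + 1) :=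
    div_lt_div_of_pos_left hδ (by linarith) (by linarith)
  have hy0 : 0 < δ / ((j : ℝ) + 2) := div_pos hδ (by linarith)
  have hx1 : δ / ((j : ℝ) + 1) ≤ δ := div_le_self hδ.le (by linarith)
  have hg : 0 < gapD δ j := by
    unfold gapD
    linarith
  have hgm : gapD δ j < midD δ j := by
    unfold gapD midD
    linarith
  refine ⟨hg, hgm, ?_, ?_⟩
  · unfold midD
    linarith
  · rintro r (rfl | ⟨i, rfl⟩)
    · rw [sub_zero]
      exact pow_le_pow_left₀ hg.le hgm.le 2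
    · have hi : (0 : ℝ) ≤ (i : ℝ) := Nat.cast_nonneg i
      dsimp only
      rcases le_or_gt i j with h | h
      · have h1 : δ / ((j : ℝ) + 1) ≤ δ / ((i : ℝ) + 1) := by
          apply div_le_div_of_nonneg_left hδ.le (by linarith)
          have : (i : ℝ) ≤ (j : ℝ) := Nat.cast_le.2 h
          linarith
        have h2 : gapD δ j ≤ δ / ((i : ℝ) + 1) - midD δ j := by
          unfold gapD midD
          linarith
        have h3 := pow_le_pow_left₀ hg.le h2 2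
        nlinarith
      · have h1 : δ / ((i : ℝ) + 1) ≤ δ / ((j : ℝ) + 2) := by
          apply div_le_div_of_nonneg_left hδ.le (by linarith)
          have : ((j + 1 : ℕ) : ℝ) ≤ (i : ℝ) := Nat.cast_le.2 h
          push_cast at this
          linarith
        have h2 : gapD δ j ≤ midD δ j - δ / ((i : ℝ) + 1) := by
          unfold gapD midD
          linarith
        exact pow_le_pow_left₀ hg.le h2 2

theorem npoint_inner (k : ℕ) (c0 c1 c2 c3 : ℝ) (x : E (k + 4)) :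
    ⟪c0 • EuclideanSpace.single (⟨0, by omega⟩ : Fin (k + 4)) (1 : ℝ) +
        c1 • EuclideanSpace.single (⟨1, by omega⟩ : Fin (k + 4)) (1 : ℝ) +
        c2 • EuclideanSpace.single (⟨2, by omega⟩ : Fin (k + 4)) (1 : ℝ) +
        c3 • EuclideanSpace.single (⟨3, by omega⟩ : Fin (k + 4)) (1 : ℝ), x⟫ =
      c0 * x ⟨0, by omega⟩ + c1 * x ⟨1, by omega⟩ + c2 * x ⟨2, by omega⟩ +
        c3 * x ⟨3, by omega⟩ := by
  rw [inner_add_left, inner_add_left, inner_add_left, real_inner_smul_left,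
    real_inner_smul_left, real_inner_smul_left, real_inner_smul_left,
    EuclideanSpace.inner_single_left, EuclideanSpace.inner_single_left,
    EuclideanSpace.inner_single_left, EuclideanSpace.inner_single_left]
  simp

theorem npoint_mom (k : ℕ) (τ : ℝ) (i : ℕ) (hi : i < k + 4) :
    (mom k τ) ⟨i, hi⟩ = if i = 0 then 0 else τ ^ i := rfl

theorem npoint_vert (k : ℕ) (i : ℕ) (hi : i < k + 4) :
    (vert k) ⟨i, hi⟩ = if i = 0 then 1 else 0 := by
  unfold vert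
  rw [PiLp.single_apply]
  by_cases h : i = 0
  · subst h
    rw [if_pos rfl, if_pos]
    rfl
  · rw [if_neg h, if_neg]
    intro h1
    exact h (congrArg Fin.val h1)

theorem exists_vector (k : ℕ) (f0 f1 f2 f3 : ℝ) : ∃ (v : E (k + 4)) (t : ℝ),
    ⟪v, vert k⟫ = 1 ∧ ∀ τ : ℝ, ⟪v, mom k τ⟫ - t = f0 + (f1 - f0) * τ +
      (f2 - 2 * f1 + f0) * (τ * (τ - 1) / 2) +
        (f3 - 3 * f2 + 3 * f1 - f0) * (τ * (τ - 1) * (τ - 2) / 6) := by
  refine ⟨(1 : ℝ) • EuclideanSpace.single (⟨0, by omega⟩ : Fin (k + 4)) (1 : ℝ) +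
    ((f1 - f0) - (f2 - 2 * f1 + f0) / 2 + (f3 - 3 * f2 + 3 * f1 - f0) / 3) •
      EuclideanSpace.single (⟨1, by omega⟩ : Fin (k + 4)) (1 : ℝ) +
    ((f2 - 2 * f1 + f0) / 2 - (f3 - 3 * f2 + 3 * f1 - f0) / 2) •
      EuclideanSpace.single (⟨2, by omega⟩ : Fin (k + 4)) (1 : ℝ) +
    ((f3 - 3 * f2 + 3 * f1 - f0) / 6) •
      EuclideanSpace.single (⟨3, by omega⟩ : Fin (k + 4)) (1 : ℝ), -f0, ?_, ?_⟩
  · rw [npoint_inner, npoint_vert, npoint_vert, npoint_vert, npoint_vert]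
    norm_num
  · intro τ
    rw [npoint_inner, npoint_mom, npoint_mom, npoint_mom, npoint_mom]
    norm_num
    ring

theorem npoint_bound {f0 f1 f2 f3 δ N τ : ℝ} (hδ : 0 < δ) (h0 : |f0| ≤ 2 * δ)
    (h1 : |f1| ≤ 2 * δ) (h2 : |f2| ≤ 2 * δ) (h3 : |f3| ≤ 2 * δ) (hN : 3 ≤ N)
    (hδN : δ * (100 * N ^ 3) ≤ 1) (hτ : 3 ≤ τ) (hτN : τ ≤ N) :
    |f0 + (f1 - f0) * τ + (f2 - 2 * f1 + f0) * (τ * (τ - 1) / 2) +
      (f3 - 3 * f2 + 3 * f1 - f0) * (τ * (τ - 1) * (τ - 2) / 6)| < 1 := by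
  rw [abs_le] at h0 h1 h2 h3
  have b1 : |f1 - f0| ≤ 4 * δ := by
    rw [abs_le]
    constructor <;> linarith [h0.1, h0.2, h1.1, h1.2]
  have b2 : |f2 - 2 * f1 + f0| ≤ 8 * δ := by
    rw [abs_le]
    constructor <;> linarith [h0.1, h0.2, h1.1, h1.2, h2.1, h2.2]
  have b3 : |f3 - 3 * f2 + 3 * f1 - f0| ≤ 16 * δ := by
    rw [abs_le]
    constructor <;> linarith [h0.1, h0.2, h1.1, h1.2, h2.1, h2.2, h3.1, h3.2]
  have b0 : |f0| ≤ 2 * δ := abs_le.2 h0
  have hN2 : N ≤ N ^ 3 := by nlinarith [sq_nonneg N]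
  have hN3 : N ^ 2 ≤ N ^ 3 := by nlinarith [sq_nonneg N]
  have hN1 : 1 ≤ N ^ 3 := by linarith
  have t1 : τ ≤ N ^ 3 := hτN.trans hN2
  have t2 : τ * (τ - 1) / 2 ≤ N ^ 3 := by
    have : τ * (τ - 1) ≤ N * N := mul_le_mul hτN (by linarith) (by linarith) (by linarith)
    have h5 : 0 ≤ N ^ 3 := by linarith
    nlinarith
  have t2' : 0 ≤ τ * (τ - 1) / 2 := by
    have : 0 ≤ τ * (τ - 1) := mul_nonneg (by linarith) (by linarith)
    linarith
  have t3 : τ * (τ - 1) * (τ - 2) / 6 ≤ N ^ 3 / 6 := by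
    have h4 : τ * (τ - 1) ≤ N * N := mul_le_mul hτN (by linarith) (by linarith) (by linarith)
    have h5 : τ * (τ - 1) * (τ - 2) ≤ N * N * N :=
      mul_le_mul h4 (by linarith) (by linarith) (by positivity)
    have h6 : N * N * N = N ^ 3 := by ring
    linarith
  have t3' : 0 ≤ τ * (τ - 1) * (τ - 2) / 6 := by
    have : 0 ≤ τ * (τ - 1) * (τ - 2) :=
      mul_nonneg (mul_nonneg (by linarith) (by linarith)) (by linarith)
    linarith
  have e1 : |(f1 - f0) * τ| ≤ 4 * δ * N ^ 3 := by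
    rw [abs_mul, abs_of_nonneg (by linarith : (0 : ℝ) ≤ τ)]
    exact mul_le_mul b1 t1 (by linarith) (by linarith)
  have e2 : |(f2 - 2 * f1 + f0) * (τ * (τ - 1) / 2)| ≤ 8 * δ * N ^ 3 := by
    rw [abs_mul, abs_of_nonneg t2']
    exact mul_le_mul b2 t2 t2' (by linarith)
  have e3 : |(f3 - 3 * f2 + 3 * f1 - f0) * (τ * (τ - 1) * (τ - 2) / 6)| ≤
      16 * δ * (N ^ 3 / 6) := by
    rw [abs_mul, abs_of_nonneg t3']
    exact mul_le_mul b3 t3 t3' (by linarith)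
  have e0 : |f0| ≤ 2 * (δ * N ^ 3) := by nlinarith
  have hX : δ * N ^ 3 ≤ 1 / 100 := by linarith
  have s1 := abs_add_le (f0 + (f1 - f0) * τ + (f2 - 2 * f1 + f0) * (τ * (τ - 1) / 2))
    ((f3 - 3 * f2 + 3 * f1 - f0) * (τ * (τ - 1) * (τ - 2) / 6))
  have s2 := abs_add_le (f0 + (f1 - f0) * τ) ((f2 - 2 * f1 + f0) * (τ * (τ - 1) / 2))
  have s3 := abs_add_le f0 ((f1 - f0) * τ)
  have e1' : 4 * δ * N ^ 3 = 4 * (δ * N ^ 3) := by ring
  have e2' : 8 * δ * N ^ 3 = 8 * (δ * N ^ 3) := by ring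
  have e3' : 16 * δ * (N ^ 3 / 6) = 16 / 6 * (δ * N ^ 3) := by ring
  linarith

theorem npoint_zero {k n : ℕ} {δ β : ℝ} {i : Fin n} (h : i.val = 0) :
    famD k n δ β i = gP k δ := by simp [famD, h]

theorem npoint_one {k n : ℕ} {δ β : ℝ} {i : Fin n} (h : i.val = 1) :
    famD k n δ β i = gQ k δ := by simp [famD, h]

theorem npoint_two {k n : ℕ} {δ β : ℝ} {i : Fin n} (h : i.val = 2) :
    famD k n δ β i = gB k β := by simp [famD, h]

theorem npoint_three {k n : ℕ} {δ β : ℝ} {i : Fin n} (h : 3 ≤ i.val) :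
    famD k n δ β i = gC k i.val := by
  have h0 : ¬ i.val = 0 := by omega
  have h1 : ¬ i.val = 1 := by omega
  have h2 : ¬ i.val = 2 := by omega
  simp [famD, h0, h1, h2]

theorem npoint_hull {d : ℕ} (S : Set (E d)) : Convex ℝ (closure (convexHull ℝ S)) :=
  (convex_convexHull ℝ S).closure

/-- The points of the stratum between consecutive nodes. -/
theorem exists_pointD (k n : ℕ) (hn : 3 ≤ n) (proper : Prop) {δ β : ℝ} (hδ : 0 < δ)
    (hδn : δ * (100 * (n : ℝ) ^ 3) ≤ 1) (hβ : 0 < β) (hβ1 : β < 1) (j : ℕ) :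
    ∃ H ∈ stratum proper (famD k n δ β) (theS proper n),
      ∃ p : Metric.sphere (0 : E (k + 4)) 1 × ℝ, hyperplane p = H.flat ∧
        (∀ x ∈ gP k δ, ⟪(p.1 : E (k + 4)), x⟫ ≤ p.2) ∧
        (∀ x ∈ gQ k δ, ⟪(p.1 : E (k + 4)), x⟫ ≤ p.2) ∧
        0 < ⟪(p.1 : E (k + 4)), vert k⟫ ∧
        ⟪(p.1 : E (k + 4)), ndx k⟫ = -(midD δ j) * ⟪(p.1 : E (k + 4)), vert k⟫ := by
  classical
  obtain ⟨hg0, hga, haδ, hnod⟩ := gapD_facts hδ j
  set a := midD δ j with ha
  set g := gapD δ j with hg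
  have ha0 : 0 < a := hg0.trans hga
  have hnode : δ / ((j : ℝ) + 1) = a + g := by
    rw [ha, hg]
    unfold gapD midD
    ring
  have hN : (3 : ℝ) ≤ (n : ℝ) := by exact_mod_cast hn
  have hδ1 : δ ≤ 1 := by
    have h1 : (1 : ℝ) ≤ 100 * (n : ℝ) ^ 3 := by nlinarith [sq_nonneg (n : ℝ)]
    nlinarith
  have hg2 : 0 < g ^ 2 := by positivity
  have hlt : g ^ 2 < a ^ 2 := by nlinarith
  have ha2 : a ^ 2 ≤ δ := by nlinarith
  have hβg : 0 < β * g ^ 2 := mul_pos hβ hg2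
  obtain ⟨s, hs0, hs1, hcase⟩ : ∃ s : ℝ, 0 ≤ s ∧ s ≤ 2 * g ^ 2 ∧
      ((proper ∧ s * (1 + β) = 2 * β * g ^ 2) ∨ (¬ proper ∧ s = 0)) := by
    by_cases hp : proper
    · refine ⟨2 * β * g ^ 2 / (1 + β), by positivity, ?_, Or.inl ⟨hp, ?_⟩⟩
      · rw [div_le_iff₀ (by linarith)]
        nlinarith
      · field_simp
    · exact ⟨0, le_rfl, by positivity, Or.inr ⟨hp, rfl⟩⟩
  obtain ⟨v, t, hv1, hvm⟩ := exists_vector k (-a ^ 2 + g ^ 2) (-2 * a ^ 2) s
    (-a ^ 2 + g ^ 2 - a)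
  have m0 : ⟪v, mom k 0⟫ = t + (-a ^ 2 + g ^ 2) := by
    have := hvm 0
    norm_num at this
    linarith
  have m1 : ⟪v, mom k 1⟫ = t + (-2 * a ^ 2) := by
    have := hvm 1
    norm_num at this
    linarith
  have m2 : ⟪v, mom k 2⟫ = t + s := by
    have := hvm 2
    norm_num at this
    linarith
  have m3 : ⟪v, mom k 3⟫ = t + (-a ^ 2 + g ^ 2 - a) := by
    have := hvm 3
    norm_num at this
    linarith
  have mn : ⟪v, ndx k⟫ = -a := by
    unfold ndx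
    rw [inner_sub_right, m3, m0]
    ring
  have mg : ⟪v, gg k⟫ = s - 2 * g ^ 2 := by
    unfold gg
    rw [inner_add_right, inner_sub_right, inner_smul_right, m0, m1, m2]
    ring
  have mP : ∀ r : ℝ, ⟪v, ptP k r⟫ = t + (g ^ 2 - (a - r) ^ 2) := by
    intro r
    unfold ptP
    rw [inner_add_right, inner_add_right, inner_smul_right, inner_smul_right, m0, mn, hv1]
    ring
  have mQ : ∀ r : ℝ, ⟪v, ptQ k r⟫ = t - 2 * (a - r) ^ 2 := by
    intro r
    unfold ptQ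
    rw [inner_add_right, inner_add_right, inner_smul_right, inner_smul_right, m1, mn, hv1]
    ring
  have hv0 : v ≠ 0 := by
    intro h
    rw [h, inner_zero_left] at hv1
    exact zero_ne_one hv1
  obtain ⟨p, hmem, hp1, hp2⟩ := exists_hyperplane v hv0 t
  have hc : 0 < ‖v‖⁻¹ := inv_pos.2 (norm_pos_iff.2 hv0)
  have hin : ∀ x, ⟪(p.1 : E (k + 4)), x⟫ = ‖v‖⁻¹ * ⟪v, x⟫ := by
    intro x
    rw [hp1, real_inner_smul_left]
  have hle : ∀ x, ⟪(p.1 : E (k + 4)), x⟫ ≤ p.2 ↔ ⟪v, x⟫ ≤ t := by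
    intro x
    rw [hin, hp2, mul_le_mul_iff_right₀ hc]
  have hlt' : ∀ x, ⟪(p.1 : E (k + 4)), x⟫ < p.2 ↔ ⟪v, x⟫ < t := by
    intro x
    rw [hin, hp2, mul_lt_mul_iff_right₀ hc]
  have hgt' : ∀ x, p.2 < ⟪(p.1 : E (k + 4)), x⟫ ↔ t < ⟪v, x⟫ := by
    intro x
    rw [hin, hp2, mul_lt_mul_iff_right₀ hc]
  -- the first member
  have P1 : ∀ x ∈ gP k δ, ⟪v, x⟫ ≤ t := by
    refine hull_leD v t ?_
    rintro _ ⟨r, hr, rfl⟩
    have := hnod r hr
    rw [mP]
    linarith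
  have P2 : ⟪v, ptP k (a + g)⟫ = t := by
    rw [mP]
    ring
  have P3 : ⟪v, ptP k 0⟫ < t := by
    rw [mP]
    nlinarith
  -- the second member
  have Q1 : ∀ x ∈ gQ k δ, ⟪v, x⟫ ≤ t := by
    refine hull_leD v t ?_
    rintro _ ⟨r, hr, rfl⟩
    rw [mQ]
    nlinarith [sq_nonneg (a - r)]
  have Q2 : ⟪v, ptQ k a⟫ = t := by
    rw [mQ]
    ring
  have Q3 : ⟪v, ptQ k 0⟫ < t := by
    rw [mQ]
    nlinarith
  -- the other members
  have C : ∀ i : ℕ, 3 ≤ i → i ≤ n → ⟪v, mom k i - vert k⟫ < t ∧ t < ⟪v, mom k i + vert k⟫ := by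
    intro i h3 hi
    have h1 : (3 : ℝ) ≤ (i : ℝ) := by exact_mod_cast h3
    have h2 : (i : ℝ) ≤ (n : ℝ) := by exact_mod_cast hi
    have h4 := npoint_bound (f0 := -a ^ 2 + g ^ 2) (f1 := -2 * a ^ 2) (f2 := s)
      (f3 := -a ^ 2 + g ^ 2 - a) hδ (abs_le.2 ⟨by linarith, by linarith⟩)
      (abs_le.2 ⟨by linarith, by linarith⟩) (abs_le.2 ⟨by linarith, by linarith⟩)
      (abs_le.2 ⟨by linarith, by linarith⟩) hN hδn h1 h2
    rw [← hvm, abs_lt] at h4
    rw [inner_sub_right, inner_add_right, hv1]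
    constructor
    · linarith [h4.2]
    · linarith [h4.1]
  have B1 : ⟪v, mom k 2 - β • gg k⟫ = t + (s * (1 - β) + 2 * (β * g ^ 2)) := by
    rw [inner_sub_right, inner_smul_right, m2, mg]
    ring
  have B2 : ⟪v, mom k 2 + β • gg k⟫ = t + (s * (1 + β) - 2 * (β * g ^ 2)) := by
    rw [inner_add_right, inner_smul_right, m2, mg]
    ring
  have B1' : t < ⟪v, mom k 2 - β • gg k⟫ := by
    rw [B1]
    have : 0 ≤ s * (1 - β) := mul_nonneg hs0 (by linarith)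
    linarith
  have memP : ptP k (a + g) ∈ gP k δ :=
    subset_hullD ⟨a + g, Or.inr ⟨j, hnode⟩, rfl⟩
  have memP0 : ptP k 0 ∈ gP k δ := subset_hullD ⟨0, Or.inl rfl, rfl⟩
  have memQ : ptQ k a ∈ gQ k δ := subset_hullD ⟨a, ⟨ha0.le, haδ⟩, rfl⟩
  have memQ0 : ptQ k 0 ∈ gQ k δ := subset_hullD ⟨0, ⟨le_rfl, hδ.le⟩, rfl⟩
  have memB1 : mom k 2 - β • gg k ∈ gB k β := subset_hullD (Or.inl rfl)
  have memB2 : mom k 2 + β • gg k ∈ gB k β := subset_hullD (Or.inr rfl)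
  have memC1 : ∀ i : ℕ, mom k i - vert k ∈ gC k i := fun i => subset_hullD (Or.inl rfl)
  have memC2 : ∀ i : ℕ, mom k i + vert k ∈ gC k i := fun i => subset_hullD (Or.inr rfl)
  have meetP : ((hyperplane p : Set (E (k + 4))) ∩ gP k δ).Nonempty := ⟨_, (hmem _).2 P2, memP⟩
  have meetQ : ((hyperplane p : Set (E (k + 4))) ∩ gQ k δ).Nonempty := ⟨_, (hmem _).2 Q2, memQ⟩
  have meetC : ∀ i : ℕ, 3 ≤ i → i ≤ n →
      ((hyperplane p : Set (E (k + 4))) ∩ gC k i).Nonempty := fun i h3 hi =>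
    cross_meets (npoint_hull _) (memC1 i) (memC2 i) ((hlt' _).2 (C i h3 hi).1)
      ((hgt' _).2 (C i h3 hi).2)
  have meetB : ((hyperplane p : Set (E (k + 4))) ∩ gB k β).Nonempty := by
    rcases hcase with ⟨-, hc⟩ | ⟨-, hc⟩
    · refine ⟨_, (hmem _).2 ?_, memB2⟩
      rw [B2, hc]
      ring
    · refine cross_meets (npoint_hull _) memB2 memB1 ((hlt' _).2 ?_) ((hgt' _).2 B1')
      rw [B2, hc]
      linarith
  have suppP : Supports proper (hyperplane p) (gP k δ) := by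
    refine ⟨meetP, ⟨p, rfl, fun x hx => (hle x).2 (P1 x hx)⟩, fun _ hsub => ?_⟩
    have := (hmem _).1 (hsub memP0)
    linarith
  have suppQ : Supports proper (hyperplane p) (gQ k δ) := by
    refine ⟨meetQ, ⟨p, rfl, fun x hx => (hle x).2 (Q1 x hx)⟩, fun _ hsub => ?_⟩
    have := (hmem _).1 (hsub memQ0)
    linarith
  have suppC : ∀ i : ℕ, 3 ≤ i → i ≤ n → ¬ Supports proper (hyperplane p) (gC k i) :=
    fun i h3 hi => supports_not_of_cross (memC1 i) (memC2 i) ((hlt' _).2 (C i h3 hi).1)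
      ((hgt' _).2 (C i h3 hi).2)
  have suppB : Supports proper (hyperplane p) (gB k β) ↔ proper := by
    rcases hcase with ⟨hpr, hc⟩ | ⟨hpr, hc⟩
    · refine ⟨fun _ => hpr, fun _ => ⟨meetB, ⟨(-p.1, -p.2), ?_, ?_⟩, fun _ hsub => ?_⟩⟩
      · ext x
        rw [mem_hyperplane, mem_hyperplane]
        change ⟪-(p.1 : E (k + 4)), x⟫ = -p.2 ↔ _
        rw [inner_neg_left, neg_inj]
      · have h5 : ∀ x ∈ gB k β, t ≤ ⟪v, x⟫ := by
          refine le_hullD v t ?_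
          rintro x (rfl | hx)
          · exact B1'.le
          · rw [Set.mem_singleton_iff] at hx
            rw [hx, B2, hc]
            linarith
        intro x hx
        have h := h5 x hx
        change ⟪-(p.1 : E (k + 4)), x⟫ ≤ -p.2
        rw [inner_neg_left, hin, hp2]
        nlinarith
      · have := (hmem _).1 (hsub memB1)
        linarith
    · refine ⟨fun h => ?_, fun h => absurd h hpr⟩
      exfalso
      refine supports_not_of_cross memB2 memB1 ((hlt' _).2 ?_) ((hgt' _).2 B1') h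
      rw [B2, hc]
      linarith
  refine ⟨Hyp.of p, ⟨?_, ?_⟩, p, rfl, fun x hx => (hle x).2 (P1 x hx),
    fun x hx => (hle x).2 (Q1 x hx), ?_, ?_⟩
  · intro i
    change ((hyperplane p : Set (E (k + 4))) ∩ famD k n δ β i).Nonempty
    by_cases h0 : i.val = 0
    · rw [npoint_zero h0]; exact meetP
    by_cases h1 : i.val = 1
    · rw [npoint_one h1]; exact meetQ
    by_cases h2 : i.val = 2
    · rw [npoint_two h2]; exact meetB
    rw [npoint_three (by omega)]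
    exact meetC _ (by omega) i.2.le
  · intro i
    change Supports proper (hyperplane p) (famD k n δ β i) ↔ i ∈ theS proper n
    by_cases h0 : i.val = 0
    · rw [npoint_zero h0]
      exact ⟨fun _ => Or.inl h0, fun _ => suppP⟩
    by_cases h1 : i.val = 1
    · rw [npoint_one h1]
      exact ⟨fun _ => Or.inr (Or.inl h1), fun _ => suppQ⟩
    by_cases h2 : i.val = 2
    · rw [npoint_two h2, suppB]
      exact ⟨fun h => Or.inr (Or.inr ⟨h2, h⟩), fun h => ((goodS proper n i).2.2 h2).1 h⟩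
    rw [npoint_three (by omega)]
    constructor
    · intro h
      exact absurd h (suppC _ (by omega) i.2.le)
    · rintro (h | h | h)
      · exact absurd h h0
      · exact absurd h h1
      · exact absurd h.1 h2
  · rw [hin, hv1, mul_one]
    exact hc
  · rw [hin, hin, mn, hv1]
    ring

end HyperplaneTransversals
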