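import Pool.Agent.Lib.MP_b2e5b9_co_D.NIndep

/-!
# The family is good and separated

Plan. `isCompact_hullD`, `hull_leD`, ... are the lemmas `isCompact_hull`, `hull_le`, `subset_hull`,
`convex_hull` of `MP_b2e5b9_co/Family.lean` in dimension `d` (there they are stated for `E 4`; copy
the proofs). `famD_good`: the nodes are a compact set (`Filter.Tendsto.isCompact_insert_range`,
as `isCompact_nodes`), `ptP k`, `ptQ k` are continuous.

`famD_near`: the map `y ↦ y - (y 0) • vert k - mom k i` is continuous and affine, the set where its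
norm is at most `ρ` is closed and convex, so it is enough to check the generating points: they
are `mom k 0 - 2 r • ndx k - r ^ 2 • vert k` with `0 ≤ r ≤ δ`, whose horizontal part has distance
`2 r ‖ndx k‖` from `mom k 0` (note `(mom k τ) 0 = 0`, `(ndx k) 0 = 0`, `(vert k) 0 = 1`), similarly
`4 r ‖ndx k‖`, `β ‖gg k‖` and `0` for the other members. `δ₀ = ρ / (1 + 4 ‖ndx k‖ + ‖gg k‖)`.

`famD_separated`: `ρ` from `exists_rho`, `δ₀` from `famD_near`. Suppose the `(k + 2)`-flat `L` meets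
the members with index in `s`, `s.card = k + 4`; let `I` enumerate `s` (`Finset.orderEmbOfFin`) and
`y j ∈ L ∩ famD k n δ β (I j)`. The span of `L.direction` and `vert k` has dimension at most
`k + 3 < k + 4`, so there is `w ≠ 0` orthogonal to it; `⟪w, y j⟫` does not depend on `j`. The
horizontal parts `a j = y j - (y j 0) • vert k` satisfy `⟪w, a j⟫ = ⟪w, y j⟫`, `⟪vert k,
a j⟫ = 0`. So
the differences of the `a j` lie in the orthogonal complement of `w` and `vert k`, which are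
linearly independent (`w ≠ 0`, `w ⊥ vert k`), a space of dimension `k + 2`; but the `k + 4` points
`a j` are affinely independent by `exists_rho`, so their vector span has dimension `k + 3`:
contradiction.
-/

set_option autoImplicit false

open scoped RealInnerProductSpace

namespace HyperplaneTransversals

variable {d : ℕ}

theorem hull_leD {S : Set (E d)} (u : E d) (c : ℝ) (h : ∀ x ∈ S, ⟪u, x⟫ ≤ c) :
    ∀ x ∈ closure (convexHull ℝ S), ⟪u, x⟫ ≤ c := by
  intro x hx
  have h1 : convexHull ℝ S ⊆ {x | (innerSL ℝ u) x ≤ c} :=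
    convexHull_min h (convex_halfSpace_le (innerSL ℝ u).toLinearMap.isLinear c)
  exact closure_minimal h1 (isClosed_le (innerSL ℝ u).continuous continuous_const) hx

theorem le_hullD {S : Set (E d)} (u : E d) (c : ℝ) (h : ∀ x ∈ S, c ≤ ⟪u, x⟫) :
    ∀ x ∈ closure (convexHull ℝ S), c ≤ ⟪u, x⟫ := by
  intro x hx
  have h1 : convexHull ℝ S ⊆ {x | c ≤ (innerSL ℝ u) x} :=
    convexHull_min h (convex_halfSpace_ge (innerSL ℝ u).toLinearMap.isLinear c)
  exact closure_minimal h1 (isClosed_le continuous_const (innerSL ℝ u).continuous) hx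

theorem subset_hullD {S : Set (E d)} : S ⊆ closure (convexHull ℝ S) := by
  exact (subset_convexHull ℝ S).trans subset_closure

theorem nsep_isCompact_hull {S : Set (E d)} (hS : IsCompact S) :
    IsCompact (closure (convexHull ℝ S)) := by
  apply Metric.isCompact_of_isClosed_isBounded isClosed_closure
  exact (isBounded_convexHull.2 hS.isBounded).closure

theorem nsep_convex_hull (S : Set (E d)) : Convex ℝ (closure (convexHull ℝ S)) :=
  (convex_convexHull ℝ S).closure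

theorem nsep_hull_subset {S K : Set (E d)} (hK : IsClosed K) (hc : Convex ℝ K) (h : S ⊆ K) :
    closure (convexHull ℝ S) ⊆ K :=
  closure_minimal (convexHull_min h hc) hK

/-- the horizontal part -/
noncomputable def nsep_P (k : ℕ) : E (k + 4) →L[ℝ] E (k + 4) :=
  ContinuousLinearMap.id ℝ _ - (EuclideanSpace.proj (0 : Fin (k + 4))).smulRight (vert k)

theorem nsep_P_apply (k : ℕ) (y : E (k + 4)) : nsep_P k y = y - (y 0) • vert k := rfl

theorem nsep_mom0 (k : ℕ) (τ : ℝ) : (mom k τ) 0 = 0 := rfl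

theorem nsep_vert0 (k : ℕ) : (vert k) 0 = 1 := by
  simp [vert]

theorem nsep_ndx0 (k : ℕ) : (ndx k) 0 = 0 := by
  rw [ndx, PiLp.sub_apply, nsep_mom0, nsep_mom0, sub_zero]

theorem nsep_gg0 (k : ℕ) : (gg k) 0 = 0 := by
  rw [gg, PiLp.add_apply, PiLp.sub_apply, PiLp.smul_apply, nsep_mom0, nsep_mom0, nsep_mom0]
  simp

theorem nsep_P_mom (k : ℕ) (τ : ℝ) : nsep_P k (mom k τ) = mom k τ := by
  rw [nsep_P_apply, nsep_mom0, zero_smul, sub_zero]

theorem nsep_P_ndx (k : ℕ) : nsep_P k (ndx k) = ndx k := by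
  rw [nsep_P_apply, nsep_ndx0, zero_smul, sub_zero]

theorem nsep_P_gg (k : ℕ) : nsep_P k (gg k) = gg k := by
  rw [nsep_P_apply, nsep_gg0, zero_smul, sub_zero]

theorem nsep_P_vert (k : ℕ) : nsep_P k (vert k) = 0 := by
  rw [nsep_P_apply, nsep_vert0, one_smul, sub_self]

theorem nsep_near {k : ℕ} {S : Set (E (k + 4))} {z : E (k + 4)} {ρ : ℝ}
    (h : ∀ x ∈ S, ‖nsep_P k x - z‖ ≤ ρ) : ∀ x ∈ closure (convexHull ℝ S),
      ‖(x - (x 0) • vert k) - z‖ ≤ ρ := by
  intro x hx
  have h1 : closure (convexHull ℝ S) ⊆ nsep_P k ⁻¹' Metric.closedBall z ρ := by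
    refine nsep_hull_subset (Metric.isClosed_closedBall.preimage (nsep_P k).continuous)
      ((convex_closedBall z ρ).linear_preimage (nsep_P k).toLinearMap) fun y hy => ?_
    rw [Set.mem_preimage, mem_closedBall_iff_norm]
    exact h y hy
  have h2 := h1 hx
  rw [Set.mem_preimage, mem_closedBall_iff_norm] at h2
  exact h2

theorem nsep_nodes {δ r : ℝ} (hδ : 0 ≤ δ) (hr : r ∈ nodesD δ) : 0 ≤ r ∧ r ≤ δ := by
  rcases hr with rfl | ⟨j, rfl⟩
  · exact ⟨le_refl _, hδ⟩
  · have hj : (0 : ℝ) ≤ (j : ℝ) := Nat.cast_nonneg j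
    exact ⟨by positivity, div_le_self hδ (by linarith)⟩

theorem nsep_nodes_compact (δ : ℝ) : IsCompact (nodesD δ) := by
  apply Filter.Tendsto.isCompact_insert_range
  have h := (tendsto_one_div_add_atTop_nhds_zero_nat (𝕜 := ℝ)).const_mul δ
  rw [mul_zero] at h
  refine h.congr fun k => ?_
  rw [mul_one_div]

/-- the points of the third member -/
theorem mem_gB {k : ℕ} {β : ℝ} {y : E (k + 4)} (hy : y ∈ gB k β) :
    ∃ c : ℝ, |c| ≤ 1 ∧ y = mom k 2 + (c * β) • gg k := by
  have h0 : gB k β ⊆ (fun c : ℝ => mom k 2 + (c * β) • gg k) '' Set.Icc (-1) 1 := by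
    refine nsep_hull_subset ?_ ?_ ?_
    · exact (isCompact_Icc.image (by fun_prop)).isClosed
    · have h1 : (fun c : ℝ => mom k 2 + (c * β) • gg k) '' Set.Icc (-1) 1 =
          (fun z => mom k 2 + z) '' ((LinearMap.toSpanSingleton ℝ (E (k + 4)) (β • gg k)) ''
            Set.Icc (-1) 1) := by
        rw [Set.image_image]
        refine Set.image_congr fun c _ => ?_
        rw [LinearMap.toSpanSingleton_apply, smul_smul]
      rw [h1]
      exact ((convex_Icc (-1 : ℝ) 1).linear_image _).translate _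
    · rintro x (rfl | rfl)
      · refine ⟨-1, ⟨le_refl _, by norm_num⟩, ?_⟩
        simp only [neg_one_mul, neg_smul]
        rw [sub_eq_add_neg]
      · refine ⟨1, ⟨by norm_num, le_refl _⟩, ?_⟩
        simp only [one_mul]
  obtain ⟨c, hc, rfl⟩ := h0 hy
  exact ⟨c, abs_le.2 hc, rfl⟩

theorem famD_good (k n : ℕ) (δ β : ℝ) (i : Fin n) (hδ : 0 ≤ δ) :
    (famD k n δ β i).Nonempty ∧ IsCompact (famD k n δ β i) ∧ Convex ℝ (famD k n δ β i) := by
  unfold famD
  split_ifs
  · refine ⟨⟨_, subset_hullD ⟨0, Or.inl rfl, rfl⟩⟩, ?_, nsep_convex_hull _⟩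
    refine nsep_isCompact_hull ((nsep_nodes_compact δ).image ?_)
    unfold ptP
    fun_prop
  · refine ⟨⟨_, subset_hullD ⟨0, ⟨le_refl _, hδ⟩, rfl⟩⟩, ?_, nsep_convex_hull _⟩
    refine nsep_isCompact_hull (isCompact_Icc.image ?_)
    unfold ptQ
    fun_prop
  · refine ⟨⟨_, subset_hullD (Or.inl rfl)⟩, ?_, nsep_convex_hull _⟩
    exact nsep_isCompact_hull (Set.toFinite _).isCompact
  · refine ⟨⟨_, subset_hullD (Or.inl rfl)⟩, ?_, nsep_convex_hull _⟩
    exact nsep_isCompact_hull (Set.toFinite _).isCompact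

theorem famD_near (k n : ℕ) {ρ : ℝ} (hρ : 0 < ρ) : ∃ δ₀ : ℝ, 0 < δ₀ ∧ ∀ δ β : ℝ,
    0 ≤ δ → δ ≤ δ₀ → 0 ≤ β → β ≤ δ₀ → ∀ i : Fin n, ∀ y ∈ famD k n δ β i,
      ‖(y - (y 0) • vert k) - mom k (i.val : ℝ)‖ ≤ ρ := by
  have hN := norm_nonneg (ndx k)
  have hG := norm_nonneg (gg k)
  have hD : 0 < 1 + 4 * ‖ndx k‖ + ‖gg k‖ := by linarith
  refine ⟨ρ / (1 + 4 * ‖ndx k‖ + ‖gg k‖), by positivity, ?_⟩
  intro δ β hδ hδ₀ hβ hβ₀ i y hy
  rw [le_div_iff₀ hD] at hδ₀ hβ₀
  have hn : ∀ r : ℝ, 0 ≤ r → r ≤ δ → 4 * r * ‖ndx k‖ ≤ ρ := by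
    intro r _ hr
    have h1 : r * ‖ndx k‖ ≤ δ * ‖ndx k‖ := mul_le_mul_of_nonneg_right hr hN
    nlinarith [mul_nonneg hδ hG]
  have hg : β * ‖gg k‖ ≤ ρ := by
    nlinarith [mul_nonneg hβ hN]
  unfold famD at hy
  split_ifs at hy with h0 h1 h2
  · rw [h0, Nat.cast_zero]
    refine nsep_near ?_ y hy
    rintro _ ⟨r, hr, rfl⟩
    obtain ⟨hr0, hr1⟩ := nsep_nodes hδ hr
    have e1 : nsep_P k (ptP k r) - mom k 0 = (-(2 * r)) • ndx k := by
      rw [ptP, map_add, map_add, map_smul, map_smul, nsep_P_mom, nsep_P_ndx, nsep_P_vert,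
        smul_zero, add_zero, add_sub_cancel_left]
    rw [e1, norm_smul, Real.norm_eq_abs, abs_neg, abs_of_nonneg (by positivity)]
    have h3 := hn r hr0 hr1
    have h4 := mul_nonneg hr0 hN
    nlinarith
  · rw [h1, Nat.cast_one]
    refine nsep_near ?_ y hy
    rintro _ ⟨r, hr, rfl⟩
    have e1 : nsep_P k (ptQ k r) - mom k 1 = (-(4 * r)) • ndx k := by
      rw [ptQ, map_add, map_add, map_smul, map_smul, nsep_P_mom, nsep_P_ndx, nsep_P_vert,
        smul_zero, add_zero, add_sub_cancel_left]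
    rw [e1, norm_smul, Real.norm_eq_abs, abs_neg, abs_of_nonneg (mul_nonneg (by norm_num) hr.1)]
    exact hn r hr.1 hr.2
  · rw [h2, Nat.cast_ofNat]
    refine nsep_near ?_ y hy
    have e1 : ∀ c : ℝ, |c| = 1 → ‖nsep_P k (mom k 2 + (c * β) • gg k) - mom k 2‖ ≤ ρ := by
      intro c hc
      have e2 : nsep_P k (mom k 2 + (c * β) • gg k) - mom k 2 = (c * β) • gg k := by
        rw [map_add, map_smul, nsep_P_mom, nsep_P_gg, add_sub_cancel_left]
      rw [e2, norm_smul, Real.norm_eq_abs, abs_mul, hc, one_mul, abs_of_nonneg hβ]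
      exact hg
    rintro x (rfl | rfl)
    · have := e1 (-1) (by norm_num)
      rw [neg_one_mul, neg_smul, ← sub_eq_add_neg] at this
      exact this
    · have := e1 1 (by norm_num)
      rw [one_mul] at this
      exact this
  · refine nsep_near ?_ y hy
    rintro x (rfl | rfl)
    · rw [map_sub, nsep_P_mom, nsep_P_vert, sub_zero, sub_self, norm_zero]
      exact hρ.le
    · rw [map_add, nsep_P_mom, nsep_P_vert, add_zero, sub_self, norm_zero]
      exact hρ.le

theorem famD_separated (k n : ℕ) : ∃ δ₀ : ℝ, 0 < δ₀ ∧ ∀ δ β : ℝ,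
    0 ≤ δ → δ ≤ δ₀ → 0 ≤ β → β ≤ δ₀ → Separated (k + 2) (famD k n δ β) := by
  obtain ⟨ρ, hρ, hind⟩ := exists_rho k n
  obtain ⟨δ₀, hδ₀, hnear⟩ := famD_near k n hρ
  refine ⟨δ₀, hδ₀, fun δ β hδ hδ' hβ hβ' => ?_⟩
  intro s hs
  rintro ⟨L, ⟨-, hd⟩, hm⟩
  have hs4 : s.card = k + 4 := by rw [hs]
  have hI : ∀ j, s.orderEmbOfFin hs4 j ∈ s := fun j => Finset.orderEmbOfFin_mem s hs4 j
  choose y hyL hyA using fun j => hm (s.orderEmbOfFin hs4 j) (hI j)
  have h1 : AffineIndependent ℝ fun j => nsep_P k (y j) :=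
    hind (fun j => s.orderEmbOfFin hs4 j) (s.orderEmbOfFin hs4).injective _
      fun j => hnear δ β hδ hδ' hβ hβ' _ _ (hyA j)
  have h2 := h1.finrank_vectorSpan (n := k + 3) (by rw [Fintype.card_fin])
  have h3 : vectorSpan ℝ (Set.range fun j => nsep_P k (y j)) ≤
      L.direction.map (nsep_P k).toLinearMap := by
    rw [vectorSpan_def, Submodule.span_le]
    rintro _ ⟨_, ⟨i, rfl⟩, _, ⟨j, rfl⟩, rfl⟩
    refine ⟨y i -ᵥ y j, AffineSubspace.vsub_mem_direction (hyL i) (hyL j), ?_⟩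
    exact map_sub (nsep_P k) (y i) (y j)
  have h4 := (Submodule.finrank_mono h3).trans (Submodule.finrank_map_le _ _)
  rw [h2, hd] at h4
  omega

end HyperplaneTransversals
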