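import Pool.Agent.Lib.MP_b2e5b9_co_D.Thk2
import Pool.Agent.Lib.MP_b2e5b9_co_D.Sol1

/-!
# Moving a good point into a stratum of the thickened family

Setting: the support of `σ` has `m + 1` elements, `h` is a good point, `L` is the set of the
indices which are larger than all elements of the support. The radii of the members in `L` are
prescribed (`ε₀`), the other radii are small.

Proof. `B = thk A (fun _ => δ)` is a family of bodies. Choose `k` with `σ k = 0`, an injective tuple
`I` whose last value is `k` and whose other values `e j` enumerate the support (`exists_enum`,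
`Fin.snoc`). Let `K = thk A ε₀ k` if `k ∈ L` and `K = A k` otherwise. `h` crosses `K` strictly: if
`k ∈ L` because `h` meets `A k` (`hi_cthickening`, `lo_cthickening`); if `k ∉ L` because `h` is a
good point, so `A k` is not touched. So `h.2 = lev K x h.1` with `|x| < 1` (`exists_lev`,
`abs_lt_one_of_lev`). For radii `p : Fin (m + 1) → ℝ` with `0 ≤ p j ≤ δ` let `g p` be the solution
(`sol_exists`) with orientation `orient B I h` of the functions
`lev (Metric.cthickening (p j) (A (e j))) (σ (e j))` and `lev K x` (`tanSys_lev`: all these sets are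
compact, convex, nonempty and contained in the corresponding `B i`). The functions are jointly
continuous in `p` and the vector by `lev_cthickening`, so `g` is continuous
(`sol_continuousOn`), and `g 0 = h` (`sol_unique`, `Metric.cthickening_zero`). So there is `η > 0`
such that for `0 ≤ p j < η` the hyperplane `g p` lies in `U` and satisfies the following open
conditions, which hold at `h`: for `l ∉ L`, `σ l = 0`: `lo (A l) < t < hi (A l)` (`h` is good, so `A l`
is not touched); for `l ∈ L`: `lo (A l) - ε₀ l < t < hi (A l) + ε₀ l`. Then for `ε` as in the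
statement `h' = g (fun j => ε (e j))` works: it is tangent to `thk A ε (e j)` as prescribed
(`lev K 1 = hi K`, `lev K (-1) = lo K`), it crosses `thk A ε l` strictly for `l ∈ L` as
`ε l = ε₀ l`, and for the other `l` as it crosses `A l` strictly (`hi_cthickening`,
`lo_cthickening`, unit vectors have norm one).
-/

set_option autoImplicit false

open Set Filter
open scoped RealInnerProductSpace Topology

namespace HyperplaneTransversals

variable {m n : ℕ} {A : Fin n → Set (E (m + 2))} {σ : Fin n → SignType}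

private theorem near_lev_one {d : ℕ} (K : Set (E d)) (u : E d) : lev K 1 u = hi K u := by
  unfold lev
  ring

private theorem near_lev_neg {d : ℕ} (K : Set (E d)) (u : E d) : lev K (-1) u = lo K u := by
  unfold lev
  ring

private theorem near_sgn (s : SignType) : |(s : ℝ)| ≤ 1 := by
  rcases SignType.trichotomy s with h | h | h <;> rw [h] <;> simp

private theorem near_norm {d : ℕ} (u : Metric.sphere (0 : E d) 1) : ‖(u : E d)‖ = 1 :=
  mem_sphere_zero_iff_norm.1 u.2

private theorem near_enum (hn : m + 2 ≤ n) (hσ : (supp σ).card = m + 1) :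
    ∃ (I : Fin (m + 2) → Fin n) (k : Fin n), Function.Injective I ∧ σ k = 0 ∧
      (∀ j, I j ≠ k → σ (I j) ≠ 0) ∧ ∀ i, σ i ≠ 0 → ∃ j, I j = i := by
  classical
  have h1 : ∃ k, k ∉ supp σ := by
    by_contra hcon
    push Not at hcon
    have h : supp σ = Finset.univ := Finset.eq_univ_iff_forall.2 hcon
    rw [h, Finset.card_univ, Fintype.card_fin] at hσ
    omega
  obtain ⟨k, hk⟩ := h1
  have h2 : (insert k (supp σ)).card = m + 2 := by
    rw [Finset.card_insert_of_notMem hk, hσ]
  refine ⟨(insert k (supp σ)).orderEmbOfFin h2, k,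
    ((insert k (supp σ)).orderEmbOfFin h2).injective, ?_, ?_, ?_⟩
  · by_contra h
    exact hk (mem_supp.2 h)
  · intro j hj
    rcases Finset.mem_insert.1 (Finset.orderEmbOfFin_mem (insert k (supp σ)) h2 j) with h | h
    · exact absurd h hj
    · exact mem_supp.1 h
  · intro i h0
    have h3 := Finset.range_orderEmbOfFin (insert k (supp σ)) h2
    have h4 : i ∈ Set.range ((insert k (supp σ)).orderEmbOfFin h2) := by
      rw [h3]
      exact Finset.mem_coe.2 (Finset.mem_insert_of_mem (mem_supp.2 h0))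
    exact h4

private theorem near_lev_cont {d : ℕ} {K : Set (E d)} (hK : IsCompact K) (hc : Convex ℝ K)
    (hne : K.Nonempty) (q : ℝ) : Continuous (lev K q) := by
  have h1 := continuous_hi hK hc hne
  have h2 := continuous_lo hK hc hne
  unfold lev
  fun_prop

/-- The touching conditions at a point of the closed stratum. -/
private theorem near_tan {K : Set (E (m + 2))} {s : SignType} (hs : s ≠ 0) {h : OH (m + 2)}
    (h1 : s = 1 → h.2 = hi K h.1) (h2 : s = -1 → h.2 = lo K h.1) : lev K (s : ℝ) h.1 = h.2 := by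
  rcases SignType.trichotomy s with e | e | e
  · rw [h2 e, e, SignType.coe_neg_one, near_lev_neg]
  · exact absurd e hs
  · rw [h1 e, e, SignType.coe_one, near_lev_one]

/-- The open conditions. -/
private theorem near_open (hA : CFam A) {h : OH (m + 2)} (hh : h ∈ GoodPt A σ)
    {ε₀ : Fin n → ℝ} (hε₀ : ∀ i, 0 < ε₀ i) :
    ∀ᶠ h' in 𝓝 h, ∀ l, σ l = 0 → ∃ r, 0 ≤ r ∧ ((∀ i, σ i ≠ 0 → i < l) → r = ε₀ l) ∧
      (¬ (∀ i, σ i ≠ 0 → i < l) → r = 0) ∧ lo (A l) h'.1 - r < h'.2 ∧
      h'.2 < hi (A l) h'.1 + r := by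
  classical
  rw [Filter.eventually_all]
  intro l
  by_cases hl : σ l = 0
  swap
  · exact Filter.Eventually.of_forall fun _ h0 => absurd h0 hl
  have c1 : Continuous fun h' : OH (m + 2) => hi (A l) h'.1 :=
    (continuous_hi (hA.compact l) (hA.convex l) (hA.nonempty l)).comp (by fun_prop)
  have c2 : Continuous fun h' : OH (m + 2) => lo (A l) h'.1 :=
    (continuous_lo (hA.compact l) (hA.convex l) (hA.nonempty l)).comp (by fun_prop)
  have hcl := (hh.1 l).1 hl
  set r : ℝ := if (∀ i, σ i ≠ 0 → i < l) then ε₀ l else 0 with hr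
  have hr0 : 0 ≤ r := by
    rw [hr]
    split_ifs
    · exact (hε₀ l).le
    · exact le_rfl
  have b1 : lo (A l) h.1 - r < h.2 := by
    by_cases hL : ∀ i, σ i ≠ 0 → i < l
    · rw [hr, if_pos hL]
      linarith [hε₀ l]
    · rw [hr, if_neg hL]
      have hne : h.2 ≠ lo (A l) h.1 := fun e => hL (hh.2 l hl (Or.inr e))
      have := lt_of_le_of_ne hcl.1 (Ne.symm hne)
      linarith
  have b2 : h.2 < hi (A l) h.1 + r := by
    by_cases hL : ∀ i, σ i ≠ 0 → i < l
    · rw [hr, if_pos hL]
      linarith [hε₀ l]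
    · rw [hr, if_neg hL]
      have hne : h.2 ≠ hi (A l) h.1 := fun e => hL (hh.2 l hl (Or.inl e))
      have := lt_of_le_of_ne hcl.2 hne
      linarith
  have o1 : ∀ᶠ h' in 𝓝 h, lo (A l) h'.1 - r < h'.2 :=
    (isOpen_lt (c2.sub continuous_const) continuous_snd).mem_nhds b1
  have o2 : ∀ᶠ h' in 𝓝 h, h'.2 < hi (A l) h'.1 + r :=
    (isOpen_lt continuous_snd (c1.add continuous_const)).mem_nhds b2
  filter_upwards [o1, o2] with h' e1 e2 _
  refine ⟨r, hr0, fun hL => ?_, fun hL => ?_, e1, e2⟩
  · rw [hr, if_pos hL]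
  · rw [hr, if_neg hL]

theorem exists_near (hA : CFam A) (hn : m + 2 ≤ n) (hσ : (supp σ).card = m + 1) {δ : ℝ}
    (hδ : 0 < δ) (hδA : ∀ ε : Fin n → ℝ, (∀ i, 0 < ε i ∧ ε i ≤ δ) → Fam (thk A ε))
    {h : OH (m + 2)} (hh : h ∈ GoodPt A σ) {U : Set (OH (m + 2))} (hU : U ∈ 𝓝 h)
    (ε₀ : Fin n → ℝ) (hε₀ : ∀ i, 0 < ε₀ i ∧ ε₀ i ≤ δ) :
    ∃ η : ℝ, 0 < η ∧ ∀ ε : Fin n → ℝ, (∀ i, 0 < ε i ∧ ε i ≤ δ) →
      (∀ l, (∀ i, σ i ≠ 0 → i < l) → ε l = ε₀ l) →
      (∀ l, ¬ (∀ i, σ i ≠ 0 → i < l) → ε l < η) → ∃ h' ∈ U, h' ∈ St (thk A ε) σ := by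
  classical
  obtain ⟨I, k, hI, hk, hIk, hIs⟩ := near_enum hn hσ
  set B : Fin n → Set (E (m + 2)) := thk A (fun _ => δ) with hBdef
  have hB : Fam B := hδA _ fun _ => ⟨hδ, le_rfl⟩
  have hhk := (hh.1 k).1 hk
  -- the position of the hyperplane relative to the last body
  have hx : |pos (B k) h| ≤ 1 := by
    rw [abs_pos_le_one_iff (hB.compact k) (hB.body k)]
    have e1 : lo (B k) h.1 = lo (A k) h.1 - δ * ‖(h.1 : E (m + 2))‖ :=
      lo_cthickening (hA.compact k) (hA.nonempty k) hδ.le _
    have e2 : hi (B k) h.1 = hi (A k) h.1 + δ * ‖(h.1 : E (m + 2))‖ :=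
      hi_cthickening (hA.compact k) (hA.nonempty k) hδ.le _
    rw [e1, e2, near_norm]
    constructor <;> linarith
  set q : Fin (m + 2) → ℝ := fun j => if I j = k then pos (B k) h else (σ (I j) : ℝ) with hq
  have hq1 : ∀ j, |q j| ≤ 1 := by
    intro j
    simp only [hq]
    split_ifs
    · exact hx
    · exact near_sgn _
  set F : (Fin (m + 2) → ℝ) → Fin (m + 2) → E (m + 2) → ℝ := fun p j =>
    lev (Metric.cthickening (p j) (A (I j))) (q j) with hF
  set s : Set (Fin (m + 2) → ℝ) := {p | ∀ j, 0 ≤ p j ∧ p j ≤ δ} with hs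
  have hT : ∀ p ∈ s, TanSys (fun j => B (I j)) (F p) := by
    intro p hp
    refine tanSys_lev hB hI (K := fun j => Metric.cthickening (p j) (A (I j))) (fun j => ?_) hq1
    refine ⟨(hA.compact _).cthickening, (hA.convex _).cthickening _, ?_, ?_⟩
    · exact (hA.nonempty _).mono (Metric.self_subset_cthickening _)
    · exact Metric.cthickening_mono (hp j).2 _
  have hFe : ∀ p ∈ s, ∀ j u, F p j u = lev (A (I j)) (q j) u + q j * p j * ‖u‖ :=
    fun p hp j u => lev_cthickening (hA.compact _) (hA.nonempty _) (hp j).1 _ _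
  have hc : ∀ j, ContinuousOn (fun z : (Fin (m + 2) → ℝ) × E (m + 2) => F z.1 j z.2)
      (s ×ˢ Set.univ) := by
    intro j
    have h1 : Continuous fun z : (Fin (m + 2) → ℝ) × E (m + 2) =>
        lev (A (I j)) (q j) z.2 + q j * z.1 j * ‖z.2‖ := by
      have h2 := near_lev_cont (hA.compact (I j)) (hA.convex (I j)) (hA.nonempty (I j)) (q j)
      have h3 : Continuous fun z : (Fin (m + 2) → ℝ) × E (m + 2) => lev (A (I j)) (q j) z.2 :=
        h2.comp continuous_snd
      fun_prop
    exact h1.continuousOn.congr fun z hz => hFe z.1 hz.1 j z.2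
  have hex : ∀ p ∈ s, ∃ h' : OH (m + 2), (∀ j, F p j h'.1 = h'.2) ∧
      orient B I h' = orient B I h :=
    fun p hp => sol_exists hB hI (hT p hp) (orient_mem B I h)
  have : Nonempty (OH (m + 2)) := ⟨h⟩
  choose! g hg using hex
  have hgc : ContinuousOn g s := sol_continuousOn hB hI hT hc hg
  -- the base point
  set p₀ : Fin (m + 2) → ℝ := fun j => if I j = k then δ else 0 with hp₀
  have hp₀s : p₀ ∈ s := by
    intro j
    simp only [hp₀]
    split_ifs
    · exact ⟨hδ.le, le_rfl⟩
    · exact ⟨le_rfl, hδ.le⟩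
  have hg₀ : g p₀ = h := by
    refine sol_unique hB hI (hT p₀ hp₀s) (hg p₀ hp₀s).1 (fun j => ?_) (hg p₀ hp₀s).2
    by_cases hj : I j = k
    · have e1 : F p₀ j = lev (B k) (pos (B k) h) := by
        simp only [hF, hq, hp₀, if_pos hj]
        rw [hj, hBdef]
        rfl
      rw [e1]
      exact lev_pos (hB.compact k) (hB.body k) h
    · rw [hFe p₀ hp₀s]
      have e1 : p₀ j = 0 := by
        simp only [hp₀, if_neg hj]
      have e2 : q j = (σ (I j) : ℝ) := by
        simp only [hq, if_neg hj]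
      rw [e1, e2, mul_zero, zero_mul, add_zero]
      exact near_tan (hIk j hj) (hh.1 (I j)).2.1 (hh.1 (I j)).2.2
  have hW := (Filter.Eventually.and (p := fun h' => h' ∈ U) hU
    (near_open hA hh fun i => (hε₀ i).1))
  have hcw := hgc p₀ hp₀s
  rw [ContinuousWithinAt, hg₀] at hcw
  obtain ⟨η, hη, hηW⟩ := Metric.mem_nhdsWithin_iff.1 (hcw hW)
  refine ⟨η, hη, fun ε hε hεL hεη => ?_⟩
  set p : Fin (m + 2) → ℝ := fun j => if I j = k then δ else ε (I j) with hp
  have hps : p ∈ s := by
    intro j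
    simp only [hp]
    split_ifs
    · exact ⟨hδ.le, le_rfl⟩
    · exact ⟨(hε _).1.le, (hε _).2⟩
  have hpη : p ∈ Metric.ball p₀ η := by
    rw [Metric.mem_ball, dist_pi_lt_iff hη]
    intro j
    simp only [hp, hp₀]
    split_ifs with hj
    · rw [dist_self]
      exact hη
    · rw [Real.dist_eq, sub_zero, abs_of_pos (hε _).1]
      exact hεη _ fun hL => lt_irrefl _ (hL _ (hIk j hj))
  obtain ⟨hgU, hgo⟩ := hηW ⟨hpη, hps⟩
  refine ⟨g p, hgU, fun i => ?_⟩
  have hlo : lo (thk A ε i) (g p).1 = lo (A i) (g p).1 - ε i := by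
    have e1 := lo_cthickening (hA.compact i) (hA.nonempty i) (hε i).1.le ((g p).1 : E (m + 2))
    rw [near_norm, mul_one] at e1
    exact e1
  have hhi : hi (thk A ε i) (g p).1 = hi (A i) (g p).1 + ε i := by
    have e1 := hi_cthickening (hA.compact i) (hA.nonempty i) (hε i).1.le ((g p).1 : E (m + 2))
    rw [near_norm, mul_one] at e1
    exact e1
  have htan : σ i ≠ 0 → lev (thk A ε i) (σ i : ℝ) (g p).1 = (g p).2 := by
    intro h0
    obtain ⟨j, rfl⟩ := hIs i h0
    have hj : I j ≠ k := fun e => h0 (by rw [e]; exact hk)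
    have e1 := (hg p hps).1 j
    have e2 : F p j = lev (thk A ε (I j)) (σ (I j) : ℝ) := by
      simp only [hF, hq, hp, if_neg hj]
      rfl
    rw [e2] at e1
    exact e1
  refine ⟨fun h0 => ?_, fun h1 => ?_, fun h1 => ?_⟩
  · obtain ⟨r, hr0, hr1, hr2, hr3, hr4⟩ := hgo i h0
    have hrε : r ≤ ε i := by
      by_cases hL : ∀ i', σ i' ≠ 0 → i' < i
      · rw [hr1 hL, hεL i hL]
      · rw [hr2 hL]
        exact (hε i).1.le
    rw [hlo, hhi]
    constructor <;> linarith
  · have e1 := htan (by rw [h1]; decide)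
    rw [h1, SignType.coe_one, near_lev_one] at e1
    exact e1.symm
  · have e1 := htan (by rw [h1]; decide)
    rw [h1, SignType.coe_neg_one, near_lev_neg] at e1
    exact e1.symm

end HyperplaneTransversals
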