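import Pool.Agent.Lib.MP_b2e5b9_co_D.Defs

/-!
# Pencils of hyperplanes

Plan. `exists_pencil`: let `V` be the span of the `m` linearly independent vectors
`P l.succ - P 0`; its orthogonal complement has dimension `2`
(`Submodule.finrank_add_finrank_orthogonal`); take an orthonormal basis `f1, f2` of `Vᗮ`
(`stdOrthonormalBasis`, reindexed to `Fin 2`) and the base point `P 0`. A unit vector `u` with
`⟪u, P j⟫ = t` for all `j` is in `Vᗮ`, so `u = x • f1 + y • f2` with `x ^ 2 + y ^ 2 = 1`, so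
`x = cos θ`, `y = sin θ` for some `θ ∈ [0, 2π]` (for example by `Complex.arg`, or
`Real.Angle`; add `2π` if the angle is negative), and `t = ⟪u, P 0⟫`.

`Cont_encard_le`: if `h` contains `m + 2` affinely independent points `P j` then `h.1` is
orthogonal to the `(m + 1)`-dimensional span of the differences, whose orthogonal complement is a
line with exactly two unit vectors; and `h.2 = ⟪h.1, P 0⟫`.
-/

set_option autoImplicit false

open scoped RealInnerProductSpace Topology

namespace HyperplaneTransversals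

variable {m : ℕ}

theorem Pencil.continuous_h {d : ℕ} (D : Pencil d) : Continuous D.h := by
  have h1 : Continuous D.u := by
    refine Continuous.subtype_mk ?_ _
    exact (Real.continuous_cos.smul continuous_const).add
      (Real.continuous_sin.smul continuous_const)
  exact h1.prodMk ((continuous_subtype_val.comp h1).inner continuous_const)

/-- the unit circle -/
theorem pena_angle {x y : ℝ} (h : x ^ 2 + y ^ 2 = 1) :
    ∃ θ ∈ Set.Icc (0 : ℝ) (2 * Real.pi), Real.cos θ = x ∧ Real.sin θ = y := by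
  have hn : ‖(x + y * Complex.I : ℂ)‖ = 1 := by
    rw [Complex.norm_add_mul_I, h, Real.sqrt_one]
  have hne : (x + y * Complex.I : ℂ) ≠ 0 := by
    intro h0
    rw [h0, norm_zero] at hn
    exact zero_ne_one hn
  have hc : Real.cos (x + y * Complex.I : ℂ).arg = x := by
    rw [Complex.cos_arg hne, hn]
    simp
  have hs : Real.sin (x + y * Complex.I : ℂ).arg = y := by
    rw [Complex.sin_arg, hn]
    simp
  have h1 := Complex.neg_pi_lt_arg (x + y * Complex.I : ℂ)
  have h2 := Complex.arg_le_pi (x + y * Complex.I : ℂ)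
  have hpi := Real.pi_pos
  rcases le_or_gt 0 (x + y * Complex.I : ℂ).arg with h3 | h3
  · exact ⟨_, ⟨h3, by linarith⟩, hc, hs⟩
  · refine ⟨(x + y * Complex.I : ℂ).arg + 2 * Real.pi, ⟨by linarith, by linarith⟩, ?_, ?_⟩
    · rw [Real.cos_add_two_pi, hc]
    · rw [Real.sin_add_two_pi, hs]

/-- a normal vector of a hyperplane through the points -/
theorem pena_mem {ι : Type} {d : ℕ} {P : ι → E d} {u : E d} {t : ℝ} (h : ∀ j, ⟪u, P j⟫ = t) :
    u ∈ (vectorSpan ℝ (Set.range P))ᗮ := by
  rw [Submodule.mem_orthogonal', vectorSpan_def]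
  intro v hv
  induction hv using Submodule.span_induction with
  | mem v hv =>
    obtain ⟨_, ⟨i, rfl⟩, _, ⟨j, rfl⟩, rfl⟩ := hv
    show ⟪u, P i - P j⟫ = 0
    rw [inner_sub_right, h, h, sub_self]
  | zero => exact inner_zero_right _
  | add v w _ _ hv hw => rw [inner_add_right, hv, hw, add_zero]
  | smul c v _ hv => rw [inner_smul_right, hv, mul_zero]

theorem pena_rank {d r : ℕ} {P : Fin (r + 1) → E d} (hP : AffineIndependent ℝ P) :
    r + Module.finrank ℝ (vectorSpan ℝ (Set.range P))ᗮ = d := by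
  have h1 := hP.finrank_vectorSpan (n := r) (by simp)
  have h2 := Submodule.finrank_add_finrank_orthogonal (vectorSpan ℝ (Set.range P))
  rw [h1, finrank_euclideanSpace, Fintype.card_fin] at h2
  exact h2

/-- The oriented hyperplanes that contain `m + 1` affinely independent points form a pencil. -/
theorem exists_pencil {P : Fin (m + 1) → E (m + 2)} (hP : AffineIndependent ℝ P) :
    ∃ D : Pencil (m + 2), ∀ h : OH (m + 2), (∀ j, ⟪(h.1 : E (m + 2)), P j⟫ = h.2) →
      h ∈ D.h '' Set.Icc 0 (2 * Real.pi) := by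
  have hr : Module.finrank ℝ (vectorSpan ℝ (Set.range P))ᗮ = 2 := by
    have := pena_rank hP
    omega
  let b : OrthonormalBasis (Fin 2) ℝ (vectorSpan ℝ (Set.range P))ᗮ :=
    (stdOrthonormalBasis ℝ (vectorSpan ℝ (Set.range P))ᗮ).reindex (finCongr hr)
  have hb0 : ‖((b 0 : (vectorSpan ℝ (Set.range P))ᗮ) : E (m + 2))‖ = 1 := b.orthonormal.1 0
  have hb1 : ‖((b 1 : (vectorSpan ℝ (Set.range P))ᗮ) : E (m + 2))‖ = 1 := b.orthonormal.1 1
  have hb01 : ⟪((b 0 : (vectorSpan ℝ (Set.range P))ᗮ) : E (m + 2)),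
      ((b 1 : (vectorSpan ℝ (Set.range P))ᗮ) : E (m + 2))⟫ = 0 :=
    b.orthonormal.2 (by decide)
  let D : Pencil (m + 2) := ⟨b 0, b 1, P 0, hb0, hb1, hb01⟩
  refine ⟨D, fun h hh => ?_⟩
  have hu : (h.1 : E (m + 2)) ∈ (vectorSpan ℝ (Set.range P))ᗮ := pena_mem hh
  obtain ⟨x, y, hxy⟩ : ∃ x y : ℝ, (h.1 : E (m + 2)) =
      x • ((b 0 : (vectorSpan ℝ (Set.range P))ᗮ) : E (m + 2)) +
      y • ((b 1 : (vectorSpan ℝ (Set.range P))ᗮ) : E (m + 2)) := by
    have h1 := b.sum_repr' ⟨_, hu⟩
    rw [Fin.sum_univ_two] at h1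
    exact ⟨_, _, (congrArg Subtype.val h1).symm⟩
  have hn : x ^ 2 + y ^ 2 = 1 := by
    have h1 : ‖(h.1 : E (m + 2))‖ = 1 := mem_sphere_zero_iff_norm.1 h.1.2
    have h2 : ‖(h.1 : E (m + 2))‖ ^ 2 = x ^ 2 + y ^ 2 := by
      rw [hxy, norm_add_sq_real, norm_smul, norm_smul, hb0, hb1, inner_smul_left,
        inner_smul_right, hb01]
      simp
    rw [← h2, h1, one_pow]
  obtain ⟨θ, hθ, hc, hs⟩ := pena_angle hn
  refine ⟨θ, hθ, ?_⟩
  have h1 : D.u θ = h.1 := by
    refine Subtype.ext ?_
    show Real.cos θ • ((b 0 : (vectorSpan ℝ (Set.range P))ᗮ) : E (m + 2)) +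
      Real.sin θ • ((b 1 : (vectorSpan ℝ (Set.range P))ᗮ) : E (m + 2)) = (h.1 : E (m + 2))
    rw [hc, hs, hxy]
  refine Prod.ext h1 ?_
  show ⟪(D.u θ : E (m + 2)), P 0⟫ = h.2
  rw [h1]
  exact hh 0

/-- The oriented hyperplanes containing a set of dimension at least `m` lie in a pencil. -/
theorem Cont_subset_pencil {K : Set (E (m + 2))} {P : Fin (m + 1) → E (m + 2)}
    (hP : AffineIndependent ℝ P) (hPK : ∀ j, P j ∈ K) :
    ∃ D : Pencil (m + 2), Cont K ⊆ D.h '' Set.Icc 0 (2 * Real.pi) := by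
  obtain ⟨D, hD⟩ := exists_pencil hP
  exact ⟨D, fun h hh => hD h fun j => hh _ (hPK j)⟩

/-- At most two oriented hyperplanes contain a set of dimension at least `m + 1`. -/
theorem Cont_encard_le {K : Set (E (m + 2))} {P : Fin (m + 2) → E (m + 2)}
    (hP : AffineIndependent ℝ P) (hPK : ∀ j, P j ∈ K) : (Cont K).encard ≤ 2 := by
  rcases (Cont K).eq_empty_or_nonempty with h0 | ⟨h, hh⟩
  · rw [h0, Set.encard_empty]
    norm_num
  · have hr : Module.finrank ℝ (vectorSpan ℝ (Set.range P))ᗮ = 1 := by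
      have := pena_rank hP
      omega
    have hm : ∀ h' ∈ Cont K, (h'.1 : E (m + 2)) ∈ (vectorSpan ℝ (Set.range P))ᗮ :=
      fun h' hh' => pena_mem fun j => hh' _ (hPK j)
    have hn : ∀ h' : OH (m + 2), ‖(h'.1 : E (m + 2))‖ = 1 := fun h' =>
      mem_sphere_zero_iff_norm.1 h'.1.2
    have hne : (⟨_, hm h hh⟩ : (vectorSpan ℝ (Set.range P))ᗮ) ≠ 0 := by
      intro h1
      have h2 : (h.1 : E (m + 2)) = 0 := congrArg Subtype.val h1
      have h3 := hn h
      rw [h2, norm_zero] at h3
      exact zero_ne_one h3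
    have hsub : Cont K ⊆ {h, (-h.1, -h.2)} := by
      intro h' hh'
      obtain ⟨c, hc⟩ := (finrank_eq_one_iff_of_nonzero' _ hne).1 hr ⟨_, hm h' hh'⟩
      have hc' : c • (h.1 : E (m + 2)) = h'.1 := congrArg Subtype.val hc
      have h1 : |c| = 1 := by
        have h2 := congrArg norm hc'
        rw [norm_smul, hn, hn, mul_one, Real.norm_eq_abs] at h2
        exact h2
      have h2 : h'.2 = c * h.2 := by
        rw [← hh' _ (hPK 0), ← hh _ (hPK 0), ← hc', real_inner_smul_left]
      rcases eq_or_eq_neg_of_abs_eq h1 with rfl | rfl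
      · left
        refine Prod.ext (Subtype.ext ?_) ?_
        · rw [← hc', one_smul]
        · rw [h2, one_mul]
      · right
        refine Prod.ext (Subtype.ext ?_) ?_
        · rw [← hc', neg_one_smul]
          rfl
        · rw [h2, neg_one_mul]
    refine (Set.encard_le_encard hsub).trans ?_
    refine (Set.encard_insert_le _ _).trans ?_
    rw [Set.encard_singleton]
    norm_num

end HyperplaneTransversals
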