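import Pool.Agent.Lib.MP_b2e5b9_co_D.PenA

/-!
# The labels along a pencil are piecewise constant

Plan. `inner_combo`: for `a ≤ θ₁ ≤ θ ≤ θ₂ ≤ b`, `b - a < π`, the normal `u θ` is a combination
`α • u θ₁ + β • u θ₂` with `α, β ≥ 0`, `α + β > 0`: if `θ₁ < θ₂` take
`α = sin (θ₂ - θ) / sin (θ₂ - θ₁)`, `β = sin (θ - θ₁) / sin (θ₂ - θ₁)`; if `θ₁ = θ₂` take
`α = 1`, `β = 0`.

Write `g θ = (D.h θ).2 - hi K (D.h θ).1`. `0 ≤ g θ` means `⟪u θ, x - D.p⟫ ≤ 0` for all `x ∈ K`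
(`le_hi`, `exists_hi`), which is preserved by such combinations; `0 < g θ` means that all these
inner products are negative (the supremum is attained), also preserved. The same for
`(D.h θ).2 - lo K (D.h θ).1` with the inequalities reversed.

`exists_two_breaks`: for an order connected `P ⊆ [a, b]` the two numbers `sInf P`, `sSup P` (any
two numbers if `P` is empty): if both are outside `[θ, θ']` then `θ ∈ P ↔ θ' ∈ P` (if `θ ∈ P` and
`θ' ∉ P` then `θ ≤ sSup P ≤ θ'`, since all points of `P` are below `θ'`: a point of `P` above `θ'`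
would give `θ' ∈ P`; symmetric for `sInf P`).

`exists_breaks`: the union over the members of the breakpoints of the four order connected sets
where `0 ≤ t - hi`, `0 < t - hi`, `t - lo ≤ 0`, `t - lo < 0`; the label is determined by the
membership in these `4 n` sets.
-/

set_option autoImplicit false

open Set
open scoped RealInnerProductSpace Topology

namespace HyperplaneTransversals

variable {d : ℕ}

private theorem penb_sum (D : Pencil d) {θ₁ θ θ₂ α β : ℝ}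
    (hc : Real.cos θ = α * Real.cos θ₁ + β * Real.cos θ₂)
    (hs : Real.sin θ = α * Real.sin θ₁ + β * Real.sin θ₂) :
    (D.u θ : E d) = α • (D.u θ₁ : E d) + β • (D.u θ₂ : E d) := by
  show Real.cos θ • D.f1 + Real.sin θ • D.f2 =
    α • (Real.cos θ₁ • D.f1 + Real.sin θ₁ • D.f2) +
    β • (Real.cos θ₂ • D.f1 + Real.sin θ₂ • D.f2)
  rw [hc, hs]
  module

theorem inner_combo (D : Pencil d) {θ₁ θ θ₂ : ℝ} (h1 : θ₁ ≤ θ) (h2 : θ ≤ θ₂)
    (h3 : θ₂ - θ₁ < Real.pi) :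
    ∃ α β : ℝ, 0 ≤ α ∧ 0 ≤ β ∧ 0 < α + β ∧
      (D.u θ : E d) = α • (D.u θ₁ : E d) + β • (D.u θ₂ : E d) := by
  have hpi := Real.pi_pos
  rcases (h1.trans h2).lt_or_eq with h4 | h4
  · have hs : 0 < Real.sin (θ₂ - θ₁) := Real.sin_pos_of_pos_of_lt_pi (by linarith) h3
    have ha : 0 ≤ Real.sin (θ₂ - θ) :=
      Real.sin_nonneg_of_nonneg_of_le_pi (by linarith) (by linarith)
    have hb : 0 ≤ Real.sin (θ - θ₁) :=
      Real.sin_nonneg_of_nonneg_of_le_pi (by linarith) (by linarith)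
    have hab : 0 < Real.sin (θ₂ - θ) + Real.sin (θ - θ₁) := by
      rcases h1.lt_or_eq with h5 | h5
      · have := Real.sin_pos_of_pos_of_lt_pi (x := θ - θ₁) (by linarith) (by linarith)
        linarith
      · have := Real.sin_pos_of_pos_of_lt_pi (x := θ₂ - θ) (by linarith) (by linarith)
        linarith
    refine ⟨Real.sin (θ₂ - θ) / Real.sin (θ₂ - θ₁), Real.sin (θ - θ₁) / Real.sin (θ₂ - θ₁),
      div_nonneg ha hs.le, div_nonneg hb hs.le, ?_, penb_sum D ?_ ?_⟩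
    · rw [← add_div]
      exact div_pos hab hs
    · rw [div_mul_eq_mul_div, div_mul_eq_mul_div, ← add_div, eq_div_iff hs.ne',
        Real.sin_sub, Real.sin_sub, Real.sin_sub]
      ring
    · rw [div_mul_eq_mul_div, div_mul_eq_mul_div, ← add_div, eq_div_iff hs.ne',
        Real.sin_sub, Real.sin_sub, Real.sin_sub]
      ring
  · have h5 : θ = θ₁ := le_antisymm (h4 ▸ h2) h1
    refine ⟨1, 0, zero_le_one, le_refl _, by norm_num, ?_⟩
    rw [h5, one_smul, zero_smul, add_zero]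

variable {K : Set (E d)} {a b : ℝ}

private theorem penb_inner (D : Pencil d) (θ : ℝ) (x : E d) :
    ⟪(D.u θ : E d), x - D.p⟫ = ⟪(D.u θ : E d), x⟫ - (D.h θ).2 := by
  rw [inner_sub_right]
  rfl

private theorem penb_hi_le (D : Pencil d) (hK : IsCompact K) (hne : K.Nonempty) (θ : ℝ) :
    0 ≤ (D.h θ).2 - hi K (D.h θ).1 ↔ ∀ x ∈ K, ⟪(D.u θ : E d), x - D.p⟫ ≤ 0 := by
  constructor
  · intro h x hx
    have h1 : ⟪(D.u θ : E d), x⟫ ≤ hi K (D.h θ).1 := le_hi hK _ hx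
    rw [penb_inner]
    linarith
  · intro h
    obtain ⟨x, hx, hxe⟩ := exists_hi hK hne (D.h θ).1
    have h1 := h x hx
    have hxe' : ⟪(D.u θ : E d), x⟫ = hi K (D.h θ).1 := hxe
    rw [penb_inner] at h1
    linarith

private theorem penb_hi_lt (D : Pencil d) (hK : IsCompact K) (hne : K.Nonempty) (θ : ℝ) :
    0 < (D.h θ).2 - hi K (D.h θ).1 ↔ ∀ x ∈ K, ⟪(D.u θ : E d), x - D.p⟫ < 0 := by
  constructor
  · intro h x hx
    have h1 : ⟪(D.u θ : E d), x⟫ ≤ hi K (D.h θ).1 := le_hi hK _ hx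
    rw [penb_inner]
    linarith
  · intro h
    obtain ⟨x, hx, hxe⟩ := exists_hi hK hne (D.h θ).1
    have h1 := h x hx
    have hxe' : ⟪(D.u θ : E d), x⟫ = hi K (D.h θ).1 := hxe
    rw [penb_inner] at h1
    linarith

private theorem penb_lo_le (D : Pencil d) (hK : IsCompact K) (hne : K.Nonempty) (θ : ℝ) :
    (D.h θ).2 - lo K (D.h θ).1 ≤ 0 ↔ ∀ x ∈ K, 0 ≤ ⟪(D.u θ : E d), x - D.p⟫ := by
  constructor
  · intro h x hx
    have h1 : lo K (D.h θ).1 ≤ ⟪(D.u θ : E d), x⟫ := lo_le hK _ hx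
    rw [penb_inner]
    linarith
  · intro h
    obtain ⟨x, hx, hxe⟩ := exists_lo hK hne (D.h θ).1
    have h1 := h x hx
    have hxe' : ⟪(D.u θ : E d), x⟫ = lo K (D.h θ).1 := hxe
    rw [penb_inner] at h1
    linarith

private theorem penb_lo_lt (D : Pencil d) (hK : IsCompact K) (hne : K.Nonempty) (θ : ℝ) :
    (D.h θ).2 - lo K (D.h θ).1 < 0 ↔ ∀ x ∈ K, 0 < ⟪(D.u θ : E d), x - D.p⟫ := by
  constructor
  · intro h x hx
    have h1 : lo K (D.h θ).1 ≤ ⟪(D.u θ : E d), x⟫ := lo_le hK _ hx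
    rw [penb_inner]
    linarith
  · intro h
    obtain ⟨x, hx, hxe⟩ := exists_lo hK hne (D.h θ).1
    have h1 := h x hx
    have hxe' : ⟪(D.u θ : E d), x⟫ = lo K (D.h θ).1 := hxe
    rw [penb_inner] at h1
    linarith

/-- a condition on the angles preserved by nonnegative combinations -/
private theorem penb_conn (D : Pencil d) (hab : b - a < Real.pi) {Q : ℝ → Prop}
    (R : ℝ → Prop) (hR : ∀ α β s t : ℝ, 0 ≤ α → 0 ≤ β → 0 < α + β → R s → R t →
      R (α * s + β * t))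
    (hQ : ∀ θ, Q θ ↔ ∀ x ∈ K, R ⟪(D.u θ : E d), x - D.p⟫) :
    {θ | θ ∈ Icc a b ∧ Q θ}.OrdConnected := by
  refine ⟨?_⟩
  rintro θ₁ ⟨h1, h1'⟩ θ₂ ⟨h2, h2'⟩ θ ⟨h3, h4⟩
  refine ⟨⟨h1.1.trans h3, h4.trans h2.2⟩, (hQ θ).2 fun x hx => ?_⟩
  obtain ⟨α, β, hα, hβ, hαβ, he⟩ := inner_combo D h3 h4 (by linarith [h1.1, h2.2])
  rw [he, inner_add_left, real_inner_smul_left, real_inner_smul_left]
  exact hR _ _ _ _ hα hβ hαβ ((hQ θ₁).1 h1' x hx) ((hQ θ₂).1 h2' x hx)

private theorem penb_le (α β s t : ℝ) (hα : 0 ≤ α) (hβ : 0 ≤ β) (hs : s ≤ 0) (ht : t ≤ 0) :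
    α * s + β * t ≤ 0 := by
  have h1 := mul_nonneg hα (neg_nonneg.2 hs)
  have h2 := mul_nonneg hβ (neg_nonneg.2 ht)
  linarith

private theorem penb_lt (α β s t : ℝ) (hα : 0 ≤ α) (hβ : 0 ≤ β) (h : 0 < α + β) (hs : 0 < s)
    (ht : 0 < t) : 0 < α * s + β * t := by
  rcases hα.lt_or_eq with h1 | h1
  · have h2 := mul_pos h1 hs
    have h3 := mul_nonneg hβ ht.le
    linarith
  · have h2 := mul_nonneg hα hs.le
    have h3 := mul_pos (by linarith : 0 < β) ht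
    linarith

theorem ordConnected_hi_le (D : Pencil d) (hK : IsCompact K) (hne : K.Nonempty)
    (hab : b - a < Real.pi) : {θ | θ ∈ Icc a b ∧ 0 ≤ (D.h θ).2 - hi K (D.h θ).1}.OrdConnected := by
  exact penb_conn D hab (fun s => s ≤ 0)
    (fun α β s t hα hβ _ hs ht => penb_le α β s t hα hβ hs ht) (penb_hi_le D hK hne)

theorem ordConnected_hi_lt (D : Pencil d) (hK : IsCompact K) (hne : K.Nonempty)
    (hab : b - a < Real.pi) : {θ | θ ∈ Icc a b ∧ 0 < (D.h θ).2 - hi K (D.h θ).1}.OrdConnected := by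
  refine penb_conn D hab (fun s => s < 0) (fun α β s t hα hβ h hs ht => ?_)
    (penb_hi_lt D hK hne)
  have := penb_lt α β (-s) (-t) hα hβ h (neg_pos.2 hs) (neg_pos.2 ht)
  show α * s + β * t < 0
  linarith

theorem ordConnected_lo_le (D : Pencil d) (hK : IsCompact K) (hne : K.Nonempty)
    (hab : b - a < Real.pi) : {θ | θ ∈ Icc a b ∧ (D.h θ).2 - lo K (D.h θ).1 ≤ 0}.OrdConnected := by
  refine penb_conn D hab (fun s => 0 ≤ s) (fun α β s t hα hβ _ hs ht => ?_)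
    (penb_lo_le D hK hne)
  exact add_nonneg (mul_nonneg hα hs) (mul_nonneg hβ ht)

theorem ordConnected_lo_lt (D : Pencil d) (hK : IsCompact K) (hne : K.Nonempty)
    (hab : b - a < Real.pi) : {θ | θ ∈ Icc a b ∧ (D.h θ).2 - lo K (D.h θ).1 < 0}.OrdConnected := by
  exact penb_conn D hab (fun s => 0 < s)
    (fun α β s t hα hβ h hs ht => penb_lt α β s t hα hβ h hs ht) (penb_lo_lt D hK hne)

theorem exists_two_breaks {P : Set ℝ} (hP : P.OrdConnected) (hPab : P ⊆ Icc a b) :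
    ∃ x y : ℝ, ∀ θ θ' : ℝ, θ ≤ θ' → x ∉ Icc θ θ' → y ∉ Icc θ θ' → (θ ∈ P ↔ θ' ∈ P) := by
  rcases P.eq_empty_or_nonempty with h0 | h0
  · refine ⟨0, 0, fun θ θ' _ _ _ => ?_⟩
    rw [h0]
    exact Iff.rfl
  have hb1 : BddBelow P := bddBelow_Icc.mono hPab
  have hb2 : BddAbove P := bddAbove_Icc.mono hPab
  refine ⟨sInf P, sSup P, fun θ θ' hle hx hy => ⟨fun h => ?_, fun h => ?_⟩⟩
  · by_contra h'
    refine hy ⟨le_csSup hb2 h, csSup_le h0 fun p hp => ?_⟩
    by_contra hlt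
    exact h' (hP.out h hp ⟨hle, (not_le.1 hlt).le⟩)
  · by_contra h'
    refine hx ⟨le_csInf h0 fun p hp => ?_, csInf_le hb1 h⟩
    by_contra hlt
    exact h' (hP.out hp h ⟨(not_le.1 hlt).le, hle⟩)

private theorem penb_card (c1 c2 c3 c4 c5 c6 c7 c8 : ℝ) :
    ({c1, c2, c3, c4, c5, c6, c7, c8} : Finset ℝ).card ≤ 8 := by
  have h1 := Finset.card_insert_le c1 {c2, c3, c4, c5, c6, c7, c8}
  have h2 := Finset.card_insert_le c2 {c3, c4, c5, c6, c7, c8}
  have h3 := Finset.card_le_six (a := c3) (b := c4) (c := c5) (d := c6) (e := c7) (f := c8)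
  omega

private theorem penb_sign {s t : ℝ} (h1 : 0 ≤ s ↔ 0 ≤ t) (h2 : 0 < s ↔ 0 < t) :
    SignType.sign s = SignType.sign t := by
  rcases lt_trichotomy s 0 with h | h | h
  · have ht : t < 0 := not_le.1 fun h' => not_le.2 h (h1.2 h')
    rw [sign_neg h, sign_neg ht]
  · have ht : t = 0 := le_antisymm (not_lt.1 fun h' => (h2.2 h').ne' h) (h1.1 h.ge)
    rw [h, ht]
  · rw [sign_pos h, sign_pos (h2.1 h)]

private theorem penb_sign' {s t : ℝ} (h1 : s ≤ 0 ↔ t ≤ 0) (h2 : s < 0 ↔ t < 0) :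
    SignType.sign s = SignType.sign t := by
  rcases lt_trichotomy s 0 with h | h | h
  · rw [sign_neg h, sign_neg (h2.1 h)]
  · have ht : t = 0 := le_antisymm (h1.1 h.le) (not_lt.1 fun h' => (h2.2 h').ne h)
    rw [h, ht]
  · have ht : 0 < t := not_le.1 fun h' => not_le.2 h (h1.2 h')
    rw [sign_pos h, sign_pos ht]

theorem exists_breaks {n : ℕ} (D : Pencil d) (A : Fin n → Set (E d))
    (hA : ∀ i, IsCompact (A i) ∧ (A i).Nonempty) (hab : b - a < Real.pi) :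
    ∃ Bk : Finset ℝ, Bk.card ≤ 8 * n ∧ ∀ θ ∈ Icc a b, ∀ θ' ∈ Icc a b, θ ≤ θ' →
      (∀ x ∈ Bk, x ∉ Icc θ θ') → lab A (D.h θ) = lab A (D.h θ') := by
  classical
  have h1 := fun i => exists_two_breaks
    (ordConnected_hi_le D (hA i).1 (hA i).2 hab) (fun θ hθ => hθ.1)
  have h2 := fun i => exists_two_breaks
    (ordConnected_hi_lt D (hA i).1 (hA i).2 hab) (fun θ hθ => hθ.1)
  have h3 := fun i => exists_two_breaks
    (ordConnected_lo_le D (hA i).1 (hA i).2 hab) (fun θ hθ => hθ.1)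
  have h4 := fun i => exists_two_breaks
    (ordConnected_lo_lt D (hA i).1 (hA i).2 hab) (fun θ hθ => hθ.1)
  choose x1 y1 k1 using h1
  choose x2 y2 k2 using h2
  choose x3 y3 k3 using h3
  choose x4 y4 k4 using h4
  refine ⟨Finset.univ.biUnion fun i =>
    {x1 i, y1 i, x2 i, y2 i, x3 i, y3 i, x4 i, y4 i}, ?_, ?_⟩
  · refine Finset.card_biUnion_le.trans ?_
    refine (Finset.sum_le_sum fun i _ => penb_card _ _ _ _ _ _ _ _).trans ?_
    simp [mul_comm]
  · intro θ hθ θ' hθ' hle hB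
    have hB' : ∀ i, ∀ x ∈ ({x1 i, y1 i, x2 i, y2 i, x3 i, y3 i, x4 i, y4 i} : Finset ℝ),
        x ∉ Icc θ θ' := fun i x hx => hB x (Finset.mem_biUnion.2 ⟨i, Finset.mem_univ _, hx⟩)
    funext i
    have e1 := k1 i θ θ' hle (hB' i _ (by simp)) (hB' i _ (by simp))
    have e2 := k2 i θ θ' hle (hB' i _ (by simp)) (hB' i _ (by simp))
    have e3 := k3 i θ θ' hle (hB' i _ (by simp)) (hB' i _ (by simp))
    have e4 := k4 i θ θ' hle (hB' i _ (by simp)) (hB' i _ (by simp))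
    simp only [Set.mem_ofPred_eq, hθ, hθ', true_and] at e1 e2 e3 e4
    refine Prod.ext (penb_sign e1 e2) (penb_sign' e3 e4)

end HyperplaneTransversals
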