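import Pool.Agent.Lib.MP_b2e5b9_co_D.Defs

/-!
# Closed neighbourhoods of compact convex sets

Plan. `IsCompact.cthickening_eq_biUnion_closedBall` (for a nonnegative radius): a point of
`Metric.cthickening δ K` is `x + w` with `x ∈ K` and `‖w‖ ≤ δ`, and conversely. So the supremum of
`⟪u, ·⟫` over the thickening is `hi K u + δ * ‖u‖` (take `w = (δ / ‖u‖) • u`, or `w = 0` if
`u = 0`), and the infimum is `lo K u - δ * ‖u‖`. Use `exists_hi`, `exists_lo`, `le_hi`, `lo_le`
(file `Fat/Geom.lean`). Compactness: `IsCompact.cthickening`, convexity: `Convex.cthickening`.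
-/

set_option autoImplicit false

open scoped RealInnerProductSpace Topology

namespace HyperplaneTransversals

variable {d : ℕ} {K : Set (E d)}

/-- The points of the closed neighbourhood. -/
theorem mem_cthickening_iff (hK : IsCompact K) {δ : ℝ} (hδ : 0 ≤ δ) (y : E d) :
    y ∈ Metric.cthickening δ K ↔ ∃ x ∈ K, ‖y - x‖ ≤ δ := by
  rw [hK.cthickening_eq_biUnion_closedBall hδ]
  simp only [Set.mem_iUnion, Metric.mem_closedBall, dist_eq_norm, exists_prop]

private theorem thk1_ne (hne : K.Nonempty) {δ : ℝ} (hδ : 0 ≤ δ) (hK : IsCompact K) :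
    (Metric.cthickening δ K).Nonempty := by
  obtain ⟨x, hx⟩ := hne
  exact ⟨x, (mem_cthickening_iff hK hδ x).2 ⟨x, hx, by rw [sub_self, norm_zero]; exact hδ⟩⟩

private theorem thk1_w {δ : ℝ} (hδ : 0 ≤ δ) (u : E d) :
    ‖(δ / ‖u‖) • u‖ ≤ δ ∧ ⟪u, (δ / ‖u‖) • u⟫ = δ * ‖u‖ := by
  rcases eq_or_ne u 0 with h | h
  · rw [h]
    simp [hδ]
  · have h1 : 0 < ‖u‖ := norm_pos_iff.2 h
    constructor
    · rw [norm_smul, Real.norm_eq_abs, abs_of_nonneg (div_nonneg hδ h1.le),
        div_mul_cancel₀ _ h1.ne']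
    · rw [real_inner_smul_right, real_inner_self_eq_norm_sq]
      field_simp

private theorem thk1_cs {δ : ℝ} {u w : E d} (hw : ‖w‖ ≤ δ) : |⟪u, w⟫| ≤ δ * ‖u‖ := by
  refine (abs_real_inner_le_norm u w).trans ?_
  rw [mul_comm]
  exact mul_le_mul_of_nonneg_right hw (norm_nonneg u)

theorem hi_cthickening (hK : IsCompact K) (hne : K.Nonempty) {δ : ℝ} (hδ : 0 ≤ δ) (u : E d) :
    hi (Metric.cthickening δ K) u = hi K u + δ * ‖u‖ := by
  have hc : IsCompact (Metric.cthickening δ K) := hK.cthickening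
  apply le_antisymm
  · obtain ⟨y, hy, h⟩ := exists_hi hc (thk1_ne hne hδ hK) u
    obtain ⟨x, hx, hxy⟩ := (mem_cthickening_iff hK hδ y).1 hy
    have h1 := (abs_le.1 (thk1_cs (u := u) hxy)).2
    rw [inner_sub_right] at h1
    have h2 := le_hi hK u hx
    linarith
  · obtain ⟨x, hx, h⟩ := exists_hi hK hne u
    obtain ⟨h1, h2⟩ := thk1_w hδ u
    have h3 : x + (δ / ‖u‖) • u ∈ Metric.cthickening δ K :=
      (mem_cthickening_iff hK hδ _).2 ⟨x, hx, by rw [add_sub_cancel_left]; exact h1⟩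
    have h4 := le_hi hc u h3
    rw [inner_add_right, h2, h] at h4
    exact h4

theorem lo_cthickening (hK : IsCompact K) (hne : K.Nonempty) {δ : ℝ} (hδ : 0 ≤ δ) (u : E d) :
    lo (Metric.cthickening δ K) u = lo K u - δ * ‖u‖ := by
  have hc : IsCompact (Metric.cthickening δ K) := hK.cthickening
  apply le_antisymm
  · obtain ⟨x, hx, h⟩ := exists_lo hK hne u
    obtain ⟨h1, h2⟩ := thk1_w hδ u
    have h3 : x - (δ / ‖u‖) • u ∈ Metric.cthickening δ K :=
      (mem_cthickening_iff hK hδ _).2 ⟨x, hx, by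
        rw [sub_sub_cancel_left, norm_neg]
        exact h1⟩
    have h4 := lo_le hc u h3
    rw [inner_sub_right, h2, h] at h4
    exact h4
  · obtain ⟨y, hy, h⟩ := exists_lo hc (thk1_ne hne hδ hK) u
    obtain ⟨x, hx, hxy⟩ := (mem_cthickening_iff hK hδ y).1 hy
    have h1 := (abs_le.1 (thk1_cs (u := u) hxy)).1
    rw [inner_sub_right] at h1
    have h2 := lo_le hK u hx
    linarith

/-- The level functions of the closed neighbourhood. -/
theorem lev_cthickening (hK : IsCompact K) (hne : K.Nonempty) {δ : ℝ} (hδ : 0 ≤ δ) (q : ℝ)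
    (u : E d) : lev (Metric.cthickening δ K) q u = lev K q u + q * δ * ‖u‖ := by
  unfold lev
  rw [hi_cthickening hK hne hδ, lo_cthickening hK hne hδ]
  ring

theorem interior_cthickening (hne : K.Nonempty) {δ : ℝ} (hδ : 0 < δ) :
    (interior (Metric.cthickening δ K)).Nonempty := by
  obtain ⟨x, hx⟩ := hne
  exact ⟨x, Metric.thickening_subset_interior_cthickening δ K
    (Metric.self_subset_thickening hδ K hx)⟩

end HyperplaneTransversals
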