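import Pool.Agent.Lib.MP_b2e5b9_co_D.Thk1

/-!
# The thickened family is a separated family of convex bodies

Plan. `CFam.indep` is `Fam.indep` (file `Fat/Geom.lean`), whose proof does not use interiors.

`CFam.exists_fam`. For an injective `I : Fin (m + 2) → Fin n` the set `Set.univ.pi (fun j => A (I j))`
is compact and contained in the open set of affinely independent tuples
(`isOpen_setOfPred_affineIndependent`), so by `IsCompact.exists_cthickening_subset_open` there is
`δ > 0` such that every tuple `a` with `a j ∈ Metric.cthickening δ (A (I j))` for all `j` is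
affinely independent (such a tuple has distance at most `δ` from the compact product: take the
nearest points, the distance of tuples is the supremum of the distances). There are finitely
many `I`; take the minimum. `Separated m (thk A ε)`: if an `m`-flat `L` meets the members with
index in `s`, `s.card = m + 2`, choose the injective `I` with range `s`
(`Finset.orderEmbOfFin`) and points `a j ∈ L`; they are affinely independent, so their
`vectorSpan` has dimension `m + 1`, but it is contained in `L.direction` of dimension `m`.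

`CFam.disjoint`. If `x ∈ A i ∩ A j` choose an injective `I : Fin (m + 2) → Fin n` whose range
contains `i` and `j` (`Finset.exists_superset_card_eq`) and a tuple `a` with `a = x` at both
indices; it is not injective, so not affinely independent.
-/

set_option autoImplicit false

open scoped RealInnerProductSpace Topology

namespace HyperplaneTransversals

variable {m n : ℕ} {A : Fin n → Set (E (m + 2))}

theorem CFam.indep (hA : CFam A) {I : Fin (m + 2) → Fin n} (hI : Function.Injective I)
    (a : Fin (m + 2) → E (m + 2)) (ha : ∀ j, a j ∈ A (I j)) : AffineIndependent ℝ a := by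
  classical
  by_contra hcon
  rw [← finrank_vectorSpan_le_iff_not_affineIndependent ℝ a (n := m) (by simp)] at hcon
  obtain ⟨U, hU, hU'⟩ := exists_enlarge _ hcon (by omega)
  refine hA.sep (Finset.univ.image I) ?_ ⟨AffineSubspace.mk' (a 0) U, ⟨?_, ?_⟩, ?_⟩
  · rw [Finset.card_image_of_injective _ hI]
    simp
  · exact ⟨a 0, AffineSubspace.self_mem_mk' _ _⟩
  · rw [AffineSubspace.direction_mk']
    exact hU'
  · intro i hi
    obtain ⟨j, -, rfl⟩ := Finset.mem_image.1 hi
    refine ⟨a j, ?_, ha j⟩
    rw [SetLike.mem_coe, AffineSubspace.mem_mk']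
    exact hU (vsub_mem_vectorSpan ℝ ⟨j, rfl⟩ ⟨0, rfl⟩)

private theorem thk2_one (hA : CFam A) {I : Fin (m + 2) → Fin n} (hI : Function.Injective I) :
    ∃ δ : ℝ, 0 < δ ∧ ∀ a : Fin (m + 2) → E (m + 2),
      (∀ j, ∃ x ∈ A (I j), ‖a j - x‖ ≤ δ) → AffineIndependent ℝ a := by
  have hc : IsCompact (Set.univ.pi (fun j => A (I j))) :=
    isCompact_univ_pi fun j => hA.compact (I j)
  have ho : IsOpen {a : Fin (m + 2) → E (m + 2) | AffineIndependent ℝ a} :=
    isOpen_setOfPred_affineIndependent
  have hsub : Set.univ.pi (fun j => A (I j)) ⊆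
      {a : Fin (m + 2) → E (m + 2) | AffineIndependent ℝ a} := by
    intro a ha
    exact hA.indep hI a fun j => ha j (Set.mem_univ j)
  obtain ⟨δ, hδ, h⟩ := hc.exists_cthickening_subset_open ho hsub
  refine ⟨δ, hδ, fun a ha => h ?_⟩
  choose x hx hxa using ha
  refine Metric.mem_cthickening_of_dist_le a x δ _ (fun j _ => hx j) ?_
  rw [dist_pi_le_iff hδ.le]
  intro j
  rw [dist_eq_norm]
  exact hxa j

/-- Small closed neighbourhoods form a separated family of convex bodies. -/
theorem CFam.exists_fam (hA : CFam A) :
    ∃ δ : ℝ, 0 < δ ∧ ∀ ε : Fin n → ℝ, (∀ i, 0 < ε i ∧ ε i ≤ δ) → Fam (thk A ε) := by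
  classical
  have h1 : ∀ I : Fin (m + 2) → Fin n, ∀ᶠ δ in 𝓝[>] (0 : ℝ), Function.Injective I →
      ∀ a : Fin (m + 2) → E (m + 2),
      (∀ j, ∃ x ∈ A (I j), ‖a j - x‖ ≤ δ) → AffineIndependent ℝ a := by
    intro I
    by_cases hI : Function.Injective I
    · obtain ⟨δ, hδ, h⟩ := thk2_one hA hI
      filter_upwards [Ioo_mem_nhdsGT hδ] with δ' hδ' _ a ha
      refine h a fun j => ?_
      obtain ⟨x, hx, hxa⟩ := ha j
      exact ⟨x, hx, hxa.trans hδ'.2.le⟩
    · exact Filter.Eventually.of_forall fun δ h => absurd h hI
  have h2 := Filter.eventually_all.2 h1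
  obtain ⟨δ, hδ, h⟩ := (h2.and self_mem_nhdsWithin).exists
  have hδ0 : (0 : ℝ) < δ := h
  refine ⟨δ, hδ0, fun ε hε => ⟨fun i => (hA.compact i).cthickening,
    fun i => (hA.convex i).cthickening _,
    fun i => interior_cthickening (hA.nonempty i) (hε i).1, ?_⟩⟩
  rintro s hs ⟨L, ⟨-, hL⟩, hmeet⟩
  set I : Fin (m + 2) → Fin n := fun j => s.orderEmbOfFin hs j with hI
  have hIinj : Function.Injective I := (s.orderEmbOfFin hs).injective
  have hIs : ∀ j, I j ∈ s := fun j => Finset.orderEmbOfFin_mem s hs j
  choose a ha using fun j => hmeet (I j) (hIs j)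
  have hind : AffineIndependent ℝ a := by
    refine hδ I hIinj a fun j => ?_
    obtain ⟨x, hx, hxa⟩ := (mem_cthickening_iff (hA.compact (I j)) (hε (I j)).1.le (a j)).1
      (ha j).2
    exact ⟨x, hx, hxa.trans (hε (I j)).2⟩
  have hfin := hind.finrank_vectorSpan (n := m + 1) (by simp)
  have hle : vectorSpan ℝ (Set.range a) ≤ L.direction := by
    rw [AffineSubspace.direction_eq_vectorSpan]
    refine vectorSpan_mono ℝ ?_
    rintro _ ⟨j, rfl⟩
    exact (ha j).1
  have := Submodule.finrank_mono hle
  omega

theorem CFam.disjoint (hA : CFam A) (hn : m + 2 ≤ n) {i j : Fin n} (hij : i ≠ j) :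
    Disjoint (A i) (A j) := by
  classical
  rw [Set.disjoint_left]
  intro x hxi hxj
  obtain ⟨t, ht, htc⟩ := Finset.exists_superset_card_eq (s := {i, j}) (n := m + 2)
    (by rw [Finset.card_pair hij]; omega) (by simpa using hn)
  set I : Fin (m + 2) → Fin n := fun k => t.orderEmbOfFin htc k with hI
  have hIinj : Function.Injective I := (t.orderEmbOfFin htc).injective
  have hrange : ∀ l ∈ t, ∃ k, I k = l := by
    intro l hl
    have : l ∈ Set.range (t.orderEmbOfFin htc) := by
      rw [Finset.range_orderEmbOfFin]
      exact hl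
    obtain ⟨k, hk⟩ := this
    exact ⟨k, hk⟩
  obtain ⟨p, hp⟩ := hrange i (ht (by simp))
  obtain ⟨q, hq⟩ := hrange j (ht (by simp))
  choose y hy using hA.nonempty
  set a : Fin (m + 2) → E (m + 2) := fun k => if I k = i ∨ I k = j then x else y (I k) with ha
  have hmem : ∀ k, a k ∈ A (I k) := by
    intro k
    simp only [ha]
    split_ifs with h
    · rcases h with h | h
      · rw [h]; exact hxi
      · rw [h]; exact hxj
    · exact hy _
  have hind := hA.indep hIinj a hmem
  have hpq : p ≠ q := by
    rintro rfl
    exact hij (hp.symm.trans hq)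
  apply hpq
  apply hind.injective
  simp [ha, hp, hq]

end HyperplaneTransversals
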