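import Pool.Agent.Lib.MP_b2e5b9_co_D.Sol1

/-!
# Points, segments, triangles; members that are points; double counting

`tri_cases`: if `K` is not a point it contains two different points `p, q`; if some `x ∈ K` is not
on the line through them then `![p, q, x]` is affinely independent (for example
`affineIndependent_iff_not_collinear` or `affineIndependent_iff_not_collinear_set`, and
`collinear_iff_of_mem`). `two_of_nonpoint`: `affineIndependent_of_ne`.

The lemmas on points: `hi {x} u = ⟪u, x⟫ = lo {x} u`. `St_inter_Cont_zero`: by `mem_Cont_iff` a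
contained member has `lo = t = hi`.

`double_sum`: as in the proof of `CubeSys.N_step` in `Fat/Count.lean` (with
`ncomp (C.str σ)` replaced by `W σ`).
-/

set_option autoImplicit false

open Set Filter
open scoped RealInnerProductSpace Topology

namespace HyperplaneTransversals

theorem tri_two {d : ℕ} {K : Set (E d)} (hne : K.Nonempty) (hK : ¬ ∃ x, K = {x}) :
    ∃ p ∈ K, ∃ q ∈ K, p ≠ q := by
  obtain ⟨p, hp⟩ := hne
  by_contra hcon
  push Not at hcon
  refine hK ⟨p, ?_⟩
  ext q
  rw [mem_singleton_iff]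
  constructor
  · intro hq
    exact (hcon p hp q hq).symm
  · rintro rfl
    exact hp

theorem tri_hi {d : ℕ} (x u : E d) : hi {x} u = ⟪u, x⟫ := by
  unfold hi
  rw [image_singleton, csSup_singleton]

theorem tri_lo {d : ℕ} (x u : E d) : lo {x} u = ⟪u, x⟫ := by
  unfold lo
  rw [image_singleton, csInf_singleton]

theorem tri_cases {d : ℕ} {K : Set (E d)} (hne : K.Nonempty) :
    (∃ x, K = {x}) ∨
    (∃ p ∈ K, ∃ q ∈ K, p ≠ q ∧ ∀ x ∈ K, ∃ r : ℝ, x = p + r • (q - p)) ∨
    (∃ P : Fin 3 → E d, AffineIndependent ℝ P ∧ ∀ j, P j ∈ K) := by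
  by_cases hK : ∃ x, K = {x}
  · exact Or.inl hK
  right
  obtain ⟨p, hp, q, hq, hpq⟩ := tri_two hne hK
  by_cases hl : ∀ x ∈ K, ∃ r : ℝ, x = p + r • (q - p)
  · exact Or.inl ⟨p, hp, q, hq, hpq, hl⟩
  right
  push Not at hl
  obtain ⟨x, hx, hxr⟩ := hl
  refine ⟨![p, q, x], ?_, ?_⟩
  · rw [affineIndependent_iff_not_collinear_set]
    intro hc
    rw [collinear_iff_of_mem (p₀ := p) (by simp)] at hc
    obtain ⟨v, hv⟩ := hc
    obtain ⟨r1, h1⟩ := hv q (by simp)
    obtain ⟨r2, h2⟩ := hv x (by simp)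
    rw [vadd_eq_add] at h1 h2
    have hr1 : r1 ≠ 0 := by
      rintro rfl
      rw [zero_smul, zero_add] at h1
      exact hpq h1.symm
    refine hxr (r2 / r1) ?_
    rw [h1, add_sub_cancel_right, smul_smul, div_mul_cancel₀ _ hr1, h2, add_comm]
  · intro j
    fin_cases j
    · exact hp
    · exact hq
    · exact hx

theorem two_of_nonpoint {d : ℕ} {K : Set (E d)} (hne : K.Nonempty) (hK : ¬ ∃ x, K = {x}) :
    ∃ P : Fin 2 → E d, AffineIndependent ℝ P ∧ ∀ j, P j ∈ K := by
  obtain ⟨p, hp, q, hq, hpq⟩ := tri_two hne hK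
  refine ⟨![p, q], affineIndependent_of_ne ℝ hpq, ?_⟩
  intro j
  fin_cases j
  · exact hp
  · exact hq

theorem isClosed_Cont {d : ℕ} (K : Set (E d)) : IsClosed (Cont K) := by
  have h1 : Cont K = ⋂ x ∈ K, {h : OH d | ⟪(h.1 : E d), x⟫ = h.2} := by
    ext h
    simp [Cont]
  rw [h1]
  refine isClosed_biInter fun x _ => ?_
  refine isClosed_eq ?_ continuous_snd
  exact (continuous_subtype_val.comp continuous_fst).inner continuous_const

variable {d n : ℕ} {A : Fin n → Set (E d)} {σ : Fin n → SignType} {b : Fin n}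

theorem St_subset_Cont_point (hb : σ b ≠ 0) {x : E d} (hx : A b = {x}) :
    St A σ ⊆ Cont (A b) := by
  intro h hh y hy
  rw [hx, mem_singleton_iff] at hy
  subst hy
  have h0 := hh b
  rcases hs : σ b with _ | _ | _
  · exact absurd hs hb
  · rw [h0.2.2 hs, hx, tri_lo]
  · rw [h0.2.1 hs, hx, tri_hi]

theorem St_empty_point (hb : σ b = 0) {x : E d} (hx : A b = {x}) : St A σ = ∅ := by
  rw [Set.eq_empty_iff_forall_notMem]
  intro h hh
  obtain ⟨h1, h2⟩ := (hh b).1 hb
  rw [hx, tri_lo] at h1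
  rw [hx, tri_hi] at h2
  linarith

theorem TT_subset_Cont_point {x : E d} (hx : A b = {x}) : TT A ⊆ Cont (A b) := by
  intro h hh y hy
  rw [hx, mem_singleton_iff] at hy
  subst hy
  obtain ⟨h1, h2⟩ := hh b
  rw [hx, tri_lo] at h1
  rw [hx, tri_hi] at h2
  linarith

theorem St_inter_Cont_zero (hK : IsCompact (A b)) (hne : (A b).Nonempty) (hb : σ b = 0) :
    St A σ ∩ Cont (A b) = ∅ := by
  rw [Set.eq_empty_iff_forall_notMem]
  rintro h ⟨hh, hc⟩
  obtain ⟨h1, h2⟩ := (hh b).1 hb
  obtain ⟨h3, h4⟩ := (mem_Cont_iff hK hne h).1 hc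
  linarith

theorem double_sum {n : ℕ} (k : ℕ) (W : (Fin n → SignType) → ℕ∞) :
    ∑ σ ∈ lvl n k, ∑ b ∈ zers σ, (W (Function.update σ b 1) + W (Function.update σ b (-1))) ≤
      ((2 * (k + 1) : ℕ) : ℕ∞) * ∑ τ ∈ lvl n (k + 1), W τ := by
  classical
  have key : ∀ δ : SignType, δ ≠ 0 →
      ∑ x ∈ (lvl n k).sigma (fun σ => zers σ), W (Function.update x.1 x.2 δ) ≤
      ((k + 1 : ℕ) : ℕ∞) * ∑ τ ∈ lvl n (k + 1), W τ := by
    intro δ hδ
    calc ∑ x ∈ (lvl n k).sigma (fun σ => zers σ), W (Function.update x.1 x.2 δ)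
        ≤ ∑ y ∈ (lvl n (k + 1)).sigma (fun σ => supp σ), W y.1 := by
          refine sum_le_sum_inj _ _ _ _ (fun x => ⟨Function.update x.1 x.2 δ, x.2⟩) ?_ ?_ ?_
          · rintro ⟨σ, b⟩ hx
            rw [Finset.mem_sigma] at hx ⊢
            obtain ⟨h1, h2⟩ := hx
            simp only [] at h1 h2 ⊢
            rw [mem_zers] at h2
            rw [mem_lvl] at h1 ⊢
            refine ⟨by rw [card_supp_update h2 hδ, h1], ?_⟩
            rw [mem_supp, Function.update_self]
            exact hδ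
          · rintro ⟨σ, b⟩ hx ⟨σ', b'⟩ hx' h
            rw [Finset.mem_coe, Finset.mem_sigma] at hx hx'
            obtain ⟨-, h2⟩ := hx
            obtain ⟨-, h2'⟩ := hx'
            simp only [] at h2 h2'
            rw [mem_zers] at h2 h2'
            simp only [Sigma.mk.injEq, heq_eq_eq] at h
            obtain ⟨h3, rfl⟩ := h
            have h4 : σ = σ' := by
              funext i
              by_cases hi : i = b
              · rw [hi, h2, h2']
              · have := congrFun h3 i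
                rwa [Function.update_of_ne hi, Function.update_of_ne hi] at this
            rw [h4]
          · rintro ⟨σ, b⟩ _
            exact le_rfl
      _ = ∑ σ ∈ lvl n (k + 1), ∑ b ∈ supp σ, W σ := by
          rw [Finset.sum_sigma]
      _ = ∑ σ ∈ lvl n (k + 1), ((k + 1 : ℕ) : ℕ∞) * W σ := by
          refine Finset.sum_congr rfl fun σ hσ => ?_
          rw [Finset.sum_const, mem_lvl.1 hσ, nsmul_eq_mul]
      _ = ((k + 1 : ℕ) : ℕ∞) * ∑ τ ∈ lvl n (k + 1), W τ := by
          rw [Finset.mul_sum]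
  calc _ = ∑ x ∈ (lvl n k).sigma (fun σ => zers σ), (W (Function.update x.1 x.2 1) +
          W (Function.update x.1 x.2 (-1))) := by rw [Finset.sum_sigma]
    _ = _ := Finset.sum_add_distrib
    _ ≤ ((k + 1 : ℕ) : ℕ∞) * ∑ τ ∈ lvl n (k + 1), W τ +
        ((k + 1 : ℕ) : ℕ∞) * ∑ τ ∈ lvl n (k + 1), W τ :=
        add_le_add (key 1 (by decide)) (key (-1) (by decide))
    _ = ((2 * (k + 1) : ℕ) : ℕ∞) * ∑ τ ∈ lvl n (k + 1), W τ := by
        push_cast
        ring

open Classical in
/-- The members that are not single points. -/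
noncomputable def Np (A : Fin n → Set (E d)) : Finset (Fin n) :=
  Finset.univ.filter (fun b => ¬ ∃ x, A b = {x})

theorem mem_Np : b ∈ Np A ↔ ¬ ∃ x, A b = {x} := by
  simp [Np]

theorem mem_Np_compl : b ∈ (Np A)ᶜ ↔ ∃ x, A b = {x} := by
  rw [Finset.mem_compl, mem_Np, not_not]

end HyperplaneTransversals
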